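import Pool.Agent.Y63.AWC.Norm

/-!
# Galois conjugates of irreducible characters
-/

open scoped BigOperators Classical

set_option linter.unusedSectionVars false

noncomputable section

namespace Pool.Agent.Q18.K

open Pool.Agent.Helper884.IC (IsIrrChar)

section pow

variable {V : Type} [AddCommGroup V] [Module ℂ V] [FiniteDimensional ℂ V]

/-- the projection to the eigenspace -/
def pj (T : Module.End ℂ V) (n : ℕ) (μ : ℂ) : Module.End ℂ V :=
  (n : ℂ)⁻¹ • ∑ l ∈ Finset.range n, (μ⁻¹) ^ l • T ^ l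

theorem mul_pj {T : Module.End ℂ V} {n : ℕ} (hT : T ^ n = 1) {μ : ℂ} (hμ : μ ^ n = 1) :
    T * pj T n μ = μ • pj T n μ := by
  rcases Nat.eq_zero_or_pos n with h0 | hn
  · subst h0
    simp [pj]
  have hμ0 : μ ≠ 0 := by
    rintro rfl
    rw [zero_pow hn.ne'] at hμ
    exact zero_ne_one hμ
  unfold pj
  rw [mul_smul_comm, smul_comm μ (n : ℂ)⁻¹]
  congr 1
  rw [Finset.mul_sum, Finset.smul_sum]
  have h1 : ∀ l ∈ Finset.range n, T * (μ⁻¹ ^ l • T ^ l) = μ • (μ⁻¹ ^ (l + 1) • T ^ (l + 1)) := by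
    intro l _
    rw [mul_smul_comm, smul_smul, ← pow_succ']
    congr 1
    rw [pow_succ, mul_comm (μ⁻¹ ^ l), ← mul_assoc, mul_inv_cancel₀ hμ0, one_mul]
  rw [Finset.sum_congr rfl h1, ← Finset.smul_sum, ← Finset.smul_sum]
  congr 1
  have h2 := Finset.sum_range_succ' (fun l => μ⁻¹ ^ l • T ^ l) n
  have h3 := Finset.sum_range_succ (fun l => μ⁻¹ ^ l • T ^ l) n
  rw [h2] at h3
  have h4 : μ⁻¹ ^ n • T ^ n = μ⁻¹ ^ 0 • T ^ 0 := by
    rw [hT, inv_pow, hμ]; simp
  rw [h4] at h3
  exact add_right_cancel h3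

theorem pow_mul_pj {T : Module.End ℂ V} {n : ℕ} (hT : T ^ n = 1) {μ : ℂ} (hμ : μ ^ n = 1) (k : ℕ) :
    T ^ k * pj T n μ = μ ^ k • pj T n μ := by
  induction k with
  | zero => simp
  | succ k ih => rw [pow_succ, mul_assoc, mul_pj hT hμ, mul_smul_comm, ih, smul_smul, ← pow_succ']

theorem pj_idem {T : Module.End ℂ V} {n : ℕ} (hn : 0 < n) (hT : T ^ n = 1) {μ : ℂ}
    (hμ : μ ^ n = 1) : IsIdempotentElem (pj T n μ) := by
  have hμ0 : μ ≠ 0 := by
    rintro rfl
    rw [zero_pow hn.ne'] at hμ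
    exact zero_ne_one hμ
  have hn0 : (n : ℂ) ≠ 0 := by exact_mod_cast hn.ne'
  unfold IsIdempotentElem
  have h1 : ∀ l ∈ Finset.range n, μ⁻¹ ^ l • T ^ l * pj T n μ = pj T n μ := by
    intro l _
    rw [smul_mul_assoc, pow_mul_pj hT hμ, smul_smul, ← mul_pow, inv_mul_cancel₀ hμ0, one_pow,
      one_smul]
  have h2 : pj T n μ * pj T n μ = (n : ℂ)⁻¹ • ∑ l ∈ Finset.range n, μ⁻¹ ^ l • T ^ l * pj T n μ := by
    rw [← Finset.sum_mul, ← smul_mul_assoc]
    rfl
  rw [h2, Finset.sum_congr rfl h1, Finset.sum_const, Finset.card_range,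
    ← Nat.cast_smul_eq_nsmul ℂ, smul_smul, inv_mul_cancel₀ hn0, one_smul]

theorem sum_pj {T : Module.End ℂ V} {n : ℕ} (hn : 0 < n) {ζ : ℂ} (hζ : IsPrimitiveRoot ζ n) :
    ∑ a ∈ Finset.range n, pj T n (ζ ^ a) = 1 := by
  have hn0 : (n : ℂ) ≠ 0 := by exact_mod_cast hn.ne'
  have hζ0 : ζ ≠ 0 := hζ.ne_zero hn.ne'
  unfold pj
  rw [← Finset.smul_sum, Finset.sum_comm, Finset.sum_eq_single 0]
  · simp only [pow_zero, one_smul, Finset.sum_const, Finset.card_range]
    rw [← Nat.cast_smul_eq_nsmul ℂ, smul_smul, inv_mul_cancel₀ hn0, one_smul]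
  · intro l hl hl0
    rw [← Finset.sum_smul]
    have h1 : ∑ a ∈ Finset.range n, (ζ ^ a)⁻¹ ^ l = 0 := by
      have h2 : ∀ a ∈ Finset.range n, (ζ ^ a)⁻¹ ^ l = ((ζ ^ l)⁻¹) ^ a := by
        intro a _
        rw [inv_pow, inv_pow, ← pow_mul, ← pow_mul, mul_comm]
      rw [Finset.sum_congr rfl h2, geom_sum_eq]
      · rw [inv_pow, ← pow_mul, mul_comm l n, pow_mul, hζ.pow_eq_one, one_pow, inv_one, sub_self,
          zero_div]
      · rw [Ne, inv_eq_one]
        intro h
        have := hζ.dvd_of_pow_eq_one l h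
        exact hl0 (Nat.eq_zero_of_dvd_of_lt this (Finset.mem_range.1 hl))
    rw [h1, zero_smul]
  · intro h
    exact absurd (Finset.mem_range.2 hn) h

theorem trace_sum {T : Module.End ℂ V} {n : ℕ} (hn : 0 < n) (hT : T ^ n = 1) :
    ∃ m : ℕ → ℕ, ∀ k : ℕ, LinearMap.trace ℂ V (T ^ k) =
      ∑ a ∈ Finset.range n, (Complex.exp (2 * Real.pi * Complex.I / n) ^ a) ^ k * (m a : ℂ) := by
  have hζ := Complex.isPrimitiveRoot_exp n hn.ne'
  set ζ := Complex.exp (2 * Real.pi * Complex.I / n) with hζdef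
  have hroot : ∀ a : ℕ, (ζ ^ a) ^ n = 1 := fun a => by
    rw [← pow_mul, mul_comm, pow_mul, hζ.pow_eq_one, one_pow]
  refine ⟨fun a => Module.finrank ℂ (LinearMap.range (pj T n (ζ ^ a))), fun k => ?_⟩
  have h1 : T ^ k = ∑ a ∈ Finset.range n, (ζ ^ a) ^ k • pj T n (ζ ^ a) := by
    have h2 := sum_pj (T := T) hn hζ
    calc T ^ k = T ^ k * ∑ a ∈ Finset.range n, pj T n (ζ ^ a) := by rw [h2, mul_one]
      _ = _ := by
        rw [Finset.mul_sum]
        exact Finset.sum_congr rfl fun a _ => pow_mul_pj hT (hroot a) k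
  rw [h1, map_sum]
  refine Finset.sum_congr rfl fun a _ => ?_
  rw [map_smul, smul_eq_mul]
  congr 1
  exact (LinearMap.IsIdempotentElem.isProj_range _ (pj_idem hn hT (hroot a))).trace

theorem trace_pow_gal {T : Module.End ℂ V} {n : ℕ} (hn : 0 < n) (hT : T ^ n = 1) (σ : ℂ →+* ℂ)
    (j : ℕ) (hσ : ∀ ζ : ℂ, ζ ^ n = 1 → σ ζ = ζ ^ j) :
    LinearMap.trace ℂ V (T ^ j) = σ (LinearMap.trace ℂ V T) := by
  have hζ := Complex.isPrimitiveRoot_exp n hn.ne'
  set ζ := Complex.exp (2 * Real.pi * Complex.I / n) with hζdef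
  have hroot : ∀ a : ℕ, (ζ ^ a) ^ n = 1 := fun a => by
    rw [← pow_mul, mul_comm, pow_mul, hζ.pow_eq_one, one_pow]
  have key : ∀ k : ℕ, LinearMap.trace ℂ V (T ^ k) =
      ∑ a ∈ Finset.range n, (ζ ^ a) ^ k *
        (Module.finrank ℂ (LinearMap.range (pj T n (ζ ^ a))) : ℂ) := by
    intro k
    have h1 : T ^ k = ∑ a ∈ Finset.range n, (ζ ^ a) ^ k • pj T n (ζ ^ a) := by
      have h2 := sum_pj (T := T) hn hζ
      calc T ^ k = T ^ k * ∑ a ∈ Finset.range n, pj T n (ζ ^ a) := by rw [h2, mul_one]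
        _ = _ := by
          rw [Finset.mul_sum]
          exact Finset.sum_congr rfl fun a _ => pow_mul_pj hT (hroot a) k
    rw [h1, map_sum]
    refine Finset.sum_congr rfl fun a _ => ?_
    rw [map_smul, smul_eq_mul]
    congr 1
    exact (LinearMap.IsIdempotentElem.isProj_range _ (pj_idem hn hT (hroot a))).trace
  have h1 := key 1
  rw [pow_one] at h1
  rw [key j, h1, map_sum]
  refine Finset.sum_congr rfl fun a _ => ?_
  rw [map_mul, map_natCast, pow_one, hσ _ (hroot a)]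

end pow

section tw

/-- the twisted vector space -/
def TwV (_ : ℂ ≃+* ℂ) (V : Type) : Type := V

instance twAdd (σ : ℂ ≃+* ℂ) (V : Type) [AddCommGroup V] : AddCommGroup (TwV σ V) :=
  inferInstanceAs (AddCommGroup V)

instance twMod (σ : ℂ ≃+* ℂ) (V : Type) [AddCommGroup V] [Module ℂ V] : Module ℂ (TwV σ V) :=
  Module.compHom V (σ.symm : ℂ →+* ℂ)

variable {V : Type} [AddCommGroup V] [Module ℂ V]

/-- the identity map -/
def toTw (σ : ℂ ≃+* ℂ) : V ≃+ TwV σ V := AddEquiv.refl V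

theorem tw_smul (σ : ℂ ≃+* ℂ) (c : ℂ) (v : V) : c • toTw σ v = toTw σ (σ.symm c • v) := rfl

theorem tw_smul' (σ : ℂ ≃+* ℂ) (c : ℂ) (v : TwV σ V) :
    (toTw σ).symm (c • v) = σ.symm c • (toTw σ).symm v := rfl

/-- the twisted endomorphism -/
def twEnd (σ : ℂ ≃+* ℂ) (T : Module.End ℂ V) : Module.End ℂ (TwV σ V) where
  toFun v := toTw σ (T ((toTw σ).symm v))
  map_add' a b := by rw [map_add, map_add, map_add]
  map_smul' c a := by rw [tw_smul', map_smul, RingHom.id_apply, tw_smul]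

/-- the twisted basis -/
def twBasis (σ : ℂ ≃+* ℂ) {ι : Type} [Finite ι] (b : Module.Basis ι ℂ V) :
    Module.Basis ι ℂ (TwV σ V) := Module.Basis.ofEquivFun
  { toFun := fun v i => σ (b.equivFun ((toTw σ).symm v) i)
    invFun := fun f => toTw σ (b.equivFun.symm (fun i => σ.symm (f i)))
    map_add' := fun u v => by
      funext i
      rw [map_add, map_add, Pi.add_apply, map_add, Pi.add_apply]
    map_smul' := fun c v => by
      funext i
      rw [tw_smul', map_smul, Pi.smul_apply, smul_eq_mul, map_mul, RingEquiv.apply_symm_apply,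
        RingHom.id_apply, Pi.smul_apply, smul_eq_mul]
    left_inv := fun v => by
      simp only [RingEquiv.symm_apply_apply]
      change toTw σ (b.equivFun.symm (b.equivFun ((toTw σ).symm v))) = v
      rw [LinearEquiv.symm_apply_apply, AddEquiv.apply_symm_apply]
    right_inv := fun f => by
      funext i
      simp }

theorem twBasis_repr (σ : ℂ ≃+* ℂ) {ι : Type} [Finite ι] (b : Module.Basis ι ℂ V) (v : TwV σ V)
    (i : ι) : (twBasis σ b).repr v i = σ (b.repr ((toTw σ).symm v) i) := rfl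

theorem twBasis_apply (σ : ℂ ≃+* ℂ) {ι : Type} [Finite ι] (b : Module.Basis ι ℂ V) (i : ι) :
    twBasis σ b i = toTw σ (b i) := by
  apply (twBasis σ b).repr.injective
  ext j
  rw [Module.Basis.repr_self, twBasis_repr, AddEquiv.symm_apply_apply, Module.Basis.repr_self]
  by_cases h : i = j
  · subst h; simp
  · simp [Finsupp.single_apply, h]

theorem tw_trace (σ : ℂ ≃+* ℂ) [FiniteDimensional ℂ V] (T : Module.End ℂ V) :
    LinearMap.trace ℂ (TwV σ V) (twEnd σ T) = σ (LinearMap.trace ℂ V T) := by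
  have b := Module.finBasis ℂ V
  rw [LinearMap.trace_eq_matrix_trace ℂ b, LinearMap.trace_eq_matrix_trace ℂ (twBasis σ b)]
  unfold Matrix.trace
  rw [map_sum]
  refine Finset.sum_congr rfl fun i _ => ?_
  rw [Matrix.diag_apply, Matrix.diag_apply, LinearMap.toMatrix_apply, LinearMap.toMatrix_apply,
    twBasis_repr, twBasis_apply]
  rfl

variable {G : Type} [Group G]

/-- the Galois conjugate of an irreducible character is irreducible -/
theorem irr_gal (σ : ℂ ≃+* ℂ) {χ : G → ℂ} (h : IsIrrChar χ) : IsIrrChar (fun x => σ (χ x)) := by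
  obtain ⟨V, i1, i2, i3, ρ, hr, rfl⟩ := h
  let ρ' : Representation ℂ G (TwV σ V) :=
    { toFun := fun g => twEnd σ (ρ g)
      map_one' := by
        rw [map_one]
        rfl
      map_mul' := fun g h => by
        rw [map_mul]
        rfl }
  refine ⟨TwV σ V, inferInstance, inferInstance,
    (twBasis σ (Module.finBasis ℂ V)).finiteDimensional_of_finite, ρ', ?_, ?_⟩
  · let F : Subrepresentation ρ' ≃o Subrepresentation ρ :=
      { toFun := fun S => ⟨
          { carrier := {v | toTw σ v ∈ S.toSubmodule}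
            add_mem' := fun {a b} ha hb => S.toSubmodule.add_mem ha hb
            zero_mem' := S.toSubmodule.zero_mem
            smul_mem' := fun c a ha => by
              have h1 := S.toSubmodule.smul_mem (σ c) ha
              have h2 : σ c • toTw σ a = toTw σ (c • a) := by
                rw [tw_smul, RingEquiv.symm_apply_apply]
              change toTw σ (c • a) ∈ S.toSubmodule
              rw [← h2]
              exact h1 },
          fun g v hv => S.apply_mem_toSubmodule g hv⟩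
        invFun := fun S => ⟨
          { carrier := {v | (toTw σ).symm v ∈ S.toSubmodule}
            add_mem' := fun {a b} ha hb => S.toSubmodule.add_mem ha hb
            zero_mem' := S.toSubmodule.zero_mem
            smul_mem' := fun c a ha => S.toSubmodule.smul_mem (σ.symm c) ha },
          fun g v hv => S.apply_mem_toSubmodule g hv⟩
        left_inv := fun S => rfl
        right_inv := fun S => rfl
        map_rel_iff' := Iff.rfl }
    exact F.isSimpleOrder_iff.mpr hr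
  · funext x
    exact (tw_trace σ (ρ x)).symm

theorem char_pow_gal (σ : ℂ ≃+* ℂ) {n : ℕ} (hn : 0 < n) {j : ℕ}
    (hσ : ∀ ζ : ℂ, ζ ^ n = 1 → σ ζ = ζ ^ j) {χ : G → ℂ} (h : IsIrrChar χ) {x : G}
    (hx : x ^ n = 1) : χ (x ^ j) = σ (χ x) := by
  obtain ⟨V, i1, i2, i3, ρ, hr, rfl⟩ := h
  have h1 := trace_pow_gal (T := ρ x) hn (by rw [← map_pow, hx, map_one]) (σ : ℂ →+* ℂ) j hσ
  rw [← map_pow] at h1
  exact h1

end tw

end Pool.Agent.Q18.K
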