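import Pool.Agent.Q18.K.Prat

/-!
# The automorphisms which fix the roots of unity with bounded `p`-part, for all primes
-/

open scoped BigOperators Classical

set_option linter.unusedSectionVars false

noncomputable section

namespace Pool.Agent.Q18.K

theorem units_val_one {n m : ℕ} [NeZero n] (h : m ∣ n) (u : (ZMod n)ˣ) :
    ZMod.unitsMap h u = 1 ↔ (u : ZMod n).val ≡ 1 [MOD m] := by
  constructor
  · intro hu
    have h1 := congrArg (fun v : (ZMod m)ˣ => (v : ZMod m)) hu
    simp only [ZMod.unitsMap_val, Units.val_one] at h1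
    rw [← ZMod.natCast_eq_natCast_iff]
    rw [Nat.cast_one, ← h1, ZMod.natCast_val]
  · intro hu
    apply Units.ext
    rw [ZMod.unitsMap_val, Units.val_one]
    rw [← ZMod.natCast_eq_natCast_iff] at hu
    rw [Nat.cast_one] at hu
    rw [← hu, ZMod.natCast_val]

/-- the units modulo `2 ^ (n + 2)` which are `1` modulo `4` -/
theorem cyc_four (n : ℕ) (h : 4 ∣ 2 ^ (n + 2)) : IsCyclic (ZMod.unitsMap h).ker := by
  have hnz : NeZero (2 ^ (n + 2)) := ⟨(pow_pos (by norm_num) _).ne'⟩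
  have h5 : Nat.Coprime 5 (2 ^ (n + 2)) := Nat.Coprime.pow_right _ (by norm_num)
  let u : (ZMod (2 ^ (n + 2)))ˣ := ZMod.unitOfCoprime 5 h5
  have hu : u ∈ (ZMod.unitsMap h).ker := by
    rw [MonoidHom.mem_ker, units_val_one, ZMod.coe_unitOfCoprime, ZMod.val_natCast]
    refine ((Nat.mod_modEq _ _).of_dvd h).trans ?_
    decide
  have hcard : Nat.card (ZMod.unitsMap h).ker = 2 ^ n := by
    have h1 := Subgroup.card_eq_card_quotient_mul_card_subgroup (ZMod.unitsMap h).ker
    have h2 : Nat.card ((ZMod (2 ^ (n + 2)))ˣ ⧸ (ZMod.unitsMap h).ker) = 2 := by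
      rw [Nat.card_congr (QuotientGroup.quotientKerEquivOfSurjective _
        (ZMod.unitsMap_surjective h)).toEquiv, Nat.card_eq_fintype_card, ZMod.card_units_eq_totient]
      decide
    rw [h2, Nat.card_eq_fintype_card, ZMod.card_units_eq_totient,
      Nat.totient_prime_pow Nat.prime_two (by omega)] at h1
    have h3 : 2 ^ (n + 2 - 1) * (2 - 1) = 2 * 2 ^ n := by
      have : n + 2 - 1 = n + 1 := by omega
      rw [this, pow_succ]
      ring
    omega
  refine isCyclic_of_orderOf_eq_card (⟨u, hu⟩ : (ZMod.unitsMap h).ker) ?_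
  rw [hcard, Subgroup.orderOf_mk, ← orderOf_units, ZMod.coe_unitOfCoprime]
  exact_mod_cast ZMod.orderOf_five n

/-- the units modulo `p ^ a` which are `1` modulo `p ^ c` form a cyclic group if `p` is odd or
`c ≥ 2` -/
theorem cyc_ker {p : ℕ} [hp : Fact p.Prime] {a c : ℕ} (h : p ≠ 2 ∨ 2 ≤ c) (hca : c ≤ a) :
    IsCyclic (ZMod.unitsMap (pow_dvd_pow p hca)).ker := by
  rcases h with h | h
  · have := ZMod.isCyclic_units_of_prime_pow p hp.out h a
    infer_instance
  · by_cases hp2 : p = 2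
    · subst hp2
      obtain ⟨n, rfl⟩ : ∃ n, a = n + 2 := ⟨a - 2, by omega⟩
      have hnz : NeZero (2 ^ (n + 2)) := ⟨(pow_pos (by norm_num) _).ne'⟩
      have h4 : 4 ∣ 2 ^ (n + 2) := by
        rw [pow_add]
        exact dvd_mul_left _ _
      have h4c : 4 ∣ 2 ^ c := by
        have := pow_dvd_pow 2 h
        norm_num at this
        exact this
      have hle : (ZMod.unitsMap (pow_dvd_pow 2 hca)).ker ≤ (ZMod.unitsMap h4).ker := by
        intro u hu
        rw [MonoidHom.mem_ker, units_val_one] at hu ⊢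
        exact hu.of_dvd h4c
      have := cyc_four n h4
      exact isCyclic_of_injective (Subgroup.inclusion hle) (Subgroup.inclusion_injective hle)
    · have := ZMod.isCyclic_units_of_prime_pow p hp.out hp2 a
      infer_instance

section

variable {Γ : Type} [Group Γ] [Finite Γ]

/-- one automorphism generates all the automorphisms which fix the roots of unity with bounded
`p`-part (for `p = 2` the bound is at least `4`) -/
theorem exists_gen' {p : ℕ} [hp : Fact p.Prime] {b : ℕ} (hpb : p ≠ 2 ∨ 2 ≤ b) :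
    ∃ s : ℂ ≃+* ℂ,
      (∀ ζ : ℂ, ζ ^ Nat.card Γ = 1 → (∃ k : ℕ, ¬ p ∣ k ∧ ζ ^ (k * p ^ b) = 1) → s ζ = ζ) ∧
      ∀ t : ℂ ≃+* ℂ, (∀ ζ : ℂ, ζ ^ Nat.card Γ = 1 → (∃ k : ℕ, ¬ p ∣ k ∧ ζ ^ (k * p ^ b) = 1) →
        t ζ = ζ) → uσ Γ t ∈ Subgroup.zpowers (uσ Γ s) := by
  set n := Nat.card Γ with hn
  have hn0 : 0 < n := Nat.card_pos
  have hnz : NeZero n := ⟨hn0.ne'⟩
  set a := n.factorization p with ha
  set n' := n / p ^ a with hn'
  have hnn : p ^ a * n' = n := Nat.ordProj_mul_ordCompl_eq_self n p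
  have hn'p : ¬ p ∣ n' := Nat.not_dvd_ordCompl hp.out hn0.ne'
  have hn'0 : 0 < n' := Nat.pos_of_ne_zero fun h => hn'p (h ▸ dvd_zero p)
  set c := min a b with hc
  have hca : c ≤ a := min_le_left _ _
  have hcb : c ≤ b := min_le_right _ _
  have hm : n' * p ^ c ∣ n := by
    conv_rhs => rw [← hnn, mul_comm]
    exact Nat.mul_dvd_mul_left n' (pow_dvd_pow p hca)
  have hpa : p ^ a ∣ n := Nat.ordProj_dvd n p
  have hm0 : 0 < n' * p ^ c := Nat.mul_pos hn'0 (pow_pos hp.out.pos c)
  have hmz : NeZero (n' * p ^ c) := ⟨hm0.ne'⟩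
  have hpaz : NeZero (p ^ a) := ⟨(pow_pos hp.out.pos a).ne'⟩
  -- the condition on the roots of unity
  have hroot : ∀ ζ : ℂ, ζ ^ n = 1 → (∃ k : ℕ, ¬ p ∣ k ∧ ζ ^ (k * p ^ b) = 1) →
      ζ ^ (n' * p ^ c) = 1 := by
    rintro ζ h1 ⟨k, hk, h2⟩
    have h3 : ζ ^ (n' * p ^ a) = 1 := by rw [Nat.mul_comm, hnn, h1]
    rcases min_choice a b with h | h
    · rw [hc, h]
      exact h3
    · rw [hc, h]
      exact pow_key hp.out hk h3 h2
  -- the kernel is cyclic
  let K : Subgroup (ZMod n)ˣ := (ZMod.unitsMap hm).ker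
  have hinj : ∀ u : K, ZMod.unitsMap hpa u.1 = 1 → u = 1 := by
    intro u hu
    have h1 : (u.1 : ZMod n).val ≡ 1 [MOD p ^ a] := (units_val_one hpa u.1).1 hu
    have h2 : (u.1 : ZMod n).val ≡ 1 [MOD n'] :=
      ((units_val_one hm u.1).1 u.2).of_mul_right _
    have h3 : (p ^ a).Coprime n' := (Nat.Prime.coprime_pow_of_not_dvd (m := a) hp.out hn'p).symm
    have h4 : (u.1 : ZMod n).val ≡ 1 [MOD n] := by
      have := (Nat.modEq_and_modEq_iff_modEq_mul h3).1 ⟨h1, h2⟩
      rwa [hnn] at this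
    apply Subtype.ext
    apply Units.ext
    have h6 : ((u.1 : ZMod n).val : ZMod n) = ((1 : ℕ) : ZMod n) :=
      (ZMod.natCast_eq_natCast_iff _ _ _).2 h4
    rw [ZMod.natCast_zmod_val, Nat.cast_one] at h6
    exact h6
  have hKc : IsCyclic K := by
    rcases Nat.lt_or_ge a b with hab | hab
    · -- `K` is trivial
      have hcaeq : c = a := by
        rw [hc]
        omega
      refine ⟨1, fun u => ⟨0, ?_⟩⟩
      have h1 : u = 1 := by
        apply hinj
        rw [units_val_one]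
        have := (units_val_one hm u.1).1 u.2
        rw [hcaeq] at this
        exact this.of_mul_left _
      rw [h1]
      exact zpow_zero _
    · have hcbeq : c = b := by
        rw [hc]
        omega
      have hcyc : IsCyclic (ZMod.unitsMap (pow_dvd_pow p hca)).ker := cyc_ker (by
        rw [hcbeq]; exact hpb) hca
      let f : K →* (ZMod.unitsMap (pow_dvd_pow p hca)).ker :=
        MonoidHom.codRestrict ((ZMod.unitsMap hpa).comp K.subtype) _ (by
          intro u
          rw [MonoidHom.mem_ker]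
          have h1 := (units_val_one hm u.1).1 u.2
          change ZMod.unitsMap (pow_dvd_pow p hca) (ZMod.unitsMap hpa u.1) = 1
          rw [← MonoidHom.comp_apply, ZMod.unitsMap_comp]
          rw [units_val_one]
          exact h1.of_mul_left _)
      refine isCyclic_of_injective f ?_
      rw [injective_iff_map_eq_one]
      intro u hu
      exact hinj u (congrArg Subtype.val hu)
  obtain ⟨u₀, hu₀⟩ := hKc.exists_generator
  obtain ⟨s, hs⟩ := exists_cyc_aut hn0 u₀.1
  have hus : uσ Γ s = u₀.1 := by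
    apply ex_inj
    have hz := (zt_prim hn0).pow_eq_one
    have h1 := uσ_spec (Γ := Γ) s (zt n) hz
    rw [← hn, ← h1, hs _ hz]
    rfl
  refine ⟨s, ?_, ?_⟩
  · intro ζ h1 h2
    have h3 := hroot ζ h1 h2
    rw [hs ζ h1]
    have := pow_of_modEq ((units_val_one hm u₀.1).1 u₀.2) h3
    rw [this, pow_one]
  · intro t ht
    have hzm := (zt_prim hm0).pow_eq_one
    have hzn : zt (n' * p ^ c) ^ n = 1 := by
      obtain ⟨d, hd⟩ := hm
      rw [hd, pow_mul, hzm, one_pow]
    have h1 := ht (zt (n' * p ^ c)) hzn ⟨n', hn'p, by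
      obtain ⟨d, hd⟩ := Nat.mul_dvd_mul_left n' (pow_dvd_pow p hcb)
      rw [hd, pow_mul, hzm, one_pow]⟩
    have h2 := uσ_spec (Γ := Γ) t (zt (n' * p ^ c)) hzn
    have h3 : ex (uσ Γ t) ≡ 1 [MOD n' * p ^ c] := by
      refine modEq_of_pow hm0 ?_
      rw [← h2, h1, pow_one]
    have h4 : uσ Γ t ∈ K := (units_val_one hm (uσ Γ t)).2 h3
    obtain ⟨i, hi⟩ := hu₀ ⟨uσ Γ t, h4⟩
    refine ⟨i, ?_⟩
    rw [hus]
    exact congrArg Subtype.val hi

end

end Pool.Agent.Q18.K
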