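import Pool.Agent.Q18.K.Kr
import Pool.Agent.Q18.K.Cyc

/-!
# The weight conjecture and the rational characters
-/

open scoped BigOperators Classical

set_option linter.unusedSectionVars false

noncomputable section

namespace Pool.Agent.Q18.K

open Pool.Agent.Helper884.IC (IsIrrChar irr_finite)
open Pool.Agent.Y63.NV
open Pool.Agent.Y63.KR

section

variable {Γ : Type} [Group Γ] [Finite Γ] {p : ℕ} {Z : Subgroup Γ} {F : Type} [Field F]

/-- only the characters with bounded `p`-part of the irrationality contribute, all primes -/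
theorem rat_sum' [hp : Fact p.Prime] {b : ℕ} (hpb : p ≠ 2 ∨ 2 ≤ b) [IsAlgClosed F] [CharP F p]
    (red : integralClosure ℤ ℂ →+* F) (hZ : IsPGroup p Z) (hZn : Z.Normal)
    (hbe : Monoid.exponent Z ∣ p ^ b) {B : (Γ → F) → F} (hB : IsBlock B) :
    altQ p Z red B (fun _ => True) = altQ p Z red B (fun S => ∃ k : ℕ, ¬ p ∣ k ∧
      ∀ a ∈ S, a ∈ IntermediateField.adjoin ℚ {zt (k * p ^ b)}) := by
  obtain ⟨s, hs1, hs2⟩ := exists_gen' (Γ := Γ) hpb
  rw [fixed_sum red hZ hZn (s := s) ?_ hB]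
  · refine altQ_congr red B fun H χ hχ => ?_
    have h1 := rat_iff hp.out hs1 hs2 hχ
    simp only [Set.forall_mem_range]
    rw [h1]
  · rintro ζ h1 ⟨k, hk, h2⟩
    refine hs1 ζ h1 ⟨k, hk, ?_⟩
    obtain ⟨d, hd⟩ := hbe
    rw [hd, ← mul_assoc, pow_mul, h2, one_pow]

/-- the alternating sum over the chains of nontrivial `p`-subgroups -/
theorem alt_bot (red : integralClosure ℤ ℂ →+* F) (B : (Γ → F) → F) (Q : Set ℂ → Prop) :
    alternatingSum p Γ (fun H => (numQ red B Q H : ℤ)) = altQ p (⊥ : Subgroup Γ) red B Q := by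
  refine cls_eq (IsPChain p) (CH p ⊤ (⊥ : Subgroup Γ)) ?_ (fun _ h => h.chain)
    (fun g _ h => h.conj inferInstance g) (chainSetoid p Γ) (fun _ _ => Iff.rfl)
    (chS p (⊥ : Subgroup Γ)) (fun _ _ => Iff.rfl) (fun H => (numQ red B Q H : ℤ))
    (fun g H => by rw [numQ_conj])
  intro σ
  exact ⟨fun h => ⟨h.chain, h.isPGroup, fun _ _ => le_top, fun P hP =>
    bot_lt_iff_ne_bot.2 (h.ne_bot P hP)⟩, fun h => h.pchain⟩

theorem numQ_true (red : integralClosure ℤ ℂ →+* F) (B : (Γ → F) → F) (H : Subgroup Γ) :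
    numQ red B (fun _ => True) H = numIrrInd red H B := by
  unfold numQ numIrrInd
  refine Nat.card_congr (Equiv.subtypeEquivRight fun χ => ?_)
  exact ⟨fun h => ⟨h.1, h.2.2⟩, fun h => ⟨h.1, trivial, h.2⟩⟩

/-- the Knörr-Robinson equality and the rational characters -/
theorem krb_iff [hp : Fact p.Prime] {b : ℕ} (hpb : p ≠ 2 ∨ 2 ≤ b) [IsAlgClosed F] [CharP F p]
    (red : integralClosure ℤ ℂ →+* F) :
    KRB p red Γ ↔ ∀ B : (Γ → F) → F, IsBlock B →
      alternatingSum p Γ (fun H => (numQ red B (fun S => ∃ k : ℕ, ¬ p ∣ k ∧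
        ∀ a ∈ S, a ∈ IntermediateField.adjoin ℚ {zt (k * p ^ b)}) H : ℤ)) =
      numDzBlock p red B := by
  unfold KRB
  refine forall₂_congr fun B hB => ?_
  have h1 : alternatingSum p Γ (fun H => (numIrrInd red H B : ℤ)) =
      altQ p (⊥ : Subgroup Γ) red B (fun _ => True) := by
    rw [← alt_bot]
    simp only [numQ_true]
  rw [h1, alt_bot, rat_sum' hpb red IsPGroup.of_bot inferInstance ?_ hB]
  have h2 : Monoid.exponent (⊥ : Subgroup Γ) ∣ 1 :=
    Monoid.exponent_dvd_of_forall_pow_eq_one fun x => Subsingleton.elim _ _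
  exact h2.trans (one_dvd _)

end

/-- **the blockwise weight conjecture for a class of groups from the alternating sums of the reduced
groups** -/
theorem bawc_all {p : ℕ} [Fact p.Prime] {F : Type} [Field F] [IsAlgClosed F] [CharP F p]
    (red : integralClosure ℤ ℂ →+* F) (X : ∀ (H : Type) [Group H], Prop) (hX : Closed p X)
    (h : ∀ (H : Type) [Group H] [Finite H], X H → Reduced p H → KRB p red H) :
    ∀ (Γ : Type) [Group Γ] [Finite Γ] (G : Subgroup Γ) [G.Normal], X G → IsPGroup p (Γ ⧸ G) →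
      BAWC p red Γ ∧ KRB p red Γ := by
  intro Γ _ _ G hG hXG hp
  have key := bawc_reduction' red X hX ?_
  · refine ⟨(bawc_iff p red).2 (key (Nat.card Γ) Γ le_rfl ⟨G, hG, hXG, hp⟩),
      krb_of_bawc s_kdimh s_kfilt s_kfin red fun σ _ => ?_⟩
    exact key (Nat.card (chainStabilizer σ)) (chainStabilizer σ) le_rfl
      ((xp_closed p X hX).sub Γ ⟨G, hG, hXG, hp⟩ _)
  · intro H _ _ hH hR hsmall
    refine bawc_of_krb s_kdimh s_kfilt s_kfin red (fun σ hσ hne => ?_) (h H hH hR)
    have hXP : XP p X (chainStabilizer σ) :=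
      (xp_closed p X hX).sub H ⟨⊤, inferInstance,
        hX.iso _ _ hH ⟨Subgroup.topEquiv.symm⟩, pgroup_top p H⟩ _
    exact hsmall (chainStabilizer σ) hXP (stab_lt hR.radical hσ hne)

/-- the converse -/
theorem krb_all {p : ℕ} [Fact p.Prime] {F : Type} [Field F] [IsAlgClosed F] [CharP F p]
    (red : integralClosure ℤ ℂ →+* F) (X : ∀ (H : Type) [Group H], Prop) (hX : Closed p X)
    (h : ∀ (H : Type) [Group H] [Finite H], X H → BAWC p red H) :
    ∀ (H : Type) [Group H] [Finite H], X H → KRB p red H := by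
  intro H _ _ hH
  refine krb_of_bawc s_kdimh s_kfilt s_kfin red fun σ _ => ?_
  exact (bawc_iff p red).1 (h _ (hX.sub H hH _))

end Pool.Agent.Q18.K
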