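import Pool.Agent.Q18.K.Eq

/-!
# Fixed points on pairs of chains and characters in a block
-/

open scoped BigOperators Classical

set_option linter.unusedSectionVars false

noncomputable section

namespace Pool.Agent.Q18.K

open Pool.Agent.Helper884.IC (IsIrrChar irr_finite)
open Pool.Agent.Y63.NV (redC centralValue IsClassFun IsBlock cut)
open Pool.Agent.Y63.KR
open Pool.Agent.Y930.NV
open Pool.Agent.Y63.AWC (irr_comp)

section nrm

variable {J F : Type} [Group J] [Fintype J] [Field F]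

/-- **the norm argument** for the elements of a submonoid -/
theorem norm_arg' {U : Type} [Group U] [Finite U] (act : U →* Equiv.Perm J)
    (hact : ∀ u, GP (act u)) {L B : (J → F) → F} (hL : IsBlock L) (hB : IsBlock B)
    (S : Submonoid (CR J F))
    (hS1 : ∀ (f f' : CR J F) (k : F), f ∈ S →
      (∀ x, f'.1 x = f.1 x + k * (if x = 1 then 1 else 0)) → f' ∈ S)
    (hSu : ∀ u, ∀ f ∈ S, ph (hact u) f ∈ S)
    (hLu : ∀ u, ∀ f : J → F, IsClassFun f → L (fun x => f (act u x)) = L f)
    (hLB : ∀ f ∈ S, (∀ u x, f.1 (act u x) = f.1 x) → L f.1 = B f.1)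
    (f : CR J F) (hfS : f ∈ S) : L f.1 = B f.1 := by
  have : Fintype U := Fintype.ofFinite U
  set k := B f.1 with hk
  have hone : IsClassFun (Pi.single 1 1 : J → F) := one_cf
  have hf' : IsClassFun (f.1 + (-k) • (Pi.single 1 1 : J → F)) := by
    intro g x
    have h1 := hone g x
    rw [Pi.add_apply, Pi.add_apply, f.2 g x, Pi.smul_apply, Pi.smul_apply, h1]
  have hsm : IsClassFun ((-k) • (Pi.single 1 1 : J → F)) := by
    intro g x
    have h1 := hone g x
    rw [Pi.smul_apply, Pi.smul_apply, h1]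
  let f' : CR J F := ⟨f.1 + (-k) • (Pi.single 1 1 : J → F), hf'⟩
  have hf'S : f' ∈ S := hS1 f f' (-k) hfS fun x => by
    have h0 : (Pi.single 1 1 : J → F) x = if x = 1 then 1 else 0 := congrFun one_eq x
    change f.1 x + (-k) * (Pi.single 1 1 : J → F) x = _
    rw [h0]
  have hBf : B f'.1 = 0 := by
    change B (f.1 + (-k) • (Pi.single 1 1 : J → F)) = 0
    rw [hB.add _ _ f.2 hsm, hB.smul _ _ hone, hB.one, hk]
    ring
  have hLf : L f'.1 = L f.1 - k := by
    change L (f.1 + (-k) • (Pi.single 1 1 : J → F)) = _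
    rw [hL.add _ _ f.2 hsm, hL.smul _ _ hone, hL.one]
    ring
  let Nf : CR J F := ∏ u : U, ph (hact u) f'
  have hNS : Nf ∈ S := S.prod_mem fun u _ => hSu u f' hf'S
  have hinv : ∀ v, ph (hact v) Nf = Nf := by
    intro v
    rw [map_prod]
    refine Fintype.prod_equiv (Equiv.mulRight v) _ _ fun u => ?_
    apply Subtype.ext
    funext x
    change f'.1 (act u (act v x)) = f'.1 (act (u * v) x)
    rw [map_mul]
    rfl
  have h1 := hLB Nf hNS (fun u x => congrFun (congrArg Subtype.val (hinv u)) x)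
  have h2 : L Nf.1 = ∏ u : U, L f'.1 := by
    change bh hL Nf = _
    rw [map_prod]
    refine Finset.prod_congr rfl fun u _ => ?_
    exact hLu u f'.1 f'.2
  have h3 : B Nf.1 = ∏ u : U, bh hB (ph (hact u) f') := by
    change bh hB Nf = _
    rw [map_prod]
  have h4 : ∏ u : U, bh hB (ph (hact u) f') = 0 := by
    refine Finset.prod_eq_zero (Finset.mem_univ (1 : U)) ?_
    have h5 : ph (hact 1) f' = f' := by
      apply Subtype.ext
      funext x
      change f'.1 (act 1 x) = f'.1 x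
      rw [map_one]
      rfl
    rw [h5]
    exact hBf
  rw [h2, h3, h4] at h1
  rw [Finset.prod_const, Finset.card_univ] at h1
  have h6 := pow_eq_zero_iff (Fintype.card_ne_zero (α := U)) |>.1 h1
  rw [hLf] at h6
  exact sub_eq_zero.1 h6

/-- the invariants of a permutation -/
def fixS {α : Equiv.Perm J} (h : GP α) : Submonoid (CR J F) where
  carrier := {f | ∀ x, f.1 (α x) = f.1 x}
  one_mem' := fun x => congrFun (congrArg Subtype.val (map_one (ph (F := F) h))) x
  mul_mem' := by
    intro f g hf hg x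
    have h1 : ph h f = f := Subtype.ext (funext hf)
    have h2 : ph h g = g := Subtype.ext (funext hg)
    have h3 : ph h (f * g) = f * g := by rw [map_mul, h1, h2]
    exact congrFun (congrArg Subtype.val h3) x

theorem mem_fixS {α : Equiv.Perm J} (h : GP α) {f : CR J F} :
    f ∈ fixS h ↔ ∀ x, f.1 (α x) = f.1 x := Iff.rfl

end nrm

section

variable {Γ : Type} [Group Γ] [Finite Γ] {G Z : Subgroup Γ} {p : ℕ}

/-- conjugations on a normal subgroup -/
def cjG (hG : G.Normal) : Γ →* Equiv.Perm G := (MulAut.toPerm G).comp MulAut.conjNormal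

theorem cjG_apply (hG : G.Normal) (t : Γ) (x : G) : (cjG hG t x : Γ) = t * x * t⁻¹ := rfl

theorem gp_cjG (hG : G.Normal) (t : Γ) : GP (cjG hG t) where
  one := map_one (MulAut.conjNormal t)
  inv x := map_inv (MulAut.conjNormal t) x
  irr χ hχ := irr_comp (MulAut.conjNormal t) hχ
  cnj g x := ⟨cjG hG t g, Subtype.ext (by
    simp only [cjG_apply, Subgroup.coe_mul, Subgroup.coe_inv]
    group)⟩

/-- the pair is fixed by `(e, s)` up to conjugation in `G` -/
def EF (s : ℂ ≃+* ℂ) (e : Γ) {σ : Set (Subgroup Γ)} (χ : NS G σ → ℂ) : Prop :=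
  ∃ t : Γ, t * e⁻¹ ∈ G ∧ t ∈ chainStabilizer σ ∧
    ∀ x y : NS G σ, (y : Γ) = t * x * t⁻¹ → s (χ y) = χ x

variable {F : Type} [Field F]

/-- functions which are invariant under conjugation by `G` and `e` and under power maps -/
def CE (V : GU Γ) (G : Subgroup Γ) (e : Γ) (F : Type) [Field F] : Submodule F (Γ → F) where
  carrier := {z | (∀ g ∈ G, ∀ x : Γ, z (g * x * g⁻¹) = z x) ∧ (∀ x, z (e * x * e⁻¹) = z x) ∧
    ∀ (u : V.U) (x : Γ), z (x ^ ex (u : (ZMod (Nat.card Γ))ˣ)) = z x}
  zero_mem' := ⟨fun _ _ _ => rfl, fun _ => rfl, fun _ _ => rfl⟩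
  add_mem' := by
    rintro a b ⟨ha, ha', ha''⟩ ⟨hb, hb', hb''⟩
    exact ⟨fun g hg x => by rw [Pi.add_apply, Pi.add_apply, ha g hg, hb g hg],
      fun x => by rw [Pi.add_apply, Pi.add_apply, ha', hb'],
      fun u x => by rw [Pi.add_apply, Pi.add_apply, ha'', hb'']⟩
  smul_mem' := by
    rintro c a ⟨ha, ha', ha''⟩
    exact ⟨fun g hg x => by rw [Pi.smul_apply, Pi.smul_apply, ha g hg],
      fun x => by rw [Pi.smul_apply, Pi.smul_apply, ha'],
      fun u x => by rw [Pi.smul_apply, Pi.smul_apply, ha'']⟩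

theorem resG {z : Γ → F} (hz : ∀ g ∈ G, ∀ x : Γ, z (g * x * g⁻¹) = z x) :
    IsClassFun (fun x : G => z x) := fun g x => hz g g.2 x

/-- a block as a functional on the invariant functions -/
def blE (V : GU Γ) (e : Γ) {B : (G → F) → F} (hB : IsBlock B) : CE V G e F →ₗ[F] F where
  toFun z := B (fun x : G => z.1 x)
  map_add' a b := hB.add _ _ (resG a.2.1) (resG b.2.1)
  map_smul' c a := hB.smul c _ (resG a.2.1)

/-- the functional of a character of the stabiliser of a chain is a block -/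
theorem lin_blockG [Fact p.Prime] [CharP F p] (red : integralClosure ℤ ℂ →+* F)
    {σ : Set (Subgroup Γ)} (h : CH p G Z σ) {χ : NS G σ → ℂ} (hχ : IsIrrChar χ) :
    IsBlock (fun f : G → F => centralValue red χ (fun x => f ⟨x, x.2.1⟩)) :=
  kblk_chain (p := p) (F := F) (G := G) σ.ncard σ h.chain h.isp h.le rfl
    (centralValue red χ) (Pool.Agent.Y930.NV.cvh F red _ χ hχ)

/-- two blocks which agree on the invariant functions -/
theorem agreeG (red : integralClosure ℤ ℂ →+* F) (V : GU Γ) (hG : G.Normal)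
    (hred : ∀ (u : V.U) (ζ : ℂ), ζ ^ Nat.card Γ = 1 → redC red (V.s u ζ) = redC red ζ)
    {σ : Set (Subgroup Γ)} {χ : NS G σ → ℂ} (hχ : IsIrrChar χ)
    (hL : IsBlock (fun f : G → F => centralValue red χ (fun x => f ⟨x, x.2.1⟩)))
    {B : (G → F) → F} (hB : IsBlock B) {e : Γ}
    (hBe : ∀ f : G → F, IsClassFun f → B (fun x => f (cjG hG e x)) = B f)
    (h : ∀ z ∈ CE V G e F, centralValue red χ (fun x => z x) = B (fun x : G => z x))
    (f : G → F) (hf : IsClassFun f) : centralValue red χ (fun x => f ⟨x, x.2.1⟩) = B f := by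
  have : Fintype G := Fintype.ofFinite G
  have : Fintype (NS G σ) := Fintype.ofFinite _
  have hJ : ∀ x : G, x ^ Nat.card Γ = 1 := hxn G
  -- first step
  have h1 : ∀ f : G → F, IsClassFun f → (∀ x, f (cjG hG e x) = f x) →
      centralValue red χ (fun x => f ⟨x, x.2.1⟩) = B f := by
    intro f hf hfe
    refine norm_arg' ((pw (Γ := Γ) (J := G) hJ).comp V.U.subtype) (fun u => gp_pw V hJ u) hL hB
      (fixS (gp_cjG hG e)) ?_ ?_ ?_ ?_ ⟨f, hf⟩ hfe
    · intro f f' k hfS hff
      rw [mem_fixS] at hfS ⊢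
      intro x
      rw [hff, hff, hfS]
      by_cases hx : x = 1
      · rw [hx, (gp_cjG hG e).one]
      · have h2 : cjG hG e x ≠ 1 := by
          intro h3
          apply hx
          apply (cjG hG e).injective
          rw [h3, (gp_cjG hG e).one]
        rw [if_neg hx, if_neg h2]
    · intro u f hfS
      rw [mem_fixS] at hfS ⊢
      intro x
      change f.1 ((cjG hG e x) ^ ex (u : (ZMod (Nat.card Γ))ˣ)) =
        f.1 (x ^ ex (u : (ZMod (Nat.card Γ))ˣ))
      have e3 : (cjG hG e x) ^ ex (u : (ZMod (Nat.card Γ))ˣ) =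
        cjG hG e (x ^ ex (u : (ZMod (Nat.card Γ))ˣ)) := (map_pow (MulAut.conjNormal e) x _).symm
      rw [e3]
      exact hfS _
    · intro u f hf
      exact cv_pw red V hred (hxn (NS G σ)) hχ u (f := fun x : NS G σ => f ⟨x, x.2.1⟩)
        (fun a x => hf ⟨a, a.2.1⟩ ⟨x, x.2.1⟩)
    · intro f hfS hfu
      rw [mem_fixS] at hfS
      let z : Γ → F := fun x => if h : x ∈ G then f.1 ⟨x, h⟩ else 0
      have hzG : ∀ x : G, z x = f.1 x := fun x => dif_pos x.2
      have hz : z ∈ CE V G e F := by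
        refine ⟨fun g hg x => ?_, fun x => ?_, fun u x => ?_⟩
        · by_cases hx : x ∈ G
          · have h2 := f.2 ⟨g, hg⟩ ⟨x, hx⟩
            rw [← hzG, ← hzG] at h2
            exact h2
          · have h2 : g * x * g⁻¹ ∉ G := by
              intro h3
              apply hx
              have := hG.conj_mem _ h3 g⁻¹
              have e1 : g⁻¹ * (g * x * g⁻¹) * g⁻¹⁻¹ = x := by group
              rwa [e1] at this
            change (dite _ _ _) = (dite _ _ _)
            rw [dif_neg hx, dif_neg h2]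
        · by_cases hx : x ∈ G
          · have h2 := hfS ⟨x, hx⟩
            rw [← hzG, ← hzG] at h2
            exact h2
          · have h2 : e * x * e⁻¹ ∉ G := by
              intro h3
              apply hx
              have := hG.conj_mem _ h3 e⁻¹
              have e1 : e⁻¹ * (e * x * e⁻¹) * e⁻¹⁻¹ = x := by group
              rwa [e1] at this
            change (dite _ _ _) = (dite _ _ _)
            rw [dif_neg hx, dif_neg h2]
        · by_cases hx : x ∈ G
          · have h2 := hfu u ⟨x, hx⟩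
            rw [← hzG, ← hzG] at h2
            exact h2
          · have h2 : x ^ ex (u : (ZMod (Nat.card Γ))ˣ) ∉ G := by
              intro h3
              apply hx
              have h4 := G.pow_mem h3 (ex ((u : (ZMod (Nat.card Γ))ˣ)⁻¹))
              rwa [← ex_mul (xn x), mul_inv_cancel, ex_one (xn x)] at h4
            change (dite _ _ _) = (dite _ _ _)
            rw [dif_neg hx, dif_neg h2]
      have h2 := h z hz
      have e1 : (fun x : NS G σ => z x) = fun x : NS G σ => f.1 ⟨x, x.2.1⟩ := by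
        funext x
        exact hzG ⟨x, x.2.1⟩
      have e2 : (fun x : G => z x) = f.1 := funext hzG
      rw [e1, e2] at h2
      exact h2
  -- second step
  have hpow : ∀ t ∈ Subgroup.zpowers e, ∀ f : G → F, IsClassFun f →
      B (fun x => f (cjG hG t x)) = B f := by
    let T : Subgroup Γ :=
      { carrier := {t | ∀ f : G → F, IsClassFun f → B (fun x => f (cjG hG t x)) = B f}
        mul_mem' := by
          intro a b ha hb f hf
          have h2 : (fun x => f (cjG hG (a * b) x)) = fun x =>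
              (fun y => f (cjG hG a y)) (cjG hG b x) := by
            funext x
            rw [map_mul]
            rfl
          have ha' : ∀ f : G → F, IsClassFun f → B (fun x => f (cjG hG a x)) = B f := ha
          have hb' : ∀ f : G → F, IsClassFun f → B (fun x => f (cjG hG b x)) = B f := hb
          have h3 : IsClassFun (fun y => f (cjG hG a y)) := (gp_cjG hG a).cf hf
          rw [h2, hb' _ h3, ha' _ hf]
        one_mem' := by
          intro f _
          rw [map_one]
          rfl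
        inv_mem' := by
          intro a ha f hf
          have ha' : ∀ f : G → F, IsClassFun f → B (fun x => f (cjG hG a x)) = B f := ha
          have h3 : IsClassFun (fun y => f (cjG hG a⁻¹ y)) := (gp_cjG hG a⁻¹).cf hf
          have h2 := ha' (fun x => f (cjG hG a⁻¹ x)) h3
          rw [← h2]
          congr 1
          funext x
          rw [← Equiv.Perm.mul_apply, ← map_mul, inv_mul_cancel, map_one]
          rfl }
    have hT : Subgroup.zpowers e ≤ T := by
      rw [Subgroup.zpowers_le]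
      exact hBe
    exact fun t ht => hT ht
  have h2 := norm_arg ((cjG hG).comp (Subgroup.zpowers e).subtype)
    (fun t => gp_cjG hG (t : Γ)) hB hL (fun t f hf => hpow t t.2 f hf)
    (fun f hf hft => (h1 f hf (fun x => hft ⟨e, Subgroup.mem_zpowers e⟩ x)).symm) f hf
  exact h2.symm

/-- the number of the characters in `B` for which the pair is fixed by `(e, s)` -/
def cntE (red : integralClosure ℤ ℂ →+* F) (B : (G → F) → F) (s : ℂ ≃+* ℂ) (e : Γ)
    (σ : Set (Subgroup Γ)) : ℕ :=
  Nat.card {χ : NS G σ → ℂ // IsIrrChar χ ∧ EF s e χ ∧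
    ∀ f : G → F, IsClassFun f → centralValue red χ (fun x => f ⟨x, x.2.1⟩) = B f}

theorem mem_map_mk {V : GU Γ} [hG : G.Normal] {S : Subgroup (Γ × V.U)} {a : Γ × V.U} :
    QuotientGroup.mk' (N0 V G) a ∈ S.map (QuotientGroup.mk' (N0 V G)) ↔
      ∃ t : Γ, t * a.1⁻¹ ∈ G ∧ (t, a.2) ∈ S := by
  constructor
  · rintro ⟨m, hm, hma⟩
    have h1 : m * a⁻¹ ∈ N0 V G := by
      rw [← QuotientGroup.eq_one_iff (N := N0 V G)]
      have h2 : QuotientGroup.mk' (N0 V G) (m * a⁻¹) = 1 := by
        rw [map_mul, map_inv, hma, mul_inv_cancel]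
      exact h2
    rw [mem_N0] at h1
    refine ⟨m.1, h1.1, ?_⟩
    have h3 : m.2 = a.2 := mul_inv_eq_one.1 h1.2
    rw [← h3]
    exact hm
  · rintro ⟨t, ht, hS⟩
    refine ⟨(t, a.2), hS, ?_⟩
    have h1 : (t, a.2) * a⁻¹ ∈ N0 V G := by
      rw [mem_N0]
      exact ⟨ht, mul_inv_cancel _⟩
    have h2 : QuotientGroup.mk' (N0 V G) ((t, a.2) * a⁻¹) = 1 :=
      (QuotientGroup.eq_one_iff _).2 h1
    rw [map_mul, map_inv] at h2
    exact mul_inv_eq_one.1 h2

/-- **fixed points on pairs in a block** -/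
theorem eqB_sum [Fact p.Prime] [IsAlgClosed F] [CharP F p]
    (red : integralClosure ℤ ℂ →+* F) (hG : G.Normal)
    (hZ : IsPGroup p Z) (hZG : Z ≤ G) (hZn : Z.Normal)
    {s : ℂ ≃+* ℂ} (hs : ∀ ζ : ℂ, ζ ^ Nat.card Γ = 1 →
      (∃ k : ℕ, ¬ p ∣ k ∧ ζ ^ (k * Monoid.exponent Z) = 1) → s ζ = ζ)
    {B : (G → F) → F} (hB : IsBlock B) {e : Γ}
    (hBe : ∀ f : G → F, IsClassFun f → B (fun x => f (cjG hG e x)) = B f)
    [Fintype {σ : Set (Subgroup Γ) // CH p G Z σ}] :
    ∑ σ : {σ : Set (Subgroup Γ) // CH p G Z σ}, (-1) ^ σ.1.ncard *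
      ((Nat.card (NS G σ.1) : ℤ) * (cntE red B s e σ.1 : ℤ)) =
    ∑ σ : {σ : Set (Subgroup Γ) // CH p G Z σ}, (-1) ^ σ.1.ncard *
      ((Nat.card (NS G σ.1) : ℤ) * (cntE red B (RingEquiv.refl ℂ) e σ.1 : ℤ)) := by
  have hInf : Infinite F := inferInstance
  set V := GUσ Γ s with hV
  have hpp : p.Prime := Fact.out
  -- the automorphisms are trivial modulo `p`
  have hred : ∀ (u : V.U) (ζ : ℂ), ζ ^ Nat.card Γ = 1 → redC red (V.s u ζ) = redC red ζ := by
    intro u ζ hζ
    refine red_fix (p := p) red (σ := V.s u) (n := Nat.card Γ) ?_ Nat.card_pos hζ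
    rintro ζ hζ' ⟨k, hk, hζ⟩
    refine GUσ_fix s (hs ζ hζ' ⟨k, hk, ?_⟩) u
    rw [pow_mul, hζ, one_pow]
  -- the power maps are trivial on the elements with `p`-part in `Z`
  have hVx : ∀ (u : V.U) (x : Γ), (∃ k : ℕ, ¬ p ∣ k ∧ x ^ k ∈ Z) →
      x ^ ex (u : (ZMod (Nat.card Γ))ˣ) = x := by
    rintro u x ⟨k, hk, hx⟩
    refine pow_fix (N := k * Monoid.exponent Z) ?_ (fun ζ hζ' hζ => hs ζ hζ' ⟨k, hk, hζ⟩) u
    rw [pow_mul]
    have h1 := Monoid.pow_exponent_eq_one (⟨x ^ k, hx⟩ : Z)
    exact congrArg Subtype.val h1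
  -- the separation
  have hfin : ∀ σ : {σ : Set (Subgroup Γ) // CH p G Z σ},
      Finite {χ : NS G σ.1 → ℂ // IsIrrChar χ} := fun σ => by
    have : Fintype (NS G σ.1) := Fintype.ofFinite _
    exact (irr_finite (G := NS G σ.1)).to_subtype
  let μ : ∀ (σ : {σ : Set (Subgroup Γ) // CH p G Z σ}) (χ : {χ : NS G σ.1 → ℂ // IsIrrChar χ}),
      CE V G e F →ₗ[F] F := fun σ χ => blE V e (lin_blockG (p := p) red σ.2 χ.2)
  have hμ : ∀ (σ : {σ : Set (Subgroup Γ) // CH p G Z σ}) (χ : {χ : NS G σ.1 → ℂ // IsIrrChar χ})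
      (z : CE V G e F), μ σ χ z = centralValue red χ.1 (fun x => z.1 x) := fun _ _ _ => rfl
  obtain ⟨z, hz⟩ := Pool.Agent.Y286.NV.exists_sep
    (fun i : (Σ σ : {σ : Set (Subgroup Γ) // CH p G Z σ},
      {χ : NS G σ.1 → ℂ // IsIrrChar χ}) => μ i.1 i.2) (blE V e hB)
  have hz1 := z.2
  set c : F := blE V e hB z with hc
  have hsep : ∀ (σ : {σ : Set (Subgroup Γ) // CH p G Z σ}) (χ : NS G σ.1 → ℂ),
      IsIrrChar χ → (centralValue red χ (fun x => z.1 x) = c ↔
        ∀ f : G → F, IsClassFun f → centralValue red χ (fun x => f ⟨x, x.2.1⟩) = B f) := by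
    intro σ χ hχ
    constructor
    · intro h
      have h6 := hz ⟨σ, χ, hχ⟩ h
      exact agreeG red V hG hred hχ (lin_blockG (p := p) red σ.2 hχ) hB hBe
        (fun z' hz' => LinearMap.congr_fun h6 ⟨z', hz'⟩)
    · intro h
      exact h (fun x : G => z.1 x) (resG hz1.1)
  -- the element of the group
  let u₀ : V.U := ⟨uσ Γ s, Subgroup.mem_zpowers _⟩
  let v₀ : (Γ × V.U) ⧸ N0 V G := QuotientGroup.mk' (N0 V G) (e, u₀)
  have hinv : ∀ (A : PA Γ (Γ × V.U)), Ext A → (∀ x, z.1 (A.a (e, u₀) x) = z.1 x) →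
      ∀ m, QuotientGroup.mk' (N0 V G) m ∈ Subgroup.zpowers v₀ →
        ∀ x, z.1 (A.a m x) = z.1 x := by
    intro A hA hAe m hm
    let T : Subgroup (Γ × V.U) :=
      { carrier := {m | ∀ x, z.1 (A.a m x) = z.1 x}
        mul_mem' := by
          intro a b ha hb x
          rw [map_mul, Equiv.Perm.mul_apply, ha, hb]
        one_mem' := by
          intro x
          rw [map_one, Equiv.Perm.one_apply]
        inv_mem' := by
          intro a ha x
          have h2 := ha (A.a a⁻¹ x)
          rw [a_inv'] at h2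
          exact h2.symm }
    have hT : N0 V G ≤ T := by
      intro m hm x
      have h2 := mem_N0.1 hm
      have h3 : m = (m.1, 1) := Prod.ext rfl h2.2
      rw [h3, hA.inn]
      exact hz1.1 _ h2.1 x
    have h4 : (Subgroup.zpowers v₀).comap (QuotientGroup.mk' (N0 V G)) ≤ T := by
      intro m hm
      obtain ⟨k, hk⟩ := hm
      have h5 : m * ((e, u₀) ^ k)⁻¹ ∈ N0 V G := by
        rw [← QuotientGroup.eq_one_iff (N := N0 V G)]
        change QuotientGroup.mk' (N0 V G) (m * ((e, u₀) ^ k)⁻¹) = 1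
        rw [map_mul, map_inv, map_zpow]
        exact mul_inv_eq_one.2 hk.symm
      have h6 := T.mul_mem (hT h5) (T.zpow_mem (show (e, u₀) ∈ T from hAe) k)
      rwa [inv_mul_cancel_right] at h6
    exact h4 hm
  have key := eq_pt (V := V) (p := p) (G := G) (Z := Z) red (ext_U (V := V)) (ext_C (V := V)) hG
    hZ hZG hZn (fun m x hx => by rw [PAU_a, PAC_a, hVx m.2 x hx]) v₀ (z := z.1)
    (hinv _ ext_U (fun x => by rw [PAU_a, hz1.2.1, hz1.2.2]))
    (hinv _ ext_C (fun x => by rw [PAC_a, hz1.2.1])) c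
  have e1 : ∀ σ : {σ : Set (Subgroup Γ) // CH p G Z σ},
      nS red (ext_U (V := V)) hG z.1 c v₀ σ.1 = cntE red B s e σ.1 := by
    intro σ
    have hst : ∀ χ : NS G σ.1 → ℂ, IsIrrChar χ →
        (v₀ ∈ (SX (ext_U (V := V)) hG χ).map (QuotientGroup.mk' (N0 V G)) ↔ EF s e χ) := by
      intro χ hχ
      have : Fintype (NS G σ.1) := Fintype.ofFinite _
      rw [mem_map_mk]
      refine exists_congr fun t => and_congr_right fun _ => ?_
      rw [mem_SX]
      refine and_congr_right fun ht => forall_congr' fun x => ?_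
      have hty : ∀ y : NS G σ.1, (y : Γ) = t * x * t⁻¹ →
          χ (y ^ ex (uσ Γ s)) = s (χ y) := fun y _ =>
        char_pow_gal s Nat.card_pos (fun ζ hζ => uσ_spec s ζ hζ) hχ (hxn _ y)
      have hmem : t * x * t⁻¹ ∈ NS G σ.1 := by
        have := (ext_C (V := V)).mem hG (m := (t, 1)) ht x.2
        rwa [PAC_a] at this
      constructor
      · intro h y hy
        rw [← hty y hy]
        refine h (y ^ ex (uσ Γ s)) ?_
        rw [PAU_a, Subgroup.coe_pow, hy, conj_pow]
      · intro h y hy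
        have h5 := h ⟨t * x * t⁻¹, hmem⟩ rfl
        rw [← hty _ rfl] at h5
        rw [← h5]
        congr 1
        apply Subtype.ext
        rw [hy, PAU_a, Subgroup.coe_pow, conj_pow]
    unfold nS cntE
    refine Nat.card_congr
      { toFun := fun χ => ⟨χ.1.1, χ.1.2.1, (hst _ χ.1.2.1).1 χ.2, (hsep σ _ χ.1.2.1).1 χ.1.2.2⟩
        invFun := fun χ => ⟨⟨χ.1, χ.2.1, (hsep σ _ χ.2.1).2 χ.2.2.2⟩, (hst _ χ.2.1).2 χ.2.2.1⟩
        left_inv := fun _ => rfl
        right_inv := fun _ => rfl }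
  have e2 : ∀ σ : {σ : Set (Subgroup Γ) // CH p G Z σ},
      nS red (ext_C (V := V)) hG z.1 c v₀ σ.1 = cntE red B (RingEquiv.refl ℂ) e σ.1 := by
    intro σ
    have hst : ∀ χ : NS G σ.1 → ℂ, IsIrrChar χ →
        (v₀ ∈ (SX (ext_C (V := V)) hG χ).map (QuotientGroup.mk' (N0 V G)) ↔
          EF (RingEquiv.refl ℂ) e χ) := by
      intro χ hχ
      rw [mem_map_mk]
      refine exists_congr fun t => and_congr_right fun _ => ?_
      rw [mem_SX]
      rfl
    unfold nS cntE
    refine Nat.card_congr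
      { toFun := fun χ => ⟨χ.1.1, χ.1.2.1, (hst _ χ.1.2.1).1 χ.2, (hsep σ _ χ.1.2.1).1 χ.1.2.2⟩
        invFun := fun χ => ⟨⟨χ.1, χ.2.1, (hsep σ _ χ.2.1).2 χ.2.2.2⟩, (hst _ χ.2.1).2 χ.2.2.1⟩
        left_inv := fun _ => rfl
        right_inv := fun _ => rfl }
  simp only [e1, e2] at key
  exact key

end

end Pool.Agent.Q18.K
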