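import Pool.Agent.Q18.K.Dim
import Pool.Agent.Y63.NV.Stm5
import Pool.Agent.Y85.NV.Syl
import Pool.Agent.Y487.NV.La

/-!
# Groups acting by conjugations and power maps; multiplicities of eigenvalues
-/

open scoped BigOperators Classical

set_option linter.unusedSectionVars false

noncomputable section

namespace Pool.Agent.Q18.K

open Pool.Agent.Helper884.IC (IsIrrChar)
open Pool.Agent.Y63.NV (Kop Kfun centralValue)

/-- a group acting on `Γ` by conjugations and power maps, with automorphisms of `ℂ` inducing the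
same power maps on the roots of unity -/
structure PA (Γ E : Type) [Group Γ] [Group E] where
  π : E →* Γ
  a : E →* Equiv.Perm Γ
  j : E → ℕ
  σ : E → (ℂ ≃+* ℂ)
  cop : ∀ m, (j m).Coprime (Nat.card Γ)
  eq : ∀ m x, a m x = π m * x ^ (j m) * (π m)⁻¹
  gal : ∀ (m) (ζ : ℂ), ζ ^ Nat.card Γ = 1 → σ m ζ = ζ ^ j m

/-- two operators on two spaces -/
theorem finrank_eq2 {F E E' : Type} [Field F] [AddCommGroup E] [Module F E] [AddCommGroup E']
    [Module F E'] (T : Module.End F E) (T₂ : Module.End F E') (π : E →ₗ[F] E')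
    (V : Submodule F E) (V₂ : Submodule F E') (hT : ∀ v ∈ V, T v ∈ V)
    (hπ : ∀ v ∈ V, π v ∈ V₂) (hs : ∀ w ∈ V₂, ∃ v ∈ V, π v = w) (hk : ∀ v ∈ V, π v = 0 → v = 0)
    (hc : ∀ v ∈ V, π (T v) = T₂ (π v)) (c : F) :
    Module.finrank F ↥(V ⊓ T.maxGenEigenspace c) =
      Module.finrank F ↥(V₂ ⊓ T₂.maxGenEigenspace c) := by
  have hit : ∀ (k : ℕ) (v : E), v ∈ V → ((T - c • (1 : Module.End F E)) ^ k) v ∈ V ∧
      π (((T - c • (1 : Module.End F E)) ^ k) v) =
        ((T₂ - c • (1 : Module.End F E')) ^ k) (π v) := by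
    intro k
    induction k with
    | zero => intro v hv; simpa using hv
    | succ k ih =>
      intro v hv
      have h1 : (T - c • (1 : Module.End F E)) v ∈ V := by
        rw [LinearMap.sub_apply, LinearMap.smul_apply, Module.End.one_apply]
        exact V.sub_mem (hT v hv) (V.smul_mem c hv)
      have h2 : π ((T - c • (1 : Module.End F E)) v) = (T₂ - c • (1 : Module.End F E')) (π v) := by
        rw [LinearMap.sub_apply, LinearMap.smul_apply, Module.End.one_apply, LinearMap.sub_apply,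
          LinearMap.smul_apply, Module.End.one_apply, map_sub, map_smul, hc v hv]
      rw [pow_succ, pow_succ, Module.End.mul_apply, Module.End.mul_apply, ← h2]
      exact ih _ h1
  have hmap : (V ⊓ T.maxGenEigenspace c).map π = V₂ ⊓ T₂.maxGenEigenspace c := by
    apply le_antisymm
    · rintro _ ⟨v, hv, rfl⟩
      obtain ⟨hv1, hv2⟩ := Submodule.mem_inf.1 hv
      refine Submodule.mem_inf.2 ⟨hπ v hv1, ?_⟩
      rw [Module.End.mem_maxGenEigenspace] at hv2 ⊢
      obtain ⟨k, hk⟩ := hv2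
      refine ⟨k, ?_⟩
      rw [← (hit k v hv1).2, hk, map_zero]
    · intro w hw
      obtain ⟨hw1, hw2⟩ := Submodule.mem_inf.1 hw
      obtain ⟨v, hv, rfl⟩ := hs w hw1
      refine ⟨v, Submodule.mem_inf.2 ⟨hv, ?_⟩, rfl⟩
      rw [Module.End.mem_maxGenEigenspace] at hw2 ⊢
      obtain ⟨k, hk'⟩ := hw2
      refine ⟨k, hk _ (hit k v hv).1 ?_⟩
      rw [(hit k v hv).2, hk']
  have hinj : Function.Injective (π.domRestrict (V ⊓ T.maxGenEigenspace c)) := by
    rw [injective_iff_map_eq_zero]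
    rintro ⟨v, hv⟩ h0
    rw [Subtype.ext_iff]
    exact hk v (Submodule.mem_inf.1 hv).1 h0
  rw [← hmap, ← LinearMap.range_domRestrict]
  exact (LinearEquiv.ofInjective _ hinj).finrank_eq

section

variable {Γ E : Type} [Group Γ] [Group E] (A : PA Γ E)

/-- the functions with support in `S` which are invariant under `M` -/
def VE (F : Type) [Field F] (S : Set Γ) (M : Subgroup E) : Submodule F (Γ → F) where
  carrier := {θ | (∀ x, x ∉ S → θ x = 0) ∧ ∀ m ∈ M, ∀ x, θ (A.a m x) = θ x}
  zero_mem' := ⟨fun _ _ => rfl, fun _ _ _ => rfl⟩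
  add_mem' := by
    rintro a b ⟨ha, ha'⟩ ⟨hb, hb'⟩
    exact ⟨fun x hx => by rw [Pi.add_apply, ha x hx, hb x hx, add_zero],
      fun j hj x => by rw [Pi.add_apply, Pi.add_apply, ha' j hj, hb' j hj]⟩
  smul_mem' := by
    rintro c a ⟨ha, ha'⟩
    exact ⟨fun x hx => by rw [Pi.smul_apply, ha x hx, smul_zero],
      fun j hj x => by rw [Pi.smul_apply, Pi.smul_apply, ha' j hj]⟩

/-- the multiplicity of the eigenvalue `c` on the `M`-invariant functions on `S` -/
def gE [Finite Γ] {F : Type} [Field F] (z : Γ → F) (S : Set Γ) (M : Subgroup E) (c : F) : ℕ :=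
  Module.finrank F ↥(VE A F S M ⊓ (Kop z S).maxGenEigenspace c)

/-- `M` normalises `N` and contains the inner automorphisms of `N` -/
structure Adm (M : Subgroup E) (N : Subgroup Γ) : Prop where
  norm : ∀ m ∈ M, ∀ n ∈ N, A.π m * n * (A.π m)⁻¹ ∈ N
  inn : ∀ n ∈ N, ∃ m ∈ M, A.π m = n ∧ ∀ x, A.a m x = n * x * n⁻¹

/-- the number of irreducible characters of `N` which are fixed by `m` and with given value of the
reduced central character -/
def Fnum {F : Type} [Field F] (red : integralClosure ℤ ℂ →+* F) (N : Subgroup Γ) (m : E)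
    (z : Γ → F) (c : F) : ℕ :=
  Nat.card {χ : N → ℂ // IsIrrChar χ ∧ (∀ x y : N, (y : Γ) = A.a m x → χ y = χ x) ∧
    centralValue red χ (fun x => z x) = c}

variable {A}

theorem a_inv (m : E) (x : Γ) : A.a m⁻¹ (A.a m x) = x := by
  rw [← Equiv.Perm.mul_apply, ← map_mul, inv_mul_cancel, map_one, Equiv.Perm.one_apply]

theorem a_inv' (m : E) (x : Γ) : A.a m (A.a m⁻¹ x) = x := by
  rw [← Equiv.Perm.mul_apply, ← map_mul, mul_inv_cancel, map_one, Equiv.Perm.one_apply]

theorem a_one (m : E) : A.a m 1 = 1 := by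
  rw [A.eq, one_pow, mul_one, mul_inv_cancel]

theorem a_xinv (m : E) (x : Γ) : A.a m x⁻¹ = (A.a m x)⁻¹ := by
  rw [A.eq, A.eq, inv_pow]
  group

theorem a_mem {M : Subgroup E} {N : Subgroup Γ} (h : Adm A M N) {m : E} (hm : m ∈ M) {x : Γ}
    (hx : x ∈ N) : A.a m x ∈ N := by
  rw [A.eq]
  exact h.norm m hm _ (N.pow_mem hx _)

theorem a_mem_iff {M : Subgroup E} {N : Subgroup Γ} (h : Adm A M N) {m : E} (hm : m ∈ M) (x : Γ) :
    A.a m x ∈ N ↔ x ∈ N := by
  constructor
  · intro hx
    have h1 := a_mem h (M.inv_mem hm) hx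
    rwa [a_inv] at h1
  · exact a_mem h hm

/-- the action on `N` -/
def phi {M : Subgroup E} {N : Subgroup Γ} (h : Adm A M N) : M →* Equiv.Perm N where
  toFun m :=
    { toFun := fun x => ⟨A.a m x, a_mem h m.2 x.2⟩
      invFun := fun x => ⟨A.a (m : E)⁻¹ x, a_mem h (M.inv_mem m.2) x.2⟩
      left_inv := fun x => Subtype.ext (a_inv _ _)
      right_inv := fun x => Subtype.ext (a_inv' _ _) }
  map_one' := by
    ext x
    change A.a (1 : E) x = x
    rw [map_one]
    rfl
  map_mul' m n := by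
    ext x
    change A.a (m * n : E) x = A.a m (A.a n x)
    rw [map_mul]
    rfl

theorem phi_apply {M : Subgroup E} {N : Subgroup Γ} (h : Adm A M N) (m : M) (x : N) :
    ((phi h m x : N) : Γ) = A.a m x := rfl

variable [Finite Γ]

theorem good_phi {M : Subgroup E} {N : Subgroup Γ} (h : Adm A M N) : Good (phi h) where
  one m := Subtype.ext (by rw [phi_apply, Subgroup.coe_one, a_one])
  inv m x := Subtype.ext (by rw [phi_apply, Subgroup.coe_inv, a_xinv]; rfl)
  irr m χ hχ := by
    let e : N ≃* N :=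
      { toFun := fun n => ⟨A.π m * n * (A.π m)⁻¹, h.norm m m.2 n n.2⟩
        invFun := fun n => ⟨A.π (m : E)⁻¹ * n * (A.π (m : E)⁻¹)⁻¹,
          h.norm _ (M.inv_mem m.2) n n.2⟩
        left_inv := fun n => Subtype.ext (by
          change A.π (m : E)⁻¹ * (A.π m * n * (A.π m)⁻¹) * (A.π (m : E)⁻¹)⁻¹ = n
          rw [map_inv]; group)
        right_inv := fun n => Subtype.ext (by
          change A.π m * (A.π (m : E)⁻¹ * n * (A.π (m : E)⁻¹)⁻¹) * (A.π m)⁻¹ = n
          rw [map_inv]; group)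
        map_mul' := fun a b => Subtype.ext (by
          change A.π m * (a * b : Γ) * (A.π m)⁻¹ =
            (A.π m * a * (A.π m)⁻¹) * (A.π m * b * (A.π m)⁻¹)
          group) }
    have h1 := Pool.Agent.Y63.AWC.irr_comp e hχ
    have h2 := irr_gal (A.σ m) h1
    have h3 : (fun x => A.σ m (χ (e x))) = fun x => χ (phi h m x) := by
      funext x
      have hx : x ^ Nat.card Γ = 1 := by
        apply Subtype.ext
        rw [Subgroup.coe_pow, Subgroup.coe_one]
        exact pow_card_eq_one'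
      have h4 := char_pow_gal (A.σ m) Nat.card_pos (A.gal m) h1 hx
      rw [← h4]
      congr 1
      apply Subtype.ext
      change A.π m * ((x ^ A.j m : N) : Γ) * (A.π m)⁻¹ = A.a m x
      rw [A.eq, Subgroup.coe_pow]
    rw [← h3]
    exact h2
  inn n := by
    obtain ⟨m, hm, _, h2⟩ := h.inn n n.2
    refine ⟨⟨m, hm⟩, fun x => Subtype.ext ?_⟩
    rw [phi_apply, h2]
    rfl

variable {F : Type} [Field F]

theorem kfull {N : Subgroup Γ} {z : Γ → F} (hz : ∀ x, x ∉ N → z x = 0) (θ : Γ → F) (x : N)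
    [Fintype N] : ∑ᶠ g : Γ, z g * θ (g * x) = Kc (fun g : N => z g) (fun g : N => θ g) x := by
  have : Fintype Γ := Fintype.ofFinite Γ
  rw [finsum_eq_sum_of_fintype]
  unfold Kc
  have h1 : ∑ g : Γ, z g * θ (g * x) = ∑ g ∈ Finset.univ.filter (fun g => g ∈ N),
      z g * θ (g * x) := by
    symm
    refine Finset.sum_subset (Finset.filter_subset _ _) fun g _ hg => ?_
    rw [hz g (fun h => hg (Finset.mem_filter.2 ⟨Finset.mem_univ _, h⟩)), zero_mul]
  rw [h1]
  exact Finset.sum_subtype _ (by simp) _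

/-- the operators preserve the invariant functions -/
theorem kinv {M : Subgroup E} {N : Subgroup Γ} (h : Adm A M N) {z θ : Γ → F}
    (hz : ∀ m ∈ M, ∀ x, z (A.a m x) = z x) (hs : ∀ x, x ∉ N → z x = 0)
    (hθ : ∀ m ∈ M, ∀ x, θ (A.a m x) = θ x) {m : E} (hm : m ∈ M) {x : Γ} (hx : x ∈ N) :
    ∑ᶠ g : Γ, z g * θ (g * A.a m x) = ∑ᶠ g : Γ, z g * θ (g * x) := by
  have : Fintype N := Fintype.ofFinite N
  have h1 := kfull hs θ (⟨x, hx⟩ : N)
  have h2 := kfull hs θ (⟨A.a m x, a_mem h hm hx⟩ : N)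
  rw [h1, h2]
  have h3 := Kc_iv (good_phi h) (z := fun g : N => z g) (θ := fun g : N => θ g)
    (fun m x => hz m m.2 x) (fun m x => hθ m m.2 x) ⟨m, hm⟩ ⟨x, hx⟩
  exact h3

/-- **KDIM**: fixed points of characters and multiplicities of eigenvalues -/
theorem kdimE [Finite E] (red : integralClosure ℤ ℂ →+* F) {M : Subgroup E} {N : Subgroup Γ}
    (h : Adm A M N) {z : Γ → F} (hz : ∀ m ∈ M, ∀ x, z (A.a m x) = z x)
    (hs : ∀ x, x ∉ N → z x = 0) (c : F) [Fintype M] :
    ∑ m : M, (Fnum A red N m z c : ℤ) = (Nat.card M : ℤ) * gE A z (N : Set Γ) M c := by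
  have : Fintype N := Fintype.ofFinite N
  have hz' : Iv (phi h) (fun x : N => z x) := fun m x => hz m m.2 x
  have h1 := burnside red (good_phi h) hz' c
  have h2 : ∀ m : M, (Fnum A red N m z c : ℤ) = (Nat.card {χ : N → ℂ // IsIrrChar χ ∧
      (∀ x, χ (phi h m x) = χ x) ∧ centralValue red χ (fun x => z x) = c} : ℤ) := by
    intro m
    unfold Fnum
    congr 1
    refine Nat.card_congr (Equiv.subtypeEquivRight fun χ => ?_)
    refine and_congr_right fun _ => and_congr_left fun _ => ?_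
    constructor
    · intro h3 x
      exact h3 x _ (phi_apply h m x)
    · intro h3 x y hy
      rw [← h3 x]
      congr 1
      exact Subtype.ext hy
  simp_rw [h2]
  rw [h1]
  congr 1
  norm_cast
  set z' : Yq (phi h) → F := fun κ => z (κ.out : N) with hz'def
  let T2 : Module.End F (Yq (phi h) → F) := Matrix.toLin' (Mx (phi h) z')
  have h3 : gE A z (N : Set Γ) M c = Module.finrank F ↥((⊤ : Submodule F (Yq (phi h) → F)) ⊓
      T2.maxGenEigenspace c) := by
    refine finrank_eq2 (Kop z (N : Set Γ)) T2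
      { toFun := fun v y => v (y.out : N), map_add' := fun _ _ => rfl,
        map_smul' := fun _ _ => rfl } (VE A F N M) ⊤ ?_ (fun _ _ => trivial) ?_ ?_ ?_ c
    · intro v hv
      refine ⟨fun x hx => if_neg hx, fun m hm x => ?_⟩
      change (if A.a m x ∈ (N : Set Γ) then ∑ᶠ g : Γ, z g * v (g * A.a m x) else 0) =
        if x ∈ (N : Set Γ) then ∑ᶠ g : Γ, z g * v (g * x) else 0
      by_cases hx : x ∈ N
      · rw [if_pos (show x ∈ (N : Set Γ) from hx),
          if_pos (show A.a m x ∈ (N : Set Γ) from a_mem h hm hx), kinv h hz hs hv.2 hm hx]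
      · rw [if_neg (show x ∉ (N : Set Γ) from hx),
          if_neg (show A.a m x ∉ (N : Set Γ) from fun h' => hx ((a_mem_iff h hm x).1 h'))]
    · intro w _
      refine ⟨fun x => if hx : x ∈ N then w (mkY (phi h) ⟨x, hx⟩) else 0, ⟨?_, ?_⟩, ?_⟩
      · intro x hx
        exact dif_neg hx
      · intro m hm x
        change (if hx : A.a m x ∈ N then w (mkY (phi h) ⟨_, hx⟩) else 0) =
          if hx : x ∈ N then w (mkY (phi h) ⟨x, hx⟩) else 0
        by_cases hx : x ∈ N
        · rw [dif_pos hx, dif_pos (a_mem h hm hx)]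
          congr 1
          exact mkY_act (phi h) ⟨m, hm⟩ ⟨x, hx⟩
        · rw [dif_neg hx, dif_neg (fun h' => hx ((a_mem_iff h hm x).1 h'))]
      · funext y
        change (if hx : ((y.out : N) : Γ) ∈ N then w (mkY (phi h) ⟨_, hx⟩) else 0) = w y
        rw [dif_pos y.out.2]
        exact congrArg w (mkY_out (phi h) y)
    · intro v hv h0
      funext x
      by_cases hx : x ∈ N
      · have h4 := iv_out (phi h) (θ := fun x : N => v x) (fun m x => hv.2 m m.2 x) ⟨x, hx⟩
        have h5 := congrFun h0 (mkY (phi h) ⟨x, hx⟩)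
        exact h4.symm.trans h5
      · exact hv.1 x hx
    · intro v hv
      funext y
      change (if ((y.out : N) : Γ) ∈ (N : Set Γ) then ∑ᶠ g : Γ, z g * v (g * (y.out : N)) else 0) =
        (Mx (phi h) z').mulVec (fun y => v (y.out : N)) y
      rw [if_pos (show ((y.out : N) : Γ) ∈ (N : Set Γ) from y.out.2), kfull hs v y.out, Kc_expand (phi h) hz' (fun m x => hv.2 m m.2 x)]
      rw [Matrix.mulVec, dotProduct, Finset.sum_comm]
      refine Finset.sum_congr rfl fun y' _ => ?_
      simp only [Mx, Matrix.of_apply]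
      rw [Finset.sum_mul]
      refine Finset.sum_congr rfl fun κ _ => ?_
      rw [hz'def]
      ring
  rw [h3, top_inf_eq, LinearMap.finrank_maxGenEigenspace_eq]
  change _ = (Matrix.toLin' (Mx (phi h) z')).charpoly.rootMultiplicity c
  rw [Matrix.charpoly_toLin']

end

end Pool.Agent.Q18.K
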