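import Pool.Agent.Q18.K.Chain
import Pool.Agent.Y171.NV.Kfin
import Pool.Agent.Y824.NV.LQ

/-!
# Induced blocks are defined for the stabilisers of chains
-/

open scoped BigOperators Classical

set_option linter.unusedSectionVars false

noncomputable section

namespace Pool.Agent.Q18.K

open Pool.Agent.Y63.NV (IsBlock IsClassFun conv sum_cut)
open Pool.Agent.Y930.NV (cv cv_eq_conv Cf Cf_cv)
open Pool.Agent.Y171.NV (CFm)
open Pool.Agent.Y63.KR

section van

variable {J F : Type} [Group J] [Finite J] [Field F]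

/-- convolution as a linear map -/
def cvL [Fintype J] (f : J → F) : (J → F) →ₗ[F] (J → F) where
  toFun θ := cv f θ
  map_add' a b := by
    funext x
    simp only [cv, Pi.add_apply, mul_add, Finset.sum_add_distrib]
  map_smul' c a := by
    funext x
    simp only [cv, Pi.smul_apply, smul_eq_mul, RingHom.id_apply, Finset.mul_sum]
    exact Finset.sum_congr rfl fun y _ => by ring

/-- the class functions supported outside the centraliser of a normal `p`-subgroup are in the
kernels of the blocks -/
theorem van {p : ℕ} [Fact p.Prime] [CharP F p] {B : (J → F) → F} (hB : IsBlock B)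
    {P : Subgroup J} [hPn : P.Normal] (hP : IsPGroup p P) {f : J → F} (hf : IsClassFun f)
    (h0 : ∀ x, (∀ r ∈ P, r * x = x * r) → f x = 0) : B f = 0 := by
  have : Fintype J := Fintype.ofFinite J
  by_contra hc
  set c := B f with hcdef
  -- an eigenvector among the class functions
  have h1 : ∃ θ : J → F, θ ≠ 0 ∧ cv f θ = c • θ := by
    by_contra hcon
    push Not at hcon
    let L : CFm J F →ₗ[F] CFm J F :=
      { toFun := fun θ => ⟨cv f θ.1 - c • θ.1, Submodule.sub_mem _ (Cf_cv hf θ.2)
          (Submodule.smul_mem _ _ θ.2)⟩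
        map_add' := fun a b => Subtype.ext (by
          change cvL f (a.1 + b.1) - c • (a.1 + b.1) =
            (cvL f a.1 - c • a.1) + (cvL f b.1 - c • b.1)
          rw [map_add, smul_add]
          abel)
        map_smul' := fun k a => Subtype.ext (by
          change cvL f (k • a.1) - c • (k • a.1) = k • (cvL f a.1 - c • a.1)
          rw [map_smul, smul_sub, smul_comm]) }
    have hinj : Function.Injective L := by
      rw [injective_iff_map_eq_zero]
      intro θ hθ
      by_contra h3
      apply hcon θ.1 (fun h4 => h3 (Subtype.ext h4))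
      exact sub_eq_zero.1 (congrArg Subtype.val hθ)
    have hsurj := LinearMap.surjective_of_injective hinj
    have hone : (Pi.single 1 1 : J → F) ∈ CFm J F := by
      intro g x
      exact Pool.Agent.Y63.NV.B532.single_conj g x
    obtain ⟨g, hg⟩ := hsurj ⟨_, hone⟩
    have hg1 : cv f g.1 = (Pi.single 1 1 : J → F) + c • g.1 :=
      sub_eq_iff_eq_add.1 (congrArg Subtype.val hg)
    have h5 := hB.mul f g.1 hf g.2
    rw [cv_eq_conv, hg1, hB.add _ _ hone (Submodule.smul_mem _ _ g.2), hB.one,
      hB.smul _ _ g.2] at h5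
    have h6 : (1 : F) = 0 := by
      have : (1 : F) + c * B g.1 = 0 + c * B g.1 := by rw [h5, zero_add]
      exact add_right_cancel this
    exact one_ne_zero h6
  obtain ⟨θ0, hθ0, hθ0'⟩ := h1
  -- the eigenspace with the right translations
  let W : Submodule F (J → F) :=
    { carrier := {θ | cv f θ = c • θ}
      zero_mem' := by
        change cvL f 0 = c • 0
        rw [map_zero, smul_zero]
      add_mem' := fun {a b} ha hb => by
        change cvL f (a + b) = c • (a + b)
        rw [map_add, smul_add]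
        exact congrArg₂ (· + ·) ha hb
      smul_mem' := fun k a ha => by
        change cvL f (k • a) = c • (k • a)
        rw [map_smul, smul_comm c k]
        exact congrArg (k • ·) ha }
  let ρ : Representation F P W :=
    { toFun := fun u =>
        { toFun := fun θ => ⟨fun x => θ.1 (x * u), by
            funext x
            have h2 := congrFun θ.2 (x * u)
            change ∑ y, f y * θ.1 (y⁻¹ * x * u) = c * θ.1 (x * u)
            change ∑ y, f y * θ.1 (y⁻¹ * (x * u)) = c * θ.1 (x * u) at h2
            rw [← h2]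
            exact Finset.sum_congr rfl fun y _ => by rw [mul_assoc]⟩
          map_add' := fun a b => rfl
          map_smul' := fun k a => rfl }
      map_one' := by
        ext θ x
        change θ.1 (x * ((1 : P) : J)) = θ.1 x
        rw [Subgroup.coe_one, mul_one]
      map_mul' := fun u v => by
        ext θ x
        change θ.1 (x * ((u * v : P) : J)) = θ.1 (x * u * v)
        rw [Subgroup.coe_mul, mul_assoc] }
  have hnt : Nontrivial W := ⟨⟨⟨θ0, hθ0'⟩, 0, fun h => hθ0 (congrArg Subtype.val h)⟩⟩
  obtain ⟨θ, hθ, hfix⟩ := Pool.Agent.Y824.NV.fixed_vector hP ρ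
  have hr : ∀ u ∈ P, ∀ x, θ.1 (x * u) = θ.1 x := fun u hu x =>
    congrFun (congrArg Subtype.val (hfix ⟨u, hu⟩)) x
  have hl : ∀ u ∈ P, ∀ x, θ.1 (u * x) = θ.1 x := fun u hu x => by
    have h2 := hr (x⁻¹ * u * x) (by simpa using hPn.conj_mem u hu x⁻¹) x
    rw [← h2]
    congr 1
    group
  apply hθ
  apply Subtype.ext
  funext x
  have h2 := congrFun θ.2 x
  change ∑ y, f y * θ.1 (y⁻¹ * x) = c * θ.1 x at h2
  have h3 := sum_cut P hP (fun y => f y * θ.1 (y⁻¹ * x)) (by
    intro r hr' y
    rw [hf]
    congr 1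
    have h4 : (r * y * r⁻¹)⁻¹ * x = r * (y⁻¹ * x * (x⁻¹ * r⁻¹ * x)) := by group
    rw [h4, hl r hr', hr _ (by simpa using hPn.conj_mem r⁻¹ (P.inv_mem hr') x⁻¹)])
  rw [h3, Finset.sum_eq_zero] at h2
  · rcases mul_eq_zero.1 h2.symm with h4 | h4
    · exact absurd h4 hc
    · exact h4
  · intro y _
    split_ifs with h4
    · rw [Subgroup.mem_centralizer_iff] at h4
      rw [h0 y h4, zero_mul]
    · rfl

end van

section ind

variable {Γ F : Type} [Group Γ] [Finite Γ] [Field F]

theorem one_eq {J : Type} [Group J] : (Pi.single 1 1 : J → F) = fun x => if x = 1 then 1 else 0 := by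
  funext x
  by_cases hx : x = 1
  · subst hx
    rw [Pi.single_eq_same, if_pos rfl]
  · rw [Pi.single_eq_of_ne hx, if_neg hx]

theorem cf_res {M H : Subgroup Γ} (hHM : H ≤ M) {f : M → F} (hf : IsClassFun f) :
    IsClassFun (fun x : H => f ⟨x, hHM x.2⟩) := fun g x => hf ⟨g, hHM g.2⟩ ⟨x, hHM x.2⟩

/-- one step of the construction of the induced block -/
theorem ind_step {p : ℕ} [Fact p.Prime] [CharP F p] {M H P : Subgroup Γ} (hP : IsPGroup p P)
    (hPM : P ≤ M) (hH : H = M ⊓ Subgroup.normalizer (P : Set Γ)) (hHM : H ≤ M)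
    {B : (H → F) → F} (hB : IsBlock B) :
    IsBlock (fun f : M → F => B (fun x : H => f ⟨x, hHM x.2⟩)) := by
  have hPH : P ≤ H := by
    rw [hH]
    exact le_inf hPM Subgroup.le_normalizer
  have hPn : (P.subgroupOf H).Normal := by
    constructor
    intro n hn g
    rw [Subgroup.mem_subgroupOf] at hn ⊢
    have hg : (g : Γ) ∈ Subgroup.normalizer (P : Set Γ) := (hH.le g.2).2
    exact (Subgroup.mem_normalizer_iff.1 hg n).1 hn
  have hPp : IsPGroup p (P.subgroupOf H) := hP.comap_subtype
  -- the restriction to the centraliser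
  let rc : (M → F) → (H → F) := fun f x => if ∀ r ∈ P, r * (x : Γ) = x * r then
    f ⟨x, hHM x.2⟩ else 0
  have hcent : ∀ (g x : H), (∀ r ∈ P, r * ((g * x * g⁻¹ : H) : Γ) = (g * x * g⁻¹ : H) * r) ↔
      ∀ r ∈ P, r * (x : Γ) = x * r := by
    have key : ∀ (g x : H), (∀ r ∈ P, r * (x : Γ) = x * r) →
        ∀ r ∈ P, r * ((g * x * g⁻¹ : H) : Γ) = (g * x * g⁻¹ : H) * r := by
      intro g x hx r hr
      have hg : (g : Γ) ∈ Subgroup.normalizer (P : Set Γ) := (hH.le g.2).2
      have h1 := hx _ ((Subgroup.mem_normalizer_iff''.1 hg r).1 hr)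
      push_cast
      calc r * ((g : Γ) * x * (g : Γ)⁻¹) = g * ((g : Γ)⁻¹ * r * g * x) * (g : Γ)⁻¹ := by group
        _ = g * (x * ((g : Γ)⁻¹ * r * g)) * (g : Γ)⁻¹ := by rw [h1]
        _ = g * x * (g : Γ)⁻¹ * r := by group
    intro g x
    refine ⟨fun h => ?_, key g x⟩
    have h1 := key g⁻¹ (g * x * g⁻¹) h
    have e : g⁻¹ * (g * x * g⁻¹) * g⁻¹⁻¹ = x := by group
    rwa [e] at h1
  have hrc : ∀ {f : M → F}, IsClassFun f → IsClassFun (rc f) := by
    intro f hf g x
    simp only [rc, hcent g x]
    have h1 := cf_res hHM hf g x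
    simp only at h1
    rw [h1]
  have hBrc : ∀ {f : M → F}, IsClassFun f → B (fun x : H => f ⟨x, hHM x.2⟩) = B (rc f) := by
    intro f hf
    have h1 : IsClassFun (fun x : H => f ⟨x, hHM x.2⟩ - rc f x) := fun g x => by
      have e1 := cf_res hHM hf g x
      have e2 := hrc hf g x
      simp only at e1 ⊢
      rw [e1, e2]
    have h2 : (fun x : H => f ⟨x, hHM x.2⟩) = rc f + fun x : H => f ⟨x, hHM x.2⟩ - rc f x := by
      funext x
      rw [Pi.add_apply]
      ring
    have h3 : B (fun x : H => f ⟨x, hHM x.2⟩ - rc f x) = 0 := by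
      refine van hB hPp h1 fun x hx => ?_
      have h4 : ∀ r ∈ P, r * (x : Γ) = x * r := by
        intro r hr
        have := hx ⟨r, hPH hr⟩ (Subgroup.mem_subgroupOf.2 hr)
        exact congrArg Subtype.val this
      simp only [rc, if_pos h4, sub_self]
    rw [h2, hB.add _ _ (hrc hf) h1, h3, add_zero]
  have hmul : ∀ {f g : M → F}, IsClassFun f → IsClassFun g →
      rc (conv f g) = conv (rc f) (rc g) := by
    intro f g hf hg
    have : Fintype M := Fintype.ofFinite M
    have : Fintype H := Fintype.ofFinite H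
    rw [cv_eq_conv, cv_eq_conv]
    funext x
    by_cases hx : ∀ r ∈ P, r * (x : Γ) = x * r
    · have e0 : rc (cv f g) x = cv f g ⟨x, hHM x.2⟩ := if_pos hx
      rw [e0]
      unfold cv
      let PM : Subgroup M := P.subgroupOf M
      have hPMp : IsPGroup p PM := hP.comap_subtype
      have h1 := sum_cut PM hPMp (fun y : M => f y * g (y⁻¹ * ⟨x, hHM x.2⟩)) (by
        intro r hr y
        change f (r * y * r⁻¹) * g ((r * y * r⁻¹)⁻¹ * ⟨x, hHM x.2⟩) =
          f y * g (y⁻¹ * ⟨x, hHM x.2⟩)
        rw [hf]
        congr 1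
        have h2 : (r * y * r⁻¹)⁻¹ * (⟨x, hHM x.2⟩ : M) =
            r * (y⁻¹ * ⟨x, hHM x.2⟩) * r⁻¹ := by
          have h3 : r⁻¹ * (⟨x, hHM x.2⟩ : M) = ⟨x, hHM x.2⟩ * r⁻¹ := by
            apply Subtype.ext
            exact hx _ (P.inv_mem (Subgroup.mem_subgroupOf.1 hr))
          calc (r * y * r⁻¹)⁻¹ * (⟨x, hHM x.2⟩ : M) = r * y⁻¹ * (r⁻¹ * ⟨x, hHM x.2⟩) := by group
            _ = r * y⁻¹ * (⟨x, hHM x.2⟩ * r⁻¹) := by rw [h3]
            _ = _ := by group
        rw [h2, hg])
      rw [h1]
      symm
      refine Fintype.sum_of_injective (fun y : H => (⟨y, hHM y.2⟩ : M))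
        (fun a b h => Subtype.ext (congrArg (fun t : M => (t : Γ)) h)) _ _ ?_ ?_
      · intro y hy
        rw [if_neg]
        intro h2
        apply hy
        have h3 : (y : Γ) ∈ H := by
          rw [hH]
          refine ⟨y.2, Subgroup.centralizer_le_normalizer _ ?_⟩
          rw [Subgroup.mem_centralizer_iff] at h2 ⊢
          intro r hr
          exact congrArg Subtype.val (h2 ⟨r, hPM hr⟩ (Subgroup.mem_subgroupOf.2 hr))
        exact ⟨⟨y, h3⟩, rfl⟩
      · intro y
        have h2 : (⟨y, hHM y.2⟩ : M) ∈ Subgroup.centralizer (PM : Set M) ↔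
            ∀ r ∈ P, r * (y : Γ) = y * r := by
          rw [Subgroup.mem_centralizer_iff]
          constructor
          · intro h r hr
            exact congrArg Subtype.val (h ⟨r, hPM hr⟩ (Subgroup.mem_subgroupOf.2 hr))
          · intro h r hr
            exact Subtype.ext (h r (Subgroup.mem_subgroupOf.1 hr))
        by_cases hy : ∀ r ∈ P, r * (y : Γ) = y * r
        · have h3 : ∀ r ∈ P, r * ((y⁻¹ * x : H) : Γ) = (y⁻¹ * x : H) * r := by
            intro r hr
            push_cast
            have h4 : Commute r (y : Γ) := hy r hr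
            have h5 : Commute r (x : Γ) := hx r hr
            exact (h4.inv_right.mul_right h5).eq
          have e1 : rc f y = f ⟨y, hHM y.2⟩ := if_pos hy
          have e2 : rc g (y⁻¹ * x) = g ⟨(y⁻¹ * x : H), hHM (y⁻¹ * x).2⟩ := if_pos h3
          rw [if_pos (h2.2 hy), e1, e2]
          rfl
        · have e1 : rc f y = 0 := if_neg hy
          rw [if_neg (fun h => hy (h2.1 h)), e1, zero_mul]
    · have h1 : rc (cv f g) x = 0 := by simp only [rc, if_neg hx]
      rw [h1]
      unfold cv
      symm
      refine Finset.sum_eq_zero fun y _ => ?_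
      by_cases hy : ∀ r ∈ P, r * (y : Γ) = y * r
      · have h3 : ¬ ∀ r ∈ P, r * ((y⁻¹ * x : H) : Γ) = (y⁻¹ * x : H) * r := by
          intro h4
          apply hx
          intro r hr
          have h5 : Commute r ((y⁻¹ * x : H) : Γ) := h4 r hr
          have h6 : Commute r (y : Γ) := hy r hr
          have h7 := h6.mul_right h5
          push_cast at h7
          rw [mul_inv_cancel_left] at h7
          exact h7
        have h4 : rc g (y⁻¹ * x) = 0 := by simp only [rc, if_neg h3]
        rw [h4, mul_zero]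
      · have h4 : rc f y = 0 := by simp only [rc, if_neg hy]
        rw [h4, zero_mul]
  have hcf : ∀ {f g : M → F}, IsClassFun f → IsClassFun g → IsClassFun (conv f g) := by
    intro f g hf hg
    have : Fintype M := Fintype.ofFinite M
    rw [cv_eq_conv]
    exact Cf_cv hf hg
  refine ⟨?_, ?_, ?_, ?_⟩
  · intro f g hf hg
    exact hB.add _ _ (cf_res hHM hf) (cf_res hHM hg)
  · intro a f hf
    exact hB.smul a _ (cf_res hHM hf)
  · have h1 := hB.one
    rw [one_eq] at h1 ⊢
    refine (congrArg B (funext fun x => ?_)).trans h1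
    beta_reduce
    have h2 : (⟨x, hHM x.2⟩ : M) = 1 ↔ x = 1 := by
      constructor
      · intro h
        exact Subtype.ext (congrArg (fun t : M => (t : Γ)) h)
      · rintro rfl
        rfl
    by_cases hx : x = 1
    · rw [if_pos (h2.2 hx), if_pos hx]
    · rw [if_neg (fun h => hx (h2.1 h)), if_neg hx]
  · intro f g hf hg
    rw [hBrc (hcf hf hg), hBrc hf, hBrc hg, hmul hf hg]
    exact hB.mul _ _ (hrc hf) (hrc hg)

/-- **KBLK**: induced blocks are defined for the stabilisers of chains -/
theorem kblk_chain {p : ℕ} [Fact p.Prime] [CharP F p] {G : Subgroup Γ} (n : ℕ) :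
    ∀ σ : Set (Subgroup Γ), IsChain (· ≤ ·) σ → (∀ P ∈ σ, IsPGroup p P) → (∀ P ∈ σ, P ≤ G) →
      σ.ncard = n → ∀ B : (NS G σ → F) → F, IsBlock B →
        IsBlock (fun f : G → F => B (fun x : NS G σ => f ⟨x, x.2.1⟩)) := by
  induction n with
  | zero =>
    intro σ _ _ _ hn B hB
    have hσ : σ = ∅ := (Set.ncard_eq_zero (Set.toFinite σ)).1 hn
    refine ind_step (p := p) (M := G) (H := NS G σ) (P := ⊥) IsPGroup.of_bot bot_le ?_
      inf_le_left hB
    rw [Pool.Agent.Y63.NV.normalizer_bot, inf_top_eq, NS, hσ]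
    unfold chainStabilizer
    simp
  | succ n ih =>
    intro σ hσ hp hG hn B hB
    have hne : σ.Nonempty := by
      rw [← Set.ncard_pos (Set.toFinite σ)]
      omega
    obtain ⟨P, hP, hmin⟩ := exists_least hσ hne
    have hsub : σ \ {P} ⊆ σ := Set.sdiff_subset
    have hcard : (σ \ {P}).ncard = n := by
      have := Set.ncard_sdiff_singleton_add_one hP (Set.toFinite σ)
      omega
    have hle : NS G σ ≤ NS G (σ \ {P}) := by
      intro x hx
      have h1 : x ∈ chainStabilizer σ := hx.2
      have h2 : x ∈ chainStabilizer (σ \ {P}) := by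
        rw [mem_chainStabilizer] at h1 ⊢
        exact fun Q hQ => h1 Q hQ.1
      exact ⟨hx.1, h2⟩
    have hPM : P ≤ NS G (σ \ {P}) := by
      intro x hx
      have h2 : x ∈ chainStabilizer (σ \ {P}) := by
        rw [mem_chainStabilizer]
        intro Q hQ
        rw [conjSub_eq_iff]
        exact Subgroup.le_normalizer (hmin Q hQ.1 hx)
      exact ⟨hG P hP hx, h2⟩
    have hH : NS G σ = NS G (σ \ {P}) ⊓ Subgroup.normalizer (P : Set Γ) := by
      refine le_antisymm (le_inf hle ?_) ?_
      · intro x hx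
        have h1 : x ∈ chainStabilizer σ := hx.2
        rw [mem_chainStabilizer] at h1
        exact conjSub_eq_iff.1 (h1 P hP)
      · intro x hx
        have h1 : x ∈ chainStabilizer (σ \ {P}) := hx.1.2
        have h2 : x ∈ chainStabilizer σ := by
          rw [mem_chainStabilizer] at h1 ⊢
          intro Q hQ
          by_cases hQP : Q = P
          · rw [hQP]
            exact conjSub_eq_iff.2 hx.2
          · exact h1 Q ⟨hQ, hQP⟩
        exact ⟨hx.1.1, h2⟩
    have h1 := ind_step (p := p) (hp P hP) hPM hH hle hB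
    exact ih (σ \ {P}) (hσ.mono hsub) (fun Q hQ => hp Q hQ.1) (fun Q hQ => hG Q hQ.1) hcard _ h1

/-- transport -/
theorem block_iso {J J' : Type} [Group J] [Group J'] (e : J ≃* J') {B : (J → F) → F}
    (hB : IsBlock B) : IsBlock (fun f : J' → F => B (fun x => f (e x))) where
  add f g hf hg := hB.add _ _ (fun a x => by rw [map_mul, map_mul, map_inv]; exact hf _ _)
    (fun a x => by rw [map_mul, map_mul, map_inv]; exact hg _ _)
  smul a f hf := hB.smul a _ (fun a x => by rw [map_mul, map_mul, map_inv]; exact hf _ _)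
  one := by
    have h1 : (fun x : J => (Pi.single 1 1 : J' → F) (e x)) = Pi.single 1 1 := by
      funext x
      by_cases hx : x = 1
      · subst hx
        rw [map_one, Pi.single_eq_same, Pi.single_eq_same]
      · rw [Pi.single_eq_of_ne hx, Pi.single_eq_of_ne]
        intro h
        exact hx (e.injective (h.trans (map_one e).symm))
    rw [h1]
    exact hB.one
  mul f g hf hg := by
    have h1 : (fun x : J => conv f g (e x)) = conv (fun x => f (e x)) (fun x => g (e x)) := by
      funext x
      unfold conv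
      rw [← finsum_comp_equiv e.toEquiv]
      refine finsum_congr fun y => ?_
      change f (e y) * g ((e y)⁻¹ * e x) = f (e y) * g (e (y⁻¹ * x))
      rw [map_mul, map_inv]
    rw [h1]
    exact hB.mul _ _ (fun a x => by rw [map_mul, map_mul, map_inv]; exact hf _ _)
      (fun a x => by rw [map_mul, map_mul, map_inv]; exact hg _ _)

end ind

end Pool.Agent.Q18.K
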