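import Pool.Agent.Q18.K.Filt
import Pool.Agent.Y63.NV.Kalt

/-!
# Alternating sums over chains
-/

open scoped BigOperators Classical

set_option linter.unusedSectionVars false

noncomputable section

namespace Pool.Agent.Q18.K

open Pool.Agent.Y63.NV (Kop Kfun SA cut)
open Pool.Agent.Y85.NV (cj mem_cj SYL exists_syl)
open Pool.Agent.Y63.KR

section

variable {Γ E : Type} [Group Γ] [Group E]

/-- chains of `p`-subgroups of `G` which strictly contain `Z` -/
structure CH (p : ℕ) (G Z : Subgroup Γ) (σ : Set (Subgroup Γ)) : Prop where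
  chain : IsChain (· ≤ ·) σ
  isp : ∀ P ∈ σ, IsPGroup p P
  le : ∀ P ∈ σ, P ≤ G
  lt : ∀ P ∈ σ, Z < P

/-- the stabiliser in `G` -/
def NS (G : Subgroup Γ) (σ : Set (Subgroup Γ)) : Subgroup Γ := G ⊓ chainStabilizer σ

/-- the stabiliser in `M` -/
def MC (A : PA Γ E) (M : Subgroup E) (σ : Set (Subgroup Γ)) : Subgroup E :=
  M ⊓ (chainStabilizer σ).comap A.π

theorem cj_eq_conjSub (g : Γ) (P : Subgroup Γ) : cj g P = conjSub g P :=
  Pool.Agent.Y85.NV.cj_eq_map g P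

variable {A : PA Γ E} {M : Subgroup E} {G Z : Subgroup Γ} {p : ℕ}

theorem adm_chain (h : Adm A M G) (σ : Set (Subgroup Γ)) : Adm A (MC A M σ) (NS G σ) where
  norm m hm n hn := by
    refine ⟨h.norm m hm.1 n hn.1, ?_⟩
    have h1 : A.π m ∈ chainStabilizer σ := hm.2
    exact Subgroup.mul_mem _ (Subgroup.mul_mem _ h1 hn.2) (Subgroup.inv_mem _ h1)
  inn n hn := by
    obtain ⟨m, hm, h1, h2⟩ := h.inn n hn.1
    refine ⟨m, ⟨hm, ?_⟩, h1, h2⟩
    change A.π m ∈ chainStabilizer σ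
    rw [h1]
    exact hn.2

theorem CH.pchain {σ : Set (Subgroup Γ)} (h : CH p G Z σ) : IsPChain p σ where
  chain := h.chain
  isPGroup := h.isp
  ne_bot P hP := by
    intro h0
    have := h.lt P hP
    rw [h0] at this
    exact not_lt_bot this

theorem mem_norm_sup {x : Γ} {R : Subgroup Γ} (h1 : x ∈ Subgroup.normalizer (Z : Set Γ))
    (h2 : x ∈ Subgroup.normalizer (R : Set Γ)) :
    x ∈ Subgroup.normalizer ((Z ⊔ R : Subgroup Γ) : Set Γ) := by
  rw [← conjSub_eq_iff] at h1 h2 ⊢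
  have : conjSub x (Z ⊔ R) = conjSub x Z ⊔ conjSub x R := Subgroup.map_sup _ _ _
  rw [this, h1, h2]

variable [Finite Γ]

theorem tog_facts [Fact p.Prime] (hZ : IsPGroup p Z) (hZG : Z ≤ G)
    (hGZ : G ≤ Subgroup.normalizer (Z : Set Γ)) {R : Subgroup Γ} (hR : IsPGroup p R)
    (hRZ : ¬ R ≤ Z) {σ : Set (Subgroup Γ)} (hσ : CH p G Z σ) (hRσ : R ≤ NS G σ) :
    CH p G Z (toggle (Z ⊔ R) σ) ∧ ∀ x : Γ, x ∈ chainStabilizer σ →
      x ∈ Subgroup.normalizer (Z : Set Γ) → x ∈ Subgroup.normalizer (R : Set Γ) →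
      x ∈ chainStabilizer (toggle (Z ⊔ R) σ) := by
  set U := Z ⊔ R with hU
  have hRG : R ≤ G := hRσ.trans inf_le_left
  have hUG : U ≤ G := sup_le hZG hRG
  have hUp : IsPGroup p U := IsPGroup.to_sup_of_normal_left' hZ hR (hRG.trans hGZ)
  have hU1 : U ≠ ⊥ := by
    intro h0
    apply hRZ
    have h1 : R ≤ U := le_sup_right
    rw [h0] at h1
    exact h1.trans bot_le
  have hUσ : ∀ x ∈ U, ∀ P ∈ σ, conjSub x P = P := by
    have h1 : U ≤ chainStabilizer σ := by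
      refine sup_le ?_ (hRσ.trans inf_le_right)
      intro x hx
      rw [mem_chainStabilizer]
      intro P hP
      rw [conjSub_eq_iff]
      exact Subgroup.le_normalizer ((hσ.lt P hP).le hx)
    intro x hx
    exact mem_chainStabilizer.1 (h1 hx)
  set K : Set Γ := {x | (∀ P ∈ σ, conjSub x P = P) ∧ conjSub x U = U} with hK
  have hUK : U ≤ Subgroup.closure K := by
    intro x hx
    apply Subgroup.subset_closure
    exact ⟨hUσ x hx, conjSub_eq_iff.2 (Subgroup.le_normalizer hx)⟩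
  have h1 := toggle_mem hUp hU1 hUK (fun x hx => hx.2) hσ.pchain (fun P hP x hx => hx.1 P hP)
  have hL := lower_cases hσ.chain U
  have hLG : lower U σ ≤ G := by
    rcases hL with h | h
    · rw [h]; exact bot_le
    · exact hσ.le _ h.1
  refine ⟨⟨h1.1.chain, h1.1.isPGroup, ?_, ?_⟩, ?_⟩
  · intro P hP
    unfold toggle at hP
    split_ifs at hP with h2
    · exact hσ.le P hP.1
    · rcases hP with rfl | hP
      · exact sup_le hLG hUG
      · exact hσ.le P hP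
  · intro P hP
    unfold toggle at hP
    split_ifs at hP with h2
    · exact hσ.lt P hP.1
    · rcases hP with rfl | hP
      · refine lt_of_le_of_ne (le_sup_left.trans (le_toggled U σ)) ?_
        intro h3
        apply hRZ
        rw [h3]
        exact le_sup_right.trans (le_toggled U σ)
      · exact hσ.lt P hP
  · intro x hx hxZ hxR
    rw [mem_chainStabilizer] at hx ⊢
    intro P hP
    refine h1.2 P hP x ⟨hx, ?_⟩
    rw [conjSub_eq_iff]
    exact mem_norm_sup hxZ hxR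

/-- the chains normalised by a `p`-subgroup `R` which is not contained in `Z` cancel -/
theorem togE [Fact p.Prime] (hZ : IsPGroup p Z) (hZG : Z ≤ G)
    (hGZ : G ≤ Subgroup.normalizer (Z : Set Γ))
    (hMZ : ∀ m ∈ M, A.π m ∈ Subgroup.normalizer (Z : Set Γ))
    (w : Subgroup Γ → Subgroup E → ℤ) {R : Subgroup Γ} (hR : IsPGroup p R) (hRZ : ¬ R ≤ Z)
    [Fintype {σ : Set (Subgroup Γ) // CH p G Z σ}] :
    ∑ σ : {σ : Set (Subgroup Γ) // CH p G Z σ}, (-1) ^ σ.1.ncard *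
      (if R ≤ NS G σ.1 then w (NS G σ.1 ⊓ Subgroup.normalizer (R : Set Γ))
        (MS A (MC A M σ.1) R) else 0) = 0 := by
  set f : {σ : Set (Subgroup Γ) // CH p G Z σ} → ℤ := fun σ => (-1) ^ σ.1.ncard *
    w (NS G σ.1 ⊓ Subgroup.normalizer (R : Set Γ)) (MS A (MC A M σ.1) R) with hf
  have h1 : ∀ σ : {σ : Set (Subgroup Γ) // CH p G Z σ}, (-1) ^ σ.1.ncard *
      (if R ≤ NS G σ.1 then w (NS G σ.1 ⊓ Subgroup.normalizer (R : Set Γ))
        (MS A (MC A M σ.1) R) else 0) =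
      if R ≤ NS G σ.1 then f σ else 0 := by
    intro σ
    by_cases h : R ≤ NS G σ.1
    · rw [if_pos h, if_pos h]
    · rw [if_neg h, if_neg h, mul_zero]
  have hRn : R ≤ Subgroup.normalizer (Z : Set Γ) → True := fun _ => trivial
  have hst : ∀ {σ : Set (Subgroup Γ)}, CH p G Z σ → R ≤ NS G σ →
      R ≤ NS G (toggle (Z ⊔ R) σ) := by
    intro σ hσ hRσ x hx
    refine ⟨(hRσ hx).1, (tog_facts hZ hZG hGZ hR hRZ hσ hRσ).2 x (hRσ hx).2
      (hGZ (hRσ hx).1) (Subgroup.le_normalizer hx)⟩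
  have hN1 : ∀ {σ : Set (Subgroup Γ)}, CH p G Z σ → R ≤ NS G σ →
      NS G σ ⊓ Subgroup.normalizer (R : Set Γ) ≤
        NS G (toggle (Z ⊔ R) σ) ⊓ Subgroup.normalizer (R : Set Γ) := by
    intro σ hσ hRσ x hx
    refine ⟨⟨hx.1.1, (tog_facts hZ hZG hGZ hR hRZ hσ hRσ).2 x hx.1.2 (hGZ hx.1.1) hx.2⟩, hx.2⟩
  have hM1 : ∀ {σ : Set (Subgroup Γ)}, CH p G Z σ → R ≤ NS G σ →
      MS A (MC A M σ) R ≤ MS A (MC A M (toggle (Z ⊔ R) σ)) R := by
    intro σ hσ hRσ x hx
    refine ⟨⟨hx.1.1, (tog_facts hZ hZG hGZ hR hRZ hσ hRσ).2 _ hx.1.2 (hMZ x hx.1.1) hx.2⟩, hx.2⟩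
  rw [Finset.sum_congr rfl fun σ _ => h1 σ, ← Finset.sum_filter]
  refine Finset.sum_involution
    (fun σ hσ => ⟨toggle (Z ⊔ R) σ.1,
      (tog_facts hZ hZG hGZ hR hRZ σ.2 (Finset.mem_filter.mp hσ).2).1⟩)
    ?_ ?_ ?_ ?_
  · intro σ hσ
    have hσ1 := (Finset.mem_filter.mp hσ).2
    have hc := (tog_facts hZ hZG hGZ hR hRZ σ.2 hσ1).1
    have hr := hst σ.2 hσ1
    have e1 : NS G (toggle (Z ⊔ R) σ.1) ⊓ Subgroup.normalizer (R : Set Γ) =
        NS G σ.1 ⊓ Subgroup.normalizer (R : Set Γ) := by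
      refine le_antisymm ?_ (hN1 σ.2 hσ1)
      have := hN1 hc hr
      rwa [toggle_toggle] at this
    have e2 : MS A (MC A M (toggle (Z ⊔ R) σ.1)) R = MS A (MC A M σ.1) R := by
      refine le_antisymm ?_ (hM1 σ.2 hσ1)
      have := hM1 hc hr
      rwa [toggle_toggle] at this
    simp only [hf]
    rw [ncard_toggle, e1, e2]
    ring
  · intro σ hσ _ h
    have h1 : toggle (Z ⊔ R) σ.1 = σ.1 := congrArg Subtype.val h
    have h2 := ncard_toggle (Z ⊔ R) σ.1
    rw [h1] at h2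
    have h3 : ((-1 : ℤ)) ^ σ.1.ncard ≠ 0 := pow_ne_zero _ (by norm_num)
    omega
  · intro σ hσ
    rw [Finset.mem_filter]
    exact ⟨Finset.mem_univ _, hst σ.2 (Finset.mem_filter.mp hσ).2⟩
  · intro σ hσ
    apply Subtype.ext
    exact toggle_toggle (Z ⊔ R) σ.1

variable {F : Type} [Field F]

theorem cut_inv' (h : Adm A M G) {z : Γ → F} (hz : ∀ m ∈ M, ∀ x, z (A.a m x) = z x)
    {σ : Set (Subgroup Γ)} {m : E} (hm : m ∈ MC A M σ) (x : Γ) :
    cut z (NS G σ) (A.a m x) = cut z (NS G σ) x := by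
  unfold cut
  simp only [a_mem_iff (adm_chain h σ) hm x, hz m hm.1 x]

theorem cut_cut' (z : Γ → F) (H R : Subgroup Γ) :
    cut (cut z H) (Subgroup.centralizer (R : Set Γ)) =
      cut (cut z (H ⊓ Subgroup.normalizer (R : Set Γ))) (Subgroup.centralizer (R : Set Γ)) := by
  funext g
  unfold cut
  by_cases hg : g ∈ Subgroup.centralizer (R : Set Γ)
  · rw [if_pos hg, if_pos hg]
    have h1 : g ∈ Subgroup.normalizer (R : Set Γ) := Subgroup.centralizer_le_normalizer _ hg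
    by_cases hH : g ∈ H
    · rw [if_pos hH, if_pos (show g ∈ H ⊓ Subgroup.normalizer (R : Set Γ) from ⟨hH, h1⟩)]
    · rw [if_neg hH, if_neg (fun h => hH h.1)]
  · rw [if_neg hg, if_neg hg]

/-- the weight function -/
def wE (A : PA Γ E) (p : ℕ) (z : Γ → F) (c : F) (R J : Subgroup Γ) (K : Subgroup E) : ℤ :=
  (Nat.card K : ℤ) * gE A (cut (cut z J) (Subgroup.centralizer (R : Set Γ))) (SA p J R) K c

/-- only the subgroups of `Z` contribute -/
theorem alt_main [Finite E] [Fact p.Prime] [IsAlgClosed F] [CharP F p] (h : Adm A M G)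
    (hZ : IsPGroup p Z) (hZG : Z ≤ G) (hGZ : G ≤ Subgroup.normalizer (Z : Set Γ))
    (hMZ : ∀ m ∈ M, A.π m ∈ Subgroup.normalizer (Z : Set Γ))
    {z : Γ → F} (hz : ∀ m ∈ M, ∀ x, z (A.a m x) = z x) (c : F)
    [Fintype {σ : Set (Subgroup Γ) // CH p G Z σ}] [Fintype (Subgroup Γ)] :
    ∑ σ : {σ : Set (Subgroup Γ) // CH p G Z σ}, (-1) ^ σ.1.ncard *
      ((Nat.card (MC A M σ.1) : ℤ) *
        gE A (cut z (NS G σ.1)) (NS G σ.1 : Set Γ) (MC A M σ.1) c) =
    ∑ R : Subgroup Γ, if R ≤ Z then ∑ σ : {σ : Set (Subgroup Γ) // CH p G Z σ},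
      (-1) ^ σ.1.ncard * (if IsPGroup p R ∧ R ≤ NS G σ.1 then
        wE A p z c R (NS G σ.1 ⊓ Subgroup.normalizer (R : Set Γ)) (MS A (MC A M σ.1) R)
          else 0) else 0 := by
  have h1 : ∀ σ : {σ : Set (Subgroup Γ) // CH p G Z σ}, (-1) ^ σ.1.ncard *
      ((Nat.card (MC A M σ.1) : ℤ) *
        gE A (cut z (NS G σ.1)) (NS G σ.1 : Set Γ) (MC A M σ.1) c) =
      ∑ R : Subgroup Γ, (-1) ^ σ.1.ncard * (if IsPGroup p R ∧ R ≤ NS G σ.1 then
        wE A p z c R (NS G σ.1 ⊓ Subgroup.normalizer (R : Set Γ)) (MS A (MC A M σ.1) R)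
          else 0) := by
    intro σ
    have h2 := kfiltE (p := p) (adm_chain h σ.1) (z := cut z (NS G σ.1))
      (fun m hm x => cut_inv' h hz hm x) (fun x hx => if_neg hx) c
    rw [← Nat.cast_mul, h2, Nat.cast_sum, Finset.mul_sum]
    refine Finset.sum_congr rfl fun R _ => ?_
    congr 1
    by_cases hR : IsPGroup p R ∧ R ≤ NS G σ.1
    · rw [if_pos hR, if_pos hR, Nat.cast_mul, cut_cut']
      rfl
    · rw [if_neg hR, if_neg hR, Nat.cast_zero]
  rw [Finset.sum_congr rfl fun σ _ => h1 σ, Finset.sum_comm]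
  refine Finset.sum_congr rfl fun R _ => ?_
  by_cases hRZ : R ≤ Z
  · rw [if_pos hRZ]
  · rw [if_neg hRZ]
    by_cases hR : IsPGroup p R
    · have h2 := togE hZ hZG hGZ hMZ (fun J K => wE A p z c R J K) hR hRZ
      refine Eq.trans ?_ h2
      refine Finset.sum_congr rfl fun σ _ => ?_
      by_cases h3 : R ≤ NS G σ.1
      · rw [if_pos ⟨hR, h3⟩, if_pos h3]
      · rw [if_neg (fun h => h3 h.2), if_neg h3]
    · refine Finset.sum_eq_zero fun σ _ => ?_
      rw [if_neg (fun h => hR h.1), mul_zero]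

/-- the `p'`-power of an element with Sylow subgroup `R` of the centraliser is in `R` -/
theorem sa_pow [Fact p.Prime] {N R : Subgroup Γ} (hR : R ≤ N) (hp : IsPGroup p R) {x : Γ}
    (hx : x ∈ SA p (N ⊓ Subgroup.normalizer (R : Set Γ)) R) :
    ∃ k : ℕ, ¬ p ∣ k ∧ x ^ k ∈ R := by
  rw [sa_iff hR hp] at hx
  obtain ⟨hxN, hs⟩ := hx
  set k := orderOf x / p ^ (orderOf x).factorization p with hk
  have hpp : p.Prime := Fact.out
  refine ⟨k, Nat.not_dvd_ordCompl hpp (orderOf_pos x).ne', ?_⟩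
  have hyp : IsPGroup p (Subgroup.zpowers (x ^ k)) := by
    rw [IsPGroup.iff_card]
    refine ⟨(orderOf x).factorization p, ?_⟩
    rw [Nat.card_zpowers, orderOf_pow, hk]
    have h1 : orderOf x / p ^ (orderOf x).factorization p ∣ orderOf x := Nat.ordCompl_dvd _ _
    rw [Nat.gcd_eq_right h1]
    exact Nat.div_div_self (Nat.ordProj_dvd _ _) (orderOf_pos x).ne'
  have hcomm : ∀ r ∈ R, ∀ y ∈ Subgroup.zpowers (x ^ k), r * y = y * r := by
    rintro r hr y ⟨n, rfl⟩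
    have h1 : Commute r x := hs.cent r hr
    exact ((h1.pow_right k).zpow_right n)
  have hQp : IsPGroup p (R ⊔ Subgroup.zpowers (x ^ k) : Subgroup Γ) := by
    refine IsPGroup.to_sup_of_normal_left' hs.pg hyp ?_
    intro y hy
    rw [Subgroup.mem_normalizer_iff]
    intro r
    constructor
    · intro hr
      rw [← hcomm r hr y hy, mul_inv_cancel_right]
      exact hr
    · intro hr
      have h1 := hcomm _ hr y hy
      have h2 : y * r * y⁻¹ = r := by
        have h3 : y * r = y * (y * r * y⁻¹) := by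
          rw [← h1]; group
        exact (mul_left_cancel h3).symm
      rwa [h2] at hr
  have hQN : (R ⊔ Subgroup.zpowers (x ^ k) : Subgroup Γ) ≤ N := by
    refine sup_le hR ?_
    rw [Subgroup.zpowers_le]
    exact N.pow_mem hxN k
  have hQc : ∀ r ∈ (R ⊔ Subgroup.zpowers (x ^ k) : Subgroup Γ), r * x = x * r := by
    have h1 : (R ⊔ Subgroup.zpowers (x ^ k) : Subgroup Γ) ≤ Subgroup.centralizer {x} := by
      refine sup_le ?_ ?_
      · intro r hr
        exact Subgroup.mem_centralizer_singleton_iff.2 (hs.cent r hr)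
      · rw [Subgroup.zpowers_le]
        exact Subgroup.mem_centralizer_singleton_iff.2 ((Commute.refl x).pow_left k)
    intro r hr
    exact Subgroup.mem_centralizer_singleton_iff.1 (h1 hr)
  obtain ⟨P, hQP, hsP⟩ := exists_syl hQN hQp hQc
  have h1 : Nat.card P = Nat.card R := by
    obtain ⟨a, ha⟩ := IsPGroup.iff_card.1 hsP.pg
    obtain ⟨b, hb⟩ := IsPGroup.iff_card.1 hs.pg
    have h2 := hsP.card
    rw [hs.card, ha, hb, hpp.factorization_pow, hpp.factorization_pow, Finsupp.single_eq_same,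
      Finsupp.single_eq_same] at h2
    rw [ha, hb, h2]
  have h2 : R = P := Subgroup.eq_of_le_of_card_ge (le_sup_left.trans hQP) h1.le
  rw [h2]
  exact hQP (Subgroup.mem_sup_right (Subgroup.mem_zpowers _))

theorem sa_act [Fact p.Prime] {N : Subgroup Γ} (h : Adm A M N) {R : Subgroup Γ} (hRN : R ≤ N)
    (hR : IsPGroup p R) : ∀ m ∈ MS A M R, ∀ x,
      A.a m x ∈ SA p (N ⊓ Subgroup.normalizer (R : Set Γ)) R ↔
        x ∈ SA p (N ⊓ Subgroup.normalizer (R : Set Γ)) R := by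
  have h1 : ∀ m ∈ MS A M R, ∀ x ∈ SA p (N ⊓ Subgroup.normalizer (R : Set Γ)) R,
      A.a m x ∈ SA p (N ⊓ Subgroup.normalizer (R : Set Γ)) R := by
    intro m hm x hx
    rw [sa_iff hRN hR] at hx ⊢
    refine ⟨a_mem h hm.1 hx.1, ?_⟩
    have h2 := syl_act h hx.2 hm.1
    rwa [cj_eq_iff.2 hm.2] at h2
  intro m hm x
  refine ⟨fun hx => ?_, h1 m hm x⟩
  have h2 := h1 m⁻¹ (Subgroup.inv_mem _ hm) _ hx
  rwa [a_inv] at h2

/-- **two actions with the same underlying conjugations** -/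
theorem alt_eq [Finite E] [Fact p.Prime] [IsAlgClosed F] [CharP F p]
    (red : integralClosure ℤ ℂ →+* F) {A' : PA Γ E} (hπ : A'.π = A.π) (h : Adm A M G)
    (h' : Adm A' M G) (hZ : IsPGroup p Z) (hZG : Z ≤ G)
    (hGZ : G ≤ Subgroup.normalizer (Z : Set Γ))
    (hMZ : ∀ m ∈ M, A.π m ∈ Subgroup.normalizer (Z : Set Γ))
    (hA : ∀ m ∈ M, ∀ x ∈ G, (∃ k : ℕ, ¬ p ∣ k ∧ x ^ k ∈ Z) → A.a m x = A'.a m x)
    {z : Γ → F} (hz : ∀ m ∈ M, ∀ x, z (A.a m x) = z x) (hz' : ∀ m ∈ M, ∀ x, z (A'.a m x) = z x)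
    (c : F) [Fintype {σ : Set (Subgroup Γ) // CH p G Z σ}]
    [∀ σ : {σ : Set (Subgroup Γ) // CH p G Z σ}, Fintype (MC A M σ.1)] :
    ∑ σ : {σ : Set (Subgroup Γ) // CH p G Z σ}, (-1) ^ σ.1.ncard *
      ∑ m : MC A M σ.1, (Fnum A red (NS G σ.1) m (cut z (NS G σ.1)) c : ℤ) =
    ∑ σ : {σ : Set (Subgroup Γ) // CH p G Z σ}, (-1) ^ σ.1.ncard *
      ∑ m : MC A M σ.1, (Fnum A' red (NS G σ.1) m (cut z (NS G σ.1)) c : ℤ) := by
  have : Fintype (Subgroup Γ) := Fintype.ofFinite _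
  have hMC : ∀ σ, MC A' M σ = MC A M σ := fun σ => by unfold MC; rw [hπ]
  have hMS : ∀ K R, MS A' K R = MS A K R := fun K R => by unfold MS; rw [hπ]
  have e1 : ∀ σ : {σ : Set (Subgroup Γ) // CH p G Z σ},
      ∑ m : MC A M σ.1, (Fnum A red (NS G σ.1) m (cut z (NS G σ.1)) c : ℤ) =
      (Nat.card (MC A M σ.1) : ℤ) *
        gE A (cut z (NS G σ.1)) (NS G σ.1 : Set Γ) (MC A M σ.1) c := fun σ =>
    kdimE red (adm_chain h σ.1) (fun m hm x => cut_inv' h hz hm x) (fun x hx => if_neg hx) c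
  have e2 : ∀ σ : {σ : Set (Subgroup Γ) // CH p G Z σ},
      ∑ m : MC A M σ.1, (Fnum A' red (NS G σ.1) m (cut z (NS G σ.1)) c : ℤ) =
      (Nat.card (MC A' M σ.1) : ℤ) *
        gE A' (cut z (NS G σ.1)) (NS G σ.1 : Set Γ) (MC A' M σ.1) c := fun σ => by
    have h1 : Adm A' (MC A M σ.1) (NS G σ.1) := by
      rw [← hMC]
      exact adm_chain h' σ.1
    rw [hMC]
    exact kdimE red h1 (fun m hm x => cut_inv' h' hz' (by rw [hMC]; exact hm) x)
      (fun x hx => if_neg hx) c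
  refine Eq.trans (Finset.sum_congr rfl fun σ _ =>
    congrArg (fun t : ℤ => (-1) ^ σ.1.ncard * t) (e1 σ)) ?_
  refine Eq.trans ?_ (Finset.sum_congr rfl fun σ _ =>
    congrArg (fun t : ℤ => (-1) ^ σ.1.ncard * t) (e2 σ)).symm
  rw [alt_main h hZ hZG hGZ hMZ hz c, alt_main h' hZ hZG hGZ (by rw [hπ]; exact hMZ) hz' c]
  refine Finset.sum_congr rfl fun R _ => ?_
  by_cases hRZ : R ≤ Z
  · rw [if_pos hRZ, if_pos hRZ]
    refine Finset.sum_congr rfl fun σ _ => ?_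
    by_cases hR : IsPGroup p R ∧ R ≤ NS G σ.1
    · rw [if_pos hR, if_pos hR, hMC, hMS]
      unfold wE gE
      -- the invariant functions are the same
      have h3 : ∀ m ∈ MS A (MC A M σ.1) R,
          ∀ x ∈ SA p (NS G σ.1 ⊓ Subgroup.normalizer (R : Set Γ)) R, A.a m x = A'.a m x := by
        intro m hm x hx
        obtain ⟨k, hk, hxk⟩ := sa_pow hR.2 hR.1 hx
        exact hA m hm.1.1 x hx.1.1.1 ⟨k, hk, hRZ hxk⟩
      have h4 := sa_act (p := p) (adm_chain h σ.1) hR.2 hR.1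
      have h5 := sa_act (p := p) (adm_chain h' σ.1) hR.2 hR.1
      rw [hMC, hMS] at h5
      have h6 : VE A F (SA p (NS G σ.1 ⊓ Subgroup.normalizer (R : Set Γ)) R)
          (MS A (MC A M σ.1) R) = VE A' F (SA p (NS G σ.1 ⊓ Subgroup.normalizer (R : Set Γ)) R)
          (MS A (MC A M σ.1) R) := by
        ext θ
        refine and_congr_right fun h0 => ?_
        refine forall₂_congr fun m hm => forall_congr' fun x => ?_
        by_cases hx : x ∈ SA p (NS G σ.1 ⊓ Subgroup.normalizer (R : Set Γ)) R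
        · rw [h3 m hm x hx]
        · rw [h0 x hx, h0 _ (fun h7 => hx ((h4 m hm x).1 h7)),
            h0 _ (fun h7 => hx ((h5 m hm x).1 h7))]
      rw [h6]
    · rw [if_neg hR, if_neg hR]
  · rw [if_neg hRZ, if_neg hRZ]

end

end Pool.Agent.Q18.K
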