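import Pool.Agent.Q18.K.Sep
import Pool.Agent.Y171.NV.Kfin

/-!
# Sums over the conjugacy classes of chains
-/

open scoped BigOperators Classical

set_option linter.unusedSectionVars false

noncomputable section

namespace Pool.Agent.Q18.K

open Pool.Agent.Helper884.IC (IsIrrChar irr_finite)
open Pool.Agent.Y63.NV (redC centralValue IsClassFun IsBlock cut)
open Pool.Agent.Y63.KR
open Pool.Agent.Y63.AWC (irr_comp)
open Pool.Agent.Y286.NV (centralValue_comp irr_class)

section

variable {Γ : Type} [Group Γ] {p : ℕ} {Z : Subgroup Γ}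

theorem conjSub_normal (hZ : Z.Normal) (g : Γ) : conjSub g Z = Z := by
  rw [conjSub_eq_iff, Subgroup.normalizer_eq_top]
  exact Subgroup.mem_top _

theorem CH.conj (hZ : Z.Normal) {σ : Set (Subgroup Γ)} (h : CH p ⊤ Z σ) (g : Γ) :
    CH p ⊤ Z (conjSub g '' σ) := by
  refine ⟨?_, ?_, fun _ _ => le_top, ?_⟩
  · rintro _ ⟨P, hP, rfl⟩ _ ⟨Q, hQ, rfl⟩ _
    rcases h.chain.total hP hQ with h1 | h1
    · exact Or.inl (conjSub_le h1)
    · exact Or.inr (conjSub_le h1)
  · rintro _ ⟨P, hP, rfl⟩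
    exact (h.isp P hP).map _
  · rintro _ ⟨P, hP, rfl⟩
    have h1 := h.lt P hP
    refine lt_of_le_of_ne ?_ ?_
    · have h2 := conjSub_le (g := g) h1.le
      rwa [conjSub_normal hZ] at h2
    · intro h2
      apply h1.ne
      apply conjSub_injective g
      rw [conjSub_normal hZ]
      exact h2

/-- conjugacy of chains -/
def chS (p : ℕ) (Z : Subgroup Γ) : Setoid {σ : Set (Subgroup Γ) // CH p ⊤ Z σ} where
  r σ τ := ∃ g : Γ, τ.1 = conjSub g '' σ.1
  iseqv :=
    { refl := fun σ => ⟨1, by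
        have : (conjSub (1 : Γ)) = id := funext conjSub_one
        rw [this, Set.image_id]⟩
      symm := by
        rintro σ τ ⟨g, hg⟩
        refine ⟨g⁻¹, ?_⟩
        rw [hg, ← Set.image_comp]
        have : conjSub g⁻¹ ∘ conjSub g = id := by
          funext P
          change conjSub g⁻¹ (conjSub g P) = P
          rw [← conjSub_mul, inv_mul_cancel, conjSub_one]
        rw [this, Set.image_id]
      trans := by
        rintro σ τ ρ ⟨g, hg⟩ ⟨h, hh⟩
        refine ⟨h * g, ?_⟩
        rw [hh, hg, ← Set.image_comp]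
        congr 1
        exact (funext fun P => conjSub_mul h g P).symm }

theorem card_mul_gen [Finite Γ] (P : Set (Subgroup Γ) → Prop)
    (hP : ∀ σ, P σ → IsChain (· ≤ ·) σ) (hc : ∀ (g : Γ) (σ), P σ → P (conjSub g '' σ))
    (S : Setoid {σ : Set (Subgroup Γ) // P σ})
    (hS : ∀ σ τ, S.r σ τ ↔ ∃ g : Γ, τ.1 = conjSub g '' σ.1) (f : Subgroup Γ → ℤ)
    (hf : ∀ (g : Γ) (H : Subgroup Γ), f (conjSub g H) = f H)
    [Fintype {σ : Set (Subgroup Γ) // P σ}] :
    (Nat.card Γ : ℤ) * ∑ᶠ c : Quotient S,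
      (-1) ^ (Quotient.out c).1.ncard * f (chainStabilizer (Quotient.out c).1) =
      ∑ σ : {σ : Set (Subgroup Γ) // P σ},
        (-1) ^ σ.1.ncard * ((Nat.card (chainStabilizer σ.1) : ℤ) * f (chainStabilizer σ.1)) := by
  let _ : MulAction Γ {σ : Set (Subgroup Γ) // P σ} :=
    { smul := fun g σ => ⟨conjSub g '' σ.1, hc g σ.1 σ.2⟩
      one_smul := fun σ => by
        apply Subtype.ext
        change conjSub (1 : Γ) '' σ.1 = σ.1
        have : (conjSub (1 : Γ)) = id := funext conjSub_one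
        rw [this, Set.image_id]
      mul_smul := fun g h σ => by
        apply Subtype.ext
        change conjSub (g * h) '' σ.1 = conjSub g '' (conjSub h '' σ.1)
        rw [← Set.image_comp]
        congr 1
        exact funext fun P => conjSub_mul g h P }
  have hsm : ∀ (g : Γ) (σ : {σ : Set (Subgroup Γ) // P σ}),
      (g • σ).1 = conjSub g '' σ.1 := fun _ _ => rfl
  have h := orbit_sum (G := Γ) S (by
    intro σ τ
    rw [hS]
    constructor
    · rintro ⟨g, hg⟩
      exact ⟨g, Subtype.ext (by rw [hsm, hg])⟩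
    · rintro ⟨g, hg⟩
      exact ⟨g, by rw [← hg, hsm]⟩)
    (fun σ => (-1) ^ σ.1.ncard * f (chainStabilizer σ.1)) (by
      intro σ τ hr
      obtain ⟨g, hg⟩ := (hS σ τ).1 hr
      rw [hg, ncard_conj, chainStabilizer_conj, hf])
  rw [h]
  refine Finset.sum_congr rfl fun σ _ => ?_
  have hst : Nat.card (MulAction.stabilizer Γ σ) = Nat.card (chainStabilizer σ.1) := by
    refine Nat.card_congr (Equiv.subtypeEquivRight fun g => ?_)
    rw [MulAction.mem_stabilizer_iff, Subtype.ext_iff, hsm, mem_chainStabilizer]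
    constructor
    · intro h3 P hP'
      have hgP : conjSub g P ∈ σ.1 := by
        rw [← h3]
        exact ⟨P, hP', rfl⟩
      have hcard : Nat.card (conjSub g P) = Nat.card P :=
        Nat.card_congr (Subgroup.equivMapOfInjective _ _ (MulAut.conj g).injective).toEquiv.symm
      rcases (hP σ.1 σ.2).total hgP hP' with h4 | h4
      · exact Subgroup.eq_of_le_of_card_ge h4 hcard.ge
      · exact (Subgroup.eq_of_le_of_card_ge h4 hcard.le).symm
    · intro h3
      ext P
      constructor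
      · rintro ⟨Q, hQ, rfl⟩
        rw [h3 Q hQ]
        exact hQ
      · intro hP'
        exact ⟨P, hP', h3 P hP'⟩
  rw [hst]
  ring

theorem card_mul_cls [Finite Γ] (hZ : Z.Normal) (f : Subgroup Γ → ℤ)
    (hf : ∀ (g : Γ) (H : Subgroup Γ), f (conjSub g H) = f H)
    [Fintype {σ : Set (Subgroup Γ) // CH p ⊤ Z σ}] :
    (Nat.card Γ : ℤ) * ∑ᶠ c : Quotient (chS p Z),
      (-1) ^ (Quotient.out c).1.ncard * f (chainStabilizer (Quotient.out c).1) =
      ∑ σ : {σ : Set (Subgroup Γ) // CH p ⊤ Z σ},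
        (-1) ^ σ.1.ncard * ((Nat.card (chainStabilizer σ.1) : ℤ) * f (chainStabilizer σ.1)) :=
  card_mul_gen (CH p ⊤ Z) (fun _ h => h.chain) (fun g _ h => h.conj hZ g) (chS p Z)
    (fun _ _ => Iff.rfl) f hf

/-- sums over classes for two descriptions of the same chains -/
theorem cls_eq [Finite Γ] (P P' : Set (Subgroup Γ) → Prop) (hPP : ∀ σ, P σ ↔ P' σ)
    (hP : ∀ σ, P' σ → IsChain (· ≤ ·) σ) (hc : ∀ (g : Γ) (σ), P' σ → P' (conjSub g '' σ))
    (S : Setoid {σ : Set (Subgroup Γ) // P σ})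
    (hS : ∀ σ τ, S.r σ τ ↔ ∃ g : Γ, τ.1 = conjSub g '' σ.1)
    (S' : Setoid {σ : Set (Subgroup Γ) // P' σ})
    (hS' : ∀ σ τ, S'.r σ τ ↔ ∃ g : Γ, τ.1 = conjSub g '' σ.1) (f : Subgroup Γ → ℤ)
    (hf : ∀ (g : Γ) (H : Subgroup Γ), f (conjSub g H) = f H) :
    ∑ᶠ c : Quotient S, (-1) ^ (Quotient.out c).1.ncard * f (chainStabilizer (Quotient.out c).1) =
    ∑ᶠ c : Quotient S',
      (-1) ^ (Quotient.out c).1.ncard * f (chainStabilizer (Quotient.out c).1) := by
  have : Fintype {σ : Set (Subgroup Γ) // P σ} := Fintype.ofFinite _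
  have : Fintype {σ : Set (Subgroup Γ) // P' σ} := Fintype.ofFinite _
  have hpos : (Nat.card Γ : ℤ) ≠ 0 := by exact_mod_cast Nat.card_pos.ne'
  apply mul_left_cancel₀ hpos
  rw [card_mul_gen P (fun σ h => hP σ ((hPP σ).1 h))
    (fun g σ h => (hPP _).2 (hc g σ ((hPP σ).1 h))) S hS f hf,
    card_mul_gen P' hP hc S' hS' f hf]
  exact Fintype.sum_equiv (Equiv.subtypeEquivRight hPP) _ _ fun σ => rfl

variable {F : Type} [Field F]

/-- the number of the irreducible characters with a property of the set of the values whose block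
induces `B` -/
def numQ (red : integralClosure ℤ ℂ →+* F) (B : (Γ → F) → F) (Q : Set ℂ → Prop)
    (H : Subgroup Γ) : ℕ :=
  Nat.card {χ : H → ℂ // IsIrrChar χ ∧ Q (Set.range χ) ∧
    ∀ f : Γ → F, IsClassFun f → centralValue red χ (fun x => f x) = B f}

theorem numQ_conj [Finite Γ] (red : integralClosure ℤ ℂ →+* F) (B : (Γ → F) → F)
    (Q : Set ℂ → Prop) (g : Γ) (H : Subgroup Γ) :
    numQ red B Q (conjSub g H) = numQ red B Q H := by
  let e : H ≃* conjSub g H := (MulAut.conj g).subgroupMap H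
  have he : ∀ x : H, ((e x : conjSub g H) : Γ) = g * x * g⁻¹ := fun x => rfl
  have hval : ∀ χ : conjSub g H → ℂ, IsIrrChar χ → ∀ z : Γ → F, IsClassFun z →
      centralValue red (fun x => χ (e x)) (fun x : H => z x) =
        centralValue red χ (fun x => z x) := by
    intro χ hχ z hz
    have h1 := centralValue_comp red e χ (irr_class hχ) (fun x => z x)
      (fun a x => hz a x)
    rw [← h1]
    congr 1
    funext x
    change z x = z (e x : conjSub g H)
    rw [he, hz]
  have hr : ∀ χ : conjSub g H → ℂ, Set.range (fun x => χ (e x)) = Set.range χ := fun χ =>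
    e.surjective.range_comp χ
  have hr' : ∀ χ : H → ℂ, Set.range (fun x => χ (e.symm x)) = Set.range χ := fun χ =>
    e.symm.surjective.range_comp χ
  unfold numQ
  refine Nat.card_congr
    { toFun := fun χ => ⟨fun x => χ.1 (e x), irr_comp e χ.2.1, ?_, ?_⟩
      invFun := fun χ => ⟨fun x => χ.1 (e.symm x), irr_comp e.symm χ.2.1, ?_, ?_⟩
      left_inv := ?_
      right_inv := ?_ }
  · rw [hr]
    exact χ.2.2.1
  · intro z hz
    rw [hval χ.1 χ.2.1 z hz]
    exact χ.2.2.2 z hz
  · rw [hr']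
    exact χ.2.2.1
  · intro z hz
    have h1 := hval (fun x => χ.1 (e.symm x)) (irr_comp e.symm χ.2.1) z hz
    have h2 : (fun x => (fun x => χ.1 (e.symm x)) (e x)) = χ.1 := by
      funext x
      change χ.1 (e.symm (e x)) = χ.1 x
      rw [e.symm_apply_apply]
    rw [h2] at h1
    rw [← h1]
    exact χ.2.2.2 z hz
  · intro χ
    apply Subtype.ext
    funext x
    change χ.1 (e (e.symm x)) = χ.1 x
    rw [e.apply_symm_apply]
  · intro χ
    apply Subtype.ext
    funext x
    change χ.1 (e.symm (e x)) = χ.1 x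
    rw [e.symm_apply_apply]

/-- **the alternating sum over the conjugacy classes of chains** -/
theorem cls_sum [Finite Γ] [Fact p.Prime] [IsAlgClosed F] [CharP F p]
    (red : integralClosure ℤ ℂ →+* F) (hZ : IsPGroup p Z) (hZn : Z.Normal)
    {s : ℂ ≃+* ℂ} (hs : ∀ ζ : ℂ, ζ ^ Nat.card Γ = 1 →
      (∃ k : ℕ, ¬ p ∣ k ∧ ζ ^ (k * Monoid.exponent Z) = 1) → s ζ = ζ)
    {B : (Γ → F) → F} (hB : IsBlock B) :
    ∑ᶠ c : Quotient (chS p Z), (-1) ^ (Quotient.out c).1.ncard *
      (numQ red B (fun S => ∃ a ∈ S, s a ≠ a) (chainStabilizer (Quotient.out c).1) : ℤ) = 0 := by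
  have : Fintype {σ : Set (Subgroup Γ) // CH p ⊤ Z σ} := Fintype.ofFinite _
  have h1 := card_mul_cls (p := p) hZn
    (fun H => (numQ red B (fun S => ∃ a ∈ S, s a ≠ a) H : ℤ))
    (fun g H => by rw [numQ_conj])
  have h2 := blk_sum (p := p) (Z := Z) red hZ hs hB
  have h3 : ∀ H : Subgroup Γ, Nat.card {χ : H → ℂ // IsIrrChar χ ∧ (∃ x, s (χ x) ≠ χ x) ∧
      ∀ f : Γ → F, IsClassFun f → centralValue red χ (fun x => f x) = B f} =
      numQ red B (fun S => ∃ a ∈ S, s a ≠ a) H := by
    intro H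
    unfold numQ
    refine Nat.card_congr (Equiv.subtypeEquivRight fun χ => ?_)
    refine and_congr_right fun _ => and_congr_left fun _ => ?_
    change (∃ x, s (χ x) ≠ χ x) ↔ ∃ a ∈ Set.range χ, s a ≠ a
    rw [Set.exists_range_iff]
  simp only [h3] at h2
  rw [h2] at h1
  rcases mul_eq_zero.1 h1 with h4 | h4
  · exfalso
    have h5 : Nat.card Γ = 0 := by exact_mod_cast h4
    exact Nat.card_pos.ne' h5
  · exact h4

end

end Pool.Agent.Q18.K
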