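import Pool.Agent.Q18.K.Tw
import Pool.Agent.Y930.NV.Cen
import Pool.Agent.Y63.KR.Basic

/-!
# Irreducible characters and the operators `θ ↦ (x ↦ ∑ z(g) θ(g x))`
-/

open scoped BigOperators Classical

set_option linter.unusedSectionVars false

noncomputable section

namespace Pool.Agent.Q18.K

open Pool.Agent.Helper884.IC (IsIrrChar IsClass B Irr mem_Irr expand B_irr irr_finite B_sum_left
  B_smul_left)
open Pool.Agent.Y930.NV
open Pool.Agent.Y63.NV (redC)

section

variable {J : Type} [Group J] [Fintype J] {M : Type} [Group M]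

/-- actions of groups on `J` which preserve the irreducible characters and contain the inner
automorphisms -/
structure Good (φ : M →* Equiv.Perm J) : Prop where
  one : ∀ m, φ m 1 = 1
  inv : ∀ m x, φ m x⁻¹ = (φ m x)⁻¹
  irr : ∀ (m) (χ : J → ℂ), IsIrrChar χ → IsIrrChar (fun x => χ (φ m x))
  inn : ∀ h : J, ∃ m, ∀ x, φ m x = h * x * h⁻¹

instance fX : Fintype {χ : J → ℂ // IsIrrChar χ} := (irr_finite (G := J)).fintype

variable (φ : M →* Equiv.Perm J)

theorem act_inv (m : M) (x : J) : φ m⁻¹ (φ m x) = x := by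
  rw [← Equiv.Perm.mul_apply, ← map_mul, inv_mul_cancel, map_one, Equiv.Perm.one_apply]

theorem inv_act (m : M) (x : J) : φ m (φ m⁻¹ x) = x := by
  rw [← Equiv.Perm.mul_apply, ← map_mul, mul_inv_cancel, map_one, Equiv.Perm.one_apply]

/-- invariant functions -/
def Iv {A : Type} (θ : J → A) : Prop := ∀ m x, θ (φ m x) = θ x

/-- the orbits on `J` -/
def sJ : Setoid J where
  r x y := ∃ m, φ m x = y
  iseqv :=
    { refl := fun x => ⟨1, by rw [map_one]; rfl⟩
      symm := by
        rintro x y ⟨m, rfl⟩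
        exact ⟨m⁻¹, act_inv φ m x⟩
      trans := by
        rintro x y z ⟨m, rfl⟩ ⟨n, rfl⟩
        exact ⟨n * m, by rw [map_mul, Equiv.Perm.mul_apply]⟩ }

/-- the orbits on the irreducible characters -/
def sX : Setoid {χ : J → ℂ // IsIrrChar χ} where
  r χ ψ := ∃ m, ∀ x, ψ.1 x = χ.1 (φ m x)
  iseqv :=
    { refl := fun χ => ⟨1, fun x => by rw [map_one]; rfl⟩
      symm := by
        rintro χ ψ ⟨m, h⟩
        refine ⟨m⁻¹, fun x => ?_⟩
        rw [h, inv_act]
      trans := by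
        rintro χ ψ η ⟨m, h⟩ ⟨n, h'⟩
        refine ⟨m * n, fun x => ?_⟩
        rw [h', h, map_mul, Equiv.Perm.mul_apply] }

abbrev Yq := Quotient (sJ φ)
abbrev Om := Quotient (sX φ)

/-- the class of an element -/
def mkY (x : J) : Yq φ := Quotient.mk (sJ φ) x
/-- the class of a character -/
def mkO (χ : {χ : J → ℂ // IsIrrChar χ}) : Om φ := Quotient.mk (sX φ) χ

theorem mkY_act (m : M) (x : J) : mkY φ (φ m x) = mkY φ x :=
  (Quotient.sound (⟨m, rfl⟩ : (sJ φ).r x (φ m x))).symm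

theorem mkY_out (y : Yq φ) : mkY φ y.out = y := Quotient.out_eq y

theorem iv_lift {A : Type} (v : Yq φ → A) : Iv φ (fun x => v (mkY φ x)) := fun m x => by
  simp only [mkY_act]

theorem iv_out {A : Type} {θ : J → A} (h : Iv φ θ) (x : J) : θ (mkY φ x).out = θ x := by
  have h1 : (sJ φ).r (mkY φ x).out x := Quotient.exact (mkY_out φ (mkY φ x))
  obtain ⟨m, hm⟩ := h1
  conv_rhs => rw [← hm]
  rw [h]

variable {φ}

theorem iv_cf (hφ : Good φ) {A : Type} {θ : J → A} (h : Iv φ θ) : Cf θ := by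
  intro g x
  obtain ⟨m, hm⟩ := hφ.inn g
  rw [← hm, h]

theorem B_act (hφ : Good φ) (m : M) (f h : J → ℂ) :
    B (fun x => f (φ m x)) (fun x => h (φ m x)) = B f h := by
  unfold B
  congr 1
  refine Fintype.sum_equiv (φ m) _ _ fun g => ?_
  simp only [hφ.inv]

/-- the operator -/
def Kc {A : Type} [CommRing A] (z θ : J → A) (x : J) : A := ∑ g, z g * θ (g * x)

theorem Kc_irr {χ z : J → ℂ} (h : IsIrrChar χ) (hz : Cf z) (x : J) :
    Kc z χ x = om χ z * χ x := by
  obtain ⟨V, _, _, _, ρ, hr, rfl⟩ := h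
  have h1 := Tp_eq ρ hr z hz
  have h2 : LinearMap.trace ℂ V (Tp ρ z * ρ x) = Kc z ρ.character x := by
    unfold Tp Kc
    rw [Finset.sum_mul, map_sum]
    refine Finset.sum_congr rfl fun g _ => ?_
    rw [smul_mul_assoc, map_smul, smul_eq_mul, ← map_mul]
    rfl
  rw [← h2, h1, smul_mul_assoc, one_mul, map_smul, smul_eq_mul]
  rfl

/-- the permutation of the irreducible characters -/
def ac (hφ : Good φ) (m : M) : {χ : J → ℂ // IsIrrChar χ} ≃ {χ : J → ℂ // IsIrrChar χ} where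
  toFun χ := ⟨fun x => χ.1 (φ m x), hφ.irr m χ.1 χ.2⟩
  invFun χ := ⟨fun x => χ.1 (φ m⁻¹ x), hφ.irr m⁻¹ χ.1 χ.2⟩
  left_inv χ := by
    apply Subtype.ext
    funext x
    change χ.1 (φ m (φ m⁻¹ x)) = χ.1 x
    rw [inv_act]
  right_inv χ := by
    apply Subtype.ext
    funext x
    change χ.1 (φ m⁻¹ (φ m x)) = χ.1 x
    rw [act_inv]

theorem mkO_ac (hφ : Good φ) (m : M) (χ : {χ : J → ℂ // IsIrrChar χ}) :
    mkO φ (ac hφ m χ) = mkO φ χ :=
  (Quotient.sound (⟨m, fun _ => rfl⟩ : (sX φ).r χ (ac hφ m χ))).symm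

theorem om_ac (hφ : Good φ) (m : M) (χ : {χ : J → ℂ // IsIrrChar χ}) {z : J → ℂ} (hz : Iv φ z) :
    om (ac hφ m χ).1 z = om χ.1 z := by
  unfold om
  change (∑ g, z g * χ.1 (φ m g)) / χ.1 (φ m 1) = _
  rw [hφ.one]
  congr 1
  refine Fintype.sum_equiv (φ m) _ _ fun g => ?_
  rw [hz]

variable (φ)

/-- the orbit sums -/
def th (ω : Om φ) (x : J) : ℂ :=
  ∑ χ : {χ : J → ℂ // IsIrrChar χ}, if mkO φ χ = ω then χ.1 x else 0

variable {φ}

theorem th_iv (hφ : Good φ) (ω : Om φ) : Iv φ (th φ ω) := by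
  intro m x
  unfold th
  refine Fintype.sum_equiv (ac hφ m) _ _ fun χ => ?_
  rw [mkO_ac]
  rfl

/-- the value of the central characters of an orbit -/
def omO (ω : Om φ) (z : J → ℂ) : ℂ := om ω.out.1 z

theorem omO_eq (hφ : Good φ) {z : J → ℂ} (hz : Iv φ z) (χ : {χ : J → ℂ // IsIrrChar χ}) :
    omO (mkO φ χ) z = om χ.1 z := by
  have h1 : (sX φ).r (mkO φ χ).out χ := Quotient.exact (Quotient.out_eq _)
  obtain ⟨m, hm⟩ := h1
  have h2 : χ = ac hφ m (mkO φ χ).out := Subtype.ext (funext hm)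
  conv_rhs => rw [h2]
  rw [om_ac hφ m _ hz]
  rfl

theorem Kc_th (hφ : Good φ) {z : J → ℂ} (hz : Iv φ z) (ω : Om φ) (x : J) :
    Kc z (th φ ω) x = omO ω z * th φ ω x := by
  have hc := iv_cf hφ hz
  have h1 : Kc z (th φ ω) x = ∑ χ : {χ : J → ℂ // IsIrrChar χ},
      if mkO φ χ = ω then Kc z χ.1 x else 0 := by
    unfold Kc th
    simp_rw [Finset.mul_sum]
    rw [Finset.sum_comm]
    refine Finset.sum_congr rfl fun χ _ => ?_
    split_ifs
    · rfl
    · simp
  rw [h1]
  unfold th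
  rw [Finset.mul_sum]
  refine Finset.sum_congr rfl fun χ _ => ?_
  split_ifs with h
  · rw [Kc_irr χ.2 hc, ← h, omO_eq hφ hz]
  · rw [mul_zero]

/-- expansion of invariant functions -/
theorem expand_th (hφ : Good φ) {f : J → ℂ} (hf : Iv φ f) (x : J) :
    f x = ∑ ω : Om φ, B f ω.out.1 * th φ ω x := by
  have hc : IsClass f := fun g y => iv_cf hφ hf y g
  have h1 := congrFun (expand f hc) x
  rw [Finset.sum_apply] at h1
  have h2 : ∑ χ ∈ Irr J, (B f χ • χ) x = ∑ χ : {χ : J → ℂ // IsIrrChar χ}, B f χ.1 * χ.1 x := by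
    exact Finset.sum_subtype (Irr J) (fun χ => mem_Irr) (fun χ => (B f χ • χ) x)
  rw [h1, h2]
  have h3 : ∀ ω : Om φ, B f ω.out.1 * th φ ω x = ∑ χ : {χ : J → ℂ // IsIrrChar χ},
      if mkO φ χ = ω then B f χ.1 * χ.1 x else 0 := by
    intro ω
    unfold th
    rw [Finset.mul_sum]
    refine Finset.sum_congr rfl fun χ _ => ?_
    split_ifs with h
    · have h4 : (sX φ).r ω.out χ := by
        rw [← h]
        exact Quotient.exact (Quotient.out_eq _)
      obtain ⟨m, hm⟩ := h4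
      have h5 : B f χ.1 = B f ω.out.1 := by
        have h6 := B_act hφ m f ω.out.1
        have h7 : (fun x => f (φ m x)) = f := funext fun x => hf m x
        have h8 : (fun x => ω.out.1 (φ m x)) = χ.1 := funext fun x => (hm x).symm
        rw [h7, h8] at h6
        exact h6
      rw [h5]
    · rw [mul_zero]
  simp_rw [h3]
  rw [Finset.sum_comm]
  refine Finset.sum_congr rfl fun χ _ => ?_
  rw [Finset.sum_ite_eq, if_pos (Finset.mem_univ _)]

/-- linear independence of the orbit sums -/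
theorem th_indep {a : Om φ → ℂ} (h : ∀ x, ∑ ω, a ω * th φ ω x = 0) : a = 0 := by
  funext ω0
  obtain ⟨χ0, rfl⟩ : ∃ χ0, mkO φ χ0 = ω0 := ⟨ω0.out, Quotient.out_eq _⟩
  have h1 : (∑ χ : {χ : J → ℂ // IsIrrChar χ}, a (mkO φ χ) • χ.1) = 0 := by
    funext x
    rw [Finset.sum_apply]
    have h2 := h x
    unfold th at h2
    simp_rw [Finset.mul_sum] at h2
    rw [Finset.sum_comm] at h2
    refine Eq.trans ?_ h2
    refine Finset.sum_congr rfl fun χ _ => ?_
    simp only [Pi.smul_apply, smul_eq_mul, mul_ite, mul_zero]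
    rw [Finset.sum_ite_eq, if_pos (Finset.mem_univ _)]
  have h2 : B (∑ χ : {χ : J → ℂ // IsIrrChar χ}, a (mkO φ χ) • χ.1) χ0.1 = B 0 χ0.1 := by rw [h1]
  rw [B_sum_left] at h2
  simp only [B_smul_left] at h2
  rw [Finset.sum_eq_single χ0] at h2
  · rw [B_irr χ0.2 χ0.2, if_pos rfl, mul_one] at h2
    rw [h2]
    simp [B]
  · intro χ _ hχ
    rw [B_irr χ.2 χ0.2, if_neg (fun h => hχ (Subtype.ext h)), mul_zero]
  · intro h
    exact absurd (Finset.mem_univ _) h

/-- the operators with invariant `z` preserve the invariant functions (over `ℂ`) -/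
theorem Kc_iv_complex (hφ : Good φ) {z θ : J → ℂ} (hz : Iv φ z) (hθ : Iv φ θ) :
    Iv φ (Kc z θ) := by
  have h1 : ∀ x, Kc z θ x = ∑ ω : Om φ, B θ ω.out.1 * (omO ω z * th φ ω x) := by
    intro x
    have h2 : Kc z θ x = ∑ ω : Om φ, B θ ω.out.1 * Kc z (th φ ω) x := by
      unfold Kc
      simp_rw [Finset.mul_sum]
      rw [Finset.sum_comm]
      refine Finset.sum_congr rfl fun g _ => ?_
      rw [expand_th hφ hθ (g * x), Finset.mul_sum]
      refine Finset.sum_congr rfl fun ω _ => ?_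
      ring
    rw [h2]
    exact Finset.sum_congr rfl fun ω _ => by rw [Kc_th hφ hz]
  intro m x
  rw [h1, h1]
  exact Finset.sum_congr rfl fun ω _ => by rw [th_iv hφ ω m x]

/-! ### structure constants -/

variable (φ)

/-- the number of `g` in the orbit `κ` with `g x` in the orbit `y` -/
def nn (κ y : Yq φ) (x : J) : ℕ := (Finset.univ.filter fun g : J => mkY φ g = κ ∧
  mkY φ (g * x) = y).card

/-- the indicator function of an orbit -/
def iY (A : Type) [CommRing A] (κ : Yq φ) : J → A := fun g => if mkY φ g = κ then 1 else 0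

theorem iY_iv (A : Type) [CommRing A] (κ : Yq φ) : Iv φ (iY φ A κ) := fun m x => by
  unfold iY
  rw [mkY_act]

theorem nn_cast (A : Type) [CommRing A] (κ y : Yq φ) (x : J) :
    (nn φ κ y x : A) = Kc (iY φ A κ) (iY φ A y) x := by
  unfold nn Kc iY
  rw [Finset.card_filter]
  push_cast
  refine Finset.sum_congr rfl fun g _ => ?_
  by_cases h1 : mkY φ g = κ <;> by_cases h2 : mkY φ (g * x) = y <;> simp [h1, h2]

variable {φ}

theorem nn_iv (hφ : Good φ) (κ y : Yq φ) (m : M) (x : J) : nn φ κ y (φ m x) = nn φ κ y x := by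
  have h := Kc_iv_complex hφ (iY_iv φ ℂ κ) (iY_iv φ ℂ y) m x
  rw [← nn_cast, ← nn_cast] at h
  exact_mod_cast h

variable (φ)

theorem Kc_expand {A : Type} [CommRing A] {z θ : J → A} (hz : Iv φ z) (hθ : Iv φ θ) (x : J) :
    Kc z θ x = ∑ κ : Yq φ, ∑ y : Yq φ, z κ.out * (nn φ κ y x * θ y.out) := by
  have h1 : ∀ κ y : Yq φ, z κ.out * (nn φ κ y x * θ y.out) =
      ∑ g : J, if mkY φ g = κ then (if mkY φ (g * x) = y then z g * θ (g * x) else 0) else 0 := by
    intro κ y
    rw [nn_cast, Kc, Finset.sum_mul, Finset.mul_sum]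
    refine Finset.sum_congr rfl fun g _ => ?_
    unfold iY
    split_ifs with h1 h2
    · rw [← h1, ← h2, iv_out φ hz, iv_out φ hθ]
      ring
    · ring
    · ring
    · ring
  simp_rw [h1]
  have h2 : ∀ κ : Yq φ, (∑ y : Yq φ, ∑ g : J, if mkY φ g = κ then
      (if mkY φ (g * x) = y then z g * θ (g * x) else 0) else 0) =
      ∑ g : J, if mkY φ g = κ then z g * θ (g * x) else 0 := by
    intro κ
    rw [Finset.sum_comm]
    refine Finset.sum_congr rfl fun g _ => ?_
    split_ifs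
    · rw [Finset.sum_ite_eq, if_pos (Finset.mem_univ _)]
    · simp
  simp_rw [h2]
  rw [Finset.sum_comm]
  unfold Kc
  refine Finset.sum_congr rfl fun g _ => ?_
  rw [Finset.sum_ite_eq, if_pos (Finset.mem_univ _)]

variable {φ}

/-- the operators with invariant `z` preserve the invariant functions -/
theorem Kc_iv (hφ : Good φ) {A : Type} [CommRing A] {z θ : J → A} (hz : Iv φ z) (hθ : Iv φ θ) :
    Iv φ (Kc z θ) := by
  intro m x
  rw [Kc_expand φ hz hθ, Kc_expand φ hz hθ]
  simp_rw [nn_iv hφ]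

variable (φ)

/-- the matrix of the operator -/
def Mx {A : Type} [CommRing A] (z : Yq φ → A) : Matrix (Yq φ) (Yq φ) A :=
  Matrix.of fun y y' => ∑ κ : Yq φ, z κ * (nn φ κ y' y.out : A)

theorem Mx_map {A A' : Type} [CommRing A] [CommRing A'] (f : A →+* A') (z : Yq φ → A) :
    (Mx φ z).map f = Mx φ (fun y => f (z y)) := by
  ext y y'
  simp [Mx]

/-- the square matrix of the orbit sums -/
def Pm (e : Om φ ≃ Yq φ) : Matrix (Yq φ) (Yq φ) ℂ := Matrix.of fun y y' => th φ (e.symm y') y.out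

/-- the eigenvalues -/
def dd {A : Type} [CommRing A] (f : ℂ →+* A) (z : Yq φ → A) (ω : Om φ) : A :=
  ∑ κ : Yq φ, z κ * f (omO ω (iY φ ℂ κ))

theorem MP_eq (hφ : Good φ) (e : Om φ ≃ Yq φ) {A : Type} [CommRing A] (f : ℂ →+* A)
    (z : Yq φ → A) : Mx φ z * (Pm φ e).map f =
      (Pm φ e).map f * Matrix.diagonal (fun y => dd φ f z (e.symm y)) := by
  ext y y'
  rw [Matrix.mul_diagonal, Matrix.mul_apply]
  simp only [Mx, Pm, Matrix.of_apply, Matrix.map_apply]
  have h1 : ∀ κ : Yq φ, f (omO (e.symm y') (iY φ ℂ κ) * th φ (e.symm y') y.out) =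
      ∑ y'' : Yq φ, (nn φ κ y'' y.out : A) * f (th φ (e.symm y') y''.out) := by
    intro κ
    rw [← Kc_th hφ (iY_iv φ ℂ κ), Kc_expand φ (iY_iv φ ℂ κ) (th_iv hφ _), Finset.sum_eq_single κ]
    · rw [map_sum]
      refine Finset.sum_congr rfl fun y'' _ => ?_
      rw [map_mul, map_mul, map_natCast]
      unfold iY
      rw [mkY_out, if_pos rfl, map_one, one_mul]
    · intro κ' _ hκ'
      refine Finset.sum_eq_zero fun y'' _ => ?_
      unfold iY
      rw [mkY_out, if_neg hκ', zero_mul]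
    · intro h
      exact absurd (Finset.mem_univ _) h
  unfold dd
  rw [Finset.mul_sum]
  simp_rw [Finset.sum_mul]
  rw [Finset.sum_comm]
  refine Finset.sum_congr rfl fun κ _ => ?_
  have h2 : f (th φ (e.symm y') y.out) * (z κ * f (omO (e.symm y') (iY φ ℂ κ))) =
      z κ * f (omO (e.symm y') (iY φ ℂ κ) * th φ (e.symm y') y.out) := by
    rw [map_mul]
    ring
  rw [h2, h1, Finset.mul_sum]
  refine Finset.sum_congr rfl fun y'' _ => ?_
  ring

theorem exists_P (hφ : Good φ) : ∃ e : Om φ ≃ Yq φ, IsUnit (Pm φ e) := by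
  let P0 : Matrix (Yq φ) (Om φ) ℂ := Matrix.of fun y ω => th φ ω y.out
  have hinj : Function.Injective (Matrix.mulVecLin P0) := by
    rw [← LinearMap.ker_eq_bot, LinearMap.ker_eq_bot']
    intro a ha
    refine th_indep fun x => ?_
    have h1 := congrFun ha (mkY φ x)
    rw [Matrix.mulVecLin_apply, Matrix.mulVec, dotProduct] at h1
    simp only [P0, Matrix.of_apply, Pi.zero_apply] at h1
    rw [← h1]
    refine Finset.sum_congr rfl fun ω _ => ?_
    rw [iv_out φ (th_iv hφ ω) x, mul_comm]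
  have hsurj : Function.Surjective (Matrix.mulVecLin P0) := by
    intro v
    refine ⟨fun ω => B (fun x => v (mkY φ x)) ω.out.1, ?_⟩
    funext y
    have h1 := expand_th hφ (iv_lift φ v) y.out
    simp only [mkY_out] at h1
    rw [h1, Matrix.mulVecLin_apply, Matrix.mulVec, dotProduct]
    refine Finset.sum_congr rfl fun ω _ => ?_
    simp only [P0, Matrix.of_apply]
    rw [mul_comm]
  have hcard : Fintype.card (Om φ) = Fintype.card (Yq φ) := by
    have h1 := (LinearEquiv.ofBijective _ ⟨hinj, hsurj⟩).finrank_eq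
    rwa [Module.finrank_fintype_fun_eq_card, Module.finrank_fintype_fun_eq_card] at h1
  refine ⟨Fintype.equivOfCardEq hcard, ?_⟩
  rw [← Matrix.mulVec_injective_iff_isUnit]
  intro a b hab
  have h1 : (fun ω => a (Fintype.equivOfCardEq hcard ω)) =
      fun ω => b (Fintype.equivOfCardEq hcard ω) := by
    apply hinj
    funext y
    have h2 := congrFun hab y
    rw [Matrix.mulVecLin_apply, Matrix.mulVecLin_apply]
    simp only [Matrix.mulVec, dotProduct, Pm, P0, Matrix.of_apply] at h2 ⊢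
    rw [← (Fintype.equivOfCardEq hcard).sum_comp, ← (Fintype.equivOfCardEq hcard).sum_comp] at h2
    simpa using h2
  funext y
  have h2 := congrFun h1 ((Fintype.equivOfCardEq hcard).symm y)
  simpa using h2

open Polynomial in
theorem charpoly_eq (hφ : Good φ) {A : Type} [CommRing A] (f : ℂ →+* A) (z : Yq φ → A) :
    (Mx φ z).charpoly = ∏ ω : Om φ, (X - C (dd φ f z ω)) := by
  obtain ⟨e, he⟩ := exists_P φ hφ
  have h1 : IsUnit ((Pm φ e).map f) := by
    have := he.map f.mapMatrix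
    exact this
  obtain ⟨u, hu⟩ := h1
  have h2 := MP_eq φ hφ e f z
  rw [← hu] at h2
  have h3 : Mx φ z = u * Matrix.diagonal (fun y => dd φ f z (e.symm y)) * (u⁻¹ : (Matrix _ _ A)ˣ) := by
    rw [← h2, mul_assoc, Units.mul_inv, mul_one]
  rw [h3, Matrix.coe_units_inv, Matrix.charpoly_units_conj, Matrix.charpoly_diagonal]
  exact (Fintype.prod_equiv e _ _ fun ω => by rw [Equiv.symm_apply_apply]).symm

theorem omO_int (hφ : Good φ) (ω : Om φ) (κ : Yq φ) : IsIntegral ℤ (omO ω (iY φ ℂ κ)) := by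
  have h1 : (iY φ ℂ κ) = fun g => ((iY φ ℤ κ g : ℤ) : ℂ) := by
    funext g
    unfold iY
    split_ifs <;> simp
  unfold omO
  rw [h1]
  exact om_int ω.out.2 (iv_cf hφ (iY_iv φ ℤ κ))

variable {F : Type} [Field F] (red : integralClosure ℤ ℂ →+* F)

/-- the reduced eigenvalues -/
def lam (z : Yq φ → F) (ω : Om φ) : F := ∑ κ : Yq φ, z κ * redC red (omO ω (iY φ ℂ κ))

open Polynomial in
theorem charpoly_red (hφ : Good φ) (z : Yq φ → F) :
    (Mx φ z).charpoly = ∏ ω : Om φ, (X - C (lam φ red z ω)) := by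
  let R := integralClosure ℤ ℂ
  let i : MvPolynomial (Yq φ) R →+* MvPolynomial (Yq φ) ℂ := MvPolynomial.map (algebraMap R ℂ)
  have hi : Function.Injective i := MvPolynomial.map_injective _ Subtype.val_injective
  let δ : Om φ → MvPolynomial (Yq φ) R := fun ω =>
    ∑ κ : Yq φ, MvPolynomial.X κ * MvPolynomial.C ⟨omO ω (iY φ ℂ κ), omO_int φ hφ ω κ⟩
  have h1 : (Mx φ (fun κ => (MvPolynomial.X κ : MvPolynomial (Yq φ) R))).charpoly =
      ∏ ω : Om φ, (X - C (δ ω)) := by
    apply Polynomial.map_injective i hi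
    rw [← Matrix.charpoly_map, Mx_map, Polynomial.map_prod]
    have h2 : (fun y : Yq φ => i (MvPolynomial.X y)) =
        fun κ => (MvPolynomial.X κ : MvPolynomial (Yq φ) ℂ) := by
      funext κ
      exact MvPolynomial.map_X _ _
    rw [h2, charpoly_eq φ hφ (MvPolynomial.C : ℂ →+* MvPolynomial (Yq φ) ℂ)]
    refine Finset.prod_congr rfl fun ω _ => ?_
    rw [Polynomial.map_sub, Polynomial.map_X, Polynomial.map_C]
    congr 2
    change _ = i (δ ω)
    simp only [δ, dd]
    rw [map_sum]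
    refine Finset.sum_congr rfl fun κ _ => ?_
    rw [map_mul]
    congr 1
    · exact (MvPolynomial.map_X (algebraMap R ℂ) κ).symm
    · exact (MvPolynomial.map_C (algebraMap R ℂ)
        (⟨omO ω (iY φ ℂ κ), omO_int φ hφ ω κ⟩ : R)).symm
  let ev : MvPolynomial (Yq φ) R →+* F := MvPolynomial.eval₂Hom red z
  have h2 := congrArg (Polynomial.map ev) h1
  rw [← Matrix.charpoly_map, Mx_map, Polynomial.map_prod] at h2
  have h3 : (fun y : Yq φ => ev (MvPolynomial.X y)) = z := by
    funext κ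
    exact MvPolynomial.eval₂Hom_X' red z κ
  rw [h3] at h2
  rw [h2]
  refine Finset.prod_congr rfl fun ω _ => ?_
  rw [Polynomial.map_sub, Polynomial.map_X, Polynomial.map_C]
  congr 2
  simp only [δ, lam]
  rw [map_sum]
  refine Finset.sum_congr rfl fun κ _ => ?_
  rw [map_mul]
  congr 1
  · exact MvPolynomial.eval₂Hom_X' red z κ
  · rw [redC_of red (omO_int φ hφ ω κ)]
    exact MvPolynomial.eval₂Hom_C red z _

/-- the reduced eigenvalues are the values of the reduced central characters -/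
theorem lam_eq (hφ : Good φ) {z : J → F} (hz : Iv φ z) (χ : {χ : J → ℂ // IsIrrChar χ}) :
    lam φ red (fun κ => z κ.out) (mkO φ χ) = Pool.Agent.Y63.NV.centralValue red χ.1 z := by
  rw [centralValue_eq red χ.2]
  unfold lam
  have h1 : ∀ κ : Yq φ, redC red (omO (mkO φ χ) (iY φ ℂ κ)) =
      ∑ C : ConjClasses J, ((iY φ ℤ κ C.out : ℤ) : F) * R red χ.1 (ind ℤ C) := by
    intro κ
    rw [← R_expand red χ.2 (iv_cf hφ (iY_iv φ ℤ κ)), omO_eq hφ (iY_iv φ ℂ κ)]
    unfold R
    congr 2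
    funext g
    unfold iY
    split_ifs <;> simp
  simp_rw [h1, Finset.mul_sum]
  rw [Finset.sum_comm]
  refine Finset.sum_congr rfl fun C _ => ?_
  rw [Finset.sum_eq_single (mkY φ C.out)]
  · unfold iY
    rw [if_pos rfl, iv_out φ hz]
    push_cast
    ring
  · intro κ _ hκ
    unfold iY
    rw [if_neg (fun h => hκ h.symm)]
    push_cast
    ring
  · intro h
    exact absurd (Finset.mem_univ _) h

/-- the multiplicity of an eigenvalue -/
theorem rootMult (hφ : Good φ) (z : Yq φ → F) (c : F) :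
    (Mx φ z).charpoly.rootMultiplicity c = Nat.card {ω : Om φ // lam φ red z ω = c} := by
  rw [charpoly_red φ red hφ, ← Polynomial.count_roots, Polynomial.roots_prod _ _ (by
    rw [Finset.prod_ne_zero_iff]
    intro ω _
    exact Polynomial.X_sub_C_ne_zero _)]
  simp only [Polynomial.roots_X_sub_C]
  rw [Multiset.count_bind]
  have h1 : ∀ ω : Om φ, Multiset.count c {lam φ red z ω} = if lam φ red z ω = c then 1 else 0 := by
    intro ω
    rw [Multiset.count_singleton]
    simp only [eq_comm]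
  simp_rw [h1]
  rw [Nat.card_eq_fintype_card, Fintype.card_subtype, Finset.card_filter]
  rfl

variable {φ}

/-- the action on the irreducible characters -/
@[reducible] def actX (hφ : Good φ) : MulAction M {χ : J → ℂ // IsIrrChar χ} where
  smul m χ := ac hφ m⁻¹ χ
  one_smul χ := by
    apply Subtype.ext
    funext x
    change χ.1 (φ (1 : M)⁻¹ x) = χ.1 x
    rw [inv_one, map_one]
    rfl
  mul_smul m n χ := by
    apply Subtype.ext
    funext x
    change χ.1 (φ (m * n)⁻¹ x) = χ.1 (φ n⁻¹ (φ m⁻¹ x))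
    rw [mul_inv_rev, map_mul]
    rfl

/-- counting fixed points -/
theorem burnside [Fintype M] (hφ : Good φ) {z : J → F} (hz : Iv φ z) (c : F) :
    ∑ m : M, (Nat.card {χ : J → ℂ // IsIrrChar χ ∧ (∀ x, χ (φ m x) = χ x) ∧
      Pool.Agent.Y63.NV.centralValue red χ z = c} : ℤ) =
    (Nat.card M : ℤ) * (Mx φ (fun κ => z κ.out)).charpoly.rootMultiplicity c := by
  let _ := actX hφ
  have hcv : ∀ χ ψ : {χ : J → ℂ // IsIrrChar χ}, (sX φ).r χ ψ →
      Pool.Agent.Y63.NV.centralValue red χ.1 z = Pool.Agent.Y63.NV.centralValue red ψ.1 z := by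
    intro χ ψ h
    rw [← lam_eq φ red hφ hz χ, ← lam_eq φ red hφ hz ψ]
    congr 1
    exact Quotient.sound h
  have h := Pool.Agent.Y63.KR.orbit_sum (G := M) (Ω := {χ : J → ℂ // IsIrrChar χ}) (sX φ) (by
    intro χ ψ
    constructor
    · rintro ⟨m, hm⟩
      refine ⟨m⁻¹, Subtype.ext (funext fun x => ?_)⟩
      change χ.1 (φ m⁻¹⁻¹ x) = ψ.1 x
      rw [inv_inv, hm]
    · rintro ⟨m, rfl⟩
      exact ⟨m⁻¹, fun x => rfl⟩)
    (fun χ => if Pool.Agent.Y63.NV.centralValue red χ.1 z = c then 1 else 0)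
    (fun χ ψ hχ => by rw [hcv χ ψ hχ])
  rw [rootMult φ red hφ, finsum_eq_sum_of_fintype] at *
  have h1 : (Nat.card {ω : Om φ // lam φ red (fun κ => z κ.out) ω = c} : ℤ) =
      ∑ ω : Om φ, if Pool.Agent.Y63.NV.centralValue red ω.out.1 z = c then 1 else 0 := by
    rw [Nat.card_eq_fintype_card, Fintype.card_subtype, Finset.card_filter]
    push_cast
    refine Finset.sum_congr rfl fun ω _ => ?_
    have h2 : lam φ red (fun κ => z κ.out) ω =
        Pool.Agent.Y63.NV.centralValue red ω.out.1 z := by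
      rw [← lam_eq φ red hφ hz]
      congr 1
      exact (Quotient.out_eq _).symm
    rw [h2]
  rw [h1, h]
  have h3 : ∀ m : M, (Nat.card {χ : J → ℂ // IsIrrChar χ ∧ (∀ x, χ (φ m x) = χ x) ∧
      Pool.Agent.Y63.NV.centralValue red χ z = c} : ℤ) = ∑ χ : {χ : J → ℂ // IsIrrChar χ},
        if (∀ x, χ.1 (φ m x) = χ.1 x) ∧ Pool.Agent.Y63.NV.centralValue red χ.1 z = c
          then 1 else 0 := by
    intro m
    rw [← Finset.sum_filter, Finset.sum_const, nsmul_eq_mul, mul_one, ← Fintype.card_subtype,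
      ← Nat.card_eq_fintype_card]
    congr 1
    refine Nat.card_congr
      { toFun := fun χ => ⟨⟨χ.1, χ.2.1⟩, χ.2.2⟩
        invFun := fun χ => ⟨χ.1.1, χ.1.2, χ.2⟩
        left_inv := fun _ => rfl
        right_inv := fun _ => rfl }
  simp_rw [h3]
  rw [Finset.sum_comm]
  refine Finset.sum_congr rfl fun χ _ => ?_
  have h4 : (Nat.card (MulAction.stabilizer M χ) : ℤ) =
      ∑ m : M, if (∀ x, χ.1 (φ m x) = χ.1 x) then 1 else 0 := by
    rw [← Finset.sum_filter, Finset.sum_const, nsmul_eq_mul, mul_one, ← Fintype.card_subtype,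
      ← Nat.card_eq_fintype_card]
    congr 1
    refine Nat.card_congr (Equiv.subtypeEquivRight fun m => ?_)
    rw [MulAction.mem_stabilizer_iff]
    constructor
    · intro h5 x
      have h6 := congrFun (congrArg Subtype.val h5) (φ m x)
      change χ.1 (φ m⁻¹ (φ m x)) = χ.1 (φ m x) at h6
      rw [act_inv] at h6
      exact h6.symm
    · intro h5
      apply Subtype.ext
      funext x
      change χ.1 (φ m⁻¹ x) = χ.1 x
      have h6 := h5 (φ m⁻¹ x)
      rw [inv_act] at h6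
      exact h6.symm
  rw [h4, Finset.sum_mul]
  refine Finset.sum_congr rfl fun m _ => ?_
  by_cases h5 : ∀ x, χ.1 (φ m x) = χ.1 x <;>
    by_cases h6 : Pool.Agent.Y63.NV.centralValue red χ.1 z = c <;> simp [h5, h6]

end

end Pool.Agent.Q18.K
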