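import Pool.Agent.Q18.K.Main

/-!
# Fixed points on pairs of chains and characters
-/

open scoped BigOperators Classical

set_option linter.unusedSectionVars false

noncomputable section

namespace Pool.Agent.Q18.K

open Pool.Agent.Helper884.IC (IsIrrChar irr_finite)
open Pool.Agent.Y63.NV (redC centralValue IsClassFun IsBlock cut)
open Pool.Agent.Y63.KR

section grp

variable {W : Type} [Group W] [Finite W] (N : Subgroup W) [N.Normal]

theorem card_inf (S : Subgroup W) (V' : Subgroup (W ⧸ N)) :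
    Nat.card ↥(V'.comap (QuotientGroup.mk' N) ⊓ S) =
      Nat.card ↥(N ⊓ S) * Nat.card ↥(V' ⊓ S.map (QuotientGroup.mk' N)) := by
  set T : Subgroup W := V'.comap (QuotientGroup.mk' N) ⊓ S with hT
  let f : T →* W ⧸ N := (QuotientGroup.mk' N).comp T.subtype
  have hr : f.range = V' ⊓ S.map (QuotientGroup.mk' N) := by
    ext v
    constructor
    · rintro ⟨t, rfl⟩
      exact ⟨t.2.1, t.1, t.2.2, rfl⟩
    · rintro ⟨hv, t, ht, rfl⟩
      exact ⟨⟨t, hv, ht⟩, rfl⟩
  have e1 := Subgroup.card_eq_card_quotient_mul_card_subgroup f.ker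
  have e2 : Nat.card (T ⧸ f.ker) = Nat.card f.range :=
    Nat.card_congr (QuotientGroup.quotientKerEquivRange f).toEquiv
  have e3 : Nat.card f.ker = Nat.card ↥(N ⊓ S) := by
    have hN : ∀ t : T, t ∈ f.ker ↔ (t : W) ∈ N := by
      intro t
      rw [MonoidHom.mem_ker]
      exact QuotientGroup.eq_one_iff _
    refine Nat.card_congr
      { toFun := fun t => ⟨t.1.1, (hN t.1).1 t.2, t.1.2.2⟩
        invFun := fun t => ⟨⟨t.1, by
          refine ⟨?_, t.2.2⟩
          change QuotientGroup.mk' N t.1 ∈ V'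
          have h1 : QuotientGroup.mk' N t.1 = 1 := (QuotientGroup.eq_one_iff _).2 t.2.1
          rw [h1]
          exact V'.one_mem⟩, (hN _).2 t.2.1⟩
        left_inv := fun _ => rfl
        right_inv := fun _ => rfl }
  rw [e1, e2, e3, hr, mul_comm]

end grp

section

variable {Γ : Type} [Group Γ] [Finite Γ] {V : GU Γ} {G Z : Subgroup Γ} {p : ℕ}

instance fin_U : Finite V.U := by
  have := ne0 (Γ := Γ)
  infer_instance

variable (V G) in
/-- the inner automorphisms -/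
def N0 : Subgroup (Γ × V.U) := G.prod ⊥

instance n0_normal [hG : G.Normal] : (N0 V G).Normal := Subgroup.prod_normal _ _

theorem mem_N0 {m : Γ × V.U} : m ∈ N0 V G ↔ m.1 ∈ G ∧ m.2 = 1 := by
  unfold N0
  rw [Subgroup.mem_prod, Subgroup.mem_bot]

/-- an action which extends the conjugations -/
structure Ext (A : PA Γ (Γ × V.U)) : Prop where
  pi : ∀ m, A.π m = m.1
  inn : ∀ g x, A.a (g, 1) x = g * x * g⁻¹

theorem ext_U : Ext (PAU V) where
  pi _ := rfl
  inn g x := by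
    rw [PAU_a]
    change g * x ^ ex (((1 : V.U) : (ZMod (Nat.card Γ))ˣ)) * g⁻¹ = _
    rw [ex_one']

theorem ext_C : Ext (PAC V) where
  pi _ := rfl
  inn _ x := PAC_a V _ x

variable {A : PA Γ (Γ × V.U)}

theorem Ext.adm (hA : Ext A) (hG : G.Normal) {M : Subgroup (Γ × V.U)} (hM : N0 V G ≤ M) :
    Adm A M G where
  norm _ _ n hn := hG.conj_mem n hn _
  inn n hn := ⟨(n, 1), hM (mem_N0.2 ⟨hn, rfl⟩), hA.pi _, fun x => hA.inn n x⟩

theorem Ext.mem (hA : Ext A) (hG : G.Normal) {σ : Set (Subgroup Γ)} {m : Γ × V.U}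
    (hm : m.1 ∈ chainStabilizer σ) {x : Γ} (hx : x ∈ NS G σ) : A.a m x ∈ NS G σ := by
  refine a_mem (adm_chain (hA.adm hG (le_top (a := N0 V G))) σ) (m := m) ?_ hx
  refine ⟨Subgroup.mem_top _, ?_⟩
  change A.π m ∈ chainStabilizer σ
  rw [hA.pi]
  exact hm

/-- the stabiliser of a pair -/
def SX (hA : Ext A) (hG : G.Normal) {σ : Set (Subgroup Γ)} (χ : NS G σ → ℂ) :
    Subgroup (Γ × V.U) where
  carrier := {m | m.1 ∈ chainStabilizer σ ∧ ∀ x y : NS G σ, (y : Γ) = A.a m x → χ y = χ x}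
  mul_mem' := by
    rintro m n ⟨hm, hm'⟩ ⟨hn, hn'⟩
    refine ⟨Subgroup.mul_mem _ hm hn, fun x y hy => ?_⟩
    rw [map_mul, Equiv.Perm.mul_apply] at hy
    rw [hm' ⟨A.a n x, hA.mem hG hn x.2⟩ y hy, hn' x _ rfl]
  one_mem' := by
    refine ⟨Subgroup.one_mem _, fun x y hy => ?_⟩
    rw [map_one] at hy
    exact congrArg χ (Subtype.ext hy)
  inv_mem' := by
    rintro m ⟨hm, hm'⟩
    refine ⟨Subgroup.inv_mem _ hm, fun x y hy => ?_⟩
    refine (hm' y x ?_).symm
    rw [hy, a_inv']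

theorem mem_SX (hA : Ext A) (hG : G.Normal) {σ : Set (Subgroup Γ)} {χ : NS G σ → ℂ}
    {m : Γ × V.U} : m ∈ SX hA hG χ ↔ m.1 ∈ chainStabilizer σ ∧
      ∀ x y : NS G σ, (y : Γ) = A.a m x → χ y = χ x := Iff.rfl

theorem card_N0_SX (hA : Ext A) (hG : G.Normal) {σ : Set (Subgroup Γ)} {χ : NS G σ → ℂ}
    (hχ : IsIrrChar χ) : Nat.card ↥(N0 V G ⊓ SX hA hG χ) = Nat.card (NS G σ) := by
  refine Nat.card_congr
    { toFun := fun m => ⟨m.1.1, (mem_N0.1 m.2.1).1, m.2.2.1⟩
      invFun := fun g => ⟨(g.1, 1), mem_N0.2 ⟨g.2.1, rfl⟩, g.2.2, fun x y hy => ?_⟩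
      left_inv := fun m => ?_
      right_inv := fun _ => rfl }
  · have h1 : y = g * x * g⁻¹ := Subtype.ext (by
      rw [hy, hA.inn]
      rfl)
    rw [h1, irr_conj hχ]
  · apply Subtype.ext
    exact Prod.ext rfl (mem_N0.1 m.2.1).2.symm

variable {F : Type} [Field F]

/-- the characters with a given value of the central character -/
abbrev XS (red : integralClosure ℤ ℂ →+* F) (G : Subgroup Γ) (z : Γ → F) (c : F)
    (σ : Set (Subgroup Γ)) : Type :=
  {χ : NS G σ → ℂ // IsIrrChar χ ∧ centralValue red χ (fun x => z x) = c}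

instance fin_XS (red : integralClosure ℤ ℂ →+* F) (G : Subgroup Γ) (z : Γ → F) (c : F)
    (σ : Set (Subgroup Γ)) : Finite (XS red G z c σ) := by
  have : Fintype (NS G σ) := Fintype.ofFinite _
  have h1 : {χ : NS G σ → ℂ | IsIrrChar χ}.Finite := irr_finite
  exact (h1.subset (fun χ (h : IsIrrChar χ ∧ centralValue red χ (fun x => z x) = c) =>
    h.1)).to_subtype

theorem sum_Fnum (red : integralClosure ℤ ℂ →+* F) (hA : Ext A) (hG : G.Normal)
    (M : Subgroup (Γ × V.U)) (z : Γ → F) (c : F) (σ : Set (Subgroup Γ)) [Fintype (MC A M σ)]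
    [Fintype (XS red G z c σ)] :
    ∑ m : MC A M σ, (Fnum A red (NS G σ) m (cut z (NS G σ)) c : ℤ) =
      ∑ χ : XS red G z c σ, (Nat.card ↥(M ⊓ SX hA hG χ.1) : ℤ) := by
  have hcut : ∀ χ : NS G σ → ℂ,
      centralValue red χ (fun x => cut z (NS G σ) x) = centralValue red χ (fun x => z x) := by
    intro χ
    congr 1
    funext x
    unfold cut
    rw [if_pos x.2]
  have h1 : ∀ m : MC A M σ, (Fnum A red (NS G σ) m (cut z (NS G σ)) c : ℤ) =
      ∑ χ : XS red G z c σ, if (m : Γ × V.U) ∈ SX hA hG χ.1 then (1 : ℤ) else 0 := by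
    intro m
    rw [Finset.sum_boole]
    have h2 : Fnum A red (NS G σ) m (cut z (NS G σ)) c =
        Nat.card {χ : XS red G z c σ // (m : Γ × V.U) ∈ SX hA hG χ.1} := by
      unfold Fnum
      have hm : (m : Γ × V.U).1 ∈ chainStabilizer σ := by
        have := m.2.2
        change A.π m ∈ chainStabilizer σ at this
        rwa [hA.pi] at this
      refine Nat.card_congr
        { toFun := fun χ => ⟨⟨χ.1, χ.2.1, (hcut χ.1).symm.trans χ.2.2.2⟩, hm, χ.2.2.1⟩
          invFun := fun χ => ⟨χ.1.1, χ.1.2.1, χ.2.2, (hcut χ.1.1).trans χ.1.2.2⟩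
          left_inv := fun _ => rfl
          right_inv := fun _ => rfl }
    rw [h2, Nat.card_eq_fintype_card, Fintype.card_subtype]
  rw [Finset.sum_congr rfl fun m _ => h1 m, Finset.sum_comm]
  refine Finset.sum_congr rfl fun χ _ => ?_
  rw [Finset.sum_boole]
  congr 1
  rw [← Fintype.card_subtype, ← Nat.card_eq_fintype_card]
  refine Nat.card_congr
    { toFun := fun m => ⟨m.1.1, m.1.2.1, m.2⟩
      invFun := fun m => ⟨⟨m.1, m.2.1, ?_⟩, m.2.2⟩
      left_inv := fun _ => rfl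
      right_inv := fun _ => rfl }
  change A.π m.1 ∈ chainStabilizer σ
  rw [hA.pi]
  exact m.2.2.1

theorem card_filter_nat {α : Type} [Fintype α] (P : α → Prop) :
    ((Finset.univ.filter P).card : ℤ) = (Nat.card {a // P a} : ℤ) := by
  rw [Nat.card_eq_fintype_card, Fintype.card_subtype]

theorem sum_V' {W : Type} [Group W] [Finite W] (V' S : Subgroup W) [Fintype V'] :
    ∑ v : V', (if (v : W) ∈ S then (1 : ℤ) else 0) = Nat.card ↥(V' ⊓ S) := by
  rw [Finset.sum_boole]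
  congr 1
  rw [← Fintype.card_subtype, ← Nat.card_eq_fintype_card]
  exact Nat.card_congr
    { toFun := fun m => ⟨m.1.1, m.1.2, m.2⟩
      invFun := fun m => ⟨⟨m.1, m.2.1⟩, m.2.2⟩
      left_inv := fun _ => rfl
      right_inv := fun _ => rfl }

/-- the number of characters whose stabiliser contains `v` -/
def nS (red : integralClosure ℤ ℂ →+* F) (hA : Ext A) (hG : G.Normal) (z : Γ → F) (c : F)
    (v : (Γ × V.U) ⧸ N0 V G) (σ : Set (Subgroup Γ)) : ℕ :=
  Nat.card {χ : XS red G z c σ // v ∈ (SX hA hG χ.1).map (QuotientGroup.mk' (N0 V G))}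

theorem sum_nS (red : integralClosure ℤ ℂ →+* F) (hA : Ext A) (hG : G.Normal)
    (z : Γ → F) (c : F) (V' : Subgroup ((Γ × V.U) ⧸ N0 V G)) (σ : Set (Subgroup Γ))
    [Fintype (MC A (V'.comap (QuotientGroup.mk' (N0 V G))) σ)] [Fintype V'] :
    ∑ m : MC A (V'.comap (QuotientGroup.mk' (N0 V G))) σ,
      (Fnum A red (NS G σ) m (cut z (NS G σ)) c : ℤ) =
      (Nat.card (NS G σ) : ℤ) * ∑ v : V', (nS red hA hG z c v σ : ℤ) := by
  have : Fintype (XS red G z c σ) := Fintype.ofFinite _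
  rw [sum_Fnum red hA hG _ z c σ]
  have h1 : ∀ χ : XS red G z c σ,
      (Nat.card ↥(V'.comap (QuotientGroup.mk' (N0 V G)) ⊓ SX hA hG χ.1) : ℤ) =
      (Nat.card (NS G σ) : ℤ) * ∑ v : V',
        (if (v : (Γ × V.U) ⧸ N0 V G) ∈ (SX hA hG χ.1).map (QuotientGroup.mk' (N0 V G))
          then (1 : ℤ) else 0) := by
    intro χ
    rw [card_inf, card_N0_SX hA hG χ.2.1, sum_V']
    push_cast
    rfl
  rw [Finset.sum_congr rfl fun χ _ => h1 χ, ← Finset.mul_sum, Finset.sum_comm]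
  congr 1
  refine Finset.sum_congr rfl fun v _ => ?_
  rw [Finset.sum_boole]
  exact card_filter_nat _

/-- **fixed points on pairs** -/
theorem eq_pt {A' : PA Γ (Γ × V.U)} [Fact p.Prime] [IsAlgClosed F] [CharP F p]
    (red : integralClosure ℤ ℂ →+* F) (hA : Ext A) (hA' : Ext A') (hG : G.Normal)
    (hZ : IsPGroup p Z) (hZG : Z ≤ G) (hZn : Z.Normal)
    (hAA : ∀ m x, (∃ k : ℕ, ¬ p ∣ k ∧ x ^ k ∈ Z) → A.a m x = A'.a m x)
    (v₀ : (Γ × V.U) ⧸ N0 V G) {z : Γ → F}
    (hz : ∀ m, QuotientGroup.mk' (N0 V G) m ∈ Subgroup.zpowers v₀ → ∀ x, z (A.a m x) = z x)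
    (hz' : ∀ m, QuotientGroup.mk' (N0 V G) m ∈ Subgroup.zpowers v₀ → ∀ x, z (A'.a m x) = z x)
    (c : F) [Fintype {σ : Set (Subgroup Γ) // CH p G Z σ}] :
    ∑ σ : {σ : Set (Subgroup Γ) // CH p G Z σ}, (-1) ^ σ.1.ncard *
      ((Nat.card (NS G σ.1) : ℤ) * (nS red hA hG z c v₀ σ.1 : ℤ)) =
    ∑ σ : {σ : Set (Subgroup Γ) // CH p G Z σ}, (-1) ^ σ.1.ncard *
      ((Nat.card (NS G σ.1) : ℤ) * (nS red hA' hG z c v₀ σ.1 : ℤ)) := by
  set U₀ := Subgroup.zpowers v₀ with hU₀
  let D : U₀ → ℤ := fun v => ∑ σ : {σ : Set (Subgroup Γ) // CH p G Z σ}, (-1) ^ σ.1.ncard *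
      ((Nat.card (NS G σ.1) : ℤ) * ((nS red hA hG z c v σ.1 : ℤ) - nS red hA' hG z c v σ.1))
  have hD : D ⟨v₀, Subgroup.mem_zpowers v₀⟩ = 0 := by
    refine cyc_zero D ?_ ?_ _
    · intro V'' _
      let V' : Subgroup ((Γ × V.U) ⧸ N0 V G) := V''.map U₀.subtype
      have hV' : Fintype V' := Fintype.ofFinite _
      let e : V'' ≃ V' := (Subgroup.equivMapOfInjective V'' U₀.subtype
        Subtype.coe_injective).toEquiv
      have hM : N0 V G ≤ V'.comap (QuotientGroup.mk' (N0 V G)) := by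
        intro m hm
        change QuotientGroup.mk' (N0 V G) m ∈ V'
        have h1 : QuotientGroup.mk' (N0 V G) m = 1 := (QuotientGroup.eq_one_iff _).2 hm
        rw [h1]
        exact V'.one_mem
      have hMU : ∀ m ∈ V'.comap (QuotientGroup.mk' (N0 V G)),
          QuotientGroup.mk' (N0 V G) m ∈ U₀ := by
        intro m hm
        obtain ⟨u, _, hu⟩ := (show QuotientGroup.mk' (N0 V G) m ∈ V' from hm)
        rw [← hu]
        exact u.2
      have hπ : A'.π = A.π := by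
        ext m
        rw [hA.pi, hA'.pi]
      have hf : ∀ σ : {σ : Set (Subgroup Γ) // CH p G Z σ},
        Fintype (MC A (V'.comap (QuotientGroup.mk' (N0 V G))) σ.1) := fun _ => Fintype.ofFinite _
      have h1 := alt_eq (p := p) (G := G) (Z := Z) red (A := A) (A' := A') hπ
        (hA.adm hG hM) (hA'.adm hG hM) hZ hZG
        (by rw [Subgroup.normalizer_eq_top]; exact le_top)
        (fun m _ => by rw [Subgroup.normalizer_eq_top]; exact Subgroup.mem_top _)
        (fun m _ x _ hx => hAA m x hx) (z := z) (fun m hm x => hz m (hMU m hm) x)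
        (fun m hm x => hz' m (hMU m hm) x) c
      have hMC : ∀ σ, MC A' (V'.comap (QuotientGroup.mk' (N0 V G))) σ =
          MC A (V'.comap (QuotientGroup.mk' (N0 V G))) σ := fun σ => by unfold MC; rw [hπ]
      have e1 : ∀ σ : {σ : Set (Subgroup Γ) // CH p G Z σ},
          ∑ m : MC A (V'.comap (QuotientGroup.mk' (N0 V G))) σ.1,
            (Fnum A' red (NS G σ.1) m (cut z (NS G σ.1)) c : ℤ) =
          (Nat.card (NS G σ.1) : ℤ) * ∑ v : V', (nS red hA' hG z c v σ.1 : ℤ) := by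
        intro σ
        have hf' : Fintype (MC A' (V'.comap (QuotientGroup.mk' (N0 V G))) σ.1) :=
          Fintype.ofFinite _
        rw [← sum_nS red hA' hG z c V' σ.1]
        exact Fintype.sum_equiv (Equiv.setCongr (by rw [hMC])) _ _ fun m => rfl
      rw [Finset.sum_congr rfl fun σ _ => congrArg (fun t : ℤ => (-1) ^ σ.1.ncard * t)
          (sum_nS red hA hG z c V' σ.1),
        Finset.sum_congr rfl fun σ _ => congrArg (fun t : ℤ => (-1) ^ σ.1.ncard * t) (e1 σ),
        ← sub_eq_zero, ← Finset.sum_sub_distrib] at h1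
      rw [Finset.sum_comm]
      refine Eq.trans ?_ h1
      refine Finset.sum_congr rfl fun σ _ => ?_
      have e2 : ∀ (B : PA Γ (Γ × V.U)) (hB : Ext B),
          ∑ v : V'', (nS red hB hG z c ((v : U₀) : (Γ × V.U) ⧸ N0 V G) σ.1 : ℤ) =
          ∑ v : V', (nS red hB hG z c v σ.1 : ℤ) := fun B hB =>
        Fintype.sum_equiv e _ _ fun v => rfl
      rw [← Finset.mul_sum, ← Finset.mul_sum, Finset.sum_sub_distrib, e2 A hA, e2 A' hA']
      ring
    · intro u w huw
      have h1 : ∀ S : Subgroup ((Γ × V.U) ⧸ N0 V G),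
          (u : (Γ × V.U) ⧸ N0 V G) ∈ S ↔ (w : (Γ × V.U) ⧸ N0 V G) ∈ S := by
        intro S
        have h2 := congrArg (Subgroup.map U₀.subtype) huw
        rw [MonoidHom.map_zpowers, MonoidHom.map_zpowers] at h2
        rw [← Subgroup.zpowers_le, ← Subgroup.zpowers_le]
        have h3 : Subgroup.zpowers (u : (Γ × V.U) ⧸ N0 V G) =
          Subgroup.zpowers (w : (Γ × V.U) ⧸ N0 V G) := h2
        rw [h3]
      have h2 : ∀ (B : PA Γ (Γ × V.U)) (hB : Ext B) (σ : Set (Subgroup Γ)),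
          nS red hB hG z c u σ = nS red hB hG z c w σ := by
        intro B hB σ
        unfold nS
        exact Nat.card_congr (Equiv.subtypeEquivRight fun χ => h1 _)
      refine Finset.sum_congr rfl fun σ _ => ?_
      rw [h2 A hA, h2 A' hA']
  have h3 : D ⟨v₀, Subgroup.mem_zpowers v₀⟩ =
      ∑ σ : {σ : Set (Subgroup Γ) // CH p G Z σ}, (-1) ^ σ.1.ncard *
        ((Nat.card (NS G σ.1) : ℤ) * (nS red hA hG z c v₀ σ.1 : ℤ)) -
      ∑ σ : {σ : Set (Subgroup Γ) // CH p G Z σ}, (-1) ^ σ.1.ncard *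
        ((Nat.card (NS G σ.1) : ℤ) * (nS red hA' hG z c v₀ σ.1 : ℤ)) := by
    rw [← Finset.sum_sub_distrib]
    refine Finset.sum_congr rfl fun σ _ => ?_
    ring
  rw [hD] at h3
  exact sub_eq_zero.1 h3.symm

end

end Pool.Agent.Q18.K
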