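import Pool.Agent.Q18.K.EqB

/-!
# Sums over the classes of chains of a normal subgroup
-/

open scoped BigOperators Classical

set_option linter.unusedSectionVars false

noncomputable section

namespace Pool.Agent.Q18.K

open Pool.Agent.Helper884.IC (IsIrrChar irr_finite)
open Pool.Agent.Y63.NV (redC centralValue IsClassFun IsBlock cut)
open Pool.Agent.Y63.KR
open Pool.Agent.Y930.NV
open Pool.Agent.Y63.AWC (irr_comp)
open Pool.Agent.Y286.NV (centralValue_comp irr_class)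

section

variable {Γ : Type} [Group Γ] [Finite Γ] {G Z : Subgroup Γ} {p : ℕ} {F : Type} [Field F]

/-- if a pair in `B` is fixed by `(e, s)` then `B` is fixed by `e` -/
theorem inv_of_EF (red : integralClosure ℤ ℂ →+* F) (hG : G.Normal) {s : ℂ ≃+* ℂ}
    (hred : ∀ ζ : ℂ, ζ ^ Nat.card Γ = 1 → redC red (s ζ) = redC red ζ)
    {B : (G → F) → F} {e : Γ} {σ : Set (Subgroup Γ)} {χ : NS G σ → ℂ} (hχ : IsIrrChar χ)
    (h : EF s e χ)
    (hB : ∀ f : G → F, IsClassFun f → centralValue red χ (fun x => f ⟨x, x.2.1⟩) = B f)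
    (f : G → F) (hf : IsClassFun f) : B (fun x => f (cjG hG e x)) = B f := by
  have : Fintype (NS G σ) := Fintype.ofFinite _
  have : Fintype G := Fintype.ofFinite _
  obtain ⟨t, ht1, ht2, ht3⟩ := h
  -- conjugation by `t`
  have hmem : ∀ x ∈ NS G σ, t * x * t⁻¹ ∈ NS G σ := fun x hx =>
    ⟨hG.conj_mem _ hx.1 _, Subgroup.mul_mem _ (Subgroup.mul_mem _ ht2 hx.2)
      (Subgroup.inv_mem _ ht2)⟩
  have hmem' : ∀ x ∈ NS G σ, t⁻¹ * x * t ∈ NS G σ := fun x hx =>
    ⟨by simpa using hG.conj_mem _ hx.1 t⁻¹, Subgroup.mul_mem _ (Subgroup.mul_mem _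
      (Subgroup.inv_mem _ ht2) hx.2) ht2⟩
  let c : NS G σ ≃* NS G σ :=
    { toFun := fun x => ⟨t * x * t⁻¹, hmem x x.2⟩
      invFun := fun x => ⟨t⁻¹ * x * t, hmem' x x.2⟩
      left_inv := fun x => Subtype.ext (by
        change t⁻¹ * (t * (x : Γ) * t⁻¹) * t = x
        group)
      right_inv := fun x => Subtype.ext (by
        change t * (t⁻¹ * (x : Γ) * t) * t⁻¹ = x
        group)
      map_mul' := fun x y => Subtype.ext (by
        change t * ((x : Γ) * y) * t⁻¹ = t * x * t⁻¹ * (t * y * t⁻¹)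
        group) }
  have hc : ∀ x, s (χ (c x)) = χ x := fun x => ht3 x (c x) rfl
  have hsχ := irr_gal s hχ
  have e1 : (fun x => f (cjG hG e x)) = fun x => f (cjG hG t x) := by
    funext x
    have h1 := hf ⟨t * e⁻¹, ht1⟩ (cjG hG e x)
    rw [← h1]
    congr 1
    apply Subtype.ext
    change t * e⁻¹ * (e * (x : Γ) * e⁻¹) * (t * e⁻¹)⁻¹ = t * x * t⁻¹
    group
  have hft : IsClassFun (fun x : G => f (cjG hG t x)) := (gp_cjG hG t).cf hf
  rw [e1, ← hB _ hft, ← hB _ hf]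
  have h2 := centralValue_comp red c (fun x => s (χ x)) (irr_class hsχ)
    (fun x : NS G σ => f ⟨x, x.2.1⟩) (fun a x => hf ⟨a, a.2.1⟩ ⟨x, x.2.1⟩)
  have h3 : (fun x => (fun x => s (χ x)) (c x)) = χ := funext hc
  rw [h3, cv_gal red Nat.card_pos (hxn (NS G σ)) s hred hχ] at h2
  rw [← h2]
  rfl

/-- conjugation of the stabilisers -/
def cjI (hG : G.Normal) (g : G) (σ : Set (Subgroup Γ)) :
    NS G σ ≃* NS G (conjSub (g : Γ) '' σ) where
  toFun x := ⟨g * x * (g : Γ)⁻¹, hG.conj_mem _ x.2.1 _, by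
    change (g : Γ) * x * (g : Γ)⁻¹ ∈ chainStabilizer (conjSub (g : Γ) '' σ)
    rw [chainStabilizer_conj, mem_conjSub]
    have : (g : Γ)⁻¹ * (g * x * (g : Γ)⁻¹) * g = x := by group
    rw [this]
    exact x.2.2⟩
  invFun y := ⟨(g : Γ)⁻¹ * y * g, by simpa using hG.conj_mem _ y.2.1 (g : Γ)⁻¹, by
    have h : (y : Γ) ∈ chainStabilizer (conjSub (g : Γ) '' σ) := y.2.2
    rw [chainStabilizer_conj, mem_conjSub] at h
    exact h⟩
  left_inv x := Subtype.ext (by
    change (g : Γ)⁻¹ * (g * (x : Γ) * (g : Γ)⁻¹) * g = x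
    group)
  right_inv x := Subtype.ext (by
    change g * ((g : Γ)⁻¹ * (x : Γ) * g) * (g : Γ)⁻¹ = x
    group)
  map_mul' x y := Subtype.ext (by
    change g * ((x : Γ) * y) * (g : Γ)⁻¹ = g * x * (g : Γ)⁻¹ * (g * y * (g : Γ)⁻¹)
    group)

theorem cjI_apply (hG : G.Normal) (g : G) (σ : Set (Subgroup Γ)) (x : NS G σ) :
    (cjI hG g σ x : Γ) = g * x * (g : Γ)⁻¹ := rfl

/-- properties of pairs which are invariant under conjugation by `G` -/
def GInv (hG : G.Normal) (Q : ∀ σ : Set (Subgroup Γ), (NS G σ → ℂ) → Prop) : Prop :=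
  ∀ (g : G) (σ : Set (Subgroup Γ)) (χ : NS G (conjSub (g : Γ) '' σ) → ℂ),
    Q σ (fun x => χ (cjI hG g σ x)) ↔ Q (conjSub (g : Γ) '' σ) χ

/-- the number of the characters in `B` with a property -/
def cntQ (red : integralClosure ℤ ℂ →+* F) (B : (G → F) → F)
    (Q : ∀ σ : Set (Subgroup Γ), (NS G σ → ℂ) → Prop) (σ : Set (Subgroup Γ)) : ℕ :=
  Nat.card {χ : NS G σ → ℂ // IsIrrChar χ ∧ Q σ χ ∧
    ∀ f : G → F, IsClassFun f → centralValue red χ (fun x => f ⟨x, x.2.1⟩) = B f}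

theorem cntQ_conj (hG : G.Normal) (red : integralClosure ℤ ℂ →+* F) (B : (G → F) → F)
    {Q : ∀ σ : Set (Subgroup Γ), (NS G σ → ℂ) → Prop} (hQ : GInv hG Q) (g : G)
    (σ : Set (Subgroup Γ)) : cntQ red B Q (conjSub (g : Γ) '' σ) = cntQ red B Q σ := by
  let c := cjI hG g σ
  have hval : ∀ χ : NS G (conjSub (g : Γ) '' σ) → ℂ, IsIrrChar χ → ∀ f : G → F, IsClassFun f →
      centralValue red (fun x => χ (c x)) (fun x : NS G σ => f ⟨x, x.2.1⟩) =
        centralValue red χ (fun x => f ⟨x, x.2.1⟩) := by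
    intro χ hχ f hf
    have h1 := centralValue_comp red c χ (irr_class hχ) (fun x => f ⟨x, x.2.1⟩)
      (fun a x => hf ⟨a, a.2.1⟩ ⟨x, x.2.1⟩)
    rw [← h1]
    congr 1
    funext x
    exact (hf g ⟨x, x.2.1⟩).symm
  have hcc : ∀ χ : NS G σ → ℂ, (fun x => (fun y => χ (c.symm y)) (c x)) = χ := by
    intro χ
    funext x
    change χ (c.symm (c x)) = χ x
    rw [c.symm_apply_apply]
  unfold cntQ
  refine Nat.card_congr
    { toFun := fun χ => ⟨fun x => χ.1 (c x), irr_comp c χ.2.1, (hQ g σ χ.1).2 χ.2.2.1, ?_⟩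
      invFun := fun χ => ⟨fun x => χ.1 (c.symm x), irr_comp c.symm χ.2.1, ?_, ?_⟩
      left_inv := ?_
      right_inv := ?_ }
  · intro f hf
    rw [hval χ.1 χ.2.1 f hf]
    exact χ.2.2.2 f hf
  · rw [← hQ g σ]
    have h1 := hcc χ.1
    change Q σ (fun x => (fun y => χ.1 (c.symm y)) (c x))
    rw [h1]
    exact χ.2.2.1
  · intro f hf
    have h1 := hval (fun x => χ.1 (c.symm x)) (irr_comp c.symm χ.2.1) f hf
    rw [hcc χ.1] at h1
    rw [← h1]
    exact χ.2.2.2 f hf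
  · intro χ
    apply Subtype.ext
    funext x
    change χ.1 (c (c.symm x)) = χ.1 x
    rw [c.apply_symm_apply]
  · intro χ
    apply Subtype.ext
    funext x
    change χ.1 (c.symm (c x)) = χ.1 x
    rw [c.symm_apply_apply]

theorem EF_inv (hG : G.Normal) (s : ℂ ≃+* ℂ) (e : Γ) :
    GInv hG (fun _ χ => EF s e χ) := by
  intro g σ χ
  constructor
  · rintro ⟨t, ht1, ht2, ht3⟩
    refine ⟨g * t * (g : Γ)⁻¹, ?_, ?_, ?_⟩
    · have h1 : g * t * (g : Γ)⁻¹ * e⁻¹ = g * (t * e⁻¹) * (e * (g : Γ)⁻¹ * e⁻¹) := by group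
      rw [h1]
      exact G.mul_mem (G.mul_mem g.2 ht1) (hG.conj_mem _ (G.inv_mem g.2) e)
    · rw [chainStabilizer_conj, mem_conjSub]
      have h1 : (g : Γ)⁻¹ * (g * t * (g : Γ)⁻¹) * g = t := by group
      rw [h1]
      exact ht2
    · intro x y hxy
      have h1 := ht3 ((cjI hG g σ).symm x) ((cjI hG g σ).symm y) (by
        change (g : Γ)⁻¹ * (y : Γ) * g = t * ((g : Γ)⁻¹ * (x : Γ) * g) * t⁻¹
        rw [hxy]
        group)
      simp only [MulEquiv.apply_symm_apply] at h1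
      exact h1
  · rintro ⟨t, ht1, ht2, ht3⟩
    refine ⟨(g : Γ)⁻¹ * t * g, ?_, ?_, ?_⟩
    · have h1 : (g : Γ)⁻¹ * t * g * e⁻¹ = (g : Γ)⁻¹ * (t * e⁻¹) * (e * (g : Γ) * e⁻¹) := by group
      rw [h1]
      exact G.mul_mem (G.mul_mem (G.inv_mem g.2) ht1) (hG.conj_mem _ g.2 e)
    · rw [chainStabilizer_conj, mem_conjSub] at ht2
      exact ht2
    · intro x y hxy
      refine ht3 _ _ ?_
      rw [cjI_apply, cjI_apply, hxy]
      group

/-- the alternating sum over the classes of chains -/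
theorem CH.conjG (hG : G.Normal) (hZ : Z.Normal) {σ : Set (Subgroup Γ)} (h : CH p G Z σ)
    (g : Γ) : CH p G Z (conjSub g '' σ) := by
  refine ⟨?_, ?_, ?_, ?_⟩
  · rintro _ ⟨P, hP, rfl⟩ _ ⟨Q, hQ, rfl⟩ _
    rcases h.chain.total hP hQ with h1 | h1
    · exact Or.inl (conjSub_le h1)
    · exact Or.inr (conjSub_le h1)
  · rintro _ ⟨P, hP, rfl⟩
    exact (h.isp P hP).map _
  · rintro _ ⟨P, hP, rfl⟩
    have h2 := conjSub_le (g := g) (h.le P hP)
    rwa [conjSub_normal hG] at h2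
  · rintro _ ⟨P, hP, rfl⟩
    have h1 := h.lt P hP
    refine lt_of_le_of_ne ?_ ?_
    · have h2 := conjSub_le (g := g) h1.le
      rwa [conjSub_normal hZ] at h2
    · intro h2
      apply h1.ne
      apply conjSub_injective g
      rw [conjSub_normal hZ]
      exact h2

theorem card_mul_G (hG : G.Normal) (hZ : Z.Normal) (P : Set (Subgroup Γ) → Prop)
    (hP : ∀ σ, P σ ↔ CH p G Z σ) (S : Setoid {σ : Set (Subgroup Γ) // P σ})
    (hS : ∀ σ τ, S.r σ τ ↔ ∃ g : G, τ.1 = conjSub (g : Γ) '' σ.1) (f : Set (Subgroup Γ) → ℤ)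
    (hf : ∀ (g : G) (σ : Set (Subgroup Γ)), f (conjSub (g : Γ) '' σ) = f σ)
    [Fintype {σ : Set (Subgroup Γ) // P σ}] [Fintype {σ : Set (Subgroup Γ) // CH p G Z σ}] :
    (Nat.card G : ℤ) * ∑ᶠ c : Quotient S,
      (-1) ^ (Quotient.out c).1.ncard * f (Quotient.out c).1 =
      ∑ σ : {σ : Set (Subgroup Γ) // CH p G Z σ},
        (-1) ^ σ.1.ncard * ((Nat.card (NS G σ.1) : ℤ) * f σ.1) := by
  let _ : MulAction G {σ : Set (Subgroup Γ) // P σ} :=
    { smul := fun g σ => ⟨conjSub (g : Γ) '' σ.1,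
        (hP _).2 (((hP _).1 σ.2).conjG hG hZ (g : Γ))⟩
      one_smul := fun σ => by
        apply Subtype.ext
        change conjSub (1 : Γ) '' σ.1 = σ.1
        have : (conjSub (1 : Γ)) = id := funext conjSub_one
        rw [this, Set.image_id]
      mul_smul := fun g h σ => by
        apply Subtype.ext
        change conjSub ((g : Γ) * h) '' σ.1 = conjSub (g : Γ) '' (conjSub (h : Γ) '' σ.1)
        rw [← Set.image_comp]
        congr 1
        exact funext fun P => conjSub_mul (g : Γ) h P }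
  have hsm : ∀ (g : G) (σ : {σ : Set (Subgroup Γ) // P σ}),
      (g • σ).1 = conjSub (g : Γ) '' σ.1 := fun _ _ => rfl
  have h := orbit_sum (G := G) S (by
    intro σ τ
    rw [hS]
    constructor
    · rintro ⟨g, hg⟩
      exact ⟨g, Subtype.ext (by rw [hsm, hg])⟩
    · rintro ⟨g, hg⟩
      exact ⟨g, by rw [← hg, hsm]⟩)
    (fun σ => (-1) ^ σ.1.ncard * f σ.1) (by
      intro σ τ hr
      obtain ⟨g, hg⟩ := (hS σ τ).1 hr
      rw [hg, ncard_conj, hf])
  rw [h]
  refine Fintype.sum_equiv (Equiv.subtypeEquivRight hP) _ _ fun σ => ?_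
  have hst : Nat.card (MulAction.stabilizer G σ) = Nat.card (NS G σ.1) := by
    have hiff : ∀ g : G, g ∈ MulAction.stabilizer G σ ↔ (g : Γ) ∈ chainStabilizer σ.1 := by
      intro g
      rw [MulAction.mem_stabilizer_iff, Subtype.ext_iff, hsm, mem_chainStabilizer]
      constructor
      · intro h3 P hP'
        have hgP : conjSub (g : Γ) P ∈ σ.1 := by
          rw [← h3]
          exact ⟨P, hP', rfl⟩
        have hcard : Nat.card (conjSub (g : Γ) P) = Nat.card P :=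
          Nat.card_congr (Subgroup.equivMapOfInjective _ _
            (MulAut.conj (g : Γ)).injective).toEquiv.symm
        rcases (((hP _).1 σ.2).chain).total hgP hP' with h4 | h4
        · exact Subgroup.eq_of_le_of_card_ge h4 hcard.ge
        · exact (Subgroup.eq_of_le_of_card_ge h4 hcard.le).symm
      · intro h3
        ext P
        constructor
        · rintro ⟨Q, hQ, rfl⟩
          rw [h3 Q hQ]
          exact hQ
        · intro hP'
          exact ⟨P, hP', h3 P hP'⟩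
    exact Nat.card_congr
      { toFun := fun g => ⟨g.1, g.1.2, (hiff g.1).1 g.2⟩
        invFun := fun g => ⟨⟨g.1, g.2.1⟩, (hiff _).2 g.2.2⟩
        left_inv := fun _ => rfl
        right_inv := fun _ => rfl }
  rw [hst]
  change _ = (-1) ^ σ.1.ncard * ((Nat.card (NS G σ.1) : ℤ) * f σ.1)
  ring

/-- **fixed points of `(e, s)` and of `e`** -/
theorem eq_cls [Fact p.Prime] [IsAlgClosed F] [CharP F p]
    (red : integralClosure ℤ ℂ →+* F) (hG : G.Normal)
    (hZ : IsPGroup p Z) (hZG : Z ≤ G) (hZn : Z.Normal)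
    {s : ℂ ≃+* ℂ} (hs : ∀ ζ : ℂ, ζ ^ Nat.card Γ = 1 →
      (∃ k : ℕ, ¬ p ∣ k ∧ ζ ^ (k * Monoid.exponent Z) = 1) → s ζ = ζ)
    {B : (G → F) → F} (hB : IsBlock B) (e : Γ)
    [Fintype {σ : Set (Subgroup Γ) // CH p G Z σ}] :
    ∑ σ : {σ : Set (Subgroup Γ) // CH p G Z σ}, (-1) ^ σ.1.ncard *
      ((Nat.card (NS G σ.1) : ℤ) * (cntQ red B (fun _ χ => EF s e χ) σ.1 : ℤ)) =
    ∑ σ : {σ : Set (Subgroup Γ) // CH p G Z σ}, (-1) ^ σ.1.ncard *
      ((Nat.card (NS G σ.1) : ℤ) *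
        (cntQ red B (fun _ χ => EF (RingEquiv.refl ℂ) e χ) σ.1 : ℤ)) := by
  by_cases hBe : ∀ f : G → F, IsClassFun f → B (fun x => f (cjG hG e x)) = B f
  · exact eqB_sum red hG hZ hZG hZn hs hB hBe
  · have h0 : ∀ (s : ℂ ≃+* ℂ), (∀ ζ : ℂ, ζ ^ Nat.card Γ = 1 → redC red (s ζ) = redC red ζ) →
        ∀ σ : Set (Subgroup Γ), cntQ red B (fun _ χ => EF s e χ) σ = 0 := by
      intro s hred σ
      unfold cntQ
      rw [Nat.card_eq_zero]
      left
      constructor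
      rintro ⟨χ, hχ, h1, h2⟩
      exact hBe (inv_of_EF red hG hred hχ h1 h2)
    have hred : ∀ ζ : ℂ, ζ ^ Nat.card Γ = 1 → redC red (s ζ) = redC red ζ := by
      intro ζ hζ
      refine red_fix (p := p) red (σ := s) (n := Nat.card Γ) ?_ Nat.card_pos hζ
      rintro ζ hζ' ⟨k, hk, hζ⟩
      refine hs ζ hζ' ⟨k, hk, ?_⟩
      rw [pow_mul, hζ, one_pow]
    simp only [h0 s hred, h0 (RingEquiv.refl ℂ) (fun _ _ => rfl)]

end

end Pool.Agent.Q18.K
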