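import Pool.Agent.Q18.K.EqC
import Pool.Agent.Q18.K.Cyc

/-!
# Characters with given stabiliser
-/

open scoped BigOperators Classical

set_option linter.unusedSectionVars false

noncomputable section

namespace Pool.Agent.Q18.K

open Pool.Agent.Helper884.IC (IsIrrChar irr_finite)
open Pool.Agent.Y63.NV (redC centralValue IsClassFun IsBlock cut)
open Pool.Agent.Y63.KR

section

variable {Γ : Type} [Group Γ] [Finite Γ] {G Z : Subgroup Γ} {p : ℕ} {F : Type} [Field F]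

theorem conj_NS (hG : G.Normal) {σ : Set (Subgroup Γ)} {t : Γ} (ht : t ∈ chainStabilizer σ)
    {x : Γ} (hx : x ∈ NS G σ) : t * x * t⁻¹ ∈ NS G σ :=
  ⟨hG.conj_mem _ hx.1 _, Subgroup.mul_mem _ (Subgroup.mul_mem _ ht hx.2)
      (Subgroup.inv_mem _ ht)⟩

/-- the stabiliser of a pair -/
def PS (hG : G.Normal) {σ : Set (Subgroup Γ)} (χ : NS G σ → ℂ) : Subgroup Γ where
  carrier := {t | t ∈ chainStabilizer σ ∧ ∀ x y : NS G σ, (y : Γ) = t * x * t⁻¹ → χ y = χ x}
  mul_mem' := by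
    rintro a b ⟨ha, ha'⟩ ⟨hb, hb'⟩
    refine ⟨Subgroup.mul_mem _ ha hb, fun x y hy => ?_⟩
    have h1 : (y : Γ) = a * (b * x * b⁻¹) * a⁻¹ := by rw [hy]; group
    rw [ha' ⟨b * x * b⁻¹, conj_NS hG hb x.2⟩ y h1, hb' x _ rfl]
  one_mem' := by
    refine ⟨Subgroup.one_mem _, fun x y hy => ?_⟩
    rw [one_mul, inv_one, mul_one] at hy
    exact congrArg χ (Subtype.ext hy)
  inv_mem' := by
    rintro a ⟨ha, ha'⟩
    refine ⟨Subgroup.inv_mem _ ha, fun x y hy => ?_⟩
    refine (ha' y x ?_).symm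
    rw [hy]
    group

theorem mem_PS (hG : G.Normal) {σ : Set (Subgroup Γ)} {χ : NS G σ → ℂ} {t : Γ} :
    t ∈ PS hG χ ↔ t ∈ chainStabilizer σ ∧
      ∀ x y : NS G σ, (y : Γ) = t * x * t⁻¹ → χ y = χ x := Iff.rfl

theorem EF_iff (hG : G.Normal) {σ : Set (Subgroup Γ)} (χ : NS G σ → ℂ) (e : Γ) :
    EF (RingEquiv.refl ℂ) e χ ↔
      QuotientGroup.mk' G e ∈ (PS hG χ).map (QuotientGroup.mk' G) := by
  constructor
  · rintro ⟨t, ht1, ht2, ht3⟩
    refine ⟨t, ⟨ht2, ht3⟩, ?_⟩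
    have h1 : QuotientGroup.mk' G (t * e⁻¹) = 1 := (QuotientGroup.eq_one_iff _).2 ht1
    rw [map_mul, map_inv] at h1
    exact mul_inv_eq_one.1 h1
  · rintro ⟨t, ht, hte⟩
    refine ⟨t, ?_, ht.1, ht.2⟩
    rw [← QuotientGroup.eq_one_iff (N := G)]
    change QuotientGroup.mk' G (t * e⁻¹) = 1
    rw [map_mul, map_inv, hte, mul_inv_cancel]

/-- iterates of the relation -/
theorem EF_iter (hG : G.Normal) {s : ℂ ≃+* ℂ} {σ : Set (Subgroup Γ)} {χ : NS G σ → ℂ} {t : Γ}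
    (ht : t ∈ chainStabilizer σ)
    (h : ∀ x y : NS G σ, (y : Γ) = t * x * t⁻¹ → s (χ y) = χ x) (k : ℕ) :
    ∀ x y : NS G σ, (y : Γ) = t ^ k * x * (t ^ k)⁻¹ →
      ((show RingAut ℂ from s) ^ k) (χ y) = χ x := by
  induction k with
  | zero =>
    intro x y hy
    rw [pow_zero, one_mul, inv_one, mul_one] at hy
    rw [pow_zero, Subtype.ext hy]
    rfl
  | succ k ih =>
    intro x y hy
    have h1 : t ^ k * x * (t ^ k)⁻¹ ∈ NS G σ := conj_NS hG (Subgroup.pow_mem _ ht k) x.2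
    rw [pow_succ, RingAut.mul_apply]
    have h2 : (show RingAut ℂ from s) (χ y) = χ ⟨t ^ k * x * (t ^ k)⁻¹, h1⟩ := by
      refine h _ _ ?_
      rw [hy, pow_succ']
      group
    rw [h2]
    exact ih _ _ rfl

theorem chi_fix {τ : ℂ ≃+* ℂ} (hτ : ∀ ζ : ℂ, ζ ^ Nat.card Γ = 1 → τ ζ = ζ) {N : Subgroup Γ}
    {χ : N → ℂ} (hχ : IsIrrChar χ) (x : N) : τ (χ x) = χ x := by
  have : Fintype N := Fintype.ofFinite N
  have h1 := char_pow_gal τ (j := 1) Nat.card_pos (fun ζ hζ => by rw [hτ ζ hζ, pow_one]) hχ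
    (hxn N x)
  rw [pow_one] at h1
  exact h1.symm

theorem iter_fix {s : ℂ ≃+* ℂ} {m : ℕ}
    (hm : ∀ ζ : ℂ, ζ ^ Nat.card Γ = 1 → ((show RingAut ℂ from s) ^ m) ζ = ζ) (k : ℕ) :
    ∀ ζ : ℂ, ζ ^ Nat.card Γ = 1 → ((show RingAut ℂ from s) ^ (m * k)) ζ = ζ := by
  induction k with
  | zero => intro ζ _; rw [mul_zero, pow_zero]; rfl
  | succ k ih =>
    intro ζ hζ
    rw [Nat.mul_succ, pow_add, RingAut.mul_apply, hm ζ hζ, ih ζ hζ]

/-- coprime orders -/
theorem EF_coprime (hG : G.Normal) {s : ℂ ≃+* ℂ} {m l : ℕ} (hml : Nat.Coprime m l)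
    (hm : ∀ ζ : ℂ, ζ ^ Nat.card Γ = 1 → ((show RingAut ℂ from s) ^ m) ζ = ζ) {e : Γ}
    (hl : e ^ l ∈ G) {σ : Set (Subgroup Γ)} {χ : NS G σ → ℂ} (hχ : IsIrrChar χ) :
    EF s e χ ↔ EF (RingEquiv.refl ℂ) e χ ∧ ∀ x, s (χ x) = χ x := by
  constructor
  · rintro ⟨t, ht1, ht2, ht3⟩
    have hit := EF_iter hG ht2 ht3
    have hmk : QuotientGroup.mk' G t = QuotientGroup.mk' G e := by
      have h1 : QuotientGroup.mk' G (t * e⁻¹) = 1 := (QuotientGroup.eq_one_iff _).2 ht1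
      rw [map_mul, map_inv] at h1
      exact mul_inv_eq_one.1 h1
    have hel : (QuotientGroup.mk' G e) ^ l = 1 := by
      rw [← map_pow]
      exact (QuotientGroup.eq_one_iff _).2 hl
    constructor
    · -- `k ≡ 0` modulo `m`, `k ≡ 1` modulo `l`
      obtain ⟨k, hk1, hk2⟩ := Nat.chineseRemainder hml 0 1
      obtain ⟨d, hd⟩ := (Nat.modEq_zero_iff_dvd).1 hk1
      refine ⟨t ^ k, ?_, Subgroup.pow_mem _ ht2 k, ?_⟩
      · rw [← QuotientGroup.eq_one_iff (N := G)]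
        change QuotientGroup.mk' G (t ^ k * e⁻¹) = 1
        rw [map_mul, map_inv, map_pow, hmk, pow_eq_pow_of_modEq hk2 hel, pow_one,
          mul_inv_cancel]
      · intro x y hy
        have h2 := hit k x y hy
        rw [hd] at h2
        rw [chi_fix (τ := (show RingAut ℂ from s) ^ (m * d)) (iter_fix hm d) hχ y] at h2
        exact h2
    · obtain ⟨k, hk1, hk2⟩ := Nat.chineseRemainder hml 1 0
      intro x
      have htk : t ^ k ∈ NS G σ := by
        refine ⟨?_, Subgroup.pow_mem _ ht2 k⟩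
        change t ^ k ∈ G
        rw [← QuotientGroup.eq_one_iff (N := G)]
        change QuotientGroup.mk' G (t ^ k) = 1
        rw [map_pow, hmk, pow_eq_pow_of_modEq hk2 hel, pow_zero]
      have h2 := hit k x (⟨t ^ k, htk⟩ * x * (⟨t ^ k, htk⟩ : NS G σ)⁻¹) rfl
      rw [irr_conj hχ] at h2
      -- `s ^ k` is `s` on the values
      have h3 : ((show RingAut ℂ from s) ^ k) (χ x) = s (χ x) := by
        have : Fintype (NS G σ) := Fintype.ofFinite _
        rcases Nat.eq_zero_or_pos k with hk0 | hk0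
        · -- then `m = 1`
          subst hk0
          have hm1 : m ∣ 1 := (Nat.modEq_iff_dvd' (by omega : 0 ≤ 1)).1 hk1
          rw [Nat.dvd_one] at hm1
          subst hm1
          have h4 : s (χ x) = χ x := by
            refine chi_fix (τ := s) (fun ζ hζ => ?_) hχ x
            have := hm ζ hζ
            rw [pow_one] at this
            exact this
          rw [h4]
          rfl
        · obtain ⟨d, hd⟩ := (Nat.modEq_iff_dvd' hk0).1 hk1.symm
          have h5 : k = m * d + 1 := by omega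
          rw [h5, pow_add, pow_one, RingAut.mul_apply]
          have hsχ := irr_gal s hχ
          exact chi_fix (τ := (show RingAut ℂ from s) ^ (m * d)) (iter_fix hm d) hsχ x
      rw [h3] at h2
      exact h2
  · rintro ⟨⟨t, ht1, ht2, ht3⟩, h⟩
    refine ⟨t, ht1, ht2, fun x y hy => ?_⟩
    rw [h y]
    exact ht3 x y hy

theorem cntQ_split (red : integralClosure ℤ ℂ →+* F) (B : (G → F) → F)
    (Q R : ∀ σ : Set (Subgroup Γ), (NS G σ → ℂ) → Prop) (σ : Set (Subgroup Γ)) :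
    cntQ red B Q σ = cntQ red B (fun σ χ => Q σ χ ∧ R σ χ) σ +
      cntQ red B (fun σ χ => Q σ χ ∧ ¬ R σ χ) σ := by
  have : Fintype (NS G σ) := Fintype.ofFinite _
  have hf1 : {χ : NS G σ → ℂ | IsIrrChar χ}.Finite := irr_finite
  have e0 : ∀ Q : ∀ σ : Set (Subgroup Γ), (NS G σ → ℂ) → Prop, cntQ red B Q σ =
      {χ : NS G σ → ℂ | IsIrrChar χ ∧ Q σ χ ∧ ∀ f : G → F, IsClassFun f →
        centralValue red χ (fun x => f ⟨x, x.2.1⟩) = B f}.ncard := fun Q =>
    Nat.card_coe_set_eq _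
  rw [e0, e0, e0, ← Set.ncard_union_eq ?_ (hf1.subset fun χ h => h.1)
    (hf1.subset fun χ h => h.1)]
  · congr 1
    ext χ
    simp only [Set.mem_ofPred_eq, Set.mem_union]
    tauto
  · rw [Set.disjoint_left]
    rintro χ ⟨_, h, _⟩ ⟨_, h', _⟩
    exact h'.2 h.2

theorem cntQ_congr (red : integralClosure ℤ ℂ →+* F) (B : (G → F) → F)
    {Q R : ∀ σ : Set (Subgroup Γ), (NS G σ → ℂ) → Prop} {σ : Set (Subgroup Γ)}
    (h : ∀ χ : NS G σ → ℂ, IsIrrChar χ → (Q σ χ ↔ R σ χ)) :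
    cntQ red B Q σ = cntQ red B R σ :=
  Nat.card_congr (Equiv.subtypeEquivRight fun χ => and_congr_right fun hχ =>
    and_congr_left fun _ => h χ hχ)

/-- the signed sum over all chains -/
def aS (p : ℕ) (Z : Subgroup Γ) (red : integralClosure ℤ ℂ →+* F) (B : (G → F) → F)
    (Q : ∀ σ : Set (Subgroup Γ), (NS G σ → ℂ) → Prop)
    [Fintype {σ : Set (Subgroup Γ) // CH p G Z σ}] : ℤ :=
  ∑ σ : {σ : Set (Subgroup Γ) // CH p G Z σ}, (-1) ^ σ.1.ncard *
      ((Nat.card (NS G σ.1) : ℤ) * (cntQ red B Q σ.1 : ℤ))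

variable [Fintype {σ : Set (Subgroup Γ) // CH p G Z σ}]

theorem aS_split (red : integralClosure ℤ ℂ →+* F) (B : (G → F) → F)
    (Q R : ∀ σ : Set (Subgroup Γ), (NS G σ → ℂ) → Prop) :
    aS p Z red B Q = aS p Z red B (fun σ χ => Q σ χ ∧ R σ χ) +
      aS p Z red B (fun σ χ => Q σ χ ∧ ¬ R σ χ) := by
  unfold aS
  rw [← Finset.sum_add_distrib]
  refine Finset.sum_congr rfl fun σ _ => ?_
  rw [cntQ_split red B Q R]
  push_cast
  ring

theorem aS_congr (red : integralClosure ℤ ℂ →+* F) (B : (G → F) → F)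
    {Q R : ∀ σ : Set (Subgroup Γ), (NS G σ → ℂ) → Prop}
    (h : ∀ (σ : Set (Subgroup Γ)) (χ : NS G σ → ℂ), IsIrrChar χ → (Q σ χ ↔ R σ χ)) :
    aS p Z red B Q = aS p Z red B R := by
  unfold aS
  refine Finset.sum_congr rfl fun σ _ => ?_
  rw [cntQ_congr red B (h σ.1)]

/-- sums over the stabilisers -/
theorem aS_stab (red : integralClosure ℤ ℂ →+* F) (B : (G → F) → F) (hG : G.Normal)
    (R : ∀ σ : Set (Subgroup Γ), (NS G σ → ℂ) → Prop) (U : Subgroup (Γ ⧸ G))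
    [Fintype (Subgroup (Γ ⧸ G))] :
    aS p Z red B (fun σ χ => U ≤ (PS hG χ).map (QuotientGroup.mk' G) ∧ R σ χ) =
      ∑ U' : Subgroup (Γ ⧸ G), if U ≤ U' then
        aS p Z red B (fun σ χ => (PS hG χ).map (QuotientGroup.mk' G) = U' ∧ R σ χ) else 0 := by
  have h1 : ∀ σ : Set (Subgroup Γ),
      (cntQ red B (fun σ χ => U ≤ (PS hG χ).map (QuotientGroup.mk' G) ∧ R σ χ) σ : ℤ) =
      ∑ U' : Subgroup (Γ ⧸ G), if U ≤ U' then
        (cntQ red B (fun σ χ => (PS hG χ).map (QuotientGroup.mk' G) = U' ∧ R σ χ) σ : ℤ)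
          else 0 := by
    intro σ
    have : Fintype (NS G σ) := Fintype.ofFinite _
    have hf1 : {χ : NS G σ → ℂ | IsIrrChar χ}.Finite := irr_finite
    let T : Type := {χ : NS G σ → ℂ // IsIrrChar χ ∧ R σ χ ∧ ∀ f : G → F, IsClassFun f →
        centralValue red χ (fun x => f ⟨x, x.2.1⟩) = B f}
    have hT : Finite T := (hf1.subset (fun χ (h : IsIrrChar χ ∧ R σ χ ∧ ∀ f : G → F,
      IsClassFun f → centralValue red χ (fun x => f ⟨x, x.2.1⟩) = B f) => h.1)).to_subtype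
    have hT' : Fintype T := Fintype.ofFinite T
    have e0 : ∀ P : Subgroup (Γ ⧸ G) → Prop,
        (cntQ red B (fun σ χ => P ((PS hG χ).map (QuotientGroup.mk' G)) ∧ R σ χ) σ : ℤ) =
        ((Finset.univ.filter (fun χ : T => P ((PS hG χ.1).map (QuotientGroup.mk' G)))).card :
          ℤ) := by
      intro P
      rw [card_filter_nat]
      congr 1
      unfold cntQ
      exact Nat.card_congr
        { toFun := fun χ => ⟨⟨χ.1, χ.2.1, χ.2.2.1.2, χ.2.2.2⟩, χ.2.2.1.1⟩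
          invFun := fun χ => ⟨χ.1.1, χ.1.2.1, ⟨χ.2, χ.1.2.2.1⟩, χ.1.2.2.2⟩
          left_inv := fun _ => rfl
          right_inv := fun _ => rfl }
    rw [e0 (fun V => U ≤ V)]
    have e1 : ∀ U' : Subgroup (Γ ⧸ G), (if U ≤ U' then
        (cntQ red B (fun σ χ => (PS hG χ).map (QuotientGroup.mk' G) = U' ∧ R σ χ) σ : ℤ)
          else 0) = ∑ χ : T, if U ≤ U' ∧ (PS hG χ.1).map (QuotientGroup.mk' G) = U' then
            (1 : ℤ) else 0 := by
      intro U'
      by_cases hU : U ≤ U'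
      · rw [if_pos hU, e0 (fun V => V = U'), Finset.sum_boole]
        simp only [hU, true_and]
      · rw [if_neg hU]
        symm
        refine Finset.sum_eq_zero fun χ _ => ?_
        rw [if_neg (fun h => hU h.1)]
    rw [Finset.sum_congr rfl fun U' _ => e1 U', Finset.sum_comm, ← Finset.sum_boole]
    refine Finset.sum_congr rfl fun χ _ => ?_
    by_cases hU : U ≤ (PS hG χ.1).map (QuotientGroup.mk' G)
    · rw [if_pos hU, Finset.sum_eq_single ((PS hG χ.1).map (QuotientGroup.mk' G))]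
      · rw [if_pos ⟨hU, rfl⟩]
      · intro U' _ hne
        rw [if_neg (fun h => hne h.2.symm)]
      · intro h
        exact absurd (Finset.mem_univ _) h
    · rw [if_neg hU]
      symm
      refine Finset.sum_eq_zero fun U' _ => ?_
      rw [if_neg]
      rintro ⟨h2, h3⟩
      exact hU (h3 ▸ h2)
  unfold aS
  have h2 : ∀ σ : {σ : Set (Subgroup Γ) // CH p G Z σ}, (-1) ^ σ.1.ncard *
      ((Nat.card (NS G σ.1) : ℤ) *
        (cntQ red B (fun σ χ => U ≤ (PS hG χ).map (QuotientGroup.mk' G) ∧ R σ χ) σ.1 : ℤ)) =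
      ∑ U' : Subgroup (Γ ⧸ G), if U ≤ U' then (-1) ^ σ.1.ncard *
      ((Nat.card (NS G σ.1) : ℤ) * (cntQ red B (fun σ χ =>
        (PS hG χ).map (QuotientGroup.mk' G) = U' ∧ R σ χ) σ.1 : ℤ)) else 0 := by
    intro σ
    rw [h1, Finset.mul_sum, Finset.mul_sum]
    refine Finset.sum_congr rfl fun U' _ => ?_
    split_ifs
    · rfl
    · rw [mul_zero, mul_zero]
  rw [Finset.sum_congr rfl fun σ _ => h2 σ, Finset.sum_comm]
  refine Finset.sum_congr rfl fun U' _ => ?_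
  split_ifs
  · rfl
  · exact Finset.sum_const_zero

/-- **given stabiliser**: cyclic quotient of order prime to the order of `s` -/
theorem eq_stab [Fact p.Prime] [IsAlgClosed F] [CharP F p]
    (red : integralClosure ℤ ℂ →+* F) (hG : G.Normal)
    (hZ : IsPGroup p Z) (hZG : Z ≤ G) (hZn : Z.Normal)
    {s : ℂ ≃+* ℂ} (hs : ∀ ζ : ℂ, ζ ^ Nat.card Γ = 1 →
      (∃ k : ℕ, ¬ p ∣ k ∧ ζ ^ (k * Monoid.exponent Z) = 1) → s ζ = ζ)
    {m : ℕ} (hm : ∀ ζ : ℂ, ζ ^ Nat.card Γ = 1 → ((show RingAut ℂ from s) ^ m) ζ = ζ)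
    (hcyc : IsCyclic (Γ ⧸ G)) (hcop : m.Coprime (Nat.card (Γ ⧸ G)))
    {B : (G → F) → F} (hB : IsBlock B) (U : Subgroup (Γ ⧸ G)) :
    aS p Z red B (fun _ χ => (PS hG χ).map (QuotientGroup.mk' G) = U) =
    aS p Z red B (fun _ χ => (PS hG χ).map (QuotientGroup.mk' G) = U ∧
      ∀ x, s (χ x) = χ x) := by
  have hfs : Fintype (Subgroup (Γ ⧸ G)) := Fintype.ofFinite _
  have h1 : ∀ e : Γ, aS p Z red B (fun _ χ =>
      EF (RingEquiv.refl ℂ) e χ ∧ ¬ ∀ x, s (χ x) = χ x) = 0 := by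
    intro e
    have h2 := eq_cls red hG hZ hZG hZn hs hB e
    have h3 : aS p Z red B (fun _ χ => EF s e χ) =
        aS p Z red B (fun _ χ => EF (RingEquiv.refl ℂ) e χ) := h2
    rw [aS_split red B (fun _ χ => EF (RingEquiv.refl ℂ) e χ) (fun _ χ => ∀ x, s (χ x) = χ x)]
      at h3
    have hl : e ^ Nat.card (Γ ⧸ G) ∈ G := by
      rw [← QuotientGroup.eq_one_iff (N := G)]
      change QuotientGroup.mk' G (e ^ Nat.card (Γ ⧸ G)) = 1
      rw [map_pow]
      exact pow_card_eq_one'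
    rw [aS_congr red B (R := fun _ χ => EF (RingEquiv.refl ℂ) e χ ∧ ∀ x, s (χ x) = χ x)
      (fun σ χ hχ => EF_coprime hG hcop hm hl hχ)] at h3
    exact left_eq_add.1 h3
  have h2 : ∀ U : Subgroup (Γ ⧸ G), aS p Z red B (fun _ χ =>
      U ≤ (PS hG χ).map (QuotientGroup.mk' G) ∧ ¬ ∀ x, s (χ x) = χ x) = 0 := by
    intro U
    obtain ⟨v, hv⟩ := (Subgroup.isCyclic_iff_exists_zpowers_eq_top U).1 inferInstance
    obtain ⟨e, rfl⟩ := QuotientGroup.mk'_surjective G v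
    rw [← h1 e]
    refine aS_congr red B fun σ χ _ => ?_
    rw [EF_iff hG, ← hv, Subgroup.zpowers_le]
  have h3 : ∀ (n : ℕ) (U : Subgroup (Γ ⧸ G)), Nat.card (Γ ⧸ G) - Nat.card U = n →
      aS p Z red B (fun _ χ => (PS hG χ).map (QuotientGroup.mk' G) = U ∧
        ¬ ∀ x, s (χ x) = χ x) = 0 := by
    intro n
    induction n using Nat.strong_induction_on with
    | _ n ih =>
      intro U hU
      have h4 := h2 U
      rw [aS_stab red B hG (fun _ χ => ¬ ∀ x, s (χ x) = χ x) U,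
        Finset.sum_eq_single U, if_pos le_rfl] at h4
      · exact h4
      · intro U' _ hne
        by_cases hle : U ≤ U'
        · rw [if_pos hle]
          have hlt : Nat.card U < Nat.card U' := by
            refine lt_of_le_of_ne (Nat.card_le_card_of_injective (Subgroup.inclusion hle)
              (Subgroup.inclusion_injective hle)) ?_
            intro h5
            exact hne (Subgroup.eq_of_le_of_card_ge hle h5.ge).symm
          have hle' : Nat.card U' ≤ Nat.card (Γ ⧸ G) := Subgroup.card_le_card_group U'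
          exact ih _ (by omega) U' rfl
        · rw [if_neg hle]
      · intro h
        exact absurd (Finset.mem_univ _) h
  rw [aS_split red B (fun _ χ => (PS hG χ).map (QuotientGroup.mk' G) = U)
    (fun _ χ => ∀ x, s (χ x) = χ x), h3 _ U rfl, add_zero]

end

end Pool.Agent.Q18.K
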