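import Pool.Agent.Q18.K.EqD

/-!
# Rational characters with given stabiliser
-/

open scoped BigOperators Classical

set_option linter.unusedSectionVars false

noncomputable section

namespace Pool.Agent.Q18.K

open Pool.Agent.Helper884.IC (IsIrrChar irr_finite)
open Pool.Agent.Y63.NV (redC centralValue IsClassFun IsBlock cut)
open Pool.Agent.Y63.KR

section

variable {Γ : Type} [Group Γ] [Finite Γ] {G Z : Subgroup Γ} {p : ℕ} {F : Type} [Field F]

theorem iter_pow {s : ℂ ≃+* ℂ} {n j : ℕ} (h : ∀ ζ : ℂ, ζ ^ n = 1 → s ζ = ζ ^ j) (k : ℕ) :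
    ∀ ζ : ℂ, ζ ^ n = 1 → ((show RingAut ℂ from s) ^ k) ζ = ζ ^ (j ^ k) := by
  induction k with
  | zero =>
    intro ζ _
    rw [pow_zero, pow_zero, pow_one]
    rfl
  | succ k ih =>
    intro ζ hζ
    have h1 : (show RingAut ℂ from s) ζ = ζ ^ j := h ζ hζ
    rw [pow_succ, RingAut.mul_apply, h1, ih _ (by rw [← pow_mul, mul_comm, pow_mul, hζ, one_pow]),
      ← pow_mul, pow_succ', mul_comm]

/-- the order of an automorphism which fixes the roots of unity of order prime to `p` -/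
theorem order_dvd {p n : ℕ} (hp : p.Prime) (hn : 0 < n) {s : ℂ ≃+* ℂ}
    (h : ∀ ζ : ℂ, ζ ^ n = 1 → (∃ k : ℕ, ¬ p ∣ k ∧ ζ ^ k = 1) → s ζ = ζ) :
    ∀ ζ : ℂ, ζ ^ n = 1 →
      ((show RingAut ℂ from s) ^ (p ^ n.factorization p * (p - 1))) ζ = ζ := by
  intro ζ hζ
  obtain ⟨j, hj, hsj⟩ := exists_cop s hn
  set a := n.factorization p with ha
  set n' := n / p ^ a with hn'
  have hnn : p ^ a * n' = n := Nat.ordProj_mul_ordCompl_eq_self n p
  have hn'p : ¬ p ∣ n' := Nat.not_dvd_ordCompl hp hn.ne'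
  have hn'0 : 0 < n' := Nat.pos_of_ne_zero fun h => hn'p (h ▸ dvd_zero p)
  have h1 : j ≡ 1 [MOD n'] := by
    refine modEq_of_pow hn'0 ?_
    have hz := (zt_prim hn'0).pow_eq_one
    have hzn : zt n' ^ n = 1 := by rw [← hnn, mul_comm, pow_mul, hz, one_pow]
    rw [← hsj _ hzn, h _ hzn ⟨n', hn'p, hz⟩, pow_one]
  have h2 : j ^ (p ^ a * (p - 1)) ≡ 1 [MOD n'] := by
    have := h1.pow (p ^ a * (p - 1))
    rwa [one_pow] at this
  have h3 : j ^ (p ^ a * (p - 1)) ≡ 1 [MOD p ^ a] := by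
    rcases Nat.eq_zero_or_pos a with h0 | h0
    · rw [h0, pow_zero]
      exact Nat.modEq_one
    · have hcop : j.Coprime (p ^ a) := by
        rw [← hnn] at hj
        exact Nat.Coprime.coprime_mul_right_right hj
      have h4 := Nat.ModEq.pow_totient hcop
      rw [Nat.totient_prime_pow hp h0] at h4
      have h5 : p ^ a * (p - 1) = p ^ (a - 1) * (p - 1) * p := by
        obtain ⟨c, hc⟩ : ∃ c, a = c + 1 := ⟨a - 1, by omega⟩
        rw [hc, Nat.add_sub_cancel, pow_succ]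
        ring
      rw [h5, pow_mul]
      have := h4.pow p
      rwa [one_pow] at this
  have h4 : j ^ (p ^ a * (p - 1)) ≡ 1 [MOD n] := by
    have h5 : (p ^ a).Coprime n' := (Nat.Prime.coprime_pow_of_not_dvd (m := a) hp hn'p).symm
    have := (Nat.modEq_and_modEq_iff_modEq_mul h5).1 ⟨h3, h2⟩
    rwa [hnn] at this
  rw [iter_pow hsj _ ζ hζ, pow_of_modEq h4 hζ, pow_one]

/-- **given stabiliser, rational characters** -/
theorem eq_stab_rat [hp : Fact p.Prime] [IsAlgClosed F] [CharP F p]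
    [Fintype {σ : Set (Subgroup Γ) // CH p G Z σ}]
    (red : integralClosure ℤ ℂ →+* F) (hG : G.Normal)
    (hZ : IsPGroup p Z) (hZG : Z ≤ G) (hZn : Z.Normal) {b : ℕ} (hpb : p ≠ 2 ∨ 2 ≤ b)
    (hbe : Monoid.exponent Z ∣ p ^ b) (hcyc : IsCyclic (Γ ⧸ G))
    (hcop : (p * (p - 1)).Coprime (Nat.card (Γ ⧸ G)))
    {B : (G → F) → F} (hB : IsBlock B) (U : Subgroup (Γ ⧸ G)) :
    aS p Z red B (fun _ χ => (PS hG χ).map (QuotientGroup.mk' G) = U) =
    aS p Z red B (fun _ χ => (PS hG χ).map (QuotientGroup.mk' G) = U ∧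
      ∃ k : ℕ, ¬ p ∣ k ∧ ∀ x, χ x ∈ IntermediateField.adjoin ℚ {zt (k * p ^ b)}) := by
  obtain ⟨s, hs1, hs2⟩ := exists_gen' (Γ := Γ) hpb
  have hs : ∀ ζ : ℂ, ζ ^ Nat.card Γ = 1 →
      (∃ k : ℕ, ¬ p ∣ k ∧ ζ ^ (k * Monoid.exponent Z) = 1) → s ζ = ζ := by
    rintro ζ h1 ⟨k, hk, h2⟩
    refine hs1 ζ h1 ⟨k, hk, ?_⟩
    obtain ⟨d, hd⟩ := hbe
    rw [hd, ← mul_assoc, pow_mul, h2, one_pow]
  have hm := order_dvd hp.out (Nat.card_pos (α := Γ)) (s := s) (by
    rintro ζ h1 ⟨k, hk, h2⟩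
    refine hs1 ζ h1 ⟨k, hk, ?_⟩
    rw [pow_mul, h2, one_pow])
  have hc : (p ^ (Nat.card Γ).factorization p * (p - 1)).Coprime (Nat.card (Γ ⧸ G)) :=
    Nat.Coprime.mul_left (Nat.Coprime.pow_left _ (Nat.Coprime.coprime_mul_right hcop))
      (Nat.Coprime.coprime_mul_left hcop)
  rw [eq_stab red hG hZ hZG hZn hs hm hcyc hc hB U]
  refine aS_congr red B fun σ χ hχ => and_congr_right fun _ => ?_
  exact rat_iff hp.out hs1 hs2 hχ

/-- invariance of properties of the stabiliser and the values -/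
theorem ginv_PS (hG : G.Normal) (R : Subgroup (Γ ⧸ G) → Set ℂ → Prop) :
    GInv hG (fun _ χ => R ((PS hG χ).map (QuotientGroup.mk' G)) (Set.range χ)) := by
  intro g σ χ
  have h1 : (PS hG (fun x => χ (cjI hG g σ x))).map (QuotientGroup.mk' G) =
      (PS hG χ).map (QuotientGroup.mk' G) := by
    ext v
    obtain ⟨e, rfl⟩ := QuotientGroup.mk'_surjective G v
    rw [← EF_iff hG, ← EF_iff hG]
    exact EF_inv hG (RingEquiv.refl ℂ) e g σ χ
  have h2 : Set.range (fun x => χ (cjI hG g σ x)) = Set.range χ :=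
    (cjI hG g σ).surjective.range_comp χ
  change R _ _ ↔ R _ _
  rw [h1, h2]

end

end Pool.Agent.Q18.K
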