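import Pool.Agent.Q18.K.Act
import Pool.Agent.Y85.NV.Filt
import Pool.Agent.Y177.NV.Filta

/-!
# The filtration by the Sylow subgroups of the centralisers
-/

open scoped BigOperators Classical

set_option linter.unusedSectionVars false

noncomputable section

namespace Pool.Agent.Q18.K

open Pool.Agent.Y63.NV (Kop Kfun SA cut)
open Pool.Agent.Y85.NV (cj mem_cj cj_one cj_mul cj_inv_cj cj_mono cj_le cj_pgroup card_cj SYL
  exists_syl sum_zero gen_eq rst rst_apply)

section

variable {Γ E : Type} [Group Γ] [Group E] {A : PA Γ E} [Finite Γ]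

theorem pow_mem_iff' {n : ℕ} (hn : n.Coprime (Nat.card Γ)) (R : Subgroup Γ) (x : Γ) :
    x ^ n ∈ R ↔ x ∈ R := by
  refine ⟨fun h => ?_, fun h => R.pow_mem h _⟩
  obtain ⟨k, hk⟩ := exists_pow_eq_self_of_coprime (x := x)
    (hn.coprime_dvd_right (orderOf_dvd_natCard x))
  rw [← hk]
  exact R.pow_mem h _

theorem comm_pow_iff {n : ℕ} (hn : n.Coprime (Nat.card Γ)) (x y : Γ) :
    y * x ^ n = x ^ n * y ↔ y * x = x * y := by
  constructor
  · intro h
    obtain ⟨k, hk⟩ := exists_pow_eq_self_of_coprime (x := x)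
      (hn.coprime_dvd_right (orderOf_dvd_natCard x))
    have h1 : Commute y (x ^ n) := h
    have h2 := h1.pow_right k
    rw [hk] at h2
    exact h2
  · intro h
    have h1 : Commute y x := h
    exact h1.pow_right n

theorem a_mem_cj (m : E) (R : Subgroup Γ) (x : Γ) : A.a m x ∈ cj (A.π m) R ↔ x ∈ R := by
  rw [mem_cj, A.eq]
  have h1 : (A.π m)⁻¹ * (A.π m * x ^ A.j m * (A.π m)⁻¹) * A.π m = x ^ A.j m := by group
  rw [h1, pow_mem_iff' (A.cop m)]

theorem comm_a_iff (m : E) (x y : Γ) :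
    y * A.a m x = A.a m x * y ↔ (A.π m)⁻¹ * y * A.π m * x = x * ((A.π m)⁻¹ * y * A.π m) := by
  rw [← comm_pow_iff (A.cop m) x, A.eq]
  constructor
  · intro h
    have h1 := congrArg (fun t => (A.π m)⁻¹ * t * A.π m) h
    simpa [mul_assoc] using h1
  · intro h
    have h1 := congrArg (fun t => A.π m * t * (A.π m)⁻¹) h
    simpa [mul_assoc] using h1

variable {M : Subgroup E} {N : Subgroup Γ}

theorem conj_inv {α : Type} (h : Adm A M N) {θ : Γ → α} (hθ : ∀ m ∈ M, ∀ x, θ (A.a m x) = θ x) {n : Γ}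
    (hn : n ∈ N) (x : Γ) : θ (n * x * n⁻¹) = θ x := by
  obtain ⟨m, hm, _, h2⟩ := h.inn n hn
  rw [← h2, hθ m hm]

theorem cj_N (h : Adm A M N) {m : E} (hm : m ∈ M) {y : Γ} :
    (A.π m)⁻¹ * y * A.π m ∈ N ↔ y ∈ N := by
  constructor
  · intro h1
    have h2 := h.norm m hm _ h1
    have e : A.π m * ((A.π m)⁻¹ * y * A.π m) * (A.π m)⁻¹ = y := by group
    rwa [e] at h2
  · intro h1
    have h2 := h.norm _ (M.inv_mem hm) _ h1
    rw [map_inv, inv_inv] at h2
    exact h2

/-- Sylow subgroups of centralisers under the action -/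
theorem syl_act {p : ℕ} (h : Adm A M N) {x : Γ} {R : Subgroup Γ} (hs : SYL p N x R) {m : E}
    (hm : m ∈ M) : SYL p N (A.a m x) (cj (A.π m) R) where
  le := by
    intro y hy
    rw [mem_cj] at hy
    exact (cj_N h hm).1 (hs.le hy)
  pg := cj_pgroup hs.pg
  cent r hr := by
    rw [mem_cj] at hr
    rw [comm_a_iff]
    exact hs.cent _ hr
  card := by
    have e : N ⊓ Subgroup.centralizer {A.a m x} = cj (A.π m) (N ⊓ Subgroup.centralizer {x}) := by
      ext y
      rw [mem_cj, Subgroup.mem_inf, Subgroup.mem_inf, Subgroup.mem_centralizer_singleton_iff,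
        Subgroup.mem_centralizer_singleton_iff, cj_N h hm, comm_a_iff]
    rw [e, card_cj, card_cj]
    exact hs.card

/-- the elements whose centralisers have Sylow subgroups in `X` -/
def SXE (p : ℕ) (N : Subgroup Γ) (X : Set (Subgroup Γ)) : Set Γ :=
  {x | x ∈ N ∧ ∃ R ∈ X, SYL p N x R}

variable (A M) in
/-- stability under conjugation -/
def StbE (X : Set (Subgroup Γ)) : Prop := ∀ m ∈ M, ∀ R ∈ X, cj (A.π m) R ∈ X

variable (A M) in
/-- the orbit -/
def orbE (R : Subgroup Γ) : Set (Subgroup Γ) := {S | ∃ m ∈ M, S = cj (A.π m) R}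

variable (A M) in
/-- the stabiliser -/
def MS (R : Subgroup Γ) : Subgroup E := M ⊓ (Subgroup.normalizer (R : Set Γ)).comap A.π

theorem stb_orbE (R : Subgroup Γ) : StbE A M (orbE A M R) := by
  rintro h hh _ ⟨k, hk, rfl⟩
  exact ⟨h * k, M.mul_mem hh hk, by rw [map_mul, cj_mul]⟩

theorem cj_πinv (k : E) (R : Subgroup Γ) : cj (A.π k⁻¹) (cj (A.π k) R) = R := by
  rw [map_inv, cj_inv_cj]

theorem orbE_symm {R S : Subgroup Γ} (h : S ∈ orbE A M R) : R ∈ orbE A M S := by
  obtain ⟨k, hk, rfl⟩ := h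
  exact ⟨k⁻¹, M.inv_mem hk, (cj_πinv k R).symm⟩

theorem self_orbE (R : Subgroup Γ) : R ∈ orbE A M R :=
  ⟨1, M.one_mem, by rw [map_one, cj_one]⟩

theorem orbE_eq {R S : Subgroup Γ} (h : S ∈ orbE A M R) : orbE A M S = orbE A M R := by
  ext T
  constructor
  · rintro ⟨k, hk, rfl⟩
    exact stb_orbE R k hk S h
  · rintro ⟨k, hk, rfl⟩
    exact stb_orbE S k hk R (orbE_symm h)

theorem SXE_act {p : ℕ} (h : Adm A M N) {X : Set (Subgroup Γ)} (hX : StbE A M X) {m : E}
    (hm : m ∈ M) {x : Γ} (hx : x ∈ SXE p N X) : A.a m x ∈ SXE p N X := by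
  obtain ⟨h1, R, hR, h3⟩ := hx
  exact ⟨a_mem h hm h1, _, hX m hm R hR, syl_act h h3 hm⟩

theorem SXE_act_iff {p : ℕ} (h : Adm A M N) {X : Set (Subgroup Γ)} (hX : StbE A M X) {m : E}
    (hm : m ∈ M) (x : Γ) : A.a m x ∈ SXE p N X ↔ x ∈ SXE p N X := by
  refine ⟨fun hx => ?_, SXE_act h hX hm⟩
  have h1 := SXE_act h hX (M.inv_mem hm) hx
  rwa [a_inv] at h1

theorem SXE_mono {p : ℕ} {X Y : Set (Subgroup Γ)} (h : X ⊆ Y) : SXE p N X ⊆ SXE p N Y := by
  rintro x ⟨h1, R, hR, h3⟩
  exact ⟨h1, R, h hR, h3⟩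

theorem SXE_union {p : ℕ} (X Y : Set (Subgroup Γ)) :
    SXE p N (X ∪ Y) = SXE p N X ∪ SXE p N Y := by
  ext x
  constructor
  · rintro ⟨h1, R, hR | hR, h3⟩
    · exact Or.inl ⟨h1, R, hR, h3⟩
    · exact Or.inr ⟨h1, R, hR, h3⟩
  · rintro (hx | hx)
    · exact SXE_mono Set.subset_union_left hx
    · exact SXE_mono Set.subset_union_right hx

theorem stb_conj (h : Adm A M N) {X : Set (Subgroup Γ)} (hX : StbE A M X) {n : Γ} (hn : n ∈ N)
    {R : Subgroup Γ} (hR : R ∈ X) : cj n R ∈ X := by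
  obtain ⟨m, hm, h1, _⟩ := h.inn n hn
  rw [← h1]
  exact hX m hm R hR

theorem SXE_disj {p : ℕ} [Fact p.Prime] (h : Adm A M N) {X Y : Set (Subgroup Γ)}
    (hX : StbE A M X) (hd : ∀ R ∈ X, R ∉ Y) {x : Γ} (hx : x ∈ SXE p N X) : x ∉ SXE p N Y := by
  rintro ⟨_, S, hS, h4⟩
  obtain ⟨_, R, hR, h3⟩ := hx
  obtain ⟨n, hn, rfl⟩ := h3.conj_of h4
  exact hd _ (stb_conj h hX hn hR) hS

variable {F : Type} [Field F]

theorem kop_apply (z : Γ → F) (S : Set Γ) (v : Γ → F) (x : Γ) :
    Kop z S v x = if x ∈ S then ∑ᶠ g : Γ, z g * v (g * x) else 0 := rfl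

/-- The key lemma. -/
theorem keyE {p : ℕ} [Fact p.Prime] [CharP F p] (h : Adm A M N) {z : Γ → F}
    (hz : ∀ m ∈ M, ∀ x, z (A.a m x) = z x)
    {X Y : Set (Subgroup Γ)} (hX : StbE A M X)
    (hup : ∀ R ∈ Y, ∀ P ∈ X, R ≤ P → P ∈ Y) {w : Γ → F}
    (hw : w ∈ VE A F (SXE p N X \ SXE p N Y) M) {x : Γ} (hx : x ∈ SXE p N Y) :
    ∑ᶠ g : Γ, z g * w (g * x) = 0 := by
  obtain ⟨hxN, R, hR, hs⟩ := hx
  refine sum_zero p R hs.pg _ ?_ ?_
  · intro r hr g
    have h1 : r * g * r⁻¹ * x = r * (g * x) * r⁻¹ := by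
      have h2 : r⁻¹ * x = x * r⁻¹ := hs.cent _ (R.inv_mem hr)
      rw [mul_assoc, h2]
      simp [mul_assoc]
    rw [conj_inv h hz (hs.le hr), h1, conj_inv h hw.2 (hs.le hr)]
  · intro g hg
    by_contra hcon
    have h1 : w (g * x) ≠ 0 := right_ne_zero_of_mul hcon
    have h2 : g * x ∈ SXE p N X \ SXE p N Y := by
      by_contra h3
      exact h1 (hw.1 _ h3)
    obtain ⟨⟨h3, R1, hR1, hs1⟩, h5⟩ := h2
    apply h5
    have h6 : ∀ r ∈ R, r * (g * x) = g * x * r := by
      intro r hr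
      rw [← mul_assoc, hg r hr, mul_assoc, hs.cent r hr, mul_assoc]
    obtain ⟨P, hP, hsP⟩ := exists_syl hs.le hs.pg h6
    obtain ⟨n, hn, rfl⟩ := hs1.conj_of hsP
    exact ⟨h3, _, hup R hR _ (stb_conj h hX hn hR1) hP, hsP⟩

/-- restriction of the full operator to an invariant set -/
theorem kop_mem (h : Adm A M N) {z : Γ → F} (hz : ∀ m ∈ M, ∀ x, z (A.a m x) = z x)
    (hsz : ∀ x, x ∉ N → z x = 0) {S S' : Set Γ} (hSN : S ⊆ N)
    (hS : ∀ m ∈ M, ∀ x, A.a m x ∈ S ↔ x ∈ S) {v : Γ → F} (hv : v ∈ VE A F S' M) :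
    Kop z S v ∈ VE A F S M := by
  refine ⟨fun x hx => by rw [kop_apply, if_neg hx], fun m hm x => ?_⟩
  rw [kop_apply, kop_apply]
  by_cases hx : x ∈ S
  · rw [if_pos hx, if_pos ((hS m hm x).2 hx), kinv h hz hsz hv.2 hm (hSN hx)]
  · rw [if_neg hx, if_neg (fun h' => hx ((hS m hm x).1 h'))]

theorem VE_mono {S S' : Set Γ} (h : S ⊆ S') : VE A F S M ≤ VE A F S' M :=
  fun _ hv => ⟨fun x hx => hv.1 x fun hx' => hx (h hx'), hv.2⟩

theorem rst_memE {S S' : Set Γ} (hS : ∀ m ∈ M, ∀ x, A.a m x ∈ S ↔ x ∈ S)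
    {v : Γ → F} (hv : v ∈ VE A F S' M) : rst S v ∈ VE A F S M := by
  refine ⟨fun x hx => by rw [rst_apply, if_neg hx], fun m hm x => ?_⟩
  rw [rst_apply, rst_apply, hv.2 m hm]
  simp only [hS m hm x]

theorem SXE_sub (p : ℕ) (N : Subgroup Γ) (X : Set (Subgroup Γ)) : SXE p N X ⊆ (N : Set Γ) :=
  fun _ hx => hx.1

/-- One step. -/
theorem gE_step {p : ℕ} [Fact p.Prime] [IsAlgClosed F] [CharP F p] (h : Adm A M N) {z : Γ → F}
    (hz : ∀ m ∈ M, ∀ x, z (A.a m x) = z x) (hsz : ∀ x, x ∉ N → z x = 0)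
    {X Y O : Set (Subgroup Γ)} (hY : StbE A M Y) (hO : StbE A M O) (hX : X = O ∪ Y)
    (hd : ∀ R ∈ O, R ∉ Y) (hup : ∀ R ∈ Y, ∀ P ∈ X, R ≤ P → P ∈ Y) (c : F) :
    gE A z (SXE p N X) M c = gE A z (SXE p N O) M c + gE A z (SXE p N Y) M c := by
  have hXs : StbE A M X := by
    rw [hX]
    rintro m hm R (hR | hR)
    · exact Or.inl (hO m hm R hR)
    · exact Or.inr (hY m hm R hR)
  have hOX : SXE p N O ⊆ SXE p N X := SXE_mono (by rw [hX]; exact Set.subset_union_left)
  have hYX : SXE p N Y ⊆ SXE p N X := SXE_mono (by rw [hX]; exact Set.subset_union_right)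
  have hXu : SXE p N X = SXE p N O ∪ SXE p N Y := by rw [hX, SXE_union]
  have hOY : SXE p N O ⊆ SXE p N X \ SXE p N Y := fun x hx => ⟨hOX hx, SXE_disj h hO hd hx⟩
  have cX : ∀ m ∈ M, ∀ x, A.a m x ∈ SXE p N X ↔ x ∈ SXE p N X :=
    fun m hm x => SXE_act_iff h hXs hm x
  have cY : ∀ m ∈ M, ∀ x, A.a m x ∈ SXE p N Y ↔ x ∈ SXE p N Y :=
    fun m hm x => SXE_act_iff h hY hm x
  have cO : ∀ m ∈ M, ∀ x, A.a m x ∈ SXE p N O ↔ x ∈ SXE p N O :=
    fun m hm x => SXE_act_iff h hO hm x
  have h1 := Pool.Agent.Y487.NV.la F (Γ → F) (Kop z (SXE p N X)) (Kop z (SXE p N Y))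
    (rst (SXE p N Y)) (VE A F (SXE p N X) M) (VE A F (SXE p N O) M) (VE A F (SXE p N Y) M)
    (fun v hv => kop_mem h hz hsz (SXE_sub p N X) cX hv)
    (fun v hv => kop_mem h hz hsz (SXE_sub p N Y) cY hv) (VE_mono hOX)
    (fun v hv => rst_memE cY hv)
    (by
      intro w hw
      refine ⟨w, VE_mono hYX hw, ?_⟩
      funext x
      rw [rst_apply]
      by_cases hx : x ∈ SXE p N Y
      · rw [if_pos hx]
      · rw [if_neg hx, hw.1 x hx])
    (by
      intro v hv
      constructor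
      · intro h
        refine ⟨?_, hv.2⟩
        intro x hx
        by_cases hx' : x ∈ SXE p N Y
        · have h2 := congrFun h x
          rw [rst_apply, if_pos hx'] at h2
          exact h2
        · apply hv.1
          rw [hXu]
          rintro (h3 | h3)
          · exact hx h3
          · exact hx' h3
      · intro h'
        funext x
        rw [rst_apply]
        by_cases hx : x ∈ SXE p N Y
        · rw [if_pos hx]
          apply h'.1
          intro h3
          exact SXE_disj h hO hd h3 hx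
        · rw [if_neg hx]
          rfl)
    (by
      intro v hv
      funext x
      rw [rst_apply, kop_apply, kop_apply]
      by_cases hx : x ∈ SXE p N Y
      · rw [if_pos hx, if_pos hx, if_pos (hYX hx)]
        have h2 : v - rst (SXE p N Y) v ∈ VE A F (SXE p N X \ SXE p N Y) M := by
          have h3 : v - rst (SXE p N Y) v ∈ VE A F (SXE p N X) M :=
            Submodule.sub_mem _ hv (VE_mono hYX (rst_memE cY hv))
          refine ⟨?_, h3.2⟩
          intro y hy
          by_cases hy' : y ∈ SXE p N Y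
          · rw [Pi.sub_apply, rst_apply, if_pos hy', sub_self]
          · exact h3.1 y fun hy2 => hy ⟨hy2, hy'⟩
        have h3 := keyE h hz hXs hup h2 hx
        have h4 : ∑ᶠ g : Γ, z g * v (g * x) =
            ∑ᶠ g : Γ, z g * (v - rst (SXE p N Y) v) (g * x) +
              ∑ᶠ g : Γ, z g * rst (SXE p N Y) v (g * x) := by
          rw [← finsum_add_distrib (Set.toFinite _) (Set.toFinite _)]
          refine finsum_congr fun g => ?_
          rw [Pi.sub_apply]
          ring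
        rw [h4, h3, zero_add]
      · rw [if_neg hx, if_neg hx])
    c
  have h2 : VE A F (SXE p N O) M ⊓ (Kop z (SXE p N X)).maxGenEigenspace c =
      VE A F (SXE p N O) M ⊓ (Kop z (SXE p N O)).maxGenEigenspace c := by
    apply gen_eq
    · intro v hv
      funext x
      rw [kop_apply, kop_apply]
      by_cases hx : x ∈ SXE p N O
      · rw [if_pos hx, if_pos (hOX hx)]
      · rw [if_neg hx]
        by_cases hx' : x ∈ SXE p N X
        · rw [if_pos hx']
          have hx2 : x ∈ SXE p N Y := by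
            rw [hXu] at hx'
            exact hx'.resolve_left hx
          exact keyE h hz hXs hup (VE_mono hOY hv) hx2
        · rw [if_neg hx']
    · intro v hv
      exact kop_mem h hz hsz (SXE_sub p N O) cO hv
  rw [h2] at h1
  exact h1

/-- the action on subgroups -/
@[reducible] def actE (A : PA Γ E) (M : Subgroup E) : MulAction M (Subgroup Γ) where
  smul m R := cj (A.π m) R
  one_smul R := by
    change cj (A.π (1 : E)) R = R
    rw [map_one, cj_one]
  mul_smul h k R := by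
    change cj (A.π (h * k : E)) R = cj (A.π h) (cj (A.π k) R)
    rw [map_mul, cj_mul]

theorem cj_eq_iff {h : Γ} {R : Subgroup Γ} :
    cj h R = R ↔ h ∈ Subgroup.normalizer (R : Set Γ) := by
  rw [Subgroup.mem_normalizer_iff]
  constructor
  · intro h4 y
    constructor
    · intro hy
      rw [← h4, mem_cj]
      simpa [mul_assoc] using hy
    · intro hy
      rw [← h4, mem_cj] at hy
      simpa [mul_assoc] using hy
  · intro h5
    ext y
    rw [mem_cj]
    have h6 := h5 (h⁻¹ * y * h)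
    simpa [mul_assoc] using h6

theorem card_orbE [Finite E] (R : Subgroup Γ) :
    Nat.card (orbE A M R) * Nat.card (MS A M R) = Nat.card M := by
  let _ := actE A M
  have h1 := Nat.card_congr (MulAction.orbitProdStabilizerEquivGroup M R)
  rw [Nat.card_prod] at h1
  have h2 : MulAction.orbit M R = orbE A M R := by
    ext S
    constructor
    · rintro ⟨h, rfl⟩
      exact ⟨h, h.2, rfl⟩
    · rintro ⟨h, hh, rfl⟩
      exact ⟨⟨h, hh⟩, rfl⟩
  have h3 : (MulAction.stabilizer M R).map M.subtype = MS A M R := by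
    ext h
    unfold MS
    rw [Subgroup.mem_inf, Subgroup.mem_map, Subgroup.mem_comap]
    constructor
    · rintro ⟨k, hk, rfl⟩
      refine ⟨k.2, ?_⟩
      have h4 : cj (A.π (k : E)) R = R := MulAction.mem_stabilizer_iff.1 hk
      exact cj_eq_iff.1 h4
    · rintro ⟨h4, h5⟩
      refine ⟨⟨h, h4⟩, ?_, rfl⟩
      rw [MulAction.mem_stabilizer_iff]
      exact cj_eq_iff.2 h5
  have h4 : Nat.card (MulAction.stabilizer M R) = Nat.card (MS A M R) := by
    rw [← h3]
    exact (Subgroup.card_map_of_injective M.subtype_injective).symm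
  rw [← h2, ← h4]
  exact h1

theorem card_cjE (m : E) (R : Subgroup Γ) : Nat.card (cj (A.π m) R) = Nat.card R := card_cj _ _

theorem main_indE [Finite E] {p : ℕ} [Fact p.Prime] [IsAlgClosed F] [CharP F p] (h : Adm A M N)
    {z : Γ → F} (hz : ∀ m ∈ M, ∀ x, z (A.a m x) = z x) (hsz : ∀ x, x ∉ N → z x = 0) (c : F)
    (X : Finset (Subgroup Γ)) (hg : ∀ R ∈ X, IsPGroup p R ∧ R ≤ N)
    (hX : StbE A M (X : Set (Subgroup Γ)))
    (hup : ∀ R ∈ X, ∀ P : Subgroup Γ, IsPGroup p P → P ≤ N → R ≤ P → P ∈ X) :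
    Nat.card M * gE A z (SXE p N (X : Set (Subgroup Γ))) M c =
      ∑ R ∈ X, Nat.card (MS A M R) * gE A z (SXE p N (orbE A M R)) M c := by
  induction X using Finset.strongInduction with
  | H X ih =>
    by_cases hne : X.Nonempty
    · obtain ⟨R0, hR0, hmin⟩ := X.exists_min_image (fun R => Nat.card R) hne
      have hOX : orbE A M R0 ⊆ (X : Set (Subgroup Γ)) := by
        rintro _ ⟨h, hh, rfl⟩
        exact hX h hh R0 hR0
      let O : Finset (Subgroup Γ) := X.filter (fun R => R ∈ orbE A M R0)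
      let Y : Finset (Subgroup Γ) := X.filter (fun R => R ∉ orbE A M R0)
      have hO : (O : Set (Subgroup Γ)) = orbE A M R0 := by
        ext R
        simp only [O, Finset.coe_filter, Set.mem_ofPred_eq]
        exact ⟨fun h => h.2, fun h => ⟨hOX h, h⟩⟩
      have hYX : Y ⊂ X := by
        refine Finset.filter_ssubset.2 ⟨R0, hR0, ?_⟩
        exact fun h => h (self_orbE R0)
      have hYs : StbE A M (Y : Set (Subgroup Γ)) := by
        intro h hh R hR
        have hR' := Finset.mem_filter.1 (Finset.mem_coe.1 hR)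
        refine Finset.mem_coe.2 (Finset.mem_filter.2 ⟨hX h hh R hR'.1, ?_⟩)
        intro h3
        apply hR'.2
        have h4 := stb_orbE R0 _ (M.inv_mem hh) _ h3
        rwa [cj_πinv] at h4
      have hYup : ∀ R ∈ Y, ∀ P : Subgroup Γ, IsPGroup p P → P ≤ N → R ≤ P → P ∈ Y := by
        intro R hR P hP hPN hRP
        have hR' := Finset.mem_filter.1 hR
        refine Finset.mem_filter.2 ⟨hup R hR'.1 P hP hPN hRP, ?_⟩
        rintro ⟨k, hk, rfl⟩
        apply hR'.2
        have h3 := hmin R hR'.1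
        rw [← card_cjE (A := A) k R0] at h3
        have h4 : R = cj (A.π k) R0 := Subgroup.eq_of_le_of_card_ge hRP h3
        rw [h4]
        exact ⟨k, hk, rfl⟩
      have hXu : (X : Set (Subgroup Γ)) = orbE A M R0 ∪ (Y : Set (Subgroup Γ)) := by
        ext R
        constructor
        · intro hR
          by_cases h : R ∈ orbE A M R0
          · exact Or.inl h
          · exact Or.inr (Finset.mem_coe.2 (Finset.mem_filter.2 ⟨hR, h⟩))
        · rintro (hR | hR)
          · exact hOX hR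
          · exact Finset.mem_coe.2 (Finset.mem_filter.1 (Finset.mem_coe.1 hR)).1
      have h1 := gE_step h hz hsz hYs (stb_orbE R0) hXu
        (fun R hR hR' => (Finset.mem_filter.1 (Finset.mem_coe.1 hR')).2 hR)
        (fun R hR P hP hRP => Finset.mem_coe.2
          (hYup R (Finset.mem_coe.1 hR) P (hg P (Finset.mem_coe.1 hP)).1
            (hg P (Finset.mem_coe.1 hP)).2 hRP)) c
      have h2 := ih Y hYX (fun R hR => hg R (Finset.mem_filter.1 hR).1) hYs hYup
      have h3 : ∑ R ∈ O, Nat.card (MS A M R) * gE A z (SXE p N (orbE A M R)) M c =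
          Nat.card M * gE A z (SXE p N (orbE A M R0)) M c := by
        have h4 : ∀ R ∈ O, Nat.card (MS A M R) * gE A z (SXE p N (orbE A M R)) M c =
            Nat.card (MS A M R0) * gE A z (SXE p N (orbE A M R0)) M c := by
          intro R hR
          have h5 : R ∈ orbE A M R0 := (Finset.mem_filter.1 hR).2
          have h6 := card_orbE (A := A) (M := M) R
          rw [orbE_eq h5] at h6 ⊢
          have h7 := card_orbE (A := A) (M := M) R0
          have h8 : 0 < Nat.card (orbE A M R0) := by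
            have : Nonempty (orbE A M R0) := ⟨⟨R0, self_orbE R0⟩⟩
            exact Nat.card_pos
          rw [← h7] at h6
          rw [Nat.eq_of_mul_eq_mul_left h8 h6]
        rw [Finset.sum_congr rfl h4, Finset.sum_const, smul_eq_mul, ← mul_assoc]
        congr 1
        have h5 : O.card = Nat.card (orbE A M R0) := by
          rw [← hO]
          simp
        rw [h5]
        exact card_orbE R0
      rw [h1, mul_add, h2, ← h3]
      exact Finset.sum_filter_add_sum_filter_not X (fun R => R ∈ orbE A M R0) _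
    · rw [Finset.not_nonempty_iff_eq_empty] at hne
      subst hne
      rw [Finset.sum_empty]
      have h1 : SXE p N ((∅ : Finset (Subgroup Γ)) : Set (Subgroup Γ)) = ∅ := by
        ext x
        simp [SXE]
      have h2 : VE A F (∅ : Set Γ) M = ⊥ := by
        rw [eq_bot_iff]
        intro v hv
        rw [Submodule.mem_bot]
        funext x
        exact hv.1 x (by simp)
      rw [h1, gE, h2, bot_inf_eq, finrank_bot, mul_zero]

/-! ### one step of the filtration -/

/-- `R` is Sylow in `C_N(x)` in terms of the normaliser -/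
theorem sa_iff {p : ℕ} [Fact p.Prime] {R : Subgroup Γ} (hR : R ≤ N) (hp : IsPGroup p R) {x : Γ} :
    x ∈ SA p (N ⊓ Subgroup.normalizer (R : Set Γ)) R ↔ x ∈ N ∧ SYL p N x R := by
  have hn : ∀ x : Γ, (∀ r ∈ R, r * x = x * r) → x ∈ Subgroup.normalizer (R : Set Γ) := by
    intro x hx
    apply Subgroup.centralizer_le_normalizer
    rw [Subgroup.mem_centralizer_iff]
    exact hx
  constructor
  · rintro ⟨h1, h3, h4⟩
    refine ⟨h1.1, hR, hp, h3, ?_⟩
    exact Pool.Agent.Y177.NV.card_cent hp hR h3 h4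
  · rintro ⟨h1, h3⟩
    refine ⟨⟨h1, hn x h3.cent⟩, h3.cent, ?_⟩
    apply le_antisymm
    · rw [← h3.card]
      refine (Nat.factorization_le_iff_dvd Nat.card_pos.ne' Nat.card_pos.ne').2
        (Subgroup.card_dvd_of_le ?_) p
      exact inf_le_inf_right _ inf_le_left
    · refine (Nat.factorization_le_iff_dvd Nat.card_pos.ne' Nat.card_pos.ne').2
        (Subgroup.card_dvd_of_le ?_) p
      exact le_inf (le_inf hR Subgroup.le_normalizer) (h3.le_cent.trans inf_le_right)

theorem adm_MS (h : Adm A M N) (R : Subgroup Γ) :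
    Adm A (MS A M R) (N ⊓ Subgroup.normalizer (R : Set Γ)) where
  norm m hm n hn := by
    refine ⟨h.norm m hm.1 n hn.1, ?_⟩
    have h1 : A.π m ∈ Subgroup.normalizer (R : Set Γ) := hm.2
    exact Subgroup.mul_mem _ (Subgroup.mul_mem _ h1 hn.2) (Subgroup.inv_mem _ h1)
  inn n hn := by
    obtain ⟨m, hm, h1, h2⟩ := h.inn n hn.1
    refine ⟨m, ⟨hm, ?_⟩, h1, h2⟩
    change A.π m ∈ Subgroup.normalizer (R : Set Γ)
    rw [h1]
    exact hn.2

theorem cent_act {R : Subgroup Γ} {m : E} (hm : m ∈ MS A M R) (x : Γ) :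
    A.a m x ∈ Subgroup.centralizer (R : Set Γ) ↔ x ∈ Subgroup.centralizer (R : Set Γ) := by
  have h1 : A.π m ∈ Subgroup.normalizer (R : Set Γ) := hm.2
  rw [Subgroup.mem_centralizer_iff, Subgroup.mem_centralizer_iff]
  constructor
  · intro h2 r hr
    have h3 := h2 (A.π m * r * (A.π m)⁻¹) ((Subgroup.mem_normalizer_iff.1 h1 r).1 hr)
    rw [comm_a_iff] at h3
    have e : (A.π m)⁻¹ * (A.π m * r * (A.π m)⁻¹) * A.π m = r := by group
    rwa [e] at h3
  · intro h2 r hr
    rw [comm_a_iff]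
    exact h2 _ ((Subgroup.mem_normalizer_iff''.1 h1 r).1 hr)

theorem cut_act {R : Subgroup Γ} {z : Γ → F} (hz : ∀ m ∈ M, ∀ x, z (A.a m x) = z x) {m : E}
    (hm : m ∈ MS A M R) (x : Γ) : cut z (Subgroup.centralizer (R : Set Γ)) (A.a m x) =
      cut z (Subgroup.centralizer (R : Set Γ)) x := by
  unfold cut
  simp only [cent_act hm x, hz m hm.1 x]

theorem cut_supp' {z : Γ → F} (hsz : ∀ x, x ∉ N → z x = 0) (R : Subgroup Γ) (x : Γ)
    (hx : x ∉ N ⊓ Subgroup.normalizer (R : Set Γ)) :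
    cut z (Subgroup.centralizer (R : Set Γ)) x = 0 := by
  unfold cut
  split_ifs with h1
  · apply hsz
    intro h2
    exact hx ⟨h2, Subgroup.centralizer_le_normalizer _ h1⟩
  · rfl

/-- one step of the filtration by the Sylow `p`-subgroups of the centralisers -/
theorem filtaE {p : ℕ} [Fact p.Prime] [CharP F p] (h : Adm A M N) {z : Γ → F}
    (hz : ∀ m ∈ M, ∀ x, z (A.a m x) = z x) (hsz : ∀ x, x ∉ N → z x = 0) (c : F)
    {R : Subgroup Γ} (hR : IsPGroup p R) (hRN : R ≤ N) :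
    gE A z (SXE p N (orbE A M R)) M c =
      gE A (cut z (Subgroup.centralizer (R : Set Γ)))
        (SA p (N ⊓ Subgroup.normalizer (R : Set Γ)) R) (MS A M R) c := by
  set S := SA p (N ⊓ Subgroup.normalizer (R : Set Γ)) R with hS
  set SC := SXE p N (orbE A M R) with hSC
  have hMS : MS A M R ≤ M := inf_le_left
  have hRJ : ∀ r ∈ R, r ∈ N ⊓ Subgroup.normalizer (R : Set Γ) :=
    fun r hr => ⟨hRN hr, Subgroup.le_normalizer hr⟩
  have hmS : ∀ {x : Γ}, x ∈ S ↔ x ∈ N ∧ SYL p N x R := sa_iff hRN hR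
  have hSJ : ∀ m ∈ MS A M R, ∀ x, A.a m x ∈ S ↔ x ∈ S := by
    have h1 : ∀ m ∈ MS A M R, ∀ x ∈ S, A.a m x ∈ S := by
      intro m hm x hx
      rw [hmS] at hx ⊢
      refine ⟨a_mem h (hMS hm) hx.1, ?_⟩
      have h2 := syl_act h hx.2 (hMS hm)
      rwa [cj_eq_iff.2 hm.2] at h2
    intro m hm x
    refine ⟨fun hx => ?_, h1 m hm x⟩
    have h2 := h1 m⁻¹ (Subgroup.inv_mem _ hm) _ hx
    rwa [a_inv] at h2
  have hSCM : ∀ m ∈ M, ∀ x, A.a m x ∈ SC ↔ x ∈ SC :=
    fun m hm x => SXE_act_iff h (stb_orbE R) hm x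
  have hSSC : S ⊆ SC := fun x hx => ⟨(hmS.1 hx).1, R, self_orbE R, (hmS.1 hx).2⟩
  have hfus : ∀ x ∈ S, ∀ m ∈ M, A.a m x ∈ S → ∃ k ∈ MS A M R, A.a m x = A.a k x := by
    intro x hx m hm hx'
    have h1 := syl_act h (hmS.1 hx).2 hm
    have h2 := (hmS.1 hx').2
    -- conjugate inside the centraliser
    obtain ⟨n, hn, h3⟩ : ∃ n ∈ N ⊓ Subgroup.centralizer {A.a m x}, R = cj n (cj (A.π m) R) := by
      set C := N ⊓ Subgroup.centralizer {A.a m x} with hC
      have h1' : SYL p C (A.a m x) (cj (A.π m) R) :=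
        ⟨h1.le_cent, h1.pg, h1.cent, by
          have e : C ⊓ Subgroup.centralizer {A.a m x} = C := inf_eq_left.2 inf_le_right
          rw [e]; exact h1.card⟩
      have h2' : SYL p C (A.a m x) R :=
        ⟨h2.le_cent, h2.pg, h2.cent, by
          have e : C ⊓ Subgroup.centralizer {A.a m x} = C := inf_eq_left.2 inf_le_right
          rw [e]; exact h2.card⟩
      exact h1'.conj_of h2'
    obtain ⟨k, hk, hk1, hk2⟩ := h.inn n hn.1
    refine ⟨k * m, ⟨M.mul_mem hk hm, ?_⟩, ?_⟩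
    · change A.π (k * m) ∈ Subgroup.normalizer (R : Set Γ)
      rw [← cj_eq_iff, map_mul, cj_mul, hk1, ← h3]
    · rw [map_mul, Equiv.Perm.mul_apply, hk2]
      have h4 := Subgroup.mem_centralizer_singleton_iff.1 hn.2
      rw [h4, mul_inv_cancel_right]
  -- the elements of `SC` which centralise `R` are in `S`
  have hback : ∀ y ∈ N, (∀ r ∈ R, r * y = y * r) → y ∈ SC → y ∈ S := by
    rintro y hyN hyR ⟨_, R', ⟨m, hm, rfl⟩, hy⟩
    rw [hmS]
    refine ⟨hyN, hRN, hR, hyR, ?_⟩
    rw [hy.card, card_cj]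
  refine Pool.Agent.Y177.NV.finrank_eq (Kop z SC)
    (Kop (cut z (Subgroup.centralizer (R : Set Γ))) S) (rst S) (VE A F SC M)
    (VE A F S (MS A M R)) ?_ ?_ ?_ ?_ ?_ c
  · intro θ hθ
    exact kop_mem h hz hsz (SXE_sub p N _) hSCM hθ
  · intro θ hθ
    refine ⟨fun x hx => by rw [rst_apply, if_neg hx], fun m hm x => ?_⟩
    rw [rst_apply, rst_apply, hθ.2 m (hMS hm)]
    simp only [hSJ m hm x]
  · -- extension
    intro η hη
    have hval : ∀ x m₁ m₂, m₁ ∈ M → m₂ ∈ M → A.a m₁ x ∈ S → A.a m₂ x ∈ S →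
        η (A.a m₁ x) = η (A.a m₂ x) := by
      intro x m₁ m₂ hh₁ hh₂ hx₁ hx₂
      have h1 : A.a m₂ x = A.a (m₂ * m₁⁻¹) (A.a m₁ x) := by
        rw [map_mul, Equiv.Perm.mul_apply, a_inv]
      rw [h1] at hx₂ ⊢
      obtain ⟨j, hj, hj'⟩ := hfus _ hx₁ _ (M.mul_mem hh₂ (M.inv_mem hh₁)) hx₂
      rw [hj', hη.2 j hj]
    have hch : ∀ x ∈ SC, ∃ m, m ∈ M ∧ A.a m x ∈ S := by
      rintro x ⟨hxN, R', ⟨m, hm, rfl⟩, hx⟩
      refine ⟨m⁻¹, M.inv_mem hm, ?_⟩
      rw [hmS]
      refine ⟨a_mem h (M.inv_mem hm) hxN, ?_⟩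
      have h1 := syl_act h hx (M.inv_mem hm)
      rwa [cj_πinv] at h1
    choose! κ hκ using hch
    refine ⟨fun x => if x ∈ SC then η (A.a (κ x) x) else 0,
      ⟨fun x hx => if_neg hx, fun m hm x => ?_⟩, ?_⟩
    · by_cases hx : x ∈ SC
      · have hx' := (hSCM m hm x).2 hx
        simp only [hx, hx', if_true]
        have h1 := hκ _ hx'
        have h2 := hκ _ hx
        have h3 : A.a (κ (A.a m x)) (A.a m x) = A.a (κ (A.a m x) * m) x := by
          rw [map_mul, Equiv.Perm.mul_apply]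
        have h4 := h1.2
        rw [h3] at h4 ⊢
        exact hval x _ _ (M.mul_mem h1.1 hm) h2.1 h4 h2.2
      · have hx' : A.a m x ∉ SC := fun h' => hx ((hSCM m hm x).1 h')
        simp only [hx, hx', if_false]
    · funext x
      rw [rst_apply]
      by_cases hx : x ∈ S
      · simp only [hx, hSSC hx, if_true]
        have h2 := hκ _ (hSSC hx)
        have h3 := hval x _ 1 h2.1 M.one_mem h2.2 (by
          rw [map_one]
          exact hx)
        rw [h3, map_one]
        rfl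
      · rw [if_neg hx, hη.1 x hx]
  · -- injectivity
    intro θ hθ h0
    funext x
    by_cases hx : x ∈ SC
    · obtain ⟨hxN, R', ⟨m, hm, rfl⟩, hx'⟩ := hx
      have h2 : A.a m⁻¹ x ∈ S := by
        rw [hmS]
        refine ⟨a_mem h (M.inv_mem hm) hxN, ?_⟩
        have h1 := syl_act h hx' (M.inv_mem hm)
        rwa [cj_πinv] at h1
      have h1 := congrFun h0 (A.a m⁻¹ x)
      rw [rst_apply, if_pos h2, hθ.2 m⁻¹ (M.inv_mem hm)] at h1
      exact h1
    · exact hθ.1 x hx
  · -- the two operators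
    intro θ hθ
    funext x
    rw [rst_apply, kop_apply, kop_apply]
    by_cases hx : x ∈ S
    · rw [if_pos hx, if_pos hx, if_pos (hSSC hx)]
      have hxc := (hmS.1 hx).2.cent
      rw [← sub_eq_zero, ← finsum_sub_distrib (Set.toFinite _) (Set.toFinite _)]
      have hrx : ∀ r ∈ R, ∀ g, r * g * r⁻¹ * x = r * (g * x) * r⁻¹ := by
        intro r hr g
        calc r * g * r⁻¹ * x = r * g * (r⁻¹ * (x * r)) * r⁻¹ := by group
          _ = r * g * (r⁻¹ * (r * x)) * r⁻¹ := by rw [hxc r hr]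
          _ = r * (g * x) * r⁻¹ := by group
      have hR2 : rst S θ ∈ VE A F S (MS A M R) := by
        refine ⟨fun x hx => by rw [rst_apply, if_neg hx], fun m hm x => ?_⟩
        rw [rst_apply, rst_apply, hθ.2 m (hMS hm)]
        simp only [hSJ m hm x]
      refine Pool.Agent.Y177.NV.sum_conj_eq_zero hR _ (fun r hr g => ?_) fun g hg => ?_
      · rw [hrx r hr, conj_inv h hz (hRN hr), conj_inv h hθ.2 (hRN hr),
          conj_inv (adm_MS h R) (fun m hm x => cut_act hz hm x) (hRJ r hr),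
          conj_inv (adm_MS h R) hR2.2 (hRJ r hr)]
      · have hgC : g ∈ Subgroup.centralizer (R : Set Γ) := by
          rw [Subgroup.mem_centralizer_iff]
          exact hg
        rw [rst_apply, cut, if_pos hgC, ← mul_sub]
        by_cases hz0 : z g = 0
        · rw [hz0, zero_mul]
        · have hgN : g ∈ N := by
            by_contra h'
            exact hz0 (hsz g h')
          by_cases hy : g * x ∈ S
          · rw [if_pos hy, sub_self, mul_zero]
          · rw [if_neg hy]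
            have h1 : g * x ∉ SC := by
              intro h'
              refine hy (hback _ ?_ ?_ h')
              · exact N.mul_mem hgN (hmS.1 hx).1
              · intro r hr
                have h2 : Commute r (g * x) := Commute.mul_right (hg r hr) (hxc r hr)
                exact h2
            rw [hθ.1 _ h1, sub_self, mul_zero]
    · rw [if_neg hx, if_neg hx]

/-- **KFILT** -/
theorem kfiltE [Finite E] {p : ℕ} [Fact p.Prime] [IsAlgClosed F] [CharP F p] (h : Adm A M N)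
    {z : Γ → F} (hz : ∀ m ∈ M, ∀ x, z (A.a m x) = z x) (hsz : ∀ x, x ∉ N → z x = 0) (c : F)
    [Fintype (Subgroup Γ)] :
    Nat.card M * gE A z (N : Set Γ) M c = ∑ R : Subgroup Γ, if IsPGroup p R ∧ R ≤ N then
      Nat.card (MS A M R) * gE A (cut z (Subgroup.centralizer (R : Set Γ)))
        (SA p (N ⊓ Subgroup.normalizer (R : Set Γ)) R) (MS A M R) c else 0 := by
  have h3 := main_indE h hz hsz c (Finset.univ.filter (fun R => IsPGroup p R ∧ R ≤ N))
    (fun R hR => (Finset.mem_filter.1 hR).2)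
    (by
      intro m hm R hR
      rw [Finset.coe_filter] at hR ⊢
      refine ⟨Finset.mem_univ _, cj_pgroup hR.2.1, ?_⟩
      intro y hy
      rw [mem_cj] at hy
      exact (cj_N h hm).1 (hR.2.2 hy))
    (fun R _ P hP hPN _ => Finset.mem_filter.2 ⟨Finset.mem_univ _, hP, hPN⟩)
  have h4 : SXE p N ((Finset.univ.filter (fun R => IsPGroup p R ∧ R ≤ N) :
      Finset (Subgroup Γ)) : Set (Subgroup Γ)) = (N : Set Γ) := by
    ext x
    constructor
    · exact fun hx => hx.1
    · intro hx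
      obtain ⟨R, _, hR⟩ := exists_syl (p := p) (H := N) (x := x) (Q := ⊥) bot_le IsPGroup.of_bot
        (by rintro r hr; rw [Subgroup.mem_bot.1 hr]; simp)
      refine ⟨hx, R, ?_, hR⟩
      rw [Finset.coe_filter]
      exact ⟨Finset.mem_univ _, hR.pg, hR.le⟩
  rw [h4] at h3
  rw [h3, Finset.sum_filter]
  refine Finset.sum_congr rfl fun R _ => ?_
  by_cases hR : IsPGroup p R ∧ R ≤ N
  · rw [if_pos hR, if_pos hR, filtaE h hz hsz c hR.1 hR.2]
  · rw [if_neg hR, if_neg hR]

end

end Pool.Agent.Q18.K
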