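import Pool.Agent.Q18.K.Pau
import Pool.Agent.Q18.K.Chain

/-!
# The alternating sum over the chains for a power map
-/

open scoped BigOperators Classical

set_option linter.unusedSectionVars false

noncomputable section

namespace Pool.Agent.Q18.K

open Pool.Agent.Helper884.IC (IsIrrChar)
open Pool.Agent.Y63.NV (redC centralValue IsClassFun IsBlock cut)
open Pool.Agent.Y63.KR

/-- a function on a finite group whose sum over every subgroup vanishes and which depends only
on the subgroup generated is zero -/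
theorem cyc_zero {U : Type} [Group U] [Finite U] (D : U → ℤ)
    (h1 : ∀ (V' : Subgroup U) [Fintype V'], ∑ v : V', D v = 0)
    (h2 : ∀ u w : U, Subgroup.zpowers u = Subgroup.zpowers w → D u = D w) : ∀ u, D u = 0 := by
  have key : ∀ (n : ℕ) (u : U), orderOf u = n → D u = 0 := by
    intro n
    induction n using Nat.strong_induction_on with
    | _ n ih =>
      intro u hu
      have : Fintype (Subgroup.zpowers u) := Fintype.ofFinite _
      have h3 := h1 (Subgroup.zpowers u)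
      have h4 : ∀ v : Subgroup.zpowers u, D v = if orderOf (v : U) = n then D u else 0 := by
        intro v
        have hle : Subgroup.zpowers (v : U) ≤ Subgroup.zpowers u := by
          rw [Subgroup.zpowers_le]
          exact v.2
        by_cases hv : orderOf (v : U) = n
        · rw [if_pos hv]
          refine h2 _ _ (Subgroup.eq_of_le_of_card_ge hle ?_)
          rw [Nat.card_zpowers, Nat.card_zpowers, hu, hv]
        · rw [if_neg hv]
          refine ih _ ?_ _ rfl
          have h5 : orderOf (v : U) ≤ n := by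
            rw [← hu, ← Nat.card_zpowers, ← Nat.card_zpowers]
            exact Nat.card_le_card_of_injective (Subgroup.inclusion hle)
              (Subgroup.inclusion_injective hle)
          omega
      rw [Finset.sum_congr rfl fun v _ => h4 v, ← Finset.sum_filter, Finset.sum_const,
        nsmul_eq_mul] at h3
      rcases mul_eq_zero.1 h3 with h5 | h5
      · exfalso
        have h6 : (Finset.univ.filter fun v : Subgroup.zpowers u => orderOf (v : U) = n).card = 0 :=
          by exact_mod_cast h5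
        rw [Finset.card_eq_zero] at h6
        have h7 : (⟨u, Subgroup.mem_zpowers u⟩ : Subgroup.zpowers u) ∈
            (Finset.univ.filter fun v : Subgroup.zpowers u => orderOf (v : U) = n) := by
          rw [Finset.mem_filter]
          exact ⟨Finset.mem_univ _, hu⟩
        rw [h6] at h7
        exact absurd h7 (Finset.notMem_empty _)
      · exact h5
  exact fun u => key _ u rfl

section

variable {Γ : Type} [Group Γ] [Finite Γ] (V : GU Γ)

/-- the group of conjugations and power maps in `V'` -/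
def MV (V' : Subgroup V.U) : Subgroup (Γ × V.U) := (⊤ : Subgroup Γ).prod V'

theorem mem_MV {V' : Subgroup V.U} {m : Γ × V.U} : m ∈ MV V V' ↔ m.2 ∈ V' := by
  unfold MV
  rw [Subgroup.mem_prod]
  simp

theorem ex_one' (x : Γ) : x ^ ex (((1 : V.U) : (ZMod (Nat.card Γ))ˣ)) = x := ex_one (xn x)

theorem adm_U (V' : Subgroup V.U) : Adm (PAU V) (MV V V') ⊤ where
  norm _ _ _ _ := Subgroup.mem_top _
  inn n _ := by
    refine ⟨(n, 1), (mem_MV V).2 (one_mem _), rfl, fun x => ?_⟩
    rw [PAU_a]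
    change n * x ^ ex (((1 : V.U) : (ZMod (Nat.card Γ))ˣ)) * n⁻¹ = _
    rw [ex_one']

theorem adm_C (V' : Subgroup V.U) : Adm (PAC V) (MV V V') ⊤ where
  norm _ _ _ _ := Subgroup.mem_top _
  inn n _ := ⟨(n, 1), (mem_MV V).2 (one_mem _), rfl, fun x => PAC_a V _ x⟩

/-- the number of the irreducible characters which are fixed by the power map of `u` -/
def Fx {F : Type} [Field F] (red : integralClosure ℤ ℂ →+* F) (N : Subgroup Γ)
    (u : (ZMod (Nat.card Γ))ˣ) (z : Γ → F) (c : F) : ℕ :=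
  Nat.card {χ : N → ℂ // IsIrrChar χ ∧ (∀ x : N, χ (x ^ ex u) = χ x) ∧
    centralValue red χ (fun x => z x) = c}

variable {V}

theorem irr_conj {N : Subgroup Γ} {χ : N → ℂ} (h : IsIrrChar χ) (g x : N) :
    χ (g * x * g⁻¹) = χ x := by
  have : Fintype N := Fintype.ofFinite N
  exact Pool.Agent.Y930.NV.irr_Cf h g x

theorem Fnum_U {F : Type} [Field F] (red : integralClosure ℤ ℂ →+* F) (N : Subgroup Γ)
    {m : Γ × V.U} (hm : m.1 ∈ N) (z : Γ → F) (c : F) :
    Fnum (PAU V) red N m z c = Fx red N (m.2 : (ZMod (Nat.card Γ))ˣ) z c := by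
  unfold Fnum Fx
  refine Nat.card_congr (Equiv.subtypeEquivRight fun χ => ?_)
  refine and_congr_right fun hχ => and_congr_left fun _ => ?_
  constructor
  · intro h x
    have h1 := h x (⟨m.1, hm⟩ * x ^ ex (m.2 : (ZMod (Nat.card Γ))ˣ) * (⟨m.1, hm⟩ : N)⁻¹) rfl
    rw [irr_conj hχ] at h1
    exact h1
  · intro h x y hxy
    have h1 : y = ⟨m.1, hm⟩ * x ^ ex (m.2 : (ZMod (Nat.card Γ))ˣ) * (⟨m.1, hm⟩ : N)⁻¹ :=
      Subtype.ext hxy
    rw [h1, irr_conj hχ, h]

theorem Fnum_C {F : Type} [Field F] (red : integralClosure ℤ ℂ →+* F) (N : Subgroup Γ)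
    {m : Γ × V.U} (hm : m.1 ∈ N) (z : Γ → F) (c : F) :
    Fnum (PAC V) red N m z c = Fx red N 1 z c := by
  unfold Fnum Fx
  refine Nat.card_congr (Equiv.subtypeEquivRight fun χ => ?_)
  refine and_congr_right fun hχ => and_congr_left fun _ => ?_
  constructor
  · intro _ x
    rw [ex_one (Γ := Γ) (x := x) (Subtype.ext (by
      rw [Subgroup.coe_pow]; exact xn _))]
  · intro _ x y hxy
    have h1 : y = ⟨m.1, hm⟩ * x * (⟨m.1, hm⟩ : N)⁻¹ := Subtype.ext hxy
    rw [h1, irr_conj hχ]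

/-- the stabiliser of a chain -/
def mcEquiv (V' : Subgroup V.U) (σ : Set (Subgroup Γ)) :
    MC (PAU V) (MV V V') σ ≃ chainStabilizer σ × V' where
  toFun m := (⟨m.1.1, m.2.2⟩, ⟨m.1.2, (mem_MV V).1 m.2.1⟩)
  invFun y := ⟨(y.1, y.2), (mem_MV V).2 y.2.2, y.1.2⟩
  left_inv _ := rfl
  right_inv _ := rfl

theorem sum_mc (V' : Subgroup V.U) (σ : Set (Subgroup Γ)) [Fintype (MC (PAU V) (MV V V') σ)]
    [Fintype V'] (f : V.U → ℤ) :
    ∑ m : MC (PAU V) (MV V V') σ, f m.1.2 = (Nat.card (chainStabilizer σ) : ℤ) * ∑ v : V', f v := by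
  have : Fintype (chainStabilizer σ) := Fintype.ofFinite _
  rw [Fintype.sum_equiv (mcEquiv V' σ) (fun m => f m.1.2) (fun y => f y.2) (fun _ => rfl),
    Fintype.sum_prod_type]
  simp only
  rw [Finset.sum_const, Finset.card_univ, nsmul_eq_mul,
    Nat.card_eq_fintype_card (α := chainStabilizer σ)]

/-- the functions fixed by a power map -/
theorem fix_zp {N : Subgroup Γ} {u w : (ZMod (Nat.card Γ))ˣ} (hw : w ∈ Subgroup.zpowers u)
    {χ : N → ℂ} (hχ : ∀ x : N, χ (x ^ ex u) = χ x) : ∀ x : N, χ (x ^ ex w) = χ x := by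
  have : Finite (ZMod (Nat.card Γ))ˣ := by
    have := ne0 (Γ := Γ)
    infer_instance
  rw [← mem_powers_iff_mem_zpowers] at hw
  obtain ⟨k, rfl⟩ := hw
  have hN : ∀ x : N, x ^ Nat.card Γ = 1 := fun x => Subtype.ext (by
    rw [Subgroup.coe_pow]; exact xn _)
  induction k with
  | zero =>
    intro x
    change χ (x ^ ex (u ^ 0)) = χ x
    rw [pow_zero, ex_one (hN x)]
  | succ k ih =>
    intro x
    change χ (x ^ ex (u ^ (k + 1))) = χ x
    rw [pow_succ, ex_mul (hN x), hχ]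
    exact ih x

theorem Fx_zp {F : Type} [Field F] (red : integralClosure ℤ ℂ →+* F) (N : Subgroup Γ)
    {u w : (ZMod (Nat.card Γ))ˣ} (h : Subgroup.zpowers u = Subgroup.zpowers w) (z : Γ → F)
    (c : F) : Fx red N u z c = Fx red N w z c := by
  unfold Fx
  refine Nat.card_congr (Equiv.subtypeEquivRight fun χ => ?_)
  refine and_congr_right fun hχ => and_congr_left fun _ => ?_
  constructor
  · exact fix_zp (by rw [h]; exact Subgroup.mem_zpowers w)
  · exact fix_zp (by rw [← h]; exact Subgroup.mem_zpowers u)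

variable {F : Type} [Field F] {p : ℕ} {Z : Subgroup Γ}

theorem NS_top (σ : Set (Subgroup Γ)) : NS (⊤ : Subgroup Γ) σ = chainStabilizer σ := top_inf_eq _

/-- the sum for a subgroup of the group of the power maps -/
theorem sub_sum [Fact p.Prime] [IsAlgClosed F] [CharP F p]
    (red : integralClosure ℤ ℂ →+* F) (hZ : IsPGroup p Z) [hZn : Z.Normal]
    (hV : ∀ (u : V.U) (x : Γ), (∃ k : ℕ, ¬ p ∣ k ∧ x ^ k ∈ Z) →
      x ^ ex (u : (ZMod (Nat.card Γ))ˣ) = x)
    {z : Γ → F} (hz : ∀ g x : Γ, z (g * x * g⁻¹) = z x)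
    (hz' : ∀ (u : V.U) (x : Γ), z (x ^ ex (u : (ZMod (Nat.card Γ))ˣ)) = z x)
    (c : F) [Fintype {σ : Set (Subgroup Γ) // CH p ⊤ Z σ}] (V' : Subgroup V.U) [Fintype V'] :
    ∑ v : V', ∑ σ : {σ : Set (Subgroup Γ) // CH p ⊤ Z σ}, (-1) ^ σ.1.ncard *
      ((Nat.card (chainStabilizer σ.1) : ℤ) *
        ((Fx red (chainStabilizer σ.1) (v : V.U) z c : ℤ) -
          Fx red (chainStabilizer σ.1) 1 z c)) = 0 := by
  have hfin : ∀ σ : {σ : Set (Subgroup Γ) // CH p ⊤ Z σ},
      Fintype (MC (PAU V) (MV V V') σ.1) := fun _ => Fintype.ofFinite _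
  have h1 := alt_eq (p := p) (G := ⊤) (Z := Z) red (A := PAU V) (A' := PAC V) rfl (adm_U V V')
    (adm_C V V') hZ le_top (by rw [Subgroup.normalizer_eq_top]) (fun m _ => by
      rw [Subgroup.normalizer_eq_top]; exact Subgroup.mem_top _) (fun m _ x _ hx => by
      rw [PAU_a, PAC_a, hV m.2 x hx]) (z := z)
    (fun m _ x => by rw [PAU_a, hz, hz' m.2]) (fun m _ x => by rw [PAC_a, hz]) c
  have hcut : ∀ σ : Set (Subgroup Γ), ∀ χ : NS (⊤ : Subgroup Γ) σ → ℂ,
      centralValue red χ (fun x => cut z (NS ⊤ σ) x) = centralValue red χ (fun x => z x) := by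
    intro σ χ
    congr 1
    funext x
    unfold cut
    rw [if_pos x.2]
  have hFx : ∀ (σ : Set (Subgroup Γ)) (u : (ZMod (Nat.card Γ))ˣ),
      Fx red (NS ⊤ σ) u (cut z (NS ⊤ σ)) c = Fx red (chainStabilizer σ) u z c := by
    intro σ u
    have h2 : Fx red (NS ⊤ σ) u (cut z (NS ⊤ σ)) c = Fx red (NS ⊤ σ) u z c := by
      unfold Fx
      simp only [hcut]
    rw [h2, NS_top]
  have e1 : ∀ σ : {σ : Set (Subgroup Γ) // CH p ⊤ Z σ},
      ∑ m : MC (PAU V) (MV V V') σ.1, (Fnum (PAU V) red (NS ⊤ σ.1) m (cut z (NS ⊤ σ.1)) c : ℤ) =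
      (Nat.card (chainStabilizer σ.1) : ℤ) * ∑ v : V', (Fx red (chainStabilizer σ.1) (v : V.U) z c : ℤ) := by
    intro σ
    rw [← sum_mc V' σ.1 (fun u => (Fx red (chainStabilizer σ.1) u z c : ℤ))]
    refine Finset.sum_congr rfl fun m _ => ?_
    rw [Fnum_U red (NS ⊤ σ.1) (m := m.1) (by rw [NS_top]; exact m.2.2), hFx]
  have e2 : ∀ σ : {σ : Set (Subgroup Γ) // CH p ⊤ Z σ},
      ∑ m : MC (PAU V) (MV V V') σ.1, (Fnum (PAC V) red (NS ⊤ σ.1) m (cut z (NS ⊤ σ.1)) c : ℤ) =
      (Nat.card (chainStabilizer σ.1) : ℤ) * ∑ v : V', (Fx red (chainStabilizer σ.1) 1 z c : ℤ) := by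
    intro σ
    rw [← sum_mc V' σ.1 (fun _ => (Fx red (chainStabilizer σ.1) 1 z c : ℤ))]
    refine Finset.sum_congr rfl fun m _ => ?_
    rw [Fnum_C red (NS ⊤ σ.1) (m := m.1) (by rw [NS_top]; exact m.2.2), hFx]
  rw [Finset.sum_congr rfl fun σ _ => congrArg (fun t : ℤ => (-1) ^ σ.1.ncard * t) (e1 σ),
    Finset.sum_congr rfl fun σ _ => congrArg (fun t : ℤ => (-1) ^ σ.1.ncard * t) (e2 σ),
    ← sub_eq_zero, ← Finset.sum_sub_distrib] at h1
  rw [Finset.sum_comm]
  refine Eq.trans ?_ h1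
  refine Finset.sum_congr rfl fun σ _ => ?_
  rw [← Finset.mul_sum, ← Finset.mul_sum, Finset.sum_sub_distrib]
  ring

/-- the alternating sum for one power map -/
theorem pow_sum [Fact p.Prime] [IsAlgClosed F] [CharP F p]
    (red : integralClosure ℤ ℂ →+* F) (hZ : IsPGroup p Z) [hZn : Z.Normal]
    (hV : ∀ (u : V.U) (x : Γ), (∃ k : ℕ, ¬ p ∣ k ∧ x ^ k ∈ Z) →
      x ^ ex (u : (ZMod (Nat.card Γ))ˣ) = x)
    {z : Γ → F} (hz : ∀ g x : Γ, z (g * x * g⁻¹) = z x)
    (hz' : ∀ (u : V.U) (x : Γ), z (x ^ ex (u : (ZMod (Nat.card Γ))ˣ)) = z x)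
    (c : F) [Fintype {σ : Set (Subgroup Γ) // CH p ⊤ Z σ}] (u : V.U) :
    ∑ σ : {σ : Set (Subgroup Γ) // CH p ⊤ Z σ}, (-1) ^ σ.1.ncard *
      ((Nat.card (chainStabilizer σ.1) : ℤ) *
        ((Fx red (chainStabilizer σ.1) u z c : ℤ) -
          Fx red (chainStabilizer σ.1) 1 z c)) = 0 := by
  have hU : Finite V.U := by
    have := ne0 (Γ := Γ)
    infer_instance
  refine cyc_zero (fun u : V.U => ∑ σ : {σ : Set (Subgroup Γ) // CH p ⊤ Z σ},
    (-1) ^ σ.1.ncard * ((Nat.card (chainStabilizer σ.1) : ℤ) *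
        ((Fx red (chainStabilizer σ.1) u z c : ℤ) -
          Fx red (chainStabilizer σ.1) 1 z c))) ?_ ?_ u
  · intro V' _
    exact sub_sum red hZ hV hz hz' c V'
  · intro u w huw
    refine Finset.sum_congr rfl fun σ _ => ?_
    rw [Fx_zp red (chainStabilizer σ.1) (u := (u : (ZMod (Nat.card Γ))ˣ))
      (w := (w : (ZMod (Nat.card Γ))ˣ)) ?_ z c]
    have h1 := congrArg (Subgroup.map V.U.subtype) huw
    rw [MonoidHom.map_zpowers, MonoidHom.map_zpowers] at h1
    exact h1

end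

end Pool.Agent.Q18.K
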