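import Pool.Agent.Q18.K.Dim

/-!
# Galois automorphisms which fix the `p'`-roots of unity and central characters
-/

open scoped BigOperators Classical

set_option linter.unusedSectionVars false

noncomputable section

namespace Pool.Agent.Q18.K

open Pool.Agent.Helper884.IC (IsIrrChar IsClass expand mem_Irr Irr B)
open Pool.Agent.Y930.NV
open Pool.Agent.Y63.NV (redC centralValue IsClassFun IsBlock conv)

section red

variable {F : Type} [Field F] (red : integralClosure ℤ ℂ →+* F)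

theorem redC_gal {n : ℕ} (hn : 0 < n) (σ : ℂ ≃+* ℂ)
    (hσ : ∀ ζ : ℂ, ζ ^ n = 1 → redC red (σ ζ) = redC red ζ) {α : ℂ}
    (hα : α ∈ Algebra.adjoin ℤ {ζ : ℂ | ζ ^ n = 1}) :
    IsIntegral ℤ α ∧ IsIntegral ℤ (σ α) ∧ redC red (σ α) = redC red α := by
  have hint : ∀ ζ : ℂ, ζ ^ n = 1 → IsIntegral ℤ ζ := fun ζ h =>
    IsIntegral.of_pow hn (by rw [h]; exact isIntegral_one)
  induction hα using Algebra.adjoin_induction with
  | mem ζ h =>
    have h' : ζ ^ n = 1 := h
    exact ⟨hint ζ h', hint _ (by rw [← map_pow, h', map_one]), hσ ζ h'⟩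
  | algebraMap k =>
    have h1 : (algebraMap ℤ ℂ) k = (k : ℂ) := rfl
    rw [h1, map_intCast]
    exact ⟨int_intCast k, int_intCast k, rfl⟩
  | add a b _ _ iha ihb =>
    refine ⟨iha.1.add ihb.1, ?_, ?_⟩
    · rw [map_add]; exact iha.2.1.add ihb.2.1
    · rw [map_add, redC_add red iha.2.1 ihb.2.1, redC_add red iha.1 ihb.1, iha.2.2, ihb.2.2]
  | mul a b _ _ iha ihb =>
    refine ⟨iha.1.mul ihb.1, ?_, ?_⟩
    · rw [map_mul]; exact iha.2.1.mul ihb.2.1
    · rw [map_mul, redC_mul red iha.2.1 ihb.2.1, redC_mul red iha.1 ihb.1, iha.2.2, ihb.2.2]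

open IntermediateField in
/-- the algebraic integers of the cyclotomic field -/
theorem mem_adjoin_of_integral {n : ℕ} (hn : 0 < n) {α : ℂ} (hα : IsIntegral ℤ α)
    (hK : α ∈ ℚ⟮Complex.exp (2 * Real.pi * Complex.I / n)⟯) :
    α ∈ Algebra.adjoin ℤ {ζ : ℂ | ζ ^ n = 1} := by
  have : NeZero n := ⟨hn.ne'⟩
  have hζ := Complex.isPrimitiveRoot_exp n hn.ne'
  set ζ := Complex.exp (2 * Real.pi * Complex.I / n) with hζdef
  have halg : IsAlgebraic ℚ ζ := by
    have h1 : IsIntegral ℚ ζ := IsIntegral.of_pow hn (by rw [hζ.pow_eq_one]; exact isIntegral_one)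
    exact h1.isAlgebraic
  have hcyc : IsCyclotomicExtension {n} ℚ ℚ⟮ζ⟯ := by
    change IsCyclotomicExtension {n} ℚ ℚ⟮ζ⟯.toSubalgebra
    rw [IntermediateField.adjoin_simple_toSubalgebra_of_isAlgebraic halg]
    exact hζ.adjoin_isCyclotomicExtension ℚ
  have hζ' : IsPrimitiveRoot (AdjoinSimple.gen ℚ ζ) n :=
    IsPrimitiveRoot.coe_submonoidClass_iff.mp hζ
  have hI := IsCyclotomicExtension.Rat.isIntegralClosure_adjoin_singleton hζ'
  have h1 : IsIntegral ℤ (⟨α, hK⟩ : ℚ⟮ζ⟯) := by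
    have h2 : IsIntegral ℤ (algebraMap ℚ⟮ζ⟯ ℂ ⟨α, hK⟩) := hα
    exact (isIntegral_algebraMap_iff (FaithfulSMul.algebraMap_injective ℚ⟮ζ⟯ ℂ)).1 h2
  obtain ⟨y, hy⟩ := hI.isIntegral_iff.1 h1
  have h2 : ((y : ℚ⟮ζ⟯) : ℂ) = α := congrArg (fun t : ℚ⟮ζ⟯ => (t : ℂ)) hy
  rw [← h2]
  have h3 : ∀ t ∈ Algebra.adjoin ℤ {AdjoinSimple.gen ℚ ζ},
      ((t : ℚ⟮ζ⟯) : ℂ) ∈ Algebra.adjoin ℤ {ζ : ℂ | ζ ^ n = 1} := by
    intro t ht
    induction ht using Algebra.adjoin_induction with
    | mem t h =>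
      rw [Set.mem_singleton_iff.1 h]
      exact Algebra.subset_adjoin hζ.pow_eq_one
    | algebraMap k =>
      have h4 : (((algebraMap ℤ ℚ⟮ζ⟯) k : ℚ⟮ζ⟯) : ℂ) = algebraMap ℤ ℂ k := by
        simp
      rw [h4]
      exact Subalgebra.algebraMap_mem _ _
    | add a b _ _ iha ihb => exact Subalgebra.add_mem _ iha ihb
    | mul a b _ _ iha ihb => exact Subalgebra.mul_mem _ iha ihb
  exact h3 _ y.2

end red

section J

variable {J : Type} [Group J] [Fintype J]

theorem char_mem_field {n : ℕ} (hn : 0 < n) {χ : J → ℂ} (hχ : IsIrrChar χ) {x : J}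
    (hx : x ^ n = 1) :
    χ x ∈ IntermediateField.adjoin ℚ {Complex.exp (2 * Real.pi * Complex.I / n)} := by
  obtain ⟨V, i1, i2, i3, ρ, hr, rfl⟩ := hχ
  obtain ⟨m, hm⟩ := trace_sum (T := ρ x) hn (by rw [← map_pow, hx, map_one])
  have h1 := hm 1
  rw [pow_one] at h1
  have h2 : ρ.character x = LinearMap.trace ℂ V (ρ x) := rfl
  rw [h2, h1]
  have hz : Complex.exp (2 * Real.pi * Complex.I / n) ∈
      IntermediateField.adjoin ℚ {Complex.exp (2 * Real.pi * Complex.I / n)} :=
    IntermediateField.subset_adjoin _ _ rfl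
  refine sum_mem fun a _ => mul_mem (pow_mem (pow_mem hz a) 1) (natCast_mem _ _)

/-- the values of the central characters are in the ring generated by the roots of unity -/
theorem om_mem {n : ℕ} (hn : 0 < n) (hJ : ∀ x : J, x ^ n = 1) {χ : J → ℂ} (hχ : IsIrrChar χ)
    {k : J → ℤ} (hk : Cf k) :
    om χ (fun g => (k g : ℂ)) ∈ Algebra.adjoin ℤ {ζ : ℂ | ζ ^ n = 1} := by
  refine mem_adjoin_of_integral hn (om_int hχ hk) ?_
  unfold om
  refine div_mem (sum_mem fun g _ => mul_mem (intCast_mem _ _) (char_mem_field hn hχ (hJ g)))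
    (char_mem_field hn hχ (hJ 1))

variable {F : Type} [Field F] (red : integralClosure ℤ ℂ →+* F)

theorem om_gal (σ : ℂ ≃+* ℂ) (χ : J → ℂ) (k : J → ℤ) :
    om (fun x => σ (χ x)) (fun g => (k g : ℂ)) = σ (om χ (fun g => (k g : ℂ))) := by
  unfold om
  rw [map_div₀, map_sum]
  congr 1
  refine Finset.sum_congr rfl fun g _ => ?_
  rw [map_mul, map_intCast]

/-- Galois conjugate characters lie in the same block if the automorphism is trivial modulo the
prime on the roots of unity -/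
theorem cv_gal {n : ℕ} (hn : 0 < n) (hJ : ∀ x : J, x ^ n = 1) (σ : ℂ ≃+* ℂ)
    (hσ : ∀ ζ : ℂ, ζ ^ n = 1 → redC red (σ ζ) = redC red ζ) {χ : J → ℂ} (hχ : IsIrrChar χ)
    (f : J → F) : centralValue red (fun x => σ (χ x)) f = centralValue red χ f := by
  rw [centralValue_eq red hχ, centralValue_eq red (irr_gal σ hχ)]
  refine Finset.sum_congr rfl fun C _ => ?_
  congr 1
  unfold R
  rw [om_gal σ χ (ind ℤ C)]
  exact (redC_gal red hn σ hσ (om_mem hn hJ hχ (Cf_ind ℤ C))).2.2

/-- the value at an integral function -/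
theorem cv_int {χ : J → ℂ} (hχ : IsIrrChar χ) {k : J → ℤ} (hk : Cf k) :
    centralValue red χ (fun x => (k x : F)) = redC red (om χ (fun g => (k g : ℂ))) := by
  rw [centralValue_eq red hχ]
  exact (R_expand red hχ hk).symm

/-- the value of a central character is linear -/
theorem cv_expand {χ : J → ℂ} (hχ : IsIrrChar χ) {f : J → F} {ι : Type} (s : Finset ι)
    (a : ι → F) (k : ι → J → ℤ) (hk : ∀ i ∈ s, Cf (k i))
    (hf : ∀ x, f x = ∑ i ∈ s, a i * (k i x : F)) :
    centralValue red χ f = ∑ i ∈ s, a i * redC red (om χ (fun g => (k i g : ℂ))) := by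
  have h1 : ∀ i ∈ s, a i * redC red (om χ (fun g => (k i g : ℂ))) =
      ∑ C : ConjClasses J, a i * (k i C.out : F) * R red χ (ind ℤ C) := by
    intro i hi
    rw [← cv_int red hχ (hk i hi), centralValue_eq red hχ, Finset.mul_sum]
    refine Finset.sum_congr rfl fun C _ => ?_
    ring
  rw [Finset.sum_congr rfl h1, Finset.sum_comm, centralValue_eq red hχ]
  refine Finset.sum_congr rfl fun C _ => ?_
  rw [hf, Finset.sum_mul]

/-- a permutation which preserves inverses, conjugations and irreducible characters -/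
structure GP (α : Equiv.Perm J) : Prop where
  one : α 1 = 1
  inv : ∀ x, α x⁻¹ = (α x)⁻¹
  irr : ∀ χ : J → ℂ, IsIrrChar χ → IsIrrChar (fun x => χ (α x))
  cnj : ∀ (g x : J), ∃ h : J, α (g * x * g⁻¹) = h * α x * h⁻¹

variable {α : Equiv.Perm J}

theorem GP.cf (h : GP α) {A : Type} {f : J → A} (hf : Cf f) : Cf (fun x => f (α x)) := by
  intro g x
  obtain ⟨k, hk⟩ := h.cnj g x
  change f (α (g * x * g⁻¹)) = f (α x)
  rw [hk, hf]

theorem om_perm (h : GP α) (χ z : J → ℂ) :
    om (fun x => χ (α x)) (fun x => z (α x)) = om χ z := by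
  unfold om
  simp only [h.one]
  congr 1
  exact Fintype.sum_equiv α _ _ fun g => rfl

theorem cv_perm (h : GP α) {χ : J → ℂ} (hχ : IsIrrChar χ) {f : J → F} (hf : Cf f) :
    centralValue red (fun x => χ (α x)) (fun x => f (α x)) = centralValue red χ f := by
  have e1 : ∀ x, f x = ∑ C : ConjClasses J, f C.out * ((ind ℤ C x : ℤ) : F) := by
    intro x
    conv_lhs => rw [Cf_expand hf x]
    refine Finset.sum_congr rfl fun C _ => ?_
    congr 1
    unfold ind
    split_ifs <;> simp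
  rw [cv_expand red hχ Finset.univ (fun C : ConjClasses J => f C.out) (fun C => ind ℤ C)
    (fun C _ => Cf_ind ℤ C) e1,
    cv_expand red (h.irr χ hχ) Finset.univ (fun C : ConjClasses J => f C.out)
      (fun C x => ind ℤ C (α x)) (fun C _ => h.cf (Cf_ind ℤ C)) (fun x => e1 (α x))]
  refine Finset.sum_congr rfl fun C _ => ?_
  rw [om_perm h χ (fun g => ((ind ℤ C g : ℤ) : ℂ))]

/-- convolution with an irreducible character -/
theorem cv_irr {χ : J → ℂ} (hχ : IsIrrChar χ) {f : J → ℂ} (hf : Cf f) (x : J) :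
    cv f χ x = om χ (fun y => f y⁻¹) * χ x := by
  have h1 : Cf (fun y => f y⁻¹) := by
    intro g x
    change f (g * x * g⁻¹)⁻¹ = f x⁻¹
    have : (g * x * g⁻¹)⁻¹ = g * x⁻¹ * g⁻¹ := by group
    rw [this, hf]
  rw [← Kc_irr hχ h1]
  unfold cv Kc
  refine Fintype.sum_equiv (Equiv.inv J) _ _ fun y => ?_
  simp

theorem cv_perm_complex (h : GP α) {f g : J → ℂ} (hf : Cf f) (hg : Cf g) (x : J) :
    cv (fun x => f (α x)) (fun x => g (α x)) x = cv f g (α x) := by
  have hgc : IsClass g := fun a y => hg y a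
  have e1 : ∀ x, g x = ∑ χ ∈ Irr J, B g χ * χ x := by
    intro x
    have := congrFun (expand g hgc) x
    rw [Finset.sum_apply] at this
    exact this
  have e2 : ∀ (f' : J → ℂ) (β : J → J) (x : J), cv f' (fun x => g (β x)) x =
      ∑ χ ∈ Irr J, B g χ * cv f' (fun x => χ (β x)) x := by
    intro f' β x
    unfold cv
    simp_rw [Finset.mul_sum]
    rw [Finset.sum_comm]
    refine Finset.sum_congr rfl fun y _ => ?_
    rw [e1 (β (y⁻¹ * x)), Finset.mul_sum]
    refine Finset.sum_congr rfl fun χ _ => ?_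
    ring
  rw [e2 _ α x]
  have e3 := e2 f id (α x)
  simp only [id] at e3
  rw [e3]
  refine Finset.sum_congr rfl fun χ hχ => ?_
  have hχ' := mem_Irr.1 hχ
  rw [cv_irr (h.irr χ hχ') (h.cf hf), cv_irr hχ' hf]
  congr 2
  have e4 : (fun y => f (α y⁻¹)) = fun y => (fun y => f y⁻¹) (α y) := by
    funext y
    rw [h.inv]
  rw [e4, om_perm h χ (fun y => f y⁻¹)]

theorem cv_perm_int (h : GP α) {f g : J → ℤ} (hf : Cf f) (hg : Cf g) (x : J) :
    cv (fun x => f (α x)) (fun x => g (α x)) x = cv f g (α x) := by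
  have h1 := cv_perm_complex h (f := fun x => (f x : ℂ)) (g := fun x => (g x : ℂ))
    (fun a y => by simp only [hf a y]) (fun a y => by simp only [hg a y]) x
  unfold cv at h1 ⊢
  simp only at h1 ⊢
  exact_mod_cast h1

/-- convolution commutes with the permutations -/
theorem cv_perm_field (h : GP α) {f g : J → F} (hf : Cf f) (hg : Cf g) (x : J) :
    cv (fun x => f (α x)) (fun x => g (α x)) x = cv f g (α x) := by
  have e : ∀ (C : ConjClasses J) (z : J), ((ind ℤ C z : ℤ) : F) = ind F C z := by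
    intro C z
    unfold ind
    split_ifs <;> simp
  have key : ∀ (β : J → J) (x : J), cv (fun x => f (β x)) (fun x => g (β x)) x =
      ∑ C : ConjClasses J, ∑ D : ConjClasses J, f C.out * g D.out *
        ((cv (fun x => ind ℤ C (β x)) (fun x => ind ℤ D (β x)) x : ℤ) : F) := by
    intro β x
    unfold cv
    have h2 : ∀ y : J, f (β y) * g (β (y⁻¹ * x)) = ∑ C : ConjClasses J, ∑ D : ConjClasses J,
        f C.out * g D.out * (((ind ℤ C (β y) * ind ℤ D (β (y⁻¹ * x)) : ℤ)) : F) := by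
      intro y
      rw [Cf_expand hf (β y), Cf_expand hg (β (y⁻¹ * x)), Finset.sum_mul_sum]
      refine Finset.sum_congr rfl fun C _ => Finset.sum_congr rfl fun D _ => ?_
      rw [Int.cast_mul, e, e]
      ring
    simp_rw [h2]
    rw [Finset.sum_comm]
    refine Finset.sum_congr rfl fun C _ => ?_
    rw [Finset.sum_comm]
    refine Finset.sum_congr rfl fun D _ => ?_
    rw [← Finset.mul_sum]
    push_cast
    rfl
  have e5 := key id (α x)
  simp only [id] at e5
  rw [key α x, e5]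
  refine Finset.sum_congr rfl fun C _ => Finset.sum_congr rfl fun D _ => ?_
  rw [cv_perm_int h (Cf_ind ℤ C) (Cf_ind ℤ D) x]

end J

end Pool.Agent.Q18.K
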