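import Pool.Agent.Q18.K.Main
import Pool.Agent.Y63.NV.Bawc

/-!
# The parts KDIMH, KFILT, KBLK, KFIN of project NV
-/

open scoped BigOperators Classical

set_option linter.unusedSectionVars false

noncomputable section

namespace Pool.Agent.Q18.K

open Pool.Agent.Helper884.IC (IsIrrChar irr_finite)
open Pool.Agent.Y63.NV
open Pool.Agent.Y63.KR

section

variable {Γ : Type} [Group Γ]

/-- conjugations -/
def PAI (Γ : Type) [Group Γ] : PA Γ Γ where
  π := MonoidHom.id Γ
  a := (MulAut.toPerm Γ).comp (MulAut.conj (G := Γ))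
  j _ := 1
  σ _ := RingEquiv.refl ℂ
  cop _ := Nat.coprime_one_left _
  eq m x := by
    rw [pow_one]
    rfl
  gal _ _ _ := by
    rw [pow_one]
    rfl

theorem PAI_a (m x : Γ) : (PAI Γ).a m x = m * x * m⁻¹ := rfl

theorem adm_I (H : Subgroup Γ) : Adm (PAI Γ) H H where
  norm m hm n hn := H.mul_mem (H.mul_mem hm hn) (H.inv_mem hm)
  inn n hn := ⟨n, hn, rfl, fun _ => rfl⟩

theorem gE_I [Finite Γ] {F : Type} [Field F] (z : Γ → F) (S : Set Γ) (J : Subgroup Γ) (c : F) :
    gE (PAI Γ) z S J c = gk z S J c := rfl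

end

theorem s_kdimh : S_KDIMH := by
  intro p _ F _ _ _ red Γ _ _ H z c hz hs
  have : Fintype H := Fintype.ofFinite H
  have h1 := kdimE (A := PAI Γ) red (adm_I H) (z := z) (fun m hm x => hz m hm x) hs c
  have h2 : ∀ m : H, (Fnum (PAI Γ) red H m z c : ℤ) = Knum red (fun x : H => z x) c := by
    intro m
    unfold Fnum Knum
    congr 1
    refine Nat.card_congr (Equiv.subtypeEquivRight fun χ => ?_)
    refine and_congr_right fun hχ => ?_
    refine ⟨fun h => h.2, fun h => ⟨fun x y hxy => ?_, h⟩⟩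
    have h3 : y = m * x * m⁻¹ := Subtype.ext hxy
    rw [h3, irr_conj hχ]
  rw [Finset.sum_congr rfl fun m _ => h2 m, Finset.sum_const, Finset.card_univ, nsmul_eq_mul,
    ← Nat.card_eq_fintype_card, gE_I] at h1
  have hpos : (Nat.card H : ℤ) ≠ 0 := by exact_mod_cast Nat.card_pos.ne'
  exact_mod_cast mul_left_cancel₀ hpos h1

theorem s_kfilt : S_KFILT := by
  intro p _ F _ _ _ Γ _ _ H z c hz hs
  have : Fintype (Subgroup Γ) := Fintype.ofFinite _
  have h1 := kfiltE (A := PAI Γ) (p := p) (adm_I H) (z := z) (fun m hm x => hz m hm x) hs c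
  rw [finsum_eq_sum_of_fintype]
  exact h1

theorem s_kblk : S_KBLK := by
  intro p _ F _ _ _ red G _ _ σ χ hσ hχ
  exact lin_block (p := p) red hσ.chain hσ.isPGroup hχ

theorem s_kfin : S_KFIN := Pool.Agent.Y171.NV.kfin s_kblk

end Pool.Agent.Q18.K
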