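import Pool.Agent.Q18.K.Prat

/-!
# Only the characters with bounded irrationality contribute
-/

open scoped BigOperators Classical

set_option linter.unusedSectionVars false

noncomputable section

namespace Pool.Agent.Q18.K

open Pool.Agent.Helper884.IC (IsIrrChar irr_finite)
open Pool.Agent.Y63.NV (redC centralValue IsClassFun IsBlock cut)
open Pool.Agent.Y63.KR

variable {Γ : Type} [Group Γ] [Finite Γ] {p : ℕ} {Z : Subgroup Γ} {F : Type} [Field F]

theorem numQ_split (red : integralClosure ℤ ℂ →+* F) (B : (Γ → F) → F) (Q : Set ℂ → Prop)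
    (H : Subgroup Γ) : numQ red B (fun _ => True) H =
      numQ red B Q H + numQ red B (fun S => ¬ Q S) H := by
  have : Fintype H := Fintype.ofFinite H
  have hf1 : {χ : H → ℂ | IsIrrChar χ}.Finite := irr_finite
  have e0 : ∀ Q : Set ℂ → Prop, numQ red B Q H = {χ : H → ℂ | IsIrrChar χ ∧ Q (Set.range χ) ∧
      ∀ f : Γ → F, IsClassFun f → centralValue red χ (fun x => f x) = B f}.ncard := fun Q =>
    Nat.card_coe_set_eq _
  rw [e0, e0, e0, ← Set.ncard_union_eq ?_ (hf1.subset fun χ h => h.1)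
    (hf1.subset fun χ h => h.1)]
  · congr 1
    ext χ
    simp only [Set.mem_ofPred_eq, Set.mem_union]
    tauto
  · rw [Set.disjoint_left]
    rintro χ ⟨_, h, _⟩ ⟨_, h', _⟩
    exact h' h

/-- the alternating sum of the numbers of the characters with a property of the values -/
def altQ (p : ℕ) (Z : Subgroup Γ) (red : integralClosure ℤ ℂ →+* F) (B : (Γ → F) → F)
    (Q : Set ℂ → Prop) : ℤ :=
  ∑ᶠ c : Quotient (chS p Z), (-1) ^ (Quotient.out c).1.ncard *
      (numQ red B Q (chainStabilizer (Quotient.out c).1) : ℤ)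

theorem altQ_split (red : integralClosure ℤ ℂ →+* F) (B : (Γ → F) → F) (Q : Set ℂ → Prop) :
    altQ p Z red B (fun _ => True) = altQ p Z red B Q + altQ p Z red B (fun S => ¬ Q S) := by
  unfold altQ
  rw [← finsum_add_distrib (Set.toFinite _) (Set.toFinite _)]
  refine finsum_congr fun c => ?_
  rw [numQ_split red B Q]
  push_cast
  ring

theorem altQ_congr (red : integralClosure ℤ ℂ →+* F) (B : (Γ → F) → F) {Q Q' : Set ℂ → Prop}
    (h : ∀ (H : Subgroup Γ) (χ : H → ℂ), IsIrrChar χ → (Q (Set.range χ) ↔ Q' (Set.range χ))) :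
    altQ p Z red B Q = altQ p Z red B Q' := by
  unfold altQ
  refine finsum_congr fun c => ?_
  congr 2
  unfold numQ
  exact Nat.card_congr (Equiv.subtypeEquivRight fun χ => and_congr_right fun hχ =>
    and_congr_left fun _ => h _ χ hχ)

/-- **only the fixed characters contribute** -/
theorem fixed_sum [Fact p.Prime] [IsAlgClosed F] [CharP F p]
    (red : integralClosure ℤ ℂ →+* F) (hZ : IsPGroup p Z) (hZn : Z.Normal)
    {s : ℂ ≃+* ℂ} (hs : ∀ ζ : ℂ, ζ ^ Nat.card Γ = 1 →
      (∃ k : ℕ, ¬ p ∣ k ∧ ζ ^ (k * Monoid.exponent Z) = 1) → s ζ = ζ)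
    {B : (Γ → F) → F} (hB : IsBlock B) :
    altQ p Z red B (fun _ => True) = altQ p Z red B (fun S => ∀ a ∈ S, s a = a) := by
  rw [altQ_split red B (fun S => ∀ a ∈ S, s a = a)]
  have h1 := cls_sum red hZ hZn hs hB
  have h2 : altQ p Z red B (fun S => ¬ ∀ a ∈ S, s a = a) =
      altQ p Z red B (fun S => ∃ a ∈ S, s a ≠ a) :=
    altQ_congr red B fun H χ _ => by push Not; rfl
  rw [h2]
  unfold altQ
  rw [h1, add_zero]

/-- **only the characters with bounded `p`-part of the irrationality contribute** -/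
theorem rat_sum [hp : Fact p.Prime] (hp2 : p ≠ 2) [IsAlgClosed F] [CharP F p]
    (red : integralClosure ℤ ℂ →+* F) (hZ : IsPGroup p Z) (hZn : Z.Normal)
    {B : (Γ → F) → F} (hB : IsBlock B) :
    altQ p Z red B (fun _ => True) = altQ p Z red B (fun S => ∃ k : ℕ, ¬ p ∣ k ∧
      ∀ a ∈ S, a ∈ IntermediateField.adjoin ℚ {zt (k * Monoid.exponent Z)}) := by
  obtain ⟨b, hb, hbe⟩ : ∃ b, p ^ b ∣ Nat.card Γ ∧ Monoid.exponent Z = p ^ b := by
    obtain ⟨c, hc⟩ := IsPGroup.iff_card.1 hZ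
    have h1 : Monoid.exponent Z ∣ p ^ c := by
      rw [← hc]
      exact Group.exponent_dvd_nat_card
    obtain ⟨b, _, hb⟩ := (Nat.dvd_prime_pow hp.out).1 h1
    refine ⟨b, ?_, hb⟩
    rw [← hb]
    exact h1.trans (hc ▸ Subgroup.card_subgroup_dvd_card Z)
  obtain ⟨s, hs1, hs2⟩ := exists_gen (Γ := Γ) hp2 hb
  rw [fixed_sum red hZ hZn (s := s) (by rw [hbe]; exact hs1) hB]
  refine altQ_congr red B fun H χ hχ => ?_
  have h1 := rat_iff hp.out hs1 hs2 hχ
  simp only [Set.forall_mem_range]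
  rw [h1, hbe]

end Pool.Agent.Q18.K
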