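import Pool.Agent.Q18.K.Gal
import Pool.Agent.Q18.K.Blk

/-!
# Homomorphisms of the centre of the group algebra which agree on the invariants
-/

open scoped BigOperators Classical

set_option linter.unusedSectionVars false

noncomputable section

namespace Pool.Agent.Q18.K

open Pool.Agent.Y930.NV
open Pool.Agent.Y63.NV (IsClassFun IsBlock conv)

variable {J F : Type} [Group J] [Fintype J] [Field F]

theorem cv_assoc (f g h : J → F) : cv (cv f g) h = cv f (cv g h) := by
  funext x
  unfold cv
  simp_rw [Finset.sum_mul, Finset.mul_sum]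
  rw [Finset.sum_comm]
  refine Finset.sum_congr rfl fun y _ => ?_
  refine Fintype.sum_equiv (Equiv.mulLeft y⁻¹) _ _ fun z => ?_
  rw [Equiv.coe_mulLeft]
  have e : (y⁻¹ * z)⁻¹ * (y⁻¹ * x) = z⁻¹ * x := by group
  rw [e, mul_assoc]

theorem cv_comm {f g : J → F} (hf : Cf f) : cv f g = cv g f := by
  funext x
  unfold cv
  refine Fintype.sum_equiv ((Equiv.inv J).trans (Equiv.mulRight x)) _ _ fun y => ?_
  have e1 : ((Equiv.inv J).trans (Equiv.mulRight x)) y = y⁻¹ * x := rfl
  rw [e1, mul_comm]
  congr 1
  have e2 : (y⁻¹ * x)⁻¹ * x = x⁻¹ * y * x⁻¹⁻¹ := by group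
  rw [e2, hf]

theorem cv_one (f : J → F) : cv (Pi.single 1 1) f = f := by
  funext x
  unfold cv
  rw [Finset.sum_eq_single 1]
  · rw [Pi.single_eq_same, one_mul, inv_one, one_mul]
  · intro y _ hy
    rw [Pi.single_eq_of_ne hy, zero_mul]
  · intro h
    exact absurd (Finset.mem_univ _) h

theorem one_cf : Cf (Pi.single 1 1 : J → F) := fun g x =>
  Pool.Agent.Y63.NV.B532.single_conj g x

/-- class functions under convolution -/
def CR (J F : Type) [Group J] [Fintype J] [Field F] : Type := {f : J → F // IsClassFun f}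

instance : CommMonoid (CR J F) where
  mul f g := ⟨cv f.1 g.1, Cf_cv f.2 g.2⟩
  one := ⟨Pi.single 1 1, one_cf⟩
  mul_assoc f g h := Subtype.ext (cv_assoc f.1 g.1 h.1)
  one_mul f := Subtype.ext (cv_one f.1)
  mul_one f := Subtype.ext ((cv_comm (g := Pi.single 1 1) f.2).trans (cv_one f.1))
  mul_comm f g := Subtype.ext (cv_comm f.2)

/-- a block as a homomorphism -/
def bh {B : (J → F) → F} (hB : IsBlock B) : CR J F →* F where
  toFun f := B f.1
  map_one' := hB.one
  map_mul' f g := by
    have := hB.mul f.1 g.1 f.2 g.2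
    rw [cv_eq_conv] at this
    exact this

/-- a permutation as a homomorphism -/
def ph {α : Equiv.Perm J} (h : GP α) : CR J F →* CR J F where
  toFun f := ⟨fun x => f.1 (α x), h.cf f.2⟩
  map_one' := by
    apply Subtype.ext
    funext x
    change (Pi.single 1 1 : J → F) (α x) = (Pi.single 1 1 : J → F) x
    by_cases hx : x = 1
    · rw [hx, h.one]
    · have h1 : α x ≠ 1 := by
        intro h2
        apply hx
        apply α.injective
        rw [h2, h.one]
      rw [Pi.single_eq_of_ne hx, Pi.single_eq_of_ne h1]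
  map_mul' f g := by
    apply Subtype.ext
    funext x
    exact (cv_perm_field h f.2 g.2 x).symm

/-- **the norm argument** -/
theorem norm_arg {U : Type} [Group U] [Finite U] (act : U →* Equiv.Perm J)
    (hact : ∀ u, GP (act u)) {L B : (J → F) → F} (hL : IsBlock L) (hB : IsBlock B)
    (hLu : ∀ u, ∀ f : J → F, IsClassFun f → L (fun x => f (act u x)) = L f)
    (hLB : ∀ f : J → F, IsClassFun f → (∀ u x, f (act u x) = f x) → L f = B f)
    (f : J → F) (hf : IsClassFun f) : L f = B f := by
  have : Fintype U := Fintype.ofFinite U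
  set k := B f with hk
  have hone : IsClassFun (Pi.single 1 1 : J → F) := one_cf
  have hf' : IsClassFun (f + (-k) • (Pi.single 1 1 : J → F)) := by
    intro g x
    have h1 := hone g x
    rw [Pi.add_apply, Pi.add_apply, hf g x, Pi.smul_apply, Pi.smul_apply, h1]
  have hsm : IsClassFun ((-k) • (Pi.single 1 1 : J → F)) := by
    intro g x
    have h1 := hone g x
    rw [Pi.smul_apply, Pi.smul_apply, h1]
  let f' : CR J F := ⟨f + (-k) • (Pi.single 1 1 : J → F), hf'⟩
  have hBf : B f'.1 = 0 := by
    change B (f + (-k) • (Pi.single 1 1 : J → F)) = 0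
    rw [hB.add _ _ hf hsm, hB.smul _ _ hone, hB.one, hk]
    ring
  have hLf : L f'.1 = L f - k := by
    change L (f + (-k) • (Pi.single 1 1 : J → F)) = _
    rw [hL.add _ _ hf hsm, hL.smul _ _ hone, hL.one]
    ring
  let Nf : CR J F := ∏ u : U, ph (hact u) f'
  have hinv : ∀ v, ph (hact v) Nf = Nf := by
    intro v
    rw [map_prod]
    refine Fintype.prod_equiv (Equiv.mulRight v) _ _ fun u => ?_
    apply Subtype.ext
    funext x
    change f'.1 (act u (act v x)) = f'.1 (act (u * v) x)
    rw [map_mul]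
    rfl
  have h1 := hLB Nf.1 Nf.2 (fun u x => congrFun (congrArg Subtype.val (hinv u)) x)
  have h2 : L Nf.1 = ∏ u : U, L f'.1 := by
    change bh hL Nf = _
    rw [map_prod]
    refine Finset.prod_congr rfl fun u _ => ?_
    exact hLu u f'.1 f'.2
  have h3 : B Nf.1 = ∏ u : U, bh hB (ph (hact u) f') := by
    change bh hB Nf = _
    rw [map_prod]
  have h4 : ∏ u : U, bh hB (ph (hact u) f') = 0 := by
    refine Finset.prod_eq_zero (Finset.mem_univ (1 : U)) ?_
    have h5 : ph (hact 1) f' = f' := by
      apply Subtype.ext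
      funext x
      change f'.1 (act 1 x) = f'.1 x
      rw [map_one]
      rfl
    rw [h5]
    exact hBf
  rw [h2, h3, h4] at h1
  rw [Finset.prod_const, Finset.card_univ] at h1
  have h6 := pow_eq_zero_iff (Fintype.card_ne_zero (α := U)) |>.1 h1
  rw [hLf] at h6
  exact sub_eq_zero.1 h6

end Pool.Agent.Q18.K
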