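import Pool.Agent.Q18.K.Nrm

/-!
# Conjugations and power maps
-/

open scoped BigOperators Classical

set_option linter.unusedSectionVars false

noncomputable section

namespace Pool.Agent.Q18.K

open Pool.Agent.Helper884.IC (IsIrrChar)
open Pool.Agent.Y63.NV (redC centralValue IsClassFun IsBlock)
open Pool.Agent.Y930.NV (Cf)

section

variable {Γ : Type} [Group Γ] [Finite Γ]

/-- the exponent of a unit -/
def ex (u : (ZMod (Nat.card Γ))ˣ) : ℕ := (u : ZMod (Nat.card Γ)).val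

theorem ne0 : NeZero (Nat.card Γ) := ⟨Nat.card_pos.ne'⟩

theorem ex_cast (u : (ZMod (Nat.card Γ))ˣ) : ((ex u : ℕ) : ZMod (Nat.card Γ)) = u := by
  have := ne0 (Γ := Γ)
  exact ZMod.natCast_zmod_val _

theorem pow_ex_congr {A : Type} [Monoid A] {x : A} (hx : x ^ Nat.card Γ = 1) {a b : ℕ}
    (h : (a : ZMod (Nat.card Γ)) = b) : x ^ a = x ^ b :=
  pow_eq_pow_of_modEq ((ZMod.natCast_eq_natCast_iff a b _).1 h) hx

theorem ex_one {A : Type} [Monoid A] {x : A} (hx : x ^ Nat.card Γ = 1) :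
    x ^ ex (1 : (ZMod (Nat.card Γ))ˣ) = x := by
  have h := pow_ex_congr hx (a := ex (1 : (ZMod (Nat.card Γ))ˣ)) (b := 1) (by
    rw [ex_cast]; simp)
  rw [h, pow_one]

theorem ex_mul {A : Type} [Monoid A] {x : A} (hx : x ^ Nat.card Γ = 1)
    (u v : (ZMod (Nat.card Γ))ˣ) : x ^ ex (u * v) = (x ^ ex u) ^ ex v := by
  rw [← pow_mul]
  refine pow_ex_congr hx ?_
  rw [ex_cast]
  push_cast
  rw [ex_cast, ex_cast]

theorem xn (x : Γ) : x ^ Nat.card Γ = 1 := pow_card_eq_one'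

/-- the action of `Γ × U` by conjugations and power maps -/
@[reducible] def actU (U : Subgroup (ZMod (Nat.card Γ))ˣ) : MulAction (Γ × U) Γ where
  smul m x := m.1 * x ^ ex (m.2 : (ZMod (Nat.card Γ))ˣ) * m.1⁻¹
  one_smul x := by
    change (1 : Γ) * x ^ ex (1 : (ZMod (Nat.card Γ))ˣ) * (1 : Γ)⁻¹ = x
    rw [ex_one (xn x)]
    simp
  mul_smul m m' x := by
    change m.1 * m'.1 * x ^ ex ((m.2 : (ZMod (Nat.card Γ))ˣ) * (m'.2 : (ZMod (Nat.card Γ))ˣ)) *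
        (m.1 * m'.1)⁻¹ =
      m.1 * (m'.1 * x ^ ex (m'.2 : (ZMod (Nat.card Γ))ˣ) * m'.1⁻¹) ^
        ex (m.2 : (ZMod (Nat.card Γ))ˣ) * m.1⁻¹
    rw [mul_comm (m.2 : (ZMod (Nat.card Γ))ˣ), ex_mul (xn x), conj_pow]
    group

/-- the action of `Γ × U` by conjugations -/
@[reducible] def actC (U : Subgroup (ZMod (Nat.card Γ))ˣ) : MulAction (Γ × U) Γ where
  smul m x := m.1 * x * m.1⁻¹
  one_smul x := by
    change (1 : Γ) * x * (1 : Γ)⁻¹ = x
    simp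
  mul_smul m m' x := by
    change m.1 * m'.1 * x * (m.1 * m'.1)⁻¹ = m.1 * (m'.1 * x * m'.1⁻¹) * m.1⁻¹
    group

variable (Γ) in
/-- a group of units with automorphisms of `ℂ` -/
structure GU where
  U : Subgroup (ZMod (Nat.card Γ))ˣ
  s : U → (ℂ ≃+* ℂ)
  hs : ∀ (u : U) (ζ : ℂ), ζ ^ Nat.card Γ = 1 → s u ζ = ζ ^ ex (u : (ZMod (Nat.card Γ))ˣ)

/-- conjugations and power maps -/
def PAU (V : GU Γ) : PA Γ (Γ × V.U) where
  π := MonoidHom.fst Γ V.U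
  a := @MulAction.toPermHom (Γ × V.U) Γ _ (actU V.U)
  j m := ex (m.2 : (ZMod (Nat.card Γ))ˣ)
  σ m := V.s m.2
  cop m := ZMod.val_coe_unit_coprime _
  eq m x := rfl
  gal m ζ h := V.hs m.2 ζ h

/-- conjugations -/
def PAC (V : GU Γ) : PA Γ (Γ × V.U) where
  π := MonoidHom.fst Γ V.U
  a := @MulAction.toPermHom (Γ × V.U) Γ _ (actC V.U)
  j _ := 1
  σ _ := RingEquiv.refl ℂ
  cop _ := Nat.coprime_one_left _
  eq m x := by
    rw [pow_one]
    rfl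
  gal _ _ _ := by
    rw [pow_one]
    rfl

theorem PAU_a (V : GU Γ) (m : Γ × V.U) (x : Γ) :
    (PAU V).a m x = m.1 * x ^ ex (m.2 : (ZMod (Nat.card Γ))ˣ) * m.1⁻¹ := rfl

theorem PAC_a (V : GU Γ) (m : Γ × V.U) (x : Γ) : (PAC V).a m x = m.1 * x * m.1⁻¹ := rfl

/-! ### the group generated by an automorphism of `ℂ` -/

/-- an automorphism of `ℂ` acts on the roots of unity by a power map -/
theorem exists_ex (σ : ℂ ≃+* ℂ) : ∃ u : (ZMod (Nat.card Γ))ˣ, ∀ ζ : ℂ, ζ ^ Nat.card Γ = 1 →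
    σ ζ = ζ ^ ex u := by
  have := ne0 (Γ := Γ)
  have hζ := Complex.isPrimitiveRoot_exp (Nat.card Γ) Nat.card_pos.ne'
  have h1 : IsPrimitiveRoot (σ (Complex.exp (2 * Real.pi * Complex.I / (Nat.card Γ : ℕ))))
    (Nat.card Γ) := hζ.map_of_injective σ.injective
  obtain ⟨i, _, hic, hi⟩ := hζ.isPrimitiveRoot_iff.1 h1
  refine ⟨ZMod.unitOfCoprime i hic, fun ζ hζ' => ?_⟩
  obtain ⟨k, _, hk⟩ := hζ.eq_pow_of_pow_eq_one hζ'
  have h2 : σ ζ = ζ ^ i := by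
    rw [← hk, map_pow, ← hi, ← pow_mul, ← pow_mul, Nat.mul_comm i k]
  rw [h2]
  refine pow_ex_congr hζ' ?_
  rw [ex_cast, ZMod.coe_unitOfCoprime]

/-- the unit of an automorphism of `ℂ` -/
def uσ (Γ : Type) [Group Γ] [Finite Γ] (σ : ℂ ≃+* ℂ) : (ZMod (Nat.card Γ))ˣ :=
  (exists_ex (Γ := Γ) σ).choose

theorem uσ_spec (σ : ℂ ≃+* ℂ) (ζ : ℂ) (h : ζ ^ Nat.card Γ = 1) : σ ζ = ζ ^ ex (uσ Γ σ) :=
  (exists_ex (Γ := Γ) σ).choose_spec ζ h

theorem iter_spec (σ : RingAut ℂ) (k : ℕ) (ζ : ℂ) (h : ζ ^ Nat.card Γ = 1) :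
    (σ ^ k) ζ = ζ ^ ex (uσ Γ σ ^ k) := by
  induction k generalizing ζ with
  | zero =>
    rw [pow_zero, pow_zero, ex_one h]
    rfl
  | succ k ih =>
    rw [pow_succ, pow_succ', ex_mul h, RingAut.mul_apply, uσ_spec (Γ := Γ) σ ζ h, ih]
    rw [← pow_mul, mul_comm, pow_mul, h, one_pow]

theorem exists_pow (σ : ℂ ≃+* ℂ) (u : Subgroup.zpowers (uσ Γ σ)) :
    ∃ k : ℕ, uσ Γ σ ^ k = u := by
  have : Finite (ZMod (Nat.card Γ))ˣ := by
    have := ne0 (Γ := Γ)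
    infer_instance
  have h := u.2
  rw [← mem_powers_iff_mem_zpowers] at h
  exact h

/-- the group of units generated by an automorphism of `ℂ` -/
def GUσ (Γ : Type) [Group Γ] [Finite Γ] (σ : ℂ ≃+* ℂ) : GU Γ where
  U := Subgroup.zpowers (uσ Γ σ)
  s u := (show RingAut ℂ from σ) ^ (exists_pow σ u).choose
  hs u ζ h := by
    rw [iter_spec (Γ := Γ) σ _ ζ h, (exists_pow σ u).choose_spec]

theorem GUσ_fix (σ : ℂ ≃+* ℂ) {ζ : ℂ} (h : σ ζ = ζ) (u : (GUσ Γ σ).U) : (GUσ Γ σ).s u ζ = ζ := by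
  have key : ∀ k : ℕ, ((show RingAut ℂ from σ) ^ k) ζ = ζ := by
    intro k
    induction k with
    | zero => rfl
    | succ k ih =>
      rw [pow_succ, RingAut.mul_apply]
      have h' : (show RingAut ℂ from σ) ζ = ζ := h
      rw [h', ih]
  exact key _

/-- an automorphism which fixes the roots of unity of order prime to `p` is trivial modulo `p` -/
theorem red_fix {p : ℕ} [hp : Fact p.Prime] {F : Type} [Field F] [CharP F p]
    (red : integralClosure ℤ ℂ →+* F) {σ : ℂ ≃+* ℂ}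
    {n : ℕ} (hσ : ∀ ζ : ℂ, ζ ^ n = 1 → (∃ k : ℕ, ¬ p ∣ k ∧ ζ ^ k = 1) → σ ζ = ζ) (hn : 0 < n)
    {ζ : ℂ} (hζ : ζ ^ n = 1) : redC red (σ ζ) = redC red ζ := by
  have hint : IsIntegral ℤ ζ := IsIntegral.of_pow hn (by rw [hζ]; exact isIntegral_one)
  have hint' : IsIntegral ℤ (σ ζ) :=
    IsIntegral.of_pow hn (by rw [← map_pow, hζ, map_one]; exact isIntegral_one)
  have hpow : ∀ (k : ℕ) (a : ℂ), IsIntegral ℤ a → redC red (a ^ k) = redC red a ^ k := by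
    intro k a ha
    induction k with
    | zero => rw [pow_zero, pow_zero, Pool.Agent.Y930.NV.redC_one]
    | succ k ih => rw [pow_succ, pow_succ, Pool.Agent.Y930.NV.redC_mul red (ha.pow k) ha, ih]
  have h1 : σ (ζ ^ p ^ n.factorization p) = ζ ^ p ^ n.factorization p := by
    refine hσ _ ?_ ⟨n / p ^ n.factorization p, Nat.not_dvd_ordCompl hp.out hn.ne', ?_⟩
    · rw [← pow_mul, mul_comm, pow_mul, hζ, one_pow]
    · rw [← pow_mul, Nat.ordProj_mul_ordCompl_eq_self, hζ]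
  have h2 : redC red (σ ζ) ^ p ^ n.factorization p = redC red ζ ^ p ^ n.factorization p := by
    rw [← hpow _ _ hint', ← hpow _ _ hint, ← map_pow, h1]
  have h3 := iterateFrobenius_inj F p (n.factorization p)
  apply h3
  rw [iterateFrobenius_def, iterateFrobenius_def, h2]

/-- the power maps fix the elements whose order is controlled -/
theorem pow_fix {σ : ℂ ≃+* ℂ} {x : Γ} {N : ℕ} (hx : x ^ N = 1)
    (hσ : ∀ ζ : ℂ, ζ ^ Nat.card Γ = 1 → ζ ^ N = 1 → σ ζ = ζ) (u : (GUσ Γ σ).U) :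
    x ^ ex (u : (ZMod (Nat.card Γ))ˣ) = x := by
  have ho : 0 < orderOf x := orderOf_pos x
  have hζ := Complex.isPrimitiveRoot_exp (orderOf x) ho.ne'
  set ζ := Complex.exp (2 * Real.pi * Complex.I / (orderOf x : ℕ)) with hζdef
  have h1 : ζ ^ N = 1 := by
    obtain ⟨k, hk⟩ := orderOf_dvd_of_pow_eq_one hx
    rw [hk, pow_mul, hζ.pow_eq_one, one_pow]
  have h2 : ζ ^ Nat.card Γ = 1 := by
    obtain ⟨k, hk⟩ := orderOf_dvd_natCard x
    rw [hk, pow_mul, hζ.pow_eq_one, one_pow]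
  have h3 := (GUσ Γ σ).hs u ζ h2
  rw [GUσ_fix σ (hσ ζ h2 h1) u] at h3
  have hz0 : ζ ≠ 0 := hζ.ne_zero ho.ne'
  have h4 : (Units.mk0 ζ hz0) ^ ex (u : (ZMod (Nat.card Γ))ˣ) = (Units.mk0 ζ hz0) ^ 1 := by
    apply Units.ext
    rw [Units.val_pow_eq_pow_val, Units.val_pow_eq_pow_val, Units.val_mk0, ← h3, pow_one]
  have h6 : orderOf (Units.mk0 ζ hz0) = orderOf x := by
    rw [← orderOf_units, Units.val_mk0, ← hζ.eq_orderOf]
  rw [pow_eq_pow_iff_modEq, h6] at h4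
  have h5 : x ^ ex (u : (ZMod (Nat.card Γ))ˣ) = x ^ 1 := pow_eq_pow_iff_modEq.2 h4
  rw [h5, pow_one]

end

end Pool.Agent.Q18.K
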