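import Pool.Agent.Q18.K.Cls
import Pool.Agent.TH119.MX.Gal

/-!
# Rationality at `p`
-/

open scoped BigOperators Classical

set_option linter.unusedSectionVars false

noncomputable section

namespace Pool.Agent.Q18.K

open Pool.Agent.Helper884.IC (IsIrrChar irr_finite)

/-- the primitive root of unity -/
def zt (n : ℕ) : ℂ := Complex.exp (2 * Real.pi * Complex.I / n)

theorem zt_prim {n : ℕ} (hn : 0 < n) : IsPrimitiveRoot (zt n) n :=
  Complex.isPrimitiveRoot_exp n hn.ne'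

/-- every unit is given by an automorphism of `ℂ` -/
theorem exists_cyc_aut {n : ℕ} (hn : 0 < n) (u : (ZMod n)ˣ) :
    ∃ s : ℂ ≃+* ℂ, ∀ ζ : ℂ, ζ ^ n = 1 → s ζ = ζ ^ (u : ZMod n).val := by
  have : NeZero n := ⟨hn.ne'⟩
  let L := CyclotomicField n ℚ
  have hL : IsCyclotomicExtension {n} ℚ L := CyclotomicField.isCyclotomicExtension n ℚ
  have hirr : Irreducible (Polynomial.cyclotomic n ℚ) := Polynomial.cyclotomic.irreducible_rat hn
  let g : L ≃ₐ[ℚ] L := (IsCyclotomicExtension.autEquivPow L hirr).symm u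
  have hζ : IsPrimitiveRoot (IsCyclotomicExtension.zeta n ℚ L) n :=
    IsCyclotomicExtension.zeta_spec n ℚ L
  have hg : g (IsCyclotomicExtension.zeta n ℚ L) =
      (IsCyclotomicExtension.zeta n ℚ L) ^ (u : ZMod n).val := by
    have h1 := hζ.autToPow_spec ℚ g
    have h2 : hζ.autToPow ℚ g = u := by
      have h3 := (IsCyclotomicExtension.autEquivPow L hirr).apply_symm_apply u
      rwa [IsCyclotomicExtension.autEquivPow_apply] at h3
    rw [h2] at h1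
    exact h1.symm
  let j : L →ₐ[ℚ] ℂ := IsAlgClosed.lift
  obtain ⟨s, hs⟩ := Pool.Agent.H977R3.CM.exists_aut (j : L →+* ℂ) (g : L ≃+* L)
  refine ⟨s, fun ζ h => ?_⟩
  have hj : IsPrimitiveRoot (j (IsCyclotomicExtension.zeta n ℚ L)) n :=
    hζ.map_of_injective (j : L →+* ℂ).injective
  obtain ⟨i, _, hi⟩ := hj.eq_pow_of_pow_eq_one h
  have h1 := hs (IsCyclotomicExtension.zeta n ℚ L)
  have h2 : (j : L →+* ℂ) ((g : L ≃+* L) (IsCyclotomicExtension.zeta n ℚ L)) =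
      j (IsCyclotomicExtension.zeta n ℚ L) ^ (u : ZMod n).val := by
    change j (g _) = _
    rw [hg, map_pow]
  rw [h2] at h1
  have h3 : s (j (IsCyclotomicExtension.zeta n ℚ L)) =
      j (IsCyclotomicExtension.zeta n ℚ L) ^ (u : ZMod n).val := h1
  rw [← hi, map_pow, h3, ← pow_mul, ← pow_mul, mul_comm]

/-- an automorphism acts on the roots of unity by a power map -/
theorem exists_cop (s : ℂ ≃+* ℂ) {n : ℕ} (hn : 0 < n) :
    ∃ j : ℕ, j.Coprime n ∧ ∀ ζ : ℂ, ζ ^ n = 1 → s ζ = ζ ^ j := by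
  have hζ := zt_prim hn
  have h1 : IsPrimitiveRoot (s (zt n)) n := hζ.map_of_injective s.injective
  have : NeZero n := ⟨hn.ne'⟩
  obtain ⟨i, _, hic, hi⟩ := hζ.isPrimitiveRoot_iff.1 h1
  refine ⟨i, hic, fun ζ hζ' => ?_⟩
  obtain ⟨k, _, hk⟩ := hζ.eq_pow_of_pow_eq_one hζ'
  rw [← hk, map_pow, ← hi, ← pow_mul, ← pow_mul, Nat.mul_comm i k]

/-- two automorphisms which agree on a generator -/
theorem agree_adjoin {s t : ℂ ≃+* ℂ} {ζ : ℂ} (h : t ζ = s ζ) {α : ℂ}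
    (hα : α ∈ IntermediateField.adjoin ℚ {ζ}) : t α = s α := by
  induction hα using IntermediateField.adjoin_induction with
  | mem x hx =>
    rw [Set.mem_singleton_iff] at hx
    rw [hx, h]
  | algebraMap x => rw [eq_ratCast, map_ratCast, map_ratCast]
  | add x y _ _ hx hy => rw [map_add, map_add, hx, hy]
  | inv x _ hx => rw [map_inv₀, map_inv₀, hx]
  | mul x y _ _ hx hy => rw [map_mul, map_mul, hx, hy]

theorem modEq_of_pow {n : ℕ} (hn : 0 < n) {a b : ℕ} (h : zt n ^ a = zt n ^ b) :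
    a ≡ b [MOD n] := by
  have hζ := zt_prim hn
  have hz0 : zt n ≠ 0 := hζ.ne_zero hn.ne'
  have h4 : (Units.mk0 (zt n) hz0) ^ a = (Units.mk0 (zt n) hz0) ^ b := by
    apply Units.ext
    rw [Units.val_pow_eq_pow_val, Units.val_pow_eq_pow_val, Units.val_mk0, h]
  have h6 : orderOf (Units.mk0 (zt n) hz0) = n := by
    rw [← orderOf_units, Units.val_mk0, ← hζ.eq_orderOf]
  rw [pow_eq_pow_iff_modEq, h6] at h4
  exact h4

theorem pow_of_modEq {n : ℕ} {a b : ℕ} (h : a ≡ b [MOD n]) {ζ : ℂ} (hζ : ζ ^ n = 1) :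
    ζ ^ a = ζ ^ b := pow_eq_pow_of_modEq h hζ

theorem pow_key {p : ℕ} (hp : p.Prime) {m a b k : ℕ} (hk : ¬ p ∣ k) {ζ : ℂ}
    (h1 : ζ ^ (m * p ^ a) = 1) (h2 : ζ ^ (k * p ^ b) = 1) : ζ ^ (m * p ^ b) = 1 := by
  have e1 : (ζ ^ (m * p ^ b)) ^ (p ^ a) = 1 := by
    rw [← pow_mul]
    have : m * p ^ b * p ^ a = m * p ^ a * p ^ b := by ring
    rw [this, pow_mul, h1, one_pow]
  have e2 : (ζ ^ (m * p ^ b)) ^ k = 1 := by
    rw [← pow_mul]
    have : m * p ^ b * k = k * p ^ b * m := by ring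
    rw [this, pow_mul, h2, one_pow]
  have e3 := (pow_gcd_eq_one (a := ζ ^ (m * p ^ b)) (m := p ^ a) (n := k)).2 ⟨e1, e2⟩
  have e4 : Nat.gcd (p ^ a) k = 1 :=
    (Nat.Prime.coprime_pow_of_not_dvd (m := a) hp hk).symm
  rw [e4, pow_one] at e3
  exact e3

/-- the elements of two cyclotomic fields -/
theorem fix_of_mem {p e n : ℕ} (he : 0 < e) (hn : 0 < n) {s : ℂ ≃+* ℂ}
    (hs : ∀ ζ : ℂ, ζ ^ n = 1 → (∃ k : ℕ, ¬ p ∣ k ∧ ζ ^ (k * e) = 1) → s ζ = ζ) {k : ℕ}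
    (hk : ¬ p ∣ k) {α : ℂ} (h1 : α ∈ IntermediateField.adjoin ℚ {zt n})
    (h2 : α ∈ IntermediateField.adjoin ℚ {zt (k * e)}) : s α = α := by
  have hk0 : 0 < k := Nat.pos_of_ne_zero fun h => hk (h ▸ dvd_zero p)
  have hm : 0 < k * e := Nat.mul_pos hk0 he
  obtain ⟨j, hj, hsj⟩ := exists_cop s hn
  set d := Nat.gcd n (k * e) with hd
  have hd0 : 0 < d := Nat.gcd_pos_of_pos_left _ hn
  have hjd : j ≡ 1 [MOD d] := by
    refine modEq_of_pow hd0 ?_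
    have hz := (zt_prim hd0).pow_eq_one
    have e1 : zt d ^ n = 1 := by
      obtain ⟨c, hc⟩ := Nat.gcd_dvd_left n (k * e)
      rw [hc, pow_mul, hz, one_pow]
    have e2 : zt d ^ (k * e) = 1 := by
      obtain ⟨c, hc⟩ := Nat.gcd_dvd_right n (k * e)
      rw [← hd] at hc
      rw [hc, pow_mul, hz, one_pow]
    rw [← hsj _ e1, hs _ e1 ⟨k, hk, e2⟩, pow_one]
  obtain ⟨i, hi1, hi2⟩ := Nat.chineseRemainder' hjd
  have hic : i.Coprime (n * (k * e)) := by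
    refine Nat.Coprime.mul_right ?_ ?_
    · have := hi1.gcd_eq
      rw [Nat.coprime_iff_gcd_eq_one, this]
      exact hj
    · have := hi2.gcd_eq
      rw [Nat.coprime_iff_gcd_eq_one, this]
      exact Nat.gcd_one_left _
  have hnm : 0 < n * (k * e) := Nat.mul_pos hn hm
  obtain ⟨t, ht⟩ := exists_cyc_aut hnm (ZMod.unitOfCoprime i hic)
  have : NeZero (n * (k * e)) := ⟨hnm.ne'⟩
  have hv : ((ZMod.unitOfCoprime i hic : (ZMod (n * (k * e)))ˣ) : ZMod (n * (k * e))).val ≡ i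
      [MOD n * (k * e)] := by
    rw [ZMod.coe_unitOfCoprime, ZMod.val_natCast]
    exact Nat.mod_modEq _ _
  have t1 : t (zt n) = s (zt n) := by
    have hz := (zt_prim hn).pow_eq_one
    rw [ht _ (by rw [pow_mul, hz, one_pow]), hsj _ hz]
    exact pow_of_modEq ((hv.of_mul_right _).trans hi1) hz
  have t2 : t (zt (k * e)) = (RingEquiv.refl ℂ) (zt (k * e)) := by
    have hz := (zt_prim hm).pow_eq_one
    rw [ht _ (by rw [Nat.mul_comm n, pow_mul, hz, one_pow])]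
    have := pow_of_modEq ((hv.of_mul_left _).trans hi2) hz
    rw [this, pow_one]
    rfl
  have h3 := agree_adjoin t1 h1
  have h4 := agree_adjoin t2 h2
  rw [← h3, h4]
  rfl

section

variable {Γ : Type} [Group Γ] [Finite Γ]

theorem ex_inj {u v : (ZMod (Nat.card Γ))ˣ} (h : zt (Nat.card Γ) ^ ex u = zt (Nat.card Γ) ^ ex v) :
    u = v := by
  have := ne0 (Γ := Γ)
  apply Units.ext
  apply ZMod.val_injective
  exact (zt_prim Nat.card_pos).pow_inj (ZMod.val_lt _) (ZMod.val_lt _) h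

/-- for odd `p` one automorphism generates all the automorphisms which fix the roots of unity with
bounded `p`-part -/
theorem exists_gen {p : ℕ} [hp : Fact p.Prime] (hp2 : p ≠ 2) {b : ℕ}
    (hb : p ^ b ∣ Nat.card Γ) : ∃ s : ℂ ≃+* ℂ,
      (∀ ζ : ℂ, ζ ^ Nat.card Γ = 1 → (∃ k : ℕ, ¬ p ∣ k ∧ ζ ^ (k * p ^ b) = 1) → s ζ = ζ) ∧
      ∀ t : ℂ ≃+* ℂ, (∀ ζ : ℂ, ζ ^ Nat.card Γ = 1 → (∃ k : ℕ, ¬ p ∣ k ∧ ζ ^ (k * p ^ b) = 1) →
        t ζ = ζ) → uσ Γ t ∈ Subgroup.zpowers (uσ Γ s) := by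
  set n := Nat.card Γ with hn
  have hn0 : 0 < n := Nat.card_pos
  have hnz : NeZero n := ⟨hn0.ne'⟩
  set a := n.factorization p with ha
  set n' := n / p ^ a with hn'
  have hnn : p ^ a * n' = n := Nat.ordProj_mul_ordCompl_eq_self n p
  have hn'p : ¬ p ∣ n' := Nat.not_dvd_ordCompl hp.out hn0.ne'
  have hn'0 : 0 < n' := Nat.pos_of_ne_zero fun h => hn'p (h ▸ dvd_zero p)
  have hba : b ≤ a := (hp.out.pow_dvd_iff_le_factorization hn0.ne').1 hb
  have hpb : p ^ b ∣ p ^ a := pow_dvd_pow p hba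
  have hm : n' * p ^ b ∣ n := by
    conv_rhs => rw [← hnn, mul_comm]
    exact Nat.mul_dvd_mul_left n' hpb
  have hpa : p ^ a ∣ n := Nat.ordProj_dvd n p
  have hm0 : 0 < n' * p ^ b := Nat.mul_pos hn'0 (pow_pos hp.out.pos b)
  have hmz : NeZero (n' * p ^ b) := ⟨hm0.ne'⟩
  have hpaz : NeZero (p ^ a) := ⟨(pow_pos hp.out.pos a).ne'⟩
  -- the kernel is cyclic
  let K : Subgroup (ZMod n)ˣ := (ZMod.unitsMap hm).ker
  have hcyc : IsCyclic (ZMod (p ^ a))ˣ := ZMod.isCyclic_units_of_prime_pow p hp.out hp2 a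
  have hKval : ∀ {m : ℕ} (h : m ∣ n) (u : (ZMod n)ˣ), ZMod.unitsMap h u = 1 →
      (u : ZMod n).val ≡ 1 [MOD m] := by
    intro m h u hu
    have h1 := congrArg (fun v : (ZMod m)ˣ => (v : ZMod m)) hu
    simp only [ZMod.unitsMap_val, Units.val_one] at h1
    rw [← ZMod.natCast_eq_natCast_iff]
    rw [Nat.cast_one, ← h1, ZMod.natCast_val]
  have hKval' : ∀ {m : ℕ} (h : m ∣ n) (u : (ZMod n)ˣ), (u : ZMod n).val ≡ 1 [MOD m] →
      ZMod.unitsMap h u = 1 := by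
    intro m h u hu
    apply Units.ext
    rw [ZMod.unitsMap_val, Units.val_one]
    rw [← ZMod.natCast_eq_natCast_iff] at hu
    rw [Nat.cast_one] at hu
    rw [← hu, ZMod.natCast_val]
  have hinj : Function.Injective ((ZMod.unitsMap hpa).comp K.subtype) := by
    rw [injective_iff_map_eq_one]
    intro u hu
    have h1 : (u.1 : ZMod n).val ≡ 1 [MOD p ^ a] := hKval hpa u.1 hu
    have h2 : (u.1 : ZMod n).val ≡ 1 [MOD n'] :=
      (hKval hm u.1 u.2).of_mul_right _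
    have h3 : (p ^ a).Coprime n' := (Nat.Prime.coprime_pow_of_not_dvd (m := a) hp.out hn'p).symm
    have h4 : (u.1 : ZMod n).val ≡ 1 [MOD n] := by
      have := (Nat.modEq_and_modEq_iff_modEq_mul h3).1 ⟨h1, h2⟩
      rwa [hnn] at this
    have h5 := hKval' (dvd_refl n) u.1 h4
    apply Subtype.ext
    apply Units.ext
    have h6 : ((u.1 : ZMod n).val : ZMod n) = ((1 : ℕ) : ZMod n) :=
      (ZMod.natCast_eq_natCast_iff _ _ _).2 h4
    rw [ZMod.natCast_zmod_val, Nat.cast_one] at h6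
    exact h6
  have hKc : IsCyclic K := isCyclic_of_injective _ hinj
  obtain ⟨u₀, hu₀⟩ := hKc.exists_generator
  obtain ⟨s, hs⟩ := exists_cyc_aut hn0 u₀.1
  have hus : uσ Γ s = u₀.1 := by
    apply ex_inj
    have hz := (zt_prim hn0).pow_eq_one
    have h1 := uσ_spec (Γ := Γ) s (zt n) hz
    rw [← hn, ← h1, hs _ hz]
    rfl
  refine ⟨s, ?_, ?_⟩
  · rintro ζ h1 ⟨k, hk, h2⟩
    have h3 : ζ ^ (n' * p ^ b) = 1 := by
      refine pow_key hp.out (a := a) hk ?_ h2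
      rw [Nat.mul_comm, hnn, h1]
    rw [hs ζ h1]
    have := pow_of_modEq (hKval hm u₀.1 u₀.2) h3
    rw [this, pow_one]
  · intro t ht
    have hzm := (zt_prim hm0).pow_eq_one
    have hzn : zt (n' * p ^ b) ^ n = 1 := by
      obtain ⟨c, hc⟩ := hm
      rw [hc, pow_mul, hzm, one_pow]
    have h1 := ht (zt (n' * p ^ b)) hzn ⟨n', hn'p, hzm⟩
    have h2 := uσ_spec (Γ := Γ) t (zt (n' * p ^ b)) hzn
    have h3 : ex (uσ Γ t) ≡ 1 [MOD n' * p ^ b] := by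
      refine modEq_of_pow hm0 ?_
      rw [← h2, h1, pow_one]
    have h4 : uσ Γ t ∈ K := hKval' hm (uσ Γ t) h3
    obtain ⟨i, hi⟩ := hu₀ ⟨uσ Γ t, h4⟩
    refine ⟨i, ?_⟩
    rw [hus]
    exact congrArg Subtype.val hi

/-- the characters with values in a field of bounded `p`-part -/
theorem rat_iff {p : ℕ} {b : ℕ} (hpp : p.Prime) {s : ℂ ≃+* ℂ}
    (h1 : ∀ ζ : ℂ, ζ ^ Nat.card Γ = 1 → (∃ k : ℕ, ¬ p ∣ k ∧ ζ ^ (k * p ^ b) = 1) → s ζ = ζ)
    (h2 : ∀ t : ℂ ≃+* ℂ, (∀ ζ : ℂ, ζ ^ Nat.card Γ = 1 →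
      (∃ k : ℕ, ¬ p ∣ k ∧ ζ ^ (k * p ^ b) = 1) → t ζ = ζ) → uσ Γ t ∈ Subgroup.zpowers (uσ Γ s))
    {N : Subgroup Γ} {χ : N → ℂ} (hχ : IsIrrChar χ) :
    (∀ x, s (χ x) = χ x) ↔ ∃ k : ℕ, ¬ p ∣ k ∧
      ∀ x, χ x ∈ IntermediateField.adjoin ℚ {zt (k * p ^ b)} := by
  have : Fintype N := Fintype.ofFinite N
  have hpb : 0 < p ^ b := pow_pos hpp.pos b
  constructor
  · intro h
    set a := (Nat.card Γ).factorization p with ha
    set m := Nat.card Γ / p ^ a with hmdef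
    have hnn : p ^ a * m = Nat.card Γ := Nat.ordProj_mul_ordCompl_eq_self _ p
    have hm : ¬ p ∣ m := Nat.not_dvd_ordCompl hpp Nat.card_pos.ne'
    have hm0 : 0 < m := Nat.pos_of_ne_zero fun h => hm (h ▸ dvd_zero p)
    have hmb : 0 < m * p ^ b := Nat.mul_pos hm0 hpb
    refine ⟨m, hm, fun x => ?_⟩
    by_contra hx
    obtain ⟨t, ht1, ht2⟩ := Pool.Agent.TH119.MX.exists_move
      (F := (IntermediateField.adjoin ℚ {zt (m * p ^ b)}).toSubfield) hx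
    apply ht2
    have hzt : t (zt (m * p ^ b)) = zt (m * p ^ b) :=
      ht1 _ (IntermediateField.subset_adjoin _ _ rfl)
    have h3 : ∀ ζ : ℂ, ζ ^ Nat.card Γ = 1 →
      (∃ k : ℕ, ¬ p ∣ k ∧ ζ ^ (k * p ^ b) = 1) → t ζ = ζ := by
      rintro ζ hζ1 ⟨k, hk, hζ2⟩
      have h4 : ζ ^ (m * p ^ b) = 1 := by
        refine pow_key hpp (a := a) hk ?_ hζ2
        rw [Nat.mul_comm, hnn, hζ1]
      have : NeZero (m * p ^ b) := ⟨hmb.ne'⟩
      obtain ⟨i, _, hi⟩ := (zt_prim hmb).eq_pow_of_pow_eq_one h4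
      rw [← hi, map_pow, hzt]
    have h4 := h2 t h3
    have h5 : ∀ x : N, χ (x ^ ex (uσ Γ s)) = χ x := by
      intro x
      rw [char_pow_gal s Nat.card_pos (fun ζ hζ => uσ_spec s ζ hζ) hχ (hxn _ x), h]
    have h6 := fix_zp h4 h5 x
    rw [char_pow_gal t Nat.card_pos (fun ζ hζ => uσ_spec t ζ hζ) hχ (hxn _ x)] at h6
    exact h6
  · rintro ⟨k, hk, h⟩ x
    exact fix_of_mem hpb Nat.card_pos h1 hk
      (char_mem_field Nat.card_pos hχ (hxn N x)) (h x)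

end

end Pool.Agent.Q18.K
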