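import Pool.Agent.Q18.K.Fin
import Pool.Agent.Q18.K.Nrm

/-!
# Separation of the blocks
-/

open scoped BigOperators Classical

set_option linter.unusedSectionVars false

noncomputable section

namespace Pool.Agent.Q18.K

open Pool.Agent.Helper884.IC (IsIrrChar irr_finite)
open Pool.Agent.Y63.NV (redC centralValue IsClassFun IsBlock cut)
open Pool.Agent.Y63.KR
open Pool.Agent.Y930.NV (Cf)

section pw

variable {Γ : Type} [Group Γ] [Finite Γ] {J : Type} [Group J]

/-- power maps -/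
def pw (hJ : ∀ x : J, x ^ Nat.card Γ = 1) : (ZMod (Nat.card Γ))ˣ →* Equiv.Perm J where
  toFun u :=
    { toFun := fun x => x ^ ex u
      invFun := fun x => x ^ ex u⁻¹
      left_inv := fun x => by
        change (x ^ ex u) ^ ex u⁻¹ = x
        rw [← ex_mul (hJ x), mul_inv_cancel, ex_one (hJ x)]
      right_inv := fun x => by
        change (x ^ ex u⁻¹) ^ ex u = x
        rw [← ex_mul (hJ x), inv_mul_cancel, ex_one (hJ x)] }
  map_one' := by
    ext x
    exact ex_one (hJ x)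
  map_mul' u v := by
    ext x
    change x ^ ex (u * v) = (x ^ ex v) ^ ex u
    rw [← ex_mul (hJ x), mul_comm]

theorem pw_apply (hJ : ∀ x : J, x ^ Nat.card Γ = 1) (u : (ZMod (Nat.card Γ))ˣ) (x : J) :
    pw hJ u x = x ^ ex u := rfl

variable [Fintype J]

theorem gp_pw (V : GU Γ) (hJ : ∀ x : J, x ^ Nat.card Γ = 1) (u : V.U) :
    GP (pw hJ (u : (ZMod (Nat.card Γ))ˣ)) where
  one := one_pow _
  inv x := by rw [pw_apply, pw_apply, inv_pow]
  irr χ hχ := by
    have h := irr_gal (V.s u) hχ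
    have e : (fun x => χ (pw hJ (u : (ZMod (Nat.card Γ))ˣ) x)) = fun x => V.s u (χ x) := by
      funext x
      exact char_pow_gal (V.s u) Nat.card_pos (V.hs u) hχ (hJ x)
    rw [e]
    exact h
  cnj g x := ⟨g, by rw [pw_apply, pw_apply, conj_pow]⟩

theorem cv_pw {F : Type} [Field F] (red : integralClosure ℤ ℂ →+* F) (V : GU Γ)
    (hred : ∀ (u : V.U) (ζ : ℂ), ζ ^ Nat.card Γ = 1 → redC red (V.s u ζ) = redC red ζ)
    (hJ : ∀ x : J, x ^ Nat.card Γ = 1) {χ : J → ℂ} (hχ : IsIrrChar χ) (u : V.U) {f : J → F}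
    (hf : IsClassFun f) :
    centralValue red χ (fun x => f (x ^ ex (u : (ZMod (Nat.card Γ))ˣ))) =
      centralValue red χ f := by
  have e : (fun x => χ (pw hJ (u : (ZMod (Nat.card Γ))ˣ) x)) = fun x => V.s u (χ x) := by
    funext x
    exact char_pow_gal (V.s u) Nat.card_pos (V.hs u) hχ (hJ x)
  have h1 := cv_perm red (gp_pw V hJ u) hχ (f := f) hf
  rw [e, cv_gal red Nat.card_pos hJ (V.s u) (hred u) hχ] at h1
  exact h1

end pw

section

variable {Γ : Type} [Group Γ] [Finite Γ] {F : Type} [Field F]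

/-- the functional of a character of a subgroup, on all functions -/
theorem lin_block {p : ℕ} [Fact p.Prime] [CharP F p] (red : integralClosure ℤ ℂ →+* F)
    {σ : Set (Subgroup Γ)} (h1 : IsChain (· ≤ ·) σ) (h2 : ∀ P ∈ σ, IsPGroup p P)
    {χ : chainStabilizer σ → ℂ} (hχ : IsIrrChar χ) :
    IsBlock (fun f : Γ → F => centralValue red χ (fun x => f x)) := by
  have e1 : IsBlock (centralValue red χ) := Pool.Agent.Y930.NV.cvh F red _ χ hχ
  have e2 : ∀ (N : Subgroup Γ) (_ : N = chainStabilizer σ) (χ' : N → ℂ), IsIrrChar χ' →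
      IsBlock (centralValue red χ') := fun N _ χ' h => Pool.Agent.Y930.NV.cvh F red _ χ' h
  have e3 : ∀ (N : Subgroup Γ) (hN : N = NS ⊤ σ) (χ' : N → ℂ), IsIrrChar χ' →
      IsBlock (fun f : Γ → F => centralValue red χ' (fun x => f x)) := by
    rintro N rfl χ' h
    have h3 := kblk_chain (p := p) (F := F) (G := (⊤ : Subgroup Γ)) σ.ncard σ h1 h2
      (fun _ _ => le_top) rfl (centralValue red χ') (Pool.Agent.Y930.NV.cvh F red _ χ' h)
    exact block_iso (Subgroup.topEquiv (G := Γ)) h3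
  exact e3 _ (NS_top σ).symm χ hχ

/-- the functions which are invariant under conjugations and power maps -/
def CU (V : GU Γ) (F : Type) [Field F] : Submodule F (Γ → F) where
  carrier := {z | (∀ g x : Γ, z (g * x * g⁻¹) = z x) ∧
    ∀ (u : V.U) (x : Γ), z (x ^ ex (u : (ZMod (Nat.card Γ))ˣ)) = z x}
  zero_mem' := ⟨fun _ _ => rfl, fun _ _ => rfl⟩
  add_mem' := by
    rintro a b ⟨ha, ha'⟩ ⟨hb, hb'⟩
    exact ⟨fun g x => by rw [Pi.add_apply, Pi.add_apply, ha, hb],
      fun u x => by rw [Pi.add_apply, Pi.add_apply, ha', hb']⟩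
  smul_mem' := by
    rintro c a ⟨ha, ha'⟩
    exact ⟨fun g x => by rw [Pi.smul_apply, Pi.smul_apply, ha],
      fun u x => by rw [Pi.smul_apply, Pi.smul_apply, ha']⟩

/-- a block as a functional on the invariant functions -/
def blU (V : GU Γ) {B : (Γ → F) → F} (hB : IsBlock B) : CU V F →ₗ[F] F where
  toFun z := B z.1
  map_add' a b := hB.add _ _ a.2.1 b.2.1
  map_smul' c a := hB.smul c _ a.2.1

theorem hxn (N : Subgroup Γ) (x : N) : x ^ Nat.card Γ = 1 := Subtype.ext (by
  rw [Subgroup.coe_pow]; exact xn _)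

/-- two blocks which agree on the invariant functions -/
theorem agree (red : integralClosure ℤ ℂ →+* F) (V : GU Γ)
    (hred : ∀ (u : V.U) (ζ : ℂ), ζ ^ Nat.card Γ = 1 → redC red (V.s u ζ) = redC red ζ)
    {N : Subgroup Γ} {χ : N → ℂ} (hχ : IsIrrChar χ)
    (hL : IsBlock (fun f : Γ → F => centralValue red χ (fun x => f x)))
    {B : (Γ → F) → F} (hB : IsBlock B)
    (h : ∀ z ∈ CU V F, centralValue red χ (fun x => z x) = B z) (f : Γ → F)
    (hf : IsClassFun f) : centralValue red χ (fun x => f x) = B f := by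
  have : Fintype Γ := Fintype.ofFinite Γ
  have : Fintype N := Fintype.ofFinite N
  have hU : Finite V.U := by
    have := ne0 (Γ := Γ)
    infer_instance
  refine norm_arg ((pw (Γ := Γ) (J := Γ) xn).comp V.U.subtype) (fun u => gp_pw V xn u) hL hB
    ?_ ?_ f hf
  · intro u f hf
    exact cv_pw red V hred (hxn N) hχ u (f := fun x : N => f x) (fun a x => hf a x)
  · intro f hf hfu
    exact h f ⟨hf, fun u x => hfu u x⟩

/-- **the alternating sum over chains for a block** -/
theorem blk_sum {p : ℕ} [Fact p.Prime] [IsAlgClosed F] [CharP F p] {Z : Subgroup Γ}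
    (red : integralClosure ℤ ℂ →+* F) (hZ : IsPGroup p Z) [hZn : Z.Normal]
    {s : ℂ ≃+* ℂ} (hs : ∀ ζ : ℂ, ζ ^ Nat.card Γ = 1 →
      (∃ k : ℕ, ¬ p ∣ k ∧ ζ ^ (k * Monoid.exponent Z) = 1) → s ζ = ζ)
    {B : (Γ → F) → F} (hB : IsBlock B) [Fintype {σ : Set (Subgroup Γ) // CH p ⊤ Z σ}] :
    ∑ σ : {σ : Set (Subgroup Γ) // CH p ⊤ Z σ}, (-1) ^ σ.1.ncard *
      ((Nat.card (chainStabilizer σ.1) : ℤ) *
        (Nat.card {χ : chainStabilizer σ.1 → ℂ // IsIrrChar χ ∧ (∃ x, s (χ x) ≠ χ x) ∧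
          ∀ f : Γ → F, IsClassFun f → centralValue red χ (fun x => f x) = B f} : ℤ)) = 0 := by
  have hInf : Infinite F := inferInstance
  set V := GUσ Γ s with hV
  have hpp : p.Prime := Fact.out
  have hexp : Monoid.exponent Z ≠ 0 := Monoid.exponent_ne_zero_of_finite
  -- the automorphisms are trivial modulo `p`
  have hred : ∀ (u : V.U) (ζ : ℂ), ζ ^ Nat.card Γ = 1 → redC red (V.s u ζ) = redC red ζ := by
    intro u ζ hζ
    refine red_fix (p := p) red (σ := V.s u) (n := Nat.card Γ) ?_ Nat.card_pos hζ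
    rintro ζ hζ' ⟨k, hk, hζ⟩
    refine GUσ_fix s (hs ζ hζ' ⟨k, hk, ?_⟩) u
    rw [pow_mul, hζ, one_pow]
  -- the power maps are trivial on the elements with `p`-part in `Z`
  have hVx : ∀ (u : V.U) (x : Γ), (∃ k : ℕ, ¬ p ∣ k ∧ x ^ k ∈ Z) →
      x ^ ex (u : (ZMod (Nat.card Γ))ˣ) = x := by
    rintro u x ⟨k, hk, hx⟩
    refine pow_fix (N := k * Monoid.exponent Z) ?_ (fun ζ hζ' hζ => hs ζ hζ' ⟨k, hk, hζ⟩) u
    rw [pow_mul]
    have h1 := Monoid.pow_exponent_eq_one (⟨x ^ k, hx⟩ : Z)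
    exact congrArg Subtype.val h1
  -- the separation
  have hfin : ∀ σ : {σ : Set (Subgroup Γ) // CH p ⊤ Z σ},
      Finite {χ : chainStabilizer σ.1 → ℂ // IsIrrChar χ} := fun σ => by
    have : Fintype (chainStabilizer σ.1) := Fintype.ofFinite _
    exact (irr_finite (G := chainStabilizer σ.1)).to_subtype
  have hLb : ∀ (σ : {σ : Set (Subgroup Γ) // CH p ⊤ Z σ}) (χ : chainStabilizer σ.1 → ℂ),
      IsIrrChar χ → IsBlock (fun f : Γ → F => centralValue red χ (fun x => f x)) :=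
    fun σ χ hχ => lin_block (p := p) red σ.2.chain σ.2.isp hχ
  obtain ⟨z, hz⟩ := Pool.Agent.Y286.NV.exists_sep
    (fun i : (Σ σ : {σ : Set (Subgroup Γ) // CH p ⊤ Z σ},
      {χ : chainStabilizer σ.1 → ℂ // IsIrrChar χ}) => blU V (hLb i.1 i.2.1 i.2.2)) (blU V hB)
  have hz1 := z.2
  -- the sum for one power map
  let u₀ : V.U := ⟨uσ Γ s, Subgroup.mem_zpowers _⟩
  have h1 := pow_sum (V := V) (p := p) (Z := Z) red hZ hVx (z := z.1) hz1.1 hz1.2 (B z.1) u₀
  have h2 : ∀ σ : {σ : Set (Subgroup Γ) // CH p ⊤ Z σ},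
      ((Fx red (chainStabilizer σ.1) (u₀ : (ZMod (Nat.card Γ))ˣ) z.1 (B z.1) : ℤ) -
        Fx red (chainStabilizer σ.1) 1 z.1 (B z.1)) =
      -(Nat.card {χ : chainStabilizer σ.1 → ℂ // IsIrrChar χ ∧ (∃ x, s (χ x) ≠ χ x) ∧
          ∀ f : Γ → F, IsClassFun f → centralValue red χ (fun x => f x) = B f} : ℤ) := by
    intro σ
    have : Fintype (chainStabilizer σ.1) := Fintype.ofFinite _
    have hf1 : {χ : chainStabilizer σ.1 → ℂ | IsIrrChar χ}.Finite := irr_finite
    have e0 : Fx red (chainStabilizer σ.1) 1 z.1 (B z.1) =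
        {χ : chainStabilizer σ.1 → ℂ | IsIrrChar χ ∧
          centralValue red χ (fun x => z.1 x) = B z.1}.ncard := by
      unfold Fx
      rw [← Nat.card_coe_set_eq]
      refine Nat.card_congr (Equiv.subtypeEquivRight fun χ => ?_)
      refine and_congr_right fun _ => ?_
      refine ⟨fun h => h.2, fun h => ⟨fun x => ?_, h⟩⟩
      rw [ex_one (hxn _ x)]
    have e1 : Fx red (chainStabilizer σ.1) (u₀ : (ZMod (Nat.card Γ))ˣ) z.1 (B z.1) =
        {χ : chainStabilizer σ.1 → ℂ | IsIrrChar χ ∧ (∀ x, s (χ x) = χ x) ∧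
          centralValue red χ (fun x => z.1 x) = B z.1}.ncard := by
      unfold Fx
      rw [← Nat.card_coe_set_eq]
      refine Nat.card_congr (Equiv.subtypeEquivRight fun χ => ?_)
      refine and_congr_right fun hχ => and_congr_left fun _ => forall_congr' fun x => ?_
      have h5 : χ (x ^ ex (uσ Γ s)) = s (χ x) :=
        char_pow_gal s Nat.card_pos (fun ζ hζ => uσ_spec s ζ hζ) hχ (hxn _ x)
      change χ (x ^ ex (uσ Γ s)) = χ x ↔ s (χ x) = χ x
      rw [h5]
    have e2 : Nat.card {χ : chainStabilizer σ.1 → ℂ // IsIrrChar χ ∧ (∃ x, s (χ x) ≠ χ x) ∧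
          ∀ f : Γ → F, IsClassFun f → centralValue red χ (fun x => f x) = B f} =
        {χ : chainStabilizer σ.1 → ℂ | IsIrrChar χ ∧ (∃ x, s (χ x) ≠ χ x) ∧
          centralValue red χ (fun x => z.1 x) = B z.1}.ncard := by
      rw [← Nat.card_coe_set_eq]
      refine Nat.card_congr (Equiv.subtypeEquivRight fun χ => ?_)
      refine and_congr_right fun hχ => and_congr_right fun _ => ?_
      constructor
      · exact fun h => h z.1 hz1.1
      · intro h
        have h6 := hz ⟨σ, χ, hχ⟩ h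
        exact agree red V hred hχ (hLb σ χ hχ) hB
          (fun z' hz' => LinearMap.congr_fun h6 ⟨z', hz'⟩)
    have e3 : {χ : chainStabilizer σ.1 → ℂ | IsIrrChar χ ∧
          centralValue red χ (fun x => z.1 x) = B z.1} =
        {χ : chainStabilizer σ.1 → ℂ | IsIrrChar χ ∧ (∀ x, s (χ x) = χ x) ∧
          centralValue red χ (fun x => z.1 x) = B z.1} ∪
        {χ : chainStabilizer σ.1 → ℂ | IsIrrChar χ ∧ (∃ x, s (χ x) ≠ χ x) ∧
          centralValue red χ (fun x => z.1 x) = B z.1} := by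
      ext χ
      simp only [Set.mem_ofPred_eq, Set.mem_union]
      by_cases h : ∀ x, s (χ x) = χ x
      · constructor
        · exact fun h' => Or.inl ⟨h'.1, h, h'.2⟩
        · rintro (h' | h')
          · exact ⟨h'.1, h'.2.2⟩
          · exact ⟨h'.1, h'.2.2⟩
      · constructor
        · exact fun h' => Or.inr ⟨h'.1, by push Not at h; exact h, h'.2⟩
        · rintro (h' | h')
          · exact ⟨h'.1, h'.2.2⟩
          · exact ⟨h'.1, h'.2.2⟩
    have e4 : Disjoint {χ : chainStabilizer σ.1 → ℂ | IsIrrChar χ ∧ (∀ x, s (χ x) = χ x) ∧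
          centralValue red χ (fun x => z.1 x) = B z.1}
        {χ : chainStabilizer σ.1 → ℂ | IsIrrChar χ ∧ (∃ x, s (χ x) ≠ χ x) ∧
          centralValue red χ (fun x => z.1 x) = B z.1} := by
      rw [Set.disjoint_left]
      rintro χ ⟨_, h, _⟩ ⟨_, ⟨x, hx⟩, _⟩
      exact hx (h x)
    have e5 := Set.ncard_union_eq e4 (hf1.subset fun χ h => h.1) (hf1.subset fun χ h => h.1)
    rw [← e3] at e5
    rw [e0, e1, e2, e5]
    push_cast
    ring
  have h3 := congrArg Neg.neg h1
  rw [neg_zero, ← Finset.sum_neg_distrib] at h3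
  rw [← h3]
  refine Finset.sum_congr rfl fun σ _ => ?_
  rw [h2 σ]
  ring

end

end Pool.Agent.Q18.K
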